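import Pool.Agent.GZ.Rows

/-! GZ row A1: Wronskians (helper34). -/

namespace GZ

universe u

namespace OD

open Finset

variable {F : Type u} [Field F]

theorem der_mul (X : Derivation ℤ F F) (a b : F) : X (a * b) = a * X b + b * X a := by
  rw [Derivation.leibniz]; simp [smul_eq_mul]

/-- explicit independence over the constants of `X` -/
def Ind (X : Derivation ℤ F F) {h : ℕ} (e : Fin h → F) : Prop :=
  ∀ κ : Fin h → F, (∀ i, X (κ i) = 0) → ∑ i, κ i * e i = 0 → κ = 0

theorem Ind.castSucc {X : Derivation ℤ F F} {h : ℕ} {e : Fin (h+1) → F} (he : Ind X e) :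
    Ind X (fun i : Fin h => e i.castSucc) := by
  intro κ hκ hs
  have h1 := he (Fin.snoc κ (0 : F)) (by
    intro i
    refine Fin.lastCases ?_ (fun j => ?_) i
    · simp
    · simpa using hκ j) (by
    rw [Fin.sum_univ_castSucc]
    simpa using hs)
  funext i
  have := congrFun h1 i.castSucc
  simpa using this

/-- Wronskian lemma. -/
theorem wronsk_inj (X : Derivation ℤ F F) : ∀ (h : ℕ) (e : Fin h → F), Ind X e →
    ∀ v : Fin h → F, (∀ k < h, ∑ i, v i * X^[k] (e i) = 0) → v = 0 := by
  intro h
  induction h with
  | zero => intro e _ v _; funext i; exact i.elim0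
  | succ h ih =>
    intro e he v hv
    have he' := he.castSucc
    by_cases hl : v (Fin.last h) = 0
    · have h1 : (fun i : Fin h => v i.castSucc) = 0 := by
        apply ih _ he'
        intro k hk
        have := hv k (by omega)
        rw [Fin.sum_univ_castSucc, hl] at this
        simpa using this
      funext i
      refine Fin.lastCases ?_ (fun j => ?_) i
      · simpa using hl
      · simpa using congrFun h1 j
    · exfalso
      set w : Fin (h+1) → F := fun i => v i / v (Fin.last h) with hw
      have hw1 : w (Fin.last h) = 1 := by simp [hw, div_self hl]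
      have hwk : ∀ k < h + 1, ∑ i, w i * X^[k] (e i) = 0 := by
        intro k hk
        have := hv k hk
        have h2 : ∑ i, w i * X^[k] (e i) = (∑ i, v i * X^[k] (e i)) / v (Fin.last h) := by
          rw [Finset.sum_div]
          refine Finset.sum_congr rfl fun i _ => ?_
          simp only [hw]; ring
        rw [h2, this]; simp
      have h3 : (fun i : Fin h => X (w i.castSucc)) = 0 := by
        apply ih _ he'
        intro k hk
        have e1 := hwk k (by omega)
        have e2 := hwk (k+1) (by omega)
        have e3 : X (∑ i, w i * X^[k] (e i)) = 0 := by rw [e1]; simp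
        rw [map_sum] at e3
        have e4 : ∀ i, X (w i * X^[k] (e i)) = w i * X^[k+1] (e i) + X (w i) * X^[k] (e i) := by
          intro i
          rw [der_mul, Function.iterate_succ_apply']
          ring
        simp_rw [e4] at e3
        rw [Finset.sum_add_distrib, e2, zero_add, Fin.sum_univ_castSucc, hw1] at e3
        simpa using e3
      have h4 : ∀ i, X (w i) = 0 := by
        intro i
        refine Fin.lastCases ?_ (fun j => ?_) i
        · rw [hw1]; simp
        · simpa using congrFun h3 j
      have h5 := he w h4 (by simpa using hwk 0 (by omega))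
      have h6 := congrFun h5 (Fin.last h)
      rw [hw1] at h6
      exact one_ne_zero h6

theorem pow_app (X : Derivation ℤ F F) (k : ℕ) (a : F) :
    (X.toLinearMap ^ k : Module.End ℤ F) a = X^[k] a := by
  rw [Module.End.pow_apply]; rfl

theorem wronsk_det (X : Derivation ℤ F F) (h : ℕ) (e : Fin h → F) (he : Ind X e) :
    (Matrix.of fun (a b : Fin h) => X^[(a : ℕ)] (e b)).det ≠ 0 := by
  intro h0
  obtain ⟨v, hv, hv0⟩ := Matrix.exists_mulVec_eq_zero_iff.2 h0
  apply hv
  apply wronsk_inj X h e he
  intro k hk
  have := congrFun hv0 ⟨k, hk⟩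
  simp only [Matrix.mulVec, dotProduct, Matrix.of_apply, Pi.zero_apply] at this
  rw [← this]
  exact Finset.sum_congr rfl fun i _ => mul_comm _ _

/-- Wronskian lemma, seen in a domain. -/
theorem wronsk {Ω : Type*} [CommRing Ω] [IsDomain Ω] (Φ : F →+* Ω) (X : Derivation ℤ F F) (h : ℕ)
    (e : Fin h → F) (he : Ind X e) (A : Fin h → Ω)
    (hA : ∀ k < h, ∑ i, Φ (X^[k] (e i)) * A i = 0) : A = 0 := by
  set M : Matrix (Fin h) (Fin h) F := Matrix.of fun k i => X^[(k : ℕ)] (e i) with hM
  have hdet : M.det ≠ 0 := wronsk_det X h e he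
  by_contra hne
  have h1 : (M.map Φ).det = 0 := by
    apply Matrix.exists_mulVec_eq_zero_iff.1
    refine ⟨A, hne, ?_⟩
    funext k
    simpa [Matrix.mulVec, dotProduct, hM] using hA k k.2
  have h2 : (M.map Φ).det = Φ M.det := by
    rw [RingHom.map_det]; rfl
  rw [h2] at h1
  exact hdet ((map_eq_zero_iff Φ Φ.injective).1 h1)

end OD

theorem a1 : A1Stmt.{u} := by
  intro F _ D h e he
  have h1 := OD.wronsk_det D h e he
  have h2 : (Matrix.of fun (a b : Fin h) => (D.toLinearMap ^ (a : ℕ) : Module.End ℤ F) (e b)) =
      (Matrix.of fun (a b : Fin h) => D^[(a : ℕ)] (e b)) := by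
    ext a b
    exact OD.pow_app D a (e b)
  rw [h2]
  exact h1

end GZ
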