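import Pool.Agent.GZ.Rows

/-!
# GZ row A10: Theorem AS (descent from the universal field)
-/

namespace GZ

open MvPolynomial

universe u

namespace A10

variable {F : Type u} [Field F] {ν : ℕ}

theorem pair_eq (y : Fin ν → F) (G : MvPolynomial (Fin ν) F) (A : Module.End ℤ F)
    (s : Finset (Fin ν →₀ ℕ)) (h : G.support ⊆ s) :
    pair y G A = ∑ α ∈ s, G.coeff α * A (mon y α) :=
  Finset.sum_subset h fun α _ hα => by rw [notMem_support_iff.1 hα, zero_mul]

theorem pair_sub (y : Fin ν → F) (G G' : MvPolynomial (Fin ν) F) (A : Module.End ℤ F) :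
    pair y (G - G') A = pair y G A - pair y G' A := by
  classical
  rw [pair_eq y G A (G.support ∪ G'.support ∪ (G - G').support)
      (fun _ h => by simp only [Finset.mem_union]; tauto),
    pair_eq y G' A (G.support ∪ G'.support ∪ (G - G').support)
      (fun _ h => by simp only [Finset.mem_union]; tauto),
    pair_eq y (G - G') A (G.support ∪ G'.support ∪ (G - G').support)
      (fun _ h => by simp only [Finset.mem_union]; tauto), ← Finset.sum_sub_distrib]
  refine Finset.sum_congr rfl fun α _ => ?_
  rw [coeff_sub, sub_mul]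

theorem pair_C_mul (y : Fin ν → F) (c : F) (G : MvPolynomial (Fin ν) F) (A : Module.End ℤ F) :
    pair y (C c * G) A = c * pair y G A := by
  classical
  rw [pair_eq y G A (G.support ∪ (C c * G).support)
      (fun _ h => by simp only [Finset.mem_union]; tauto),
    pair_eq y (C c * G) A (G.support ∪ (C c * G).support)
      (fun _ h => by simp only [Finset.mem_union]; tauto), Finset.mul_sum]
  refine Finset.sum_congr rfl fun α _ => ?_
  rw [coeff_C_mul, mul_assoc]

theorem coeff_nabla (D : Derivation ℤ F F) (G : MvPolynomial (Fin ν) F) (α : Fin ν →₀ ℕ) :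
    (nabla D G).coeff α = D (G.coeff α) := by
  classical
  unfold nabla
  rw [coeff_sum]
  by_cases h : α ∈ G.support
  · rw [Finset.sum_eq_single α]
    · rw [coeff_monomial, if_pos rfl]
    · intro β _ hβ
      rw [coeff_monomial, if_neg hβ]
    · intro h'
      exact absurd h h'
  · rw [notMem_support_iff.1 h, map_zero]
    refine Finset.sum_eq_zero fun β hβ => ?_
    rw [coeff_monomial, if_neg]
    intro h'
    exact h (h' ▸ hβ)

theorem nabla_support (D : Derivation ℤ F F) (G : MvPolynomial (Fin ν) F) :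
    (nabla D G).support ⊆ G.support := by
  intro α hα
  rw [mem_support_iff, coeff_nabla] at hα
  rw [mem_support_iff]
  intro h
  exact hα (by rw [h, map_zero])

theorem pair_nabla (y : Fin ν → F) (D : Derivation ℤ F F) (G : MvPolynomial (Fin ν) F)
    (A : Module.End ℤ F) :
    pair y (nabla D G) A = D (pair y G A) - pair y G ((D.toLinearMap : Module.End ℤ F) * A) := by
  rw [pair_eq y (nabla D G) A G.support (nabla_support D G), pair, pair, map_sum,
    ← Finset.sum_sub_distrib]
  refine Finset.sum_congr rfl fun α _ => ?_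
  rw [coeff_nabla, Derivation.leibniz, smul_eq_mul, smul_eq_mul]
  show _ = G.coeff α * D (A (mon y α)) + A (mon y α) * D (G.coeff α) - G.coeff α * D (A (mon y α))
  ring

/-- conjugation of endomorphisms -/
def cj {K : Type u} [Field K] [Algebra K F] (σ : F ≃ₐ[K] F) :
    Module.End ℤ F →* Module.End ℤ F where
  toFun A := AddMonoidHom.toIntLinearMap
    { toFun := fun x => σ (A (σ.symm x))
      map_zero' := by simp
      map_add' := fun x y => by simp }
  map_one' := by
    ext x
    show σ (σ.symm x) = x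
    simp
  map_mul' A B := by
    ext x
    show σ (A (B (σ.symm x))) = σ (A (σ.symm (σ (B (σ.symm x)))))
    simp

theorem cj_apply {K : Type u} [Field K] [Algebra K F] (σ : F ≃ₐ[K] F) (A : Module.End ℤ F)
    (x : F) : cj σ A x = σ (A (σ.symm x)) := rfl

/-- conjugation of derivations -/
def cd {K : Type u} [Field K] [Algebra K F] (σ : F ≃ₐ[K] F) (X : Derivation ℤ F F) :
    Derivation ℤ F F :=
  Derivation.mk' (cj σ X.toLinearMap) fun a b => by
    show σ (X (σ.symm (a * b))) = a * σ (X (σ.symm b)) + b * σ (X (σ.symm a))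
    rw [map_mul, Derivation.leibniz, map_add, smul_eq_mul, smul_eq_mul, map_mul, map_mul,
      AlgEquiv.apply_symm_apply, AlgEquiv.apply_symm_apply]

theorem cd_apply {K : Type u} [Field K] [Algebra K F] (σ : F ≃ₐ[K] F) (X : Derivation ℤ F F)
    (x : F) : cd σ X x = σ (X (σ.symm x)) := rfl

theorem straight_cd {K : Type u} [Field K] [Algebra K F] (σ : F ≃ₐ[K] F) (y : Fin ν → K)
    (X : Derivation ℤ F F) (h : Straight (fun j => algebraMap K F (y j)) X) :
    Straight (fun j => algebraMap K F (y j)) (cd σ X) := by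
  obtain ⟨s, hs1, hs2⟩ := h
  have hl : ∀ τ : F ≃ₐ[K] F, τ (lform s fun j => algebraMap K F (y j)) =
      lform s fun j => algebraMap K F (y j) := by
    intro τ
    unfold lform
    rw [map_sum]
    refine Finset.sum_congr rfl fun j _ => ?_
    rw [map_mul, map_natCast, AlgEquiv.commutes]
  refine ⟨s, ?_, fun j => ?_⟩
  · rw [cd_apply, hl, hs1, map_one]
  · obtain ⟨N, κ, hκ, hN⟩ := hs2 j
    refine ⟨N, fun a b => σ (κ a b), fun a b => ?_, ?_⟩
    · show cd σ X (σ (κ a b)) = 0
      rw [cd_apply, AlgEquiv.symm_apply_apply]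
      have h3 : X (κ a b) = 0 := hκ a b
      rw [h3, map_zero]
    · have h3 := congrArg σ hN
      simp only [map_pow, map_sum, map_mul, hl, AlgEquiv.commutes] at h3
      exact h3

end A10

open A10 in
theorem a10 (h7 : A7Stmt.{u}) (h8a : A8aStmt.{u}) (h8d : A8dStmt.{u}) (h9 : A9Stmt.{u})
    (h9b : A9bStmt.{u}) : ASStmt.{u} := by
  classical
  intro K _ _ ν y T hT hdim
  obtain ⟨UF⟩ := h8a K
  have hF : CharZero UF.F := charZero_of_injective_algebraMap (algebraMap K UF.F).injective
  set y' : Fin ν → UF.F := fun j => algebraMap K UF.F (y j) with hy'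
  set gen : Set (Derivation ℤ UF.F UF.F) := {δ' | ∃ δ ∈ T,
      (∀ a, δ' (algebraMap K UF.F a) = algebraMap K UF.F (δ a)) ∧ ∀ i, δ' (UF.z i) = 0} with hgen
  obtain ⟨hT', hdim'⟩ := h9b K UF ν y T hT
  obtain ⟨G₀, hG₀, hJ₀⟩ := h7 UF.F ν y' (Submodule.span UF.F gen) hT' (lt_of_le_of_lt hdim' hdim)
  set 𝒳 : Set (Module.End ℤ UF.F) := {A : Module.End ℤ UF.F | ∃ D ∈ Submodule.span UF.F gen,
    Straight y' D ∧ A = D.toLinearMap} with h𝒳
  let J : Set (MvPolynomial (Fin ν) UF.F) := {G | ∀ A ∈ Submonoid.closure 𝒳, pair y' G A = 0}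
  -- choose G minimal
  have hex : ∃ n : ℕ, ∃ G ∈ J, G ≠ 0 ∧ G.support.card = n := ⟨_, G₀, hJ₀, hG₀, rfl⟩
  obtain ⟨G₁, hG₁J, hG₁0, hG₁c⟩ := Nat.find_spec hex
  have hmin : ∀ G ∈ J, G ≠ 0 → G₁.support.card ≤ G.support.card := by
    intro G hG h0
    rw [hG₁c]
    exact Nat.find_min' hex ⟨G, hG, h0, rfl⟩
  obtain ⟨α₀, hα₀⟩ : G₁.support.Nonempty := by
    rw [Finset.nonempty_iff_ne_empty, Ne, MvPolynomial.support_eq_empty]
    exact hG₁0
  have hc0 : G₁.coeff α₀ ≠ 0 := mem_support_iff.1 hα₀
  set G : MvPolynomial (Fin ν) UF.F := C (G₁.coeff α₀)⁻¹ * G₁ with hGdef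
  have hGJ : G ∈ J := by
    intro A hA
    rw [hGdef, pair_C_mul, hG₁J A hA, mul_zero]
  have hG1 : G.coeff α₀ = 1 := by
    rw [hGdef, coeff_C_mul, inv_mul_cancel₀ hc0]
  have hGs : G.support ⊆ G₁.support := by
    intro α hα
    rw [mem_support_iff, hGdef, coeff_C_mul] at hα
    rw [mem_support_iff]
    exact right_ne_zero_of_mul hα
  -- elements of J supported inside G.support without α₀ vanish
  have hkill : ∀ H ∈ J, (∀ α, G.coeff α = 0 → H.coeff α = 0) → H.coeff α₀ = 0 → H = 0 := by
    intro H hH h1 h2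
    by_contra h0
    have h3 := hmin H hH h0
    have h4 : H.support ⊂ G₁.support := by
      refine Finset.ssubset_iff_subset_ne.2 ⟨?_, ?_⟩
      · intro α hα
        apply hGs
        rw [mem_support_iff] at hα ⊢
        exact fun h => hα (h1 α h)
      · intro h
        rw [← h, mem_support_iff] at hα₀
        exact hα₀ h2
    have h5 := Finset.card_lt_card h4
    omega
  -- the coefficients are killed by the straight derivations
  have hcoef : ∀ X ∈ Submodule.span UF.F gen, Straight y' X → ∀ α, X (G.coeff α) = 0 := by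
    intro X hX hXs α
    have h1 : nabla X G = 0 := by
      apply hkill
      · intro A hA
        rw [pair_nabla, hGJ A hA, map_zero, hGJ _ (Submonoid.mul_mem _
          (Submonoid.subset_closure ⟨X, hX, hXs, rfl⟩) hA), sub_zero]
      · intro α h
        rw [coeff_nabla, h, map_zero]
      · rw [coeff_nabla, hG1]
        exact X.map_one_eq_zero
    rw [← coeff_nabla, h1, coeff_zero]
  -- the coefficients are fixed
  have hfix : ∀ σ : UF.F ≃ₐ[K] UF.F,
      (∀ (δ : Derivation ℤ K K) (δ' : Derivation ℤ UF.F UF.F),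
      (∀ a, δ' (algebraMap K UF.F a) = algebraMap K UF.F (δ a)) → (∀ i, δ' (UF.z i) = 0) →
      ∀ w, σ (δ' w) = δ' (σ w)) → ∀ α, σ (G.coeff α) = G.coeff α := by
    intro σ hσ α
    -- the inverse also commutes
    have hσ' : ∀ (δ : Derivation ℤ K K) (δ' : Derivation ℤ UF.F UF.F),
        (∀ a, δ' (algebraMap K UF.F a) = algebraMap K UF.F (δ a)) → (∀ i, δ' (UF.z i) = 0) →
        ∀ w, σ.symm (δ' w) = δ' (σ.symm w) := by
      intro δ δ' h1 h2 w
      apply σ.injective
      rw [hσ δ δ' h1 h2, AlgEquiv.apply_symm_apply, AlgEquiv.apply_symm_apply]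
    have hspan : ∀ X ∈ Submodule.span UF.F gen, cd σ.symm X ∈ Submodule.span UF.F gen := by
      intro X hX
      induction hX using Submodule.span_induction with
      | mem X hX =>
        obtain ⟨δ, hδ, h1, h2⟩ := hX
        have h3 : cd σ.symm X = X := by
          ext w
          rw [cd_apply, hσ' δ X h1 h2, AlgEquiv.symm_symm, AlgEquiv.symm_apply_apply]
        rw [h3]
        exact Submodule.subset_span ⟨δ, hδ, h1, h2⟩
      | zero =>
        have h3 : cd σ.symm (0 : Derivation ℤ UF.F UF.F) = 0 := by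
          ext w
          rw [cd_apply, Derivation.zero_apply, map_zero, Derivation.zero_apply]
        rw [h3]
        exact Submodule.zero_mem _
      | add X Y _ _ hX hY =>
        have h3 : cd σ.symm (X + Y) = cd σ.symm X + cd σ.symm Y := by
          ext w
          rw [cd_apply, Derivation.add_apply, map_add, Derivation.add_apply, cd_apply, cd_apply]
        rw [h3]
        exact Submodule.add_mem _ hX hY
      | smul c X _ hX =>
        have h3 : cd σ.symm (c • X) = σ.symm c • cd σ.symm X := by
          ext w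
          rw [cd_apply, Derivation.smul_apply, smul_eq_mul, map_mul, Derivation.smul_apply,
            smul_eq_mul, cd_apply]
        rw [h3]
        exact Submodule.smul_mem _ _ hX
    have hclos : ∀ A ∈ Submonoid.closure 𝒳, cj σ.symm A ∈ Submonoid.closure 𝒳 := by
      intro A hA
      have hle : Submonoid.closure 𝒳 ≤ (Submonoid.closure 𝒳).comap (cj σ.symm) := by
        rw [Submonoid.closure_le]
        rintro _ ⟨X, hX, hXs, rfl⟩
        exact Submonoid.subset_closure ⟨cd σ.symm X, hspan X hX, straight_cd σ.symm y X hXs, rfl⟩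
      exact hle hA
    have hmon : ∀ (τ : UF.F ≃ₐ[K] UF.F) (α : Fin ν →₀ ℕ), τ (mon y' α) = mon y' α := by
      intro τ α
      unfold mon
      rw [map_prod]
      refine Finset.prod_congr rfl fun j _ => ?_
      rw [map_pow, hy', AlgEquiv.commutes]
    set σG : MvPolynomial (Fin ν) UF.F := MvPolynomial.map (σ : UF.F →+* UF.F) G with hσG
    have hσc : ∀ α, σG.coeff α = σ (G.coeff α) := fun α => by
      rw [hσG, coeff_map]
      rfl
    have hσJ : σG ∈ J := by
      intro A hA
      have h1 : pair y' σG A = σ (pair y' G (cj σ.symm A)) := by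
        have hs : σG.support ⊆ G.support := by
          intro α hα
          rw [mem_support_iff, hσc] at hα
          rw [mem_support_iff]
          exact fun h => hα (by rw [h, map_zero])
        rw [pair_eq y' σG A G.support hs, pair, map_sum]
        refine Finset.sum_congr rfl fun α _ => ?_
        rw [hσc, map_mul, cj_apply, AlgEquiv.symm_symm, hmon, AlgEquiv.apply_symm_apply]
      rw [h1, hGJ _ (hclos A hA), map_zero]
    have h2 : σG - G = 0 := by
      apply hkill
      · intro A hA
        rw [pair_sub, hσJ A hA, hGJ A hA, sub_zero]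
      · intro α h
        rw [coeff_sub, hσc, h, map_zero, sub_zero]
      · rw [coeff_sub, hσc, hG1, map_one, sub_self]
    have h3 := congrArg (coeff α) h2
    rw [coeff_sub, coeff_zero, hσc, sub_eq_zero] at h3
    exact h3
  -- descent
  have hdesc : ∀ α, ∃ a : K, G.coeff α = algebraMap K UF.F a := fun α =>
    h8d K UF (G.coeff α) fun σ hσ => hfix σ hσ α
  choose c hc using hdesc
  set H : MvPolynomial (Fin ν) K := ∑ α ∈ G.support, monomial α (c α) with hH
  have hHc : ∀ α, algebraMap K UF.F (H.coeff α) = G.coeff α := by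
    intro α
    rw [hH, coeff_sum]
    by_cases h : α ∈ G.support
    · rw [Finset.sum_eq_single α]
      · rw [coeff_monomial, if_pos rfl, hc]
      · intro β _ hβ
        rw [coeff_monomial, if_neg hβ]
      · intro h'
        exact absurd h h'
    · rw [Finset.sum_eq_zero, map_zero, notMem_support_iff.1 h]
      intro β hβ
      rw [coeff_monomial, if_neg]
      intro h'
      exact h (h' ▸ hβ)
  have hinj := (algebraMap K UF.F).injective
  have hmap : MvPolynomial.map (algebraMap K UF.F) H = G := by
    ext α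
    rw [coeff_map, hHc]
  refine ⟨H, ?_, ⟨α₀, ?_⟩, ?_⟩
  · apply hinj
    rw [map_zero]
    have h1 := hGJ 1 (Submonoid.one_mem _)
    have h2 : pair y' G 1 = eval y' G := by
      rw [eval_eq']
      rfl
    rw [h2, ← hmap, eval_map] at h1
    rw [← h1, aeval_def, hom_eval₂]
    rfl
  · apply hinj
    rw [hHc, hG1, map_one]
  · intro E _ _ D hDT hDs α
    by_contra hne
    obtain ⟨X, hX, hXs, hXa⟩ := h9 K UF ν y T hT E D hDT hDs (H.coeff α) hne
    apply hXa
    rw [hHc]
    exact hcoef X hX hXs α

end GZ
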