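import Pool.Agent.GZ.A1

/-! GZ row A2: adapted commuting basis (helper34). -/

namespace GZ

universe u

namespace OD

open Finset

variable {F : Type u} [Field F]

/-- the field of constants of a derivation. -/
def cst (X : Derivation ℤ F F) : Subfield F where
  carrier := {a | X a = 0}
  mul_mem' := by
    intro a b ha hb
    simp only [Set.mem_ofPred_eq] at *
    rw [Derivation.leibniz, ha, hb]; simp
  one_mem' := by simp
  add_mem' := by
    intro a b ha hb
    simp only [Set.mem_ofPred_eq] at *
    rw [map_add, ha, hb]; simp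
  zero_mem' := by simp
  neg_mem' := by
    intro a ha
    simp only [Set.mem_ofPred_eq] at *
    rw [map_neg, ha]; simp
  inv_mem' := by
    intro a ha
    simp only [Set.mem_ofPred_eq] at *
    rw [Derivation.leibniz_inv, ha]; simp

theorem mem_cst {X : Derivation ℤ F F} {a : F} : a ∈ cst X ↔ X a = 0 := Iff.rfl

/-- a derivation is linear over its constants -/
def overCst (X : Derivation ℤ F F) : Derivation (cst X) F F where
  toFun := X
  map_add' := fun a b => map_add X a b
  map_smul' := by
    intro c a
    have hc : X (c : F) = 0 := c.2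
    simp only [RingHom.id_apply, Subfield.smul_def, smul_eq_mul]
    rw [der_mul, hc, mul_zero, add_zero]
  map_one_eq_zero' := by
    show X 1 = 0
    simp
  leibniz' := fun a b => X.leibniz a b

theorem kill_alg [CharZero F] (Y : Derivation ℤ F F) (z : F) (hz : IsIntegral (cst Y) z) :
    Y z = 0 := by
  have h1 := minpoly.aeval (cst Y) z
  have h2 := (overCst Y).map_aeval (minpoly (cst Y) z) z
  rw [h1, map_zero] at h2
  have h3 : (minpoly (cst Y) z).Separable := (minpoly.irreducible hz).separable
  have h4 := h3.aeval_derivative_ne_zero h1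
  have h5 : Polynomial.aeval z (Polynomial.derivative (minpoly (cst Y) z)) * Y z = 0 := by
    have : (overCst Y) z = Y z := rfl
    rw [← this]
    simpa [smul_eq_mul] using h2.symm
  rcases mul_eq_zero.1 h5 with h | h
  · exact absurd h h4
  · exact h

theorem integral_of_compat (K : Subfield F) {l z : F} {N : ℕ} {S : Set F} (hS : ∀ x ∈ S, x ∈ K)
    (hl : l ∈ K) (h : Compat S l z N) : IsIntegral K z := by
  obtain ⟨κ, hκ, hz⟩ := h
  have hcoef : ∀ b, ∑ a ∈ range (N - b + 1), κ a b * l ^ a ∈ K := by
    intro b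
    exact K.sum_mem fun a _ => K.mul_mem (hS _ (hκ a b)) (K.pow_mem hl a)
  set f : Polynomial K := ∑ b ∈ range N, Polynomial.C ⟨_, hcoef b⟩ * Polynomial.X ^ b with hf
  have hdeg : f.degree < (N : ℕ) := by
    rw [hf]
    refine lt_of_le_of_lt (Polynomial.degree_sum_le _ _) ?_
    rw [Finset.sup_lt_iff (by exact_mod_cast WithBot.bot_lt_coe N)]
    intro b hb
    refine lt_of_le_of_lt (Polynomial.degree_C_mul_X_pow_le _ _) ?_
    exact_mod_cast Finset.mem_range.1 hb
  refine ⟨Polynomial.X ^ N - f, ?_, ?_⟩
  · exact Polynomial.monic_X_pow_sub (by simpa using hdeg)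
  · rw [Polynomial.eval₂_sub, Polynomial.eval₂_pow, Polynomial.eval₂_X, hz, hf,
      Polynomial.eval₂_finsetSum]
    rw [sub_eq_zero]
    refine Finset.sum_congr rfl fun b _ => ?_
    rw [Polynomial.eval₂_mul, Polynomial.eval₂_C, Polynomial.eval₂_pow, Polynomial.eval₂_X]
    rw [← Finset.sum_mul]
    rfl

/-- a member of `T` killing the constants of a straight derivation and its linear form is zero -/
theorem straight_inj [CharZero F] {ν : ℕ} {y : Fin ν → F} {T : Submodule F (Derivation ℤ F F)}
    (hT : LieT y T) {D : Derivation ℤ F F} {s : Fin ν → ℕ}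
    (hs : ∀ j, ∃ N, Compat {x | D x = 0} (lform s y) (y j) N)
    {Y : Derivation ℤ F F} (hY : Y ∈ T) (h0 : ∀ x, D x = 0 → Y x = 0)
    (hl : Y (lform s y) = 0) : Y = 0 := by
  apply hT.inj Y hY
  intro j
  obtain ⟨N, hN⟩ := hs j
  exact kill_alg Y (y j) (integral_of_compat (cst Y) (fun x hx => h0 x hx) hl hN)

theorem finite_T {ν : ℕ} {y : Fin ν → F} {T : Submodule F (Derivation ℤ F F)}
    (hT : LieT y T) : Module.Finite F T := by
  let f : T →ₗ[F] (Fin ν → F) :=
    { toFun := fun X j => (X : Derivation ℤ F F) (y j)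
      map_add' := by intro a b; funext j; simp
      map_smul' := by intro a b; funext j; simp }
  apply Module.Finite.of_injective f
  rw [injective_iff_map_eq_zero]
  intro X hX
  apply Subtype.ext
  exact hT.inj X X.2 fun j => congrFun hX j

/-- dual families inside a space of derivations -/
theorem dual_family (V : Submodule F (Derivation ℤ F F)) [Module.Finite F V] (S : Set F)
    (hsep : ∀ Y ∈ V, (∀ z ∈ S, Y z = 0) → Y = 0) :
    ∃ (m : ℕ) (z : Fin m → F) (d : Fin m → Derivation ℤ F F),
      (∀ i, z i ∈ S) ∧ (∀ i, d i ∈ V) ∧ (∀ i j, d i (z j) = if i = j then 1 else 0) ∧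
      (∀ Y ∈ V, Y = ∑ i, Y (z i) • d i) := by
  classical
  let ev : F → Module.Dual F V := fun z =>
    { toFun := fun Y => (Y : Derivation ℤ F F) z
      map_add' := by intro a b; simp
      map_smul' := by intro a b; simp }
  have hspan : ⊤ ≤ Submodule.span F (ev '' S) := by
    set W := Submodule.span F (ev '' S) with hW
    have hco : W.dualCoannihilator = ⊥ := by
      rw [eq_bot_iff]
      intro Y hY
      rw [Submodule.mem_dualCoannihilator] at hY
      rw [Submodule.mem_bot]
      apply Subtype.ext
      apply hsep Y Y.2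
      intro z hz
      exact hY (ev z) (Submodule.subset_span ⟨z, hz, rfl⟩)
    have h2 := Subspace.dualCoannihilator_dualAnnihilator_eq (W := W)
    rw [hco, Submodule.dualAnnihilator_bot] at h2
    exact h2.le
  let b0 := Module.Basis.ofSpan hspan
  have hb0 : ∀ i, b0 i ∈ ev '' S := fun i => Module.Basis.ofSpan_subset hspan ⟨i, rfl⟩
  have := Module.Finite.finite_basis b0
  have := Fintype.ofFinite (((linearIndepOn_empty F id).extend (Set.empty_subset (ev '' S)) : Set (Module.Dual F V)))
  have hcard : Fintype.card (((linearIndepOn_empty F id).extend (Set.empty_subset (ev '' S)) : Set (Module.Dual F V))) =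
      Module.finrank F V := by
    rw [← Module.finrank_eq_card_basis b0, Subspace.dual_finrank_eq]
  let b := b0.reindex (Fintype.equivFinOfCardEq hcard)
  have hb : ∀ i, b i ∈ ev '' S := by
    intro i
    simp only [b, Module.Basis.reindex_apply]
    exact hb0 _
  choose z hzS hz using hb
  let d' := b.dualBasis.map (Module.evalEquiv F V).symm
  have hd' : ∀ i j, (d' i : Derivation ℤ F F) (z j) = if i = j then 1 else 0 := by
    intro i j
    have h1 : (d' i : Derivation ℤ F F) (z j) = b j (d' i) := by
      rw [← hz j]; rfl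
    have h2 : b j (d' i) = (Module.evalEquiv F V (d' i)) (b j) := rfl
    rw [h1, h2]
    simp only [d', Module.Basis.map_apply, LinearEquiv.apply_symm_apply]
    rw [Module.Basis.dualBasis_apply_self]
    by_cases hij : i = j
    · simp [hij]
    · simp [hij, Ne.symm hij]
  refine ⟨_, z, fun i => (d' i : Derivation ℤ F F), hzS, fun i => (d' i).2, hd', ?_⟩
  intro Y hY
  have h1 := d'.sum_repr ⟨Y, hY⟩
  have h2 : ((∑ i, (d'.repr ⟨Y, hY⟩) i • d' i : V) : Derivation ℤ F F) = Y := by rw [h1]
  have h3 : ((∑ i, (d'.repr ⟨Y, hY⟩) i • d' i : V) : Derivation ℤ F F) =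
      ∑ i, (d'.repr ⟨Y, hY⟩) i • (d' i : Derivation ℤ F F) := by
    simp only [Submodule.coe_sum, Submodule.coe_smul]
  rw [h3] at h2
  have h4 : ∀ j, Y (z j) = d'.repr ⟨Y, hY⟩ j := by
    intro j
    have h5 := DFunLike.congr_fun h2 (z j)
    rw [← h5]
    rw [show (∑ i, (d'.repr ⟨Y, hY⟩) i • (d' i : Derivation ℤ F F)) (z j) =
      ∑ i, (d'.repr ⟨Y, hY⟩) i * (d' i : Derivation ℤ F F) (z j) by
        rw [← Derivation.coeFnAddMonoidHom_apply, map_sum, Finset.sum_apply]
        rfl]
    simp_rw [hd']
    simp
  conv_lhs => rw [← h2]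
  refine Finset.sum_congr rfl fun i _ => ?_
  rw [h4]

end OD

theorem a2 : A2Stmt.{u} := by
  intro F _ _ ν y T hT D hDT hD
  obtain ⟨s, hl, hs⟩ := hD
  have := OD.finite_T hT
  let V : Submodule F (Derivation ℤ F F) :=
    { carrier := {Y | Y ∈ T ∧ Y (lform s y) = 0}
      add_mem' := by
        rintro a b ⟨h1, h2⟩ ⟨h3, h4⟩
        exact ⟨T.add_mem h1 h3, by simp [h2, h4]⟩
      zero_mem' := ⟨T.zero_mem, by simp⟩
      smul_mem' := by
        rintro c a ⟨h1, h2⟩
        exact ⟨T.smul_mem c h1, by simp [h2]⟩ }
  have hVT : V ≤ T := fun Y hY => hY.1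
  have : Module.Finite F V := Submodule.finiteDimensional_of_le hVT
  obtain ⟨m, z, d, hz, hdV, hdz, hrep⟩ := OD.dual_family V {x | D x = 0} (by
    intro Y hY h0
    exact OD.straight_inj hT hs hY.1 h0 hY.2)
  have hd : ∀ i, d i ∈ T := fun i => hVT (hdV i)
  have hdl : ∀ i, d i (lform s y) = 0 := fun i => (hdV i).2
  set del : Fin (m+1) → Derivation ℤ F F := Fin.cons D d with hdel
  have hdelT : ∀ a, del a ∈ T := by
    intro a
    refine Fin.cases ?_ (fun i => ?_) a
    · simpa [hdel] using hDT
    · simpa [hdel] using hd i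
  have sep : ∀ Y ∈ T, Y (lform s y) = 0 → (∀ j, Y (z j) = 0) → Y = 0 := by
    intro Y hY h1 h2
    rw [hrep Y ⟨hY, h1⟩]
    simp [h2]
  have hspan : Submodule.span F (Set.range del) = T := by
    apply le_antisymm
    · rw [Submodule.span_le]
      rintro _ ⟨a, rfl⟩
      exact hdelT a
    · intro Y hY
      have h1 : Y - Y (lform s y) • D ∈ V := ⟨T.sub_mem hY (T.smul_mem _ hDT), by simp [hl]⟩
      have h2 := hrep _ h1
      have h3 : Y = Y (lform s y) • D + ∑ i, (Y - Y (lform s y) • D) (z i) • d i := by
        rw [← h2]; abel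
      rw [h3]
      refine Submodule.add_mem _ (Submodule.smul_mem _ _ (Submodule.subset_span ⟨0, by simp [hdel]⟩))
        (Submodule.sum_mem _ fun i _ => Submodule.smul_mem _ _ (Submodule.subset_span ⟨i.succ, by simp [hdel]⟩))
  have hlin : LinearIndependent F del := by
    rw [Fintype.linearIndependent_iff]
    intro c hc
    have hc' : ∀ w : F, ∑ a, c a * del a w = 0 := by
      intro w
      have := DFunLike.congr_fun hc w
      rw [show (∑ a, c a • del a) w = ∑ a, c a * del a w by
        rw [← Derivation.coeFnAddMonoidHom_apply, map_sum, Finset.sum_apply]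
        rfl] at this
      simpa using this
    have h0 : c 0 = 0 := by
      have := hc' (lform s y)
      rw [Fin.sum_univ_succ] at this
      simpa [hdel, hl, hdl] using this
    intro a
    refine Fin.cases h0 (fun j => ?_) a
    have := hc' (z j)
    rw [Fin.sum_univ_succ] at this
    have hDz : D (z j) = 0 := hz j
    simpa [hdel, hdz, h0] using this
  refine ⟨m, del, by simp [hdel], ?_, hspan, ?_⟩
  · have h1 : Module.finrank F (Submodule.span F (Set.range del)) = Fintype.card (Fin (m+1)) :=
      finrank_span_eq_card hlin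
    rw [hspan] at h1
    simpa using h1
  · intro a b
    have hc : ∀ a, (del a (lform s y) = 0 ∨ del a (lform s y) = 1) ∧
        ∀ j, (del a (z j) = 0 ∨ del a (z j) = 1) := by
      intro a
      refine Fin.cases ?_ (fun i => ?_) a
      · simp only [hdel, Fin.cons_zero]
        exact ⟨Or.inr hl, fun j => Or.inl (hz j)⟩
      · simp only [hdel, Fin.cons_succ]
        refine ⟨Or.inl (hdl i), fun j => ?_⟩
        rw [hdz]
        by_cases h : i = j
        · right; simp [h]
        · left; simp [h]
    have hk : ∀ (a : Fin (m+1)) (w : F), (w = 0 ∨ w = 1) → del a w = 0 := by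
      rintro a w (rfl | rfl) <;> simp
    apply sep _ (hT.bracket _ (hdelT a) _ (hdelT b))
    · rw [Derivation.commutator_apply, hk a _ (hc b).1, hk b _ (hc a).1, sub_zero]
    · intro j
      rw [Derivation.commutator_apply, hk a _ ((hc b).2 j), hk b _ ((hc a).2 j), sub_zero]

end GZ
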