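import Pool.Agent.GZ.A3

/-! GZ row A2b: ordered monomials span the operators of order at most `q` (helper34). -/

namespace GZ

universe u

namespace OD

open Finset

theorem ofFn_single {M : Type*} [Monoid M] : ∀ (m : ℕ) (c : Fin m → M),
    (∀ a b, c a * c b = c b * c a) → ∀ (β : Fin m → ℕ) (a : Fin m),
    c a * (List.ofFn fun b => c b ^ β b).prod =
      (List.ofFn fun b => c b ^ (β b + if b = a then 1 else 0)).prod := by
  intro m
  induction m with
  | zero => intro c _ β a; exact a.elim0
  | succ m ih =>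
    intro c hc β a
    rw [List.ofFn_succ, List.ofFn_succ, List.prod_cons, List.prod_cons]
    refine Fin.cases ?_ (fun a' => ?_) a
    · have h1 : (fun i : Fin m => c i.succ ^ (β i.succ + if i.succ = 0 then 1 else 0)) =
          fun i : Fin m => c i.succ ^ β i.succ := by
        funext i
        simp [Fin.succ_ne_zero]
      rw [h1, ← mul_assoc, ← pow_succ']
      simp
    · have h2 := ih (fun i => c i.succ) (fun a b => hc _ _) (fun i => β i.succ) a'
      have h3 : (fun i : Fin m => c i.succ ^ (β i.succ + if i.succ = a'.succ then 1 else 0)) =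
          fun i : Fin m => c i.succ ^ (β i.succ + if i = a' then 1 else 0) := by
        funext i
        simp
      rw [h3, ← h2]
      have h4 : Commute (c a'.succ) (c 0) := hc _ _
      have h5 : c a'.succ * c 0 ^ β 0 = c 0 ^ β 0 * c a'.succ := (h4.pow_right _).eq
      have h6 : (if (0 : Fin (m+1)) = a'.succ then 1 else 0) = 0 := by
        simp [(Fin.succ_ne_zero a').symm]
      rw [h6, add_zero, ← mul_assoc, h5, mul_assoc]

variable {F : Type u} [Field F]

theorem mul_mem_Dq {T : Submodule F (Derivation ℤ F F)} {q r : ℕ} {A B : Module.End ℤ F}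
    (hA : A ∈ Dq T q) (hB : B ∈ Dq T r) : A * B ∈ Dq T (q + r) := by
  have key : ∀ w : List (Derivation ℤ F F), (∀ X ∈ w, X ∈ T) →
      (w.map (fun X => (X.toLinearMap : Module.End ℤ F))).prod * B ∈ Dq T (w.length + r) := by
    intro w
    induction w with
    | nil => intro _; simpa using hB
    | cons Y w ih =>
      intro hw
      have h1 := ih fun X hX => hw X (List.mem_cons_of_mem _ hX)
      rw [List.map_cons, List.prod_cons, mul_assoc, List.length_cons,
        show w.length + 1 + r = w.length + r + 1 by ring]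
      exact comp_mem (hw Y List.mem_cons_self) h1
  unfold Dq at hA
  induction hA using Submodule.span_induction with
  | mem A hA =>
    obtain ⟨w, hl, hw, rfl⟩ := hA
    exact Dq_mono (by omega) (key w hw)
  | zero => rw [zero_mul]; exact Submodule.zero_mem _
  | add A B _ _ hA hB => rw [add_mul]; exact Submodule.add_mem _ hA hB
  | smul f A hA' hA =>
    rw [smul_mul_assoc]
    exact Submodule.smul_mem _ _ hA

theorem lt_mem {T : Submodule F (Derivation ℤ F F)} {Y : Derivation ℤ F F} (hY : Y ∈ T) :
    lt Y ∈ Dq T 1 :=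
  Submodule.subset_span ⟨[Y], by simp, by simpa using hY, by simp⟩

theorem pow_mem_Dq {T : Submodule F (Derivation ℤ F F)} {Y : Derivation ℤ F F} (hY : Y ∈ T)
    (k : ℕ) : lt Y ^ k ∈ Dq T k := by
  induction k with
  | zero => exact one_mem_Dq T 0
  | succ k ih => rw [pow_succ']; exact comp_mem hY ih

theorem ofFn_mem {T : Submodule F (Derivation ℤ F F)} : ∀ (m : ℕ) (f : Fin m → Module.End ℤ F)
    (β : Fin m → ℕ), (∀ a, f a ∈ Dq T (β a)) → (List.ofFn f).prod ∈ Dq T (∑ a, β a) := by
  intro m
  induction m with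
  | zero => intro f β _; simpa using one_mem_Dq T 0
  | succ m ih =>
    intro f β h
    rw [List.ofFn_succ, List.prod_cons, Fin.sum_univ_succ]
    exact mul_mem_Dq (h 0) (ih _ _ fun a => h a.succ)

/-- ordered monomials -/
def omono {m : ℕ} (del : Fin m → Derivation ℤ F F) (β : Fin m → ℕ) : Module.End ℤ F :=
  (List.ofFn fun a => lt (del a) ^ β a).prod

theorem comp_omono {T : Submodule F (Derivation ℤ F F)} {m : ℕ}
    {del : Fin m → Derivation ℤ F F} (hspan : Submodule.span F (Set.range del) = T)
    (hc : ∀ a b, lt (del a) * lt (del b) = lt (del b) * lt (del a)) {q : ℕ}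
    {B : Module.End ℤ F}
    (hB : B ∈ Submodule.span F {A | ∃ β : Fin m → ℕ, ∑ a, β a ≤ q ∧ A = omono del β})
    {Y : Derivation ℤ F F} (hY : Y ∈ T) :
    lt Y * B ∈ Submodule.span F {A | ∃ β : Fin m → ℕ, ∑ a, β a ≤ q + 1 ∧ A = omono del β} := by
  have mono : Submodule.span F {A | ∃ β : Fin m → ℕ, ∑ a, β a ≤ q ∧ A = omono del β} ≤
      Submodule.span F {A | ∃ β : Fin m → ℕ, ∑ a, β a ≤ q + 1 ∧ A = omono del β} := by
    apply Submodule.span_mono
    rintro A ⟨β, h, rfl⟩
    exact ⟨β, by omega, rfl⟩
  induction hB using Submodule.span_induction with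
  | mem A hA =>
    obtain ⟨β, hβ, rfl⟩ := hA
    rw [← hspan] at hY
    obtain ⟨c, hcY⟩ := (Submodule.mem_span_range_iff_exists_fun F).1 hY
    have h2 : lt Y = ∑ a, c a • lt (del a) := by
      rw [← hcY]
      ext x
      simp [LinearMap.sum_apply]
      rw [← Derivation.coeFnAddMonoidHom_apply, map_sum, Finset.sum_apply]
      rfl
    rw [h2, Finset.sum_mul]
    refine Submodule.sum_mem _ fun a _ => ?_
    rw [smul_mul_assoc]
    refine Submodule.smul_mem _ _ (Submodule.subset_span
      ⟨fun b => β b + if b = a then 1 else 0, ?_, ?_⟩)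
    · rw [Finset.sum_add_distrib, Finset.sum_ite_eq' Finset.univ a]
      simp only [Finset.mem_univ, if_true]
      omega
    · exact ofFn_single m (fun a => lt (del a)) hc β a
  | zero => rw [mul_zero]; exact Submodule.zero_mem _
  | add A B _ _ hA hB => rw [mul_add]; exact Submodule.add_mem _ hA hB
  | smul f A hA' hA =>
    rw [lt_mul_smul]
    exact Submodule.add_mem _ (Submodule.smul_mem _ _ hA)
      (Submodule.smul_mem _ _ (mono hA'))

theorem Dq_le_omono {T : Submodule F (Derivation ℤ F F)} {m : ℕ}
    {del : Fin m → Derivation ℤ F F} (hspan : Submodule.span F (Set.range del) = T)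
    (hc : ∀ a b, lt (del a) * lt (del b) = lt (del b) * lt (del a)) (q : ℕ) :
    Dq T q ≤ Submodule.span F {A | ∃ β : Fin m → ℕ, ∑ a, β a ≤ q ∧ A = omono del β} := by
  have key : ∀ w : List (Derivation ℤ F F), (∀ X ∈ w, X ∈ T) →
      (w.map (fun X => (X.toLinearMap : Module.End ℤ F))).prod ∈
        Submodule.span F {A | ∃ β : Fin m → ℕ, ∑ a, β a ≤ w.length ∧ A = omono del β} := by
    intro w
    induction w with
    | nil =>
      intro _
      refine Submodule.subset_span ⟨fun _ => 0, by simp, ?_⟩
      simp [omono]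
    | cons Y w ih =>
      intro hw
      have h1 := ih fun X hX => hw X (List.mem_cons_of_mem _ hX)
      rw [List.map_cons, List.prod_cons]
      exact comp_omono hspan hc h1 (hw Y List.mem_cons_self)
  unfold Dq
  rw [Submodule.span_le]
  rintro A ⟨w, hl, hw, rfl⟩
  refine Submodule.span_mono ?_ (key w hw)
  rintro A ⟨β, h, rfl⟩
  exact ⟨β, by omega, rfl⟩

theorem omono_mem {T : Submodule F (Derivation ℤ F F)} {m : ℕ}
    {del : Fin m → Derivation ℤ F F} (hdel : ∀ a, del a ∈ T) (β : Fin m → ℕ) :
    omono del β ∈ Dq T (∑ a, β a) :=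
  ofFn_mem m _ β fun a => pow_mem_Dq (hdel a) (β a)

end OD

theorem a2b : A2bStmt.{u} := by
  intro F _ T m del hspan hcomm q
  have hdel : ∀ a, del a ∈ T := fun a => hspan ▸ Submodule.subset_span ⟨a, rfl⟩
  have hc : ∀ a b, OD.lt (del a) * OD.lt (del b) = OD.lt (del b) * OD.lt (del a) := by
    intro a b
    ext x
    have := DFunLike.congr_fun (hcomm a b) x
    rw [Derivation.commutator_apply] at this
    simpa [sub_eq_zero] using this
  have h1 := OD.Dq_le_omono hspan hc q
  refine ⟨le_antisymm h1 ?_, ?_⟩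
  · rw [Submodule.span_le]
    rintro A ⟨β, hβ, rfl⟩
    exact OD.Dq_mono hβ (OD.omono_mem hdel β)
  · have h2 : Dq T q ≤ Submodule.span F (Set.range fun β : Fin m → Fin (q+1) =>
        OD.omono del (fun a => (β a : ℕ))) := by
      refine h1.trans (Submodule.span_mono ?_)
      rintro A ⟨β, hβ, rfl⟩
      have hb : ∀ a, β a < q + 1 := fun a =>
        lt_of_le_of_lt ((Finset.single_le_sum (f := β) (fun _ _ => Nat.zero_le _)
          (Finset.mem_univ a)).trans hβ) (Nat.lt_succ_self q)
      exact ⟨fun a => ⟨β a, hb a⟩, rfl⟩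
    have hfin : Module.Finite F (Submodule.span F (Set.range fun β : Fin m → Fin (q+1) =>
        OD.omono del (fun a => (β a : ℕ)))) :=
      FiniteDimensional.span_of_finite F (Set.finite_range _)
    refine ⟨?_, Submodule.finiteDimensional_of_le h2⟩
    refine (Submodule.finrank_mono h2).trans ((finrank_range_le_card _).trans ?_)
    simp

end GZ
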