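import Pool.Agent.GZ.A2

/-! GZ row A3: the order drop (helper34). -/

namespace GZ

universe u

namespace OD

open Finset

variable {F : Type u} [Field F]

/-- a derivation as an operator -/
abbrev lt (X : Derivation ℤ F F) : Module.End ℤ F := X.toLinearMap

@[simp] theorem lt_apply (X : Derivation ℤ F F) (a : F) : lt X a = X a := rfl

theorem Dq_mono {T : Submodule F (Derivation ℤ F F)} {q r : ℕ} (h : q ≤ r) : Dq T q ≤ Dq T r := by
  apply Submodule.span_mono
  rintro A ⟨w, hl, hw, rfl⟩
  exact ⟨w, hl.trans h, hw, rfl⟩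

theorem one_mem_Dq (T : Submodule F (Derivation ℤ F F)) (q : ℕ) : (1 : Module.End ℤ F) ∈ Dq T q :=
  Submodule.subset_span ⟨[], by simp, by simp, by simp⟩

theorem lt_mul_zero (Y : Derivation ℤ F F) : lt Y * 0 = 0 := mul_zero _

theorem lt_mul_smul (Y : Derivation ℤ F F) (f : F) (A : Module.End ℤ F) :
    lt Y * (f • A) = f • (lt Y * A) + Y f • A := by
  ext a
  simp [smul_eq_mul, mul_comm]

theorem comp_mem {T : Submodule F (Derivation ℤ F F)} {q : ℕ} {Y : Derivation ℤ F F}
    (hY : Y ∈ T) {A : Module.End ℤ F} (hA : A ∈ Dq T q) : lt Y * A ∈ Dq T (q + 1) := by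
  unfold Dq at hA
  induction hA using Submodule.span_induction with
  | mem A hA =>
    obtain ⟨w, hl, hw, rfl⟩ := hA
    refine Submodule.subset_span ⟨Y :: w, by simpa using hl, ?_, by simp⟩
    intro X hX
    rcases List.mem_cons.1 hX with h | h
    · rw [h]; exact hY
    · exact hw X h
  | zero => rw [mul_zero]; exact Submodule.zero_mem _
  | add A B _ _ hA hB => rw [mul_add]; exact Submodule.add_mem _ hA hB
  | smul f A hA' hA =>
    rw [lt_mul_smul]
    exact Submodule.add_mem _ (Submodule.smul_mem _ _ hA)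
      (Submodule.smul_mem _ _ (Dq_mono (Nat.le_succ q) hA'))

/-- words in a family, the first letter is applied first. -/
def op {m : ℕ} (d : Fin m → Derivation ℤ F F) : List (Fin m) → Module.End ℤ F
  | [] => 1
  | i :: L => op d L * lt (d i)

@[simp] theorem op_nil {m : ℕ} (d : Fin m → Derivation ℤ F F) : op d [] = 1 := rfl
@[simp] theorem op_cons {m : ℕ} (d : Fin m → Derivation ℤ F F) (i : Fin m) (L : List (Fin m)) :
    op d (i :: L) = op d L * lt (d i) := rfl

theorem op_append {m : ℕ} (d : Fin m → Derivation ℤ F F) (L L' : List (Fin m)) :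
    op d (L ++ L') = op d L' * op d L := by
  induction L with
  | nil => simp
  | cons i L ih => simp [ih, mul_assoc]

/-- commuting family complementing `X` in `T`. -/
structure Adapted (T : Submodule F (Derivation ℤ F F)) (X : Derivation ℤ F F) (m : ℕ)
    (d : Fin m → Derivation ℤ F F) : Prop where
  memX : X ∈ T
  mem : ∀ i, d i ∈ T
  comm : ∀ i, lt (d i) * lt X = lt X * lt (d i)
  span : ∀ Y ∈ T, ∃ (f : F) (g : Fin m → F), lt Y = f • lt X + ∑ i, g i • lt (d i)

/-- the standard spanning set -/
def std (X : Derivation ℤ F F) {m : ℕ} (d : Fin m → Derivation ℤ F F) (r : ℕ) :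
    Set (Module.End ℤ F) :=
  {A | ∃ (k : ℕ) (L : List (Fin m)), k + L.length ≤ r ∧ A = lt X ^ k * op d L}

namespace Adapted

variable {T : Submodule F (Derivation ℤ F F)} {X : Derivation ℤ F F} {m : ℕ}
  {d : Fin m → Derivation ℤ F F}

theorem cst_stable (hA : Adapted T X m d) (i : Fin m) {a : F} (ha : X a = 0) :
    X (d i a) = 0 := by
  have := LinearMap.congr_fun (hA.comm i) a
  simp only [Module.End.mul_apply, lt_apply] at this
  rw [← this, ha, map_zero]

theorem op_mem (hA : Adapted T X m d) (L : List (Fin m)) : op d L ∈ Dq T L.length := by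
  induction L using List.reverseRecOn with
  | nil => exact one_mem_Dq T 0
  | append_singleton L i ih =>
    rw [op_append, List.length_append]
    have : op d [i] = lt (d i) := by simp
    rw [this]
    exact comp_mem (hA.mem i) ih

theorem iter_op_mem (hA : Adapted T X m d) (k : ℕ) (L : List (Fin m)) :
    lt X ^ k * op d L ∈ Dq T (k + L.length) := by
  induction k with
  | zero => simpa using hA.op_mem L
  | succ k ih =>
    rw [pow_succ', mul_assoc, show k + 1 + L.length = k + L.length + 1 by ring]
    exact comp_mem hA.memX ih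

theorem iter_comm (hA : Adapted T X m d) (i : Fin m) (k : ℕ) :
    lt (d i) * lt X ^ k = lt X ^ k * lt (d i) := by
  have h : Commute (lt (d i)) (lt X) := hA.comm i
  exact (h.pow_right k).eq

theorem comp_std (hA : Adapted T X m d) {r : ℕ} {B : Module.End ℤ F}
    (hB : B ∈ Submodule.span F (std X d r)) {Y : Derivation ℤ F F} (hY : Y ∈ T) :
    lt Y * B ∈ Submodule.span F (std X d (r+1)) := by
  have mono : Submodule.span F (std X d r) ≤ Submodule.span F (std X d (r+1)) := by
    apply Submodule.span_mono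
    rintro A ⟨k, L, h, rfl⟩
    exact ⟨k, L, by omega, rfl⟩
  induction hB using Submodule.span_induction with
  | mem B hB =>
    obtain ⟨k, L, hl, rfl⟩ := hB
    obtain ⟨f, g, hfg⟩ := hA.span Y hY
    have h1 : lt Y * (lt X ^ k * op d L) =
        f • (lt X ^ (k+1) * op d L) + ∑ i, g i • (lt X ^ k * op d (L ++ [i])) := by
      rw [hfg, add_mul, smul_mul_assoc, Finset.sum_mul, pow_succ', mul_assoc]
      congr 1
      refine Finset.sum_congr rfl fun i _ => ?_
      rw [smul_mul_assoc, ← mul_assoc, hA.iter_comm, op_append, mul_assoc]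
      simp
    rw [h1]
    refine Submodule.add_mem _ (Submodule.smul_mem _ _ (Submodule.subset_span
      ⟨k+1, L, by omega, rfl⟩)) (Submodule.sum_mem _ fun i _ => Submodule.smul_mem _ _
      (Submodule.subset_span ⟨k, L ++ [i], by simp; omega, rfl⟩))
  | zero => rw [mul_zero]; exact Submodule.zero_mem _
  | add A B _ _ hA hB => rw [mul_add]; exact Submodule.add_mem _ hA hB
  | smul f A hA' hA =>
    rw [lt_mul_smul]
    exact Submodule.add_mem _ (Submodule.smul_mem _ _ hA)
      (Submodule.smul_mem _ _ (mono hA'))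

theorem Dq_le (hA : Adapted T X m d) (r : ℕ) : Dq T r ≤ Submodule.span F (std X d r) := by
  unfold Dq
  rw [Submodule.span_le]
  rintro A ⟨w, hl, hw, rfl⟩
  have key : ∀ w : List (Derivation ℤ F F), (∀ X ∈ w, X ∈ T) →
      (w.map (fun X => (X.toLinearMap : Module.End ℤ F))).prod ∈
        Submodule.span F (std X d w.length) := by
    intro w
    induction w with
    | nil =>
      intro _
      exact Submodule.subset_span ⟨0, [], by simp, by simp⟩
    | cons Y w ih =>
      intro hw
      have h1 := ih fun X hX => hw X (List.mem_cons_of_mem _ hX)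
      rw [List.map_cons, List.prod_cons]
      exact hA.comp_std h1 (hw Y List.mem_cons_self)
  refine Submodule.span_mono ?_ (key w hw)
  rintro A ⟨k, L, h, rfl⟩
  exact ⟨k, L, by omega, rfl⟩

end Adapted

section od

variable {Ω : Type*} [CommRing Ω] (Φ : F →+* Ω)
  {ι : Type*} (J : Finset ι) (g : ι → Ω)
  {T : Submodule F (Derivation ℤ F F)} {X : Derivation ℤ F F} {m : ℕ}
  {d : Fin m → Derivation ℤ F F}

theorem pow_cst (X : Derivation ℤ F F) (k : ℕ) (a b : F) (ha : X a = 0) :
    (lt X ^ k) (a * b) = a * (lt X ^ k) b := by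
  induction k generalizing b with
  | zero => rfl
  | succ k ih =>
    rw [pow_succ, Module.End.mul_apply, Module.End.mul_apply, lt_apply, lt_apply, der_mul, ha,
      mul_zero, add_zero, ih]

theorem leib_od (hA : Adapted T X m d) (k : ℕ) (L : List (Fin m)) :
    ∀ (b : ι → F) (e : F), (∀ j, X (b j) = 0) →
    (∀ L' : List (Fin m), L'.length < L.length → ∑ j ∈ J, g j * Φ (op d L' (b j)) = 0) →
    ∑ j ∈ J, g j * Φ ((lt X ^ k) (op d L (b j * e))) =
      Φ ((lt X ^ k) e) * ∑ j ∈ J, g j * Φ (op d L (b j)) := by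
  induction L with
  | nil =>
    intro b e hb _
    rw [Finset.mul_sum]
    refine Finset.sum_congr rfl fun j _ => ?_
    simp only [op_nil, Module.End.one_apply]
    rw [pow_cst X k _ _ (hb j), map_mul]
    ring
  | cons i L ih =>
    intro b e hb h0
    have e1 : ∀ j, op d (i :: L) (b j * e) = op d L (b j * d i e) + op d L (d i (b j) * e) := by
      intro j
      rw [op_cons, Module.End.mul_apply, lt_apply, der_mul, map_add, mul_comm e]
    have h1 := ih b (d i e) hb (fun L' hL' => h0 L' (by simp only [List.length_cons]; omega))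
    have h2 := ih (fun j => d i (b j)) e (fun j => hA.cst_stable i (hb j)) (by
      intro L' hL'
      have := h0 (i :: L') (by simpa using hL')
      simpa using this)
    simp_rw [e1, map_add, mul_add, Finset.sum_add_distrib]
    rw [h1, h2, h0 L (by simp), mul_zero, zero_add]
    rfl

theorem kill_smul (b : ι → F) (hb : ∀ k, ∑ j ∈ J, g j * Φ ((lt X ^ k) (b j)) = 0) (f : F)
    (k : ℕ) : ∑ j ∈ J, g j * Φ ((lt X ^ k) (f * b j)) = 0 := by
  induction k generalizing b f with
  | zero =>
    have := hb 0
    simp only [pow_zero, Module.End.one_apply] at this ⊢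
    have h2 : ∑ j ∈ J, g j * Φ (f * b j) = Φ f * ∑ j ∈ J, g j * Φ (b j) := by
      rw [Finset.mul_sum]
      refine Finset.sum_congr rfl fun j _ => ?_
      rw [map_mul]; ring
    rw [h2, this, mul_zero]
  | succ k ih =>
    have e1 : ∀ j, (lt X ^ (k+1)) (f * b j) =
        (lt X ^ k) (f * X (b j)) + (lt X ^ k) (X f * b j) := by
      intro j
      rw [pow_succ, Module.End.mul_apply, lt_apply, der_mul, map_add, mul_comm (b j)]
    simp_rw [e1, map_add, mul_add, Finset.sum_add_distrib]
    rw [ih (fun j => X (b j)) (fun k => by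
      have := hb (k+1)
      simpa [pow_succ] using this) f, ih b hb (X f), add_zero]

/-- the order drop -/
theorem od [IsDomain Ω] (hA : Adapted T X m d) {h : ℕ} (e : Fin h → F) (he : Ind X e)
    (ρ : ι → Fin h → F) (hρ : ∀ j i, X (ρ j i) = 0) (q : ℕ)
    (H : ∀ A ∈ Dq T (q + h), ∑ j ∈ J, g j * Φ (A (∑ i, ρ j i * e i)) = 0) (k : ℕ) :
    ∀ A ∈ Dq T q, ∑ j ∈ J, g j * Φ ((lt X ^ k) (A (∑ i, ρ j i * e i))) = 0 := by
  have expand : ∀ (k : ℕ) (L : List (Fin m)),
      (∀ L' : List (Fin m), L'.length < L.length → ∀ i, ∑ j ∈ J, g j * Φ (op d L' (ρ j i)) = 0) →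
      ∑ j ∈ J, g j * Φ ((lt X ^ k) (op d L (∑ i, ρ j i * e i))) =
        ∑ i, Φ ((lt X ^ k) (e i)) * ∑ j ∈ J, g j * Φ (op d L (ρ j i)) := by
    intro k L hL
    have e1 : ∀ j, Φ ((lt X ^ k) (op d L (∑ i, ρ j i * e i))) =
        ∑ i, Φ ((lt X ^ k) (op d L (ρ j i * e i))) := by
      intro j
      rw [map_sum, map_sum, map_sum]
    simp_rw [e1, Finset.mul_sum]
    rw [Finset.sum_comm]
    refine Finset.sum_congr rfl fun i _ => ?_
    rw [leib_od Φ J g hA k L (fun j => ρ j i) (e i) (fun j => hρ j i) (fun L' hL' => hL L' hL' i),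
      Finset.mul_sum]
  have main : ∀ n : ℕ, ∀ L : List (Fin m), L.length = n → L.length ≤ q →
      ∀ i, ∑ j ∈ J, g j * Φ (op d L (ρ j i)) = 0 := by
    intro n
    induction n using Nat.strong_induction_on with
    | _ n ih =>
      intro L hLn hLq
      have hz := wronsk Φ X h e he (fun i => ∑ j ∈ J, g j * Φ (op d L (ρ j i))) (by
        intro k hk
        have h1 := expand k L (fun L' hL' i => ih L'.length (by omega) L' rfl (by omega) i)
        have h2 : ∀ i, X^[k] (e i) = (lt X ^ k) (e i) := fun i => (pow_app X k (e i)).symm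
        simp_rw [h2]
        rw [← h1]
        have h3 := H _ (Dq_mono (show k + L.length ≤ q + h by omega) (hA.iter_op_mem k L))
        simpa [Module.End.mul_apply] using h3)
      intro i
      exact congrFun hz i
  -- all words
  have all : ∀ (k : ℕ) (L : List (Fin m)), L.length ≤ q →
      ∑ j ∈ J, g j * Φ ((lt X ^ k) (op d L (∑ i, ρ j i * e i))) = 0 := by
    intro k L hL
    rw [expand k L (fun L' hL' i => main _ L' rfl (by omega) i)]
    refine Finset.sum_eq_zero fun i _ => ?_
    rw [main _ L rfl hL i, mul_zero]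
  have sub : ∀ A ∈ Submodule.span F (std X d q),
      ∀ k, ∑ j ∈ J, g j * Φ ((lt X ^ k) (A (∑ i, ρ j i * e i))) = 0 := by
    intro A hAA
    induction hAA using Submodule.span_induction with
    | mem A hAm =>
      obtain ⟨k', L, hl, rfl⟩ := hAm
      intro k
      have := all (k + k') L (by omega)
      simpa [pow_add, Module.End.mul_apply] using this
    | zero =>
      intro k
      refine Finset.sum_eq_zero fun j _ => ?_
      simp
    | add A B _ _ h1 h2 =>
      intro k
      simp only [LinearMap.add_apply]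
      simp_rw [map_add, mul_add, Finset.sum_add_distrib]
      rw [h1 k, h2 k, add_zero]
    | smul f A _ h1 =>
      intro k
      simp only [LinearMap.smul_apply, smul_eq_mul]
      exact kill_smul Φ J g (fun j => A (∑ i, ρ j i * e i)) h1 f k
  intro A hAA
  exact sub A (hA.Dq_le _ hAA) k

end od

theorem exists_adapted [CharZero F] {ν : ℕ} {y : Fin ν → F} {T : Submodule F (Derivation ℤ F F)}
    (hT : LieT y T) {D : Derivation ℤ F F} (hDT : D ∈ T) (hD : Straight y D) :
    ∃ (m : ℕ) (d : Fin m → Derivation ℤ F F), Adapted T D m d := by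
  obtain ⟨m, del, h0, _, hspan, hcomm⟩ := a2 F ν y T hT D hDT hD
  have hdel : ∀ a, del a ∈ T := fun a => hspan ▸ Submodule.subset_span ⟨a, rfl⟩
  have hc : ∀ a b, lt (del a) * lt (del b) = lt (del b) * lt (del a) := by
    intro a b
    ext x
    have := DFunLike.congr_fun (hcomm a b) x
    rw [Derivation.commutator_apply] at this
    simpa [sub_eq_zero] using this
  refine ⟨m, fun i => del i.succ, hDT, fun i => hdel _, fun i => ?_, ?_⟩
  · have := hc i.succ 0
    rwa [h0] at this
  · intro Y hY
    rw [← hspan] at hY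
    obtain ⟨c, hcY⟩ := (Submodule.mem_span_range_iff_exists_fun F).1 hY
    refine ⟨c 0, fun i => c i.succ, ?_⟩
    rw [← hcY, Fin.sum_univ_succ, h0]
    ext x
    simp [LinearMap.sum_apply]
    rw [← Derivation.coeFnAddMonoidHom_apply, map_sum, Finset.sum_apply]
    rfl

end OD

theorem a3 : A3Stmt.{u} := by
  intro F _ _ ν y T hT D hDT hD Ω _ _ Φ J h e he ρ hρ g q H A hA k
  obtain ⟨m, d, hAd⟩ := OD.exists_adapted hT hDT hD
  have := OD.od Φ Finset.univ g hAd e he ρ hρ q H k A hA
  simpa [Module.End.mul_apply] using this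

end GZ
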