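import Pool.Agent.GZ.Rows

/-!
# GZ row A4: the ring homomorphisms attached to a chain of exponentials
-/

set_option linter.unusedSectionVars false

namespace GZ

universe u

section A4

variable {F : Type u} [Field F] [CharZero F]

/-- the Taylor coefficients of `exp (t D)`. -/
noncomputable def tay (D : Derivation ℤ F F) (n : ℕ) (a : F) : F :=
  ((n.factorial : F))⁻¹ * ((D.toLinearMap : Module.End ℤ F) ^ n) a

theorem tay_zero (D : Derivation ℤ F F) (a : F) : tay D 0 a = a := by
  simp [tay]

theorem der_natCast_mul (D : Derivation ℤ F F) (n : ℕ) (a : F) :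
    D ((n : F) * a) = (n : F) * D a := by
  rw [← nsmul_eq_mul, map_nsmul, nsmul_eq_mul]

theorem succ_mul_tay (D : Derivation ℤ F F) (n : ℕ) (a : F) :
    ((n : F) + 1) * tay D (n + 1) a = D (tay D n a) := by
  have h1 : ((n.factorial : F)) ≠ 0 := Nat.cast_ne_zero.2 n.factorial_ne_zero
  have h2 : ((n : F) + 1) ≠ 0 := Nat.cast_add_one_ne_zero n
  have h3 : (n.factorial : F) * D (tay D n a) =
      ((D.toLinearMap : Module.End ℤ F) ^ (n + 1)) a := by
    rw [← der_natCast_mul, tay, mul_inv_cancel_left₀ h1, pow_succ', Module.End.mul_apply]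
    rfl
  have h4 : D (tay D n a) = ((n.factorial : F))⁻¹ *
      ((D.toLinearMap : Module.End ℤ F) ^ (n + 1)) a := by
    rw [← h3, inv_mul_cancel_left₀ h1]
  rw [h4, tay, Nat.factorial_succ, Nat.cast_mul, Nat.cast_add, Nat.cast_one, mul_inv,
    ← mul_assoc, ← mul_assoc, mul_inv_cancel₀ h2, one_mul]

theorem tay_add (D : Derivation ℤ F F) (n : ℕ) (a b : F) :
    tay D n (a + b) = tay D n a + tay D n b := by
  rw [tay, map_add, mul_add]
  rfl

theorem tay_mul (D : Derivation ℤ F F) (n : ℕ) (a b : F) :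
    tay D n (a * b) = ∑ p ∈ Finset.HasAntidiagonal.antidiagonal n, tay D p.1 a * tay D p.2 b := by
  induction n with
  | zero => simp [tay_zero]
  | succ n ih =>
    have h2 : ((n : F) + 1) ≠ 0 := Nat.cast_add_one_ne_zero n
    apply mul_left_cancel₀ h2
    rw [succ_mul_tay, ih, map_sum]
    have h3 : ∀ p ∈ Finset.HasAntidiagonal.antidiagonal n, D (tay D p.1 a * tay D p.2 b) =
        (((p.1 + 1 : ℕ) : F) * tay D (p.1 + 1) a) * tay D p.2 b +
        tay D p.1 a * (((p.2 + 1 : ℕ) : F) * tay D (p.2 + 1) b) := by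
      intro p _
      rw [D.leibniz, Nat.cast_add, Nat.cast_one, succ_mul_tay, Nat.cast_add, Nat.cast_one,
        succ_mul_tay, smul_eq_mul, smul_eq_mul]
      ring
    rw [Finset.sum_congr rfl h3, Finset.sum_add_distrib]
    have h4 : ∑ p ∈ Finset.HasAntidiagonal.antidiagonal n,
        (((p.1 + 1 : ℕ) : F) * tay D (p.1 + 1) a) * tay D p.2 b =
        ∑ p ∈ Finset.HasAntidiagonal.antidiagonal (n + 1), ((p.1 : F) * tay D p.1 a) * tay D p.2 b := by
      rw [Finset.Nat.sum_antidiagonal_succ (n := n)
        (f := fun p : ℕ × ℕ => ((p.1 : F) * tay D p.1 a) * tay D p.2 b)]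
      simp
    have h5 : ∑ p ∈ Finset.HasAntidiagonal.antidiagonal n,
        tay D p.1 a * (((p.2 + 1 : ℕ) : F) * tay D (p.2 + 1) b) =
        ∑ p ∈ Finset.HasAntidiagonal.antidiagonal (n + 1), tay D p.1 a * ((p.2 : F) * tay D p.2 b) := by
      rw [Finset.Nat.sum_antidiagonal_succ' (n := n)
        (f := fun p : ℕ × ℕ => tay D p.1 a * ((p.2 : F) * tay D p.2 b))]
      simp
    rw [h4, h5, ← Finset.sum_add_distrib, Finset.mul_sum]
    refine Finset.sum_congr rfl fun p hp => ?_
    have h6 : p.1 + p.2 = n + 1 := Finset.HasAntidiagonal.mem_antidiagonal.1 hp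
    have h7 : ((n : F) + 1) = (p.1 : F) + (p.2 : F) := by
      rw [← Nat.cast_add, h6, Nat.cast_add, Nat.cast_one]
    rw [h7]
    ring

theorem tay_one (D : Derivation ℤ F F) (n : ℕ) : tay D (n + 1) (1 : F) = 0 := by
  induction n with
  | zero =>
    have h := succ_mul_tay D 0 (1 : F)
    rw [tay_zero, D.map_one_eq_zero, Nat.cast_zero, zero_add, one_mul] at h
    exact h
  | succ n ih =>
    have h := succ_mul_tay D (n + 1) (1 : F)
    rw [ih, map_zero] at h
    rcases mul_eq_zero.1 h with h | h
    · exact absurd h (Nat.cast_add_one_ne_zero _)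
    · exact h

theorem tay_zero' (D : Derivation ℤ F F) (n : ℕ) : tay D n (0 : F) = 0 := by
  rw [tay, map_zero, mul_zero]

/-- `a ↦ exp (t D) a`. -/
noncomputable def expHom (D : Derivation ℤ F F) : F →+* PowerSeries F where
  toFun a := PowerSeries.mk fun n => tay D n a
  map_one' := by
    ext n
    rw [PowerSeries.coeff_mk, PowerSeries.coeff_one]
    cases n with
    | zero => rw [tay_zero, if_pos rfl]
    | succ n => rw [tay_one, if_neg (Nat.succ_ne_zero n)]
  map_mul' a b := by
    ext n
    rw [PowerSeries.coeff_mk, PowerSeries.coeff_mul, tay_mul]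
    simp only [PowerSeries.coeff_mk]
  map_zero' := by
    ext n
    rw [PowerSeries.coeff_mk, tay_zero', map_zero]
  map_add' a b := by
    ext n
    rw [PowerSeries.coeff_mk, map_add, PowerSeries.coeff_mk, PowerSeries.coeff_mk, tay_add]

theorem coeff_expHom (D : Derivation ℤ F F) (n : ℕ) (a : F) :
    (PowerSeries.coeff (R := F) n) (expHom D a) = tay D n a := by
  change (PowerSeries.coeff (R := F) n) (PowerSeries.mk fun n => tay D n a) = _
  rw [PowerSeries.coeff_mk]

theorem end_tay (A : Module.End ℤ F) (D : Derivation ℤ F F) (n : ℕ) (a : F) :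
    A (tay D n a) = ((n.factorial : F))⁻¹ *
      (A * (D.toLinearMap : Module.End ℤ F) ^ n) a := by
  have h1 : ((n.factorial : F)) ≠ 0 := Nat.cast_ne_zero.2 n.factorial_ne_zero
  have h2 : (n.factorial : F) * A (tay D n a) = (A * (D.toLinearMap : Module.End ℤ F) ^ n) a := by
    rw [← nsmul_eq_mul, ← map_nsmul, nsmul_eq_mul, tay, mul_inv_cancel_left₀ h1]
    rfl
  rw [← h2, inv_mul_cancel_left₀ h1]

end A4

theorem a4 : A4Stmt.{u} := by
  intro F _ _ s
  induction s with
  | nil =>
    refine ⟨F, inferInstance, inferInstance, RingHom.id F, RingHom.id F, ?_⟩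
    intro J g a
    constructor
    · intro h A hA
      have hA' : A = 1 := hA
      rw [hA']
      exact h
    · intro h
      exact h 1 rfl
  | cons D s ih =>
    obtain ⟨Ω, _, _, c, Φ, h⟩ := ih
    refine ⟨PowerSeries Ω, inferInstance, inferInstance, (PowerSeries.C (R := Ω)).comp c,
      (PowerSeries.map Φ).comp (expHom D), ?_⟩
    intro J g a
    have h1 : (∑ j, ((PowerSeries.C (R := Ω)).comp c) (g j) * ((PowerSeries.map Φ).comp (expHom D)) (a j) = 0)
        ↔ ∀ n : ℕ, ∑ j, c (g j) * Φ (tay D n (a j)) = 0 := by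
      rw [PowerSeries.ext_iff]
      refine forall_congr' fun n => ?_
      rw [map_sum, map_zero]
      have h2 : ∀ j, (PowerSeries.coeff (R := Ω) n) ((((PowerSeries.C (R := Ω))).comp c) (g j) *
          ((PowerSeries.map Φ).comp (expHom D)) (a j)) = c (g j) * Φ (tay D n (a j)) := by
        intro j
        rw [RingHom.comp_apply, RingHom.comp_apply, PowerSeries.coeff_C_mul,
          PowerSeries.coeff_map]
        rw [coeff_expHom]
      rw [Finset.sum_congr rfl fun j _ => h2 j]
    rw [h1]
    constructor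
    · rintro h3 B ⟨A, hA, n, rfl⟩
      have h4 := (h J g (fun j => tay D n (a j))).1 (h3 n) A hA
      have hne : ((n.factorial : F)) ≠ 0 := Nat.cast_ne_zero.2 n.factorial_ne_zero
      have h5 : ∑ j, g j * A (tay D n (a j)) = ((n.factorial : F))⁻¹ *
          ∑ j, g j * (A * (D.toLinearMap : Module.End ℤ F) ^ n) (a j) := by
        rw [Finset.mul_sum]
        refine Finset.sum_congr rfl fun j _ => ?_
        rw [end_tay]
        ring
      rw [h5] at h4
      rcases mul_eq_zero.1 h4 with h6 | h6
      · exact absurd h6 (inv_ne_zero hne)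
      · exact h6
    · intro h3 n
      refine (h J g (fun j => tay D n (a j))).2 fun A hA => ?_
      have h4 := h3 _ ⟨A, hA, n, rfl⟩
      have h5 : ∑ j, g j * A (tay D n (a j)) = ((n.factorial : F))⁻¹ *
          ∑ j, g j * (A * (D.toLinearMap : Module.End ℤ F) ^ n) (a j) := by
        rw [Finset.mul_sum]
        refine Finset.sum_congr rfl fun j _ => ?_
        rw [end_tay]
        ring
      rw [h5, h4, mul_zero]

end GZ
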