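import Pool.Agent.GZ.Rows

/-! # GZ row A5: the dimension over the constants of the monomials of degree at most `d`. -/

namespace GZ

open MvPolynomial

universe u

namespace A5

variable {F : Type u} [Field F]

/-- the field of constants of `D`. -/
def consts (D : Derivation ℤ F F) : Subfield F where
  carrier := {x | D x = 0}
  mul_mem' := by
    intro a b ha hb
    change D (a * b) = 0
    have ha' : D a = 0 := ha
    have hb' : D b = 0 := hb
    rw [Derivation.leibniz, ha', hb', smul_zero, smul_zero, add_zero]
  one_mem' := D.map_one_eq_zero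
  add_mem' := by
    intro a b ha hb
    change D (a + b) = 0
    have ha' : D a = 0 := ha
    have hb' : D b = 0 := hb
    rw [map_add, ha', hb', add_zero]
  zero_mem' := map_zero D
  neg_mem' := by
    intro a ha
    change D (-a) = 0
    have ha' : D a = 0 := ha
    rw [map_neg, ha', neg_zero]
  inv_mem' := by
    intro a ha
    change D a⁻¹ = 0
    have ha' : D a = 0 := ha
    rw [Derivation.leibniz_inv, ha', smul_zero]

variable {ν : ℕ}

/-- the generators. -/
noncomputable def gens [DecidableEq F] (l : F) (y : Fin ν → F) (n : Fin ν → ℕ) (d : ℕ) :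
    Finset F :=
  (Finset.range (d + 1) ×ˢ Fintype.piFinset (fun j => Finset.range (n j))).image
    (fun p => l ^ p.1 * ∏ j, y j ^ p.2 j)

theorem card_gens [DecidableEq F] (l : F) (y : Fin ν → F) (n : Fin ν → ℕ) (d : ℕ) :
    (gens l y n d).card ≤ (∏ j, n j) * (d + 1) := by
  refine Finset.card_image_le.trans ?_
  rw [Finset.card_product, Finset.card_range, Fintype.card_piFinset]
  simp [mul_comm]

theorem prod_upd (y : Fin ν → F) (α : Fin ν → ℕ) (j : Fin ν) (v : ℕ) :
    ∏ i, y i ^ (Function.update α j v) i = y j ^ v * ∏ i ∈ Finset.univ.erase j, y i ^ α i := by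
  rw [← Finset.mul_prod_erase _ _ (Finset.mem_univ j), Function.update_self]
  congr 1
  apply Finset.prod_congr rfl
  intro i hi
  rw [Function.update_of_ne (Finset.ne_of_mem_erase hi)]

theorem sum_upd (α : Fin ν → ℕ) (j : Fin ν) (v : ℕ) :
    ∑ i, (Function.update α j v) i = v + ∑ i ∈ Finset.univ.erase j, α i := by
  rw [← Finset.add_sum_erase _ _ (Finset.mem_univ j), Function.update_self]
  congr 1
  apply Finset.sum_congr rfl
  intro i hi
  rw [Function.update_of_ne (Finset.ne_of_mem_erase hi)]

theorem mem_span [DecidableEq F] (D : Derivation ℤ F F) (l : F) (y : Fin ν → F) (n : Fin ν → ℕ)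
    (hc : ∀ j, Compat {x | D x = 0} l (y j) (n j)) (d : ℕ) :
    ∀ (m : ℕ) (a : ℕ) (α : Fin ν → ℕ), ∑ j, α j = m → a + m ≤ d →
      l ^ a * ∏ j, y j ^ α j ∈ Submodule.span (consts D) (gens l y n d : Set F) := by
  intro m
  induction m using Nat.strong_induction_on with
  | _ m ih =>
    intro a α hα ham
    by_cases h : ∀ j, α j < n j
    · apply Submodule.subset_span
      rw [Finset.mem_coe, gens, Finset.mem_image]
      refine ⟨(a, α), ?_, rfl⟩
      rw [Finset.mem_product, Finset.mem_range, Fintype.mem_piFinset]
      exact ⟨by change a < d + 1; omega, fun j => Finset.mem_range.2 (h j)⟩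
    · push Not at h
      obtain ⟨j, hj⟩ := h
      obtain ⟨κ, hκ, hrel⟩ := hc j
      obtain ⟨r, hr⟩ := Nat.exists_eq_add_of_le hj
      have hsum : α j + ∑ i ∈ Finset.univ.erase j, α i = m := by
        rw [Finset.add_sum_erase _ _ (Finset.mem_univ j)]; exact hα
      have h1 : l ^ a * ∏ i, y i ^ α i = ∑ b ∈ Finset.range (n j),
          ∑ a' ∈ Finset.range (n j - b + 1), κ a' b *
            (l ^ (a + a') * ∏ i, y i ^ (Function.update α j (b + r)) i) := by
        have h2 : ∏ i, y i ^ α i = y j ^ r * y j ^ n j *
            ∏ i ∈ Finset.univ.erase j, y i ^ α i := by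
          rw [← Finset.mul_prod_erase _ _ (Finset.mem_univ j), hr, pow_add]
          ring
        rw [h2, hrel, Finset.mul_sum, Finset.sum_mul, Finset.mul_sum]
        apply Finset.sum_congr rfl
        intro b _
        rw [Finset.mul_sum, Finset.sum_mul, Finset.mul_sum]
        apply Finset.sum_congr rfl
        intro a' _
        rw [prod_upd, pow_add, pow_add]
        ring
      rw [h1]
      apply Submodule.sum_mem
      intro b hb
      apply Submodule.sum_mem
      intro a' ha'
      rw [Finset.mem_range] at hb ha'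
      have h3 := ih (∑ i, (Function.update α j (b + r)) i) (by rw [sum_upd]; omega)
        (a + a') (Function.update α j (b + r)) rfl (by rw [sum_upd]; omega)
      exact Submodule.smul_mem _ (⟨κ a' b, hκ a' b⟩ : consts D) h3

end A5

theorem a5 : A5Stmt.{u} := by
  classical
  intro F _ _ ν y D hs
  obtain ⟨s, -, hc⟩ := hs
  choose n hn using hc
  refine ⟨∏ j, n j, fun d => ?_⟩
  let S := Submodule.span (A5.consts D) (A5.gens (lform s y) y n d : Set F)
  haveI : Module.Finite (A5.consts D) S := Module.Finite.span_finset _ _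
  let B := Module.finBasis (A5.consts D) S
  refine ⟨Module.finrank (A5.consts D) S, fun i => (B i : F), ?_, ?_, ?_⟩
  · exact (finrank_span_finset_le_card _).trans (A5.card_gens _ _ _ _)
  · intro κ hκ hsum
    have h1 : ∑ i, (⟨κ i, hκ i⟩ : A5.consts D) • B i = 0 := by
      apply Subtype.ext
      rw [Submodule.coe_sum, Submodule.coe_zero]
      rw [← hsum]
      apply Finset.sum_congr rfl
      intro i _
      rfl
    have h2 := Fintype.linearIndependent_iff.1 B.linearIndependent _ h1
    ext1 i
    have h3 := congrArg Subtype.val (h2 i)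
    exact h3
  · intro α hα
    have h1 := A5.mem_span D (lform s y) y n hn d (∑ j, α j) 0 α rfl (by
      rw [Finsupp.sum_fintype _ _ (fun _ => rfl)] at hα
      omega)
    rw [pow_zero, one_mul] at h1
    refine ⟨fun i => ((B.repr ⟨mon y α, h1⟩ i : A5.consts D) : F), fun i =>
      (B.repr ⟨mon y α, h1⟩ i).2, ?_⟩
    have h2 := congrArg Subtype.val (B.sum_repr ⟨mon y α, h1⟩)
    rw [Submodule.coe_sum] at h2
    exact h2.symm

end GZ
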