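import Pool.Agent.GZ.Rows

/-!
# GZ row A6: the ideals attached to chains of derivations are prime
-/

namespace GZ

open MvPolynomial

universe u

theorem eval₂_eq_sum_mon {F Ω : Type u} [Field F] [CommRing Ω] (c Φ : F →+* Ω) {ν : ℕ}
    (y : Fin ν → F) (G : MvPolynomial (Fin ν) F) :
    eval₂Hom c (fun j => Φ (y j)) G = ∑ α ∈ G.support, c (G.coeff α) * Φ (mon y α) := by
  rw [coe_eval₂Hom, eval₂_eq']
  refine Finset.sum_congr rfl fun α _ => ?_
  rw [mon, map_prod]
  simp only [map_pow]

theorem a6 (h4 : A4Stmt.{u}) : A6Stmt.{u} := by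
  intro F _ _ ν y s
  obtain ⟨Ω, _, _, c, Φ, h⟩ := h4 F s
  refine ⟨RingHom.ker (eval₂Hom c (fun j => Φ (y j))), RingHom.ker_isPrime _, ?_⟩
  intro G
  rw [RingHom.mem_ker, eval₂_eq_sum_mon]
  have h1 := h G.support.card (fun j => G.coeff (G.support.equivFin.symm j).1)
    (fun j => mon y (G.support.equivFin.symm j).1)
  have h2 : ∑ j, c (G.coeff (G.support.equivFin.symm j).1) *
      Φ (mon y (G.support.equivFin.symm j).1) =
      ∑ α ∈ G.support, c (G.coeff α) * Φ (mon y α) := by
    rw [Equiv.sum_comp G.support.equivFin.symm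
      (fun α : G.support => c (G.coeff α.1) * Φ (mon y α.1))]
    exact Finset.sum_coe_sort G.support (fun α => c (G.coeff α) * Φ (mon y α))
  rw [h2] at h1
  rw [h1]
  refine forall_congr' fun A => forall_congr' fun _ => ?_
  have h3 : ∑ j, G.coeff (G.support.equivFin.symm j).1 *
      A (mon y (G.support.equivFin.symm j).1) = pair y G A := by
    rw [Equiv.sum_comp G.support.equivFin.symm
      (fun α : G.support => G.coeff α.1 * A (mon y α.1))]
    exact Finset.sum_coe_sort G.support (fun α => G.coeff α * A (mon y α))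
  rw [h3]

end GZ
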