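import Pool.Agent.GZ.A2b

/-! GZ row A6b: a nonzero polynomial orthogonal to all words of a chain (helper34). -/

namespace GZ

universe u

namespace OD

open Finset MvPolynomial

variable {F : Type u} [Field F]

theorem pair_subset {ν : ℕ} (y : Fin ν → F) (G : MvPolynomial (Fin ν) F) (A : Module.End ℤ F)
    (S : Finset (Fin ν →₀ ℕ)) (hS : G.support ⊆ S) :
    pair y G A = ∑ α ∈ S, G.coeff α * A (mon y α) := by
  unfold pair
  apply Finset.sum_subset hS
  intro α _ hα
  rw [MvPolynomial.notMem_support_iff.1 hα, zero_mul]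

theorem pair_zero {ν : ℕ} (y : Fin ν → F) (A : Module.End ℤ F) :
    pair y (0 : MvPolynomial (Fin ν) F) A = 0 := by
  simp [pair]

theorem pair_add {ν : ℕ} (y : Fin ν → F) (G H : MvPolynomial (Fin ν) F) (A : Module.End ℤ F) :
    pair y (G + H) A = pair y G A + pair y H A := by
  classical
  rw [pair_subset y G A (G.support ∪ H.support) Finset.subset_union_left,
    pair_subset y H A (G.support ∪ H.support) Finset.subset_union_right,
    pair_subset y (G + H) A (G.support ∪ H.support) MvPolynomial.support_add,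
    ← Finset.sum_add_distrib]
  refine Finset.sum_congr rfl fun α _ => ?_
  rw [coeff_add]; ring

theorem pair_sum {ν : ℕ} (y : Fin ν → F) {ι : Type*} (s : Finset ι)
    (G : ι → MvPolynomial (Fin ν) F) (A : Module.End ℤ F) :
    pair y (∑ i ∈ s, G i) A = ∑ i ∈ s, pair y (G i) A := by
  classical
  induction s using Finset.induction_on with
  | empty => simp [pair_zero]
  | insert i s hi ih => rw [Finset.sum_insert hi, Finset.sum_insert hi, pair_add, ih]

theorem pair_monomial {ν : ℕ} (y : Fin ν → F) (α : Fin ν →₀ ℕ) (c : F) (A : Module.End ℤ F) :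
    pair y (monomial α c) A = c * A (mon y α) := by
  rw [pair_subset y _ A {α} support_monomial_subset]
  simp

theorem pair_one {ν : ℕ} (y : Fin ν → F) (G : MvPolynomial (Fin ν) F) :
    pair y G 1 = eval y G := by
  rw [MvPolynomial.eval_eq']
  rfl

/-- finite generation data for the monomials of degree at most `d` -/
def Gen {ν : ℕ} (y : Fin ν → F) (D : Derivation ℤ F F) (d H : ℕ) : Prop :=
  ∃ (h : ℕ) (e : Fin h → F), h ≤ H ∧ Ind D e ∧
    ∀ α : Fin ν →₀ ℕ, (α.sum fun _ n => n) ≤ d →
      ∃ ρ : Fin h → F, (∀ i, D (ρ i) = 0) ∧ mon y α = ∑ i, ρ i * e i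

theorem chain (h4 : A4Stmt.{u}) [CharZero F] {ν : ℕ} {y : Fin ν → F}
    {T : Submodule F (Derivation ℤ F F)} (hT : LieT y T) (d H : ℕ) {J : ℕ}
    (α : Fin J → (Fin ν →₀ ℕ)) (hα : ∀ j, ((α j).sum fun _ n => n) ≤ d) (g : Fin J → F) :
    ∀ s : List (Derivation ℤ F F), (∀ D ∈ s, D ∈ T ∧ Straight y D ∧ Gen y D d H) →
    ∀ q : ℕ, (∀ A ∈ Dq T (q + s.length * H), ∑ j, g j * A (mon y (α j)) = 0) →
    ∀ A ∈ Dq T q, ∀ B ∈ W s, ∑ j, g j * B (A (mon y (α j))) = 0 := by
  intro s
  induction s with
  | nil =>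
    intro _ q hq A hA B hB
    have hB1 : B = 1 := hB
    subst hB1
    simpa using hq A (by simpa using hA)
  | cons X s ih =>
    intro hs q hq A hA B hB
    obtain ⟨B', hB', k, rfl⟩ := hB
    obtain ⟨hXT, hXs, h, e, hH, he, hρ⟩ := hs X List.mem_cons_self
    have h1 := ih (fun D hD => hs D (List.mem_cons_of_mem _ hD)) (q + H) (by
      intro A hA
      apply hq
      have h2 : q + H + s.length * H = q + (X :: s).length * H := by
        rw [List.length_cons]; ring
      rwa [h2] at hA)
    obtain ⟨Ω, _, _, c, Φ, hΩ⟩ := h4 F s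
    choose ρ hρ0 hρ1 using fun j => hρ (α j) (hα j)
    have h3 : ∀ A ∈ Dq T (q + h), ∑ j, c (g j) * Φ (A (∑ i, ρ j i * e i)) = 0 := by
      intro A hA
      simp_rw [← hρ1]
      rw [hΩ J g (fun j => A (mon y (α j)))]
      intro B hB
      exact h1 A (Dq_mono (by omega) hA) B hB
    have h4' := a3 F ν y T hT X hXT hXs Ω Φ J h e he ρ hρ0 (fun j => c (g j)) q h3 A hA k
    simp_rw [← hρ1] at h4'
    rw [hΩ J g (fun j => ((X.toLinearMap : Module.End ℤ F) ^ k * A) (mon y (α j)))] at h4'
    have h5 := h4' B' hB'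
    simpa [Module.End.mul_apply] using h5

theorem exists_vec {T : Submodule F (Derivation ℤ F F)} {Q J : ℕ}
    (hfin : Module.Finite F (Dq T Q)) (hJ : Module.finrank F (Dq T Q) < J) (x : Fin J → F) :
    ∃ g : Fin J → F, g ≠ 0 ∧ ∀ A ∈ Dq T Q, ∑ j, g j * A (x j) = 0 := by
  let ev : Fin J → Module.Dual F (Dq T Q) := fun j =>
    { toFun := fun A => (A : Module.End ℤ F) (x j)
      map_add' := by intro a b; simp
      map_smul' := by intro a b; simp }
  let Ψ : (Fin J → F) →ₗ[F] Module.Dual F (Dq T Q) := Fintype.linearCombination F ev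
  have hker : LinearMap.ker Ψ ≠ ⊥ := by
    apply LinearMap.ker_ne_bot_of_finrank_lt
    rw [Subspace.dual_finrank_eq]
    simpa using hJ
  obtain ⟨g, hg, hg0⟩ := (Submodule.ne_bot_iff _).1 hker
  refine ⟨g, hg0, ?_⟩
  intro A hA
  have h1 := LinearMap.congr_fun (LinearMap.mem_ker.1 hg) ⟨A, hA⟩
  have h2 : Ψ g ⟨A, hA⟩ = ∑ j, g j * A (x j) := by
    simp only [Ψ, Fintype.linearCombination_apply, LinearMap.sum_apply, LinearMap.smul_apply,
      smul_eq_mul]
    rfl
  rw [← h2]
  exact h1

end OD

open Finset MvPolynomial in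
theorem a6b (h4 : A4Stmt.{u}) (h5 : A5Stmt.{u}) : A6bStmt.{u} := by
  intro F _ _ ν y T hT hν s hs
  rcases s with _ | ⟨D, s'⟩
  · have hν0 : 0 < ν := by omega
    refine ⟨X ⟨0, hν0⟩ - C (y ⟨0, hν0⟩), ?_, ?_⟩
    · intro h
      have h1 := congrArg (coeff (Finsupp.single ⟨0, hν0⟩ 1)) h
      have h2 : (0 : Fin ν →₀ ℕ) ≠ Finsupp.single ⟨0, hν0⟩ 1 := by
        intro h
        have := DFunLike.congr_fun h ⟨0, hν0⟩
        simp at this
      rw [coeff_sub, coeff_X, coeff_C, if_neg h2, coeff_zero] at h1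
      simp at h1
    · intro A hA
      have hA1 : A = 1 := hA
      rw [hA1, OD.pair_one]
      simp
  · set s := D :: s' with hsdef
    have hD := hs D (by rw [hsdef]; exact List.mem_cons_self)
    obtain ⟨m, del, _, hfr, hspan, hcomm⟩ := a2 F ν y T hT D hD.1 hD.2
    -- a uniform constant
    have hC : ∀ l : List (Derivation ℤ F F), (∀ D ∈ l, D ∈ T ∧ Straight y D) →
        ∃ C : ℕ, ∀ D ∈ l, ∀ d, OD.Gen y D d (C * (d + 1)) := by
      intro l
      induction l with
      | nil => intro _; exact ⟨0, by simp⟩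
      | cons E l ih =>
        intro hl
        obtain ⟨C1, hC1⟩ := ih fun D hD => hl D (List.mem_cons_of_mem _ hD)
        obtain ⟨C2, hC2⟩ := h5 F ν y E (hl E List.mem_cons_self).2
        refine ⟨C1 + C2, ?_⟩
        intro D hD d
        rcases List.mem_cons.1 hD with rfl | hD
        · obtain ⟨h, e, hh, he, hr⟩ := hC2 d
          exact ⟨h, e, hh.trans (Nat.mul_le_mul_right _ (by omega)), he, hr⟩
        · obtain ⟨h, e, hh, he, hr⟩ := hC1 D hD d
          exact ⟨h, e, hh.trans (Nat.mul_le_mul_right _ (by omega)), he, hr⟩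
    obtain ⟨C, hC⟩ := hC s hs
    set C' := s.length * (C * (ν + 1)) with hC'
    set t := (C' + 1) ^ (m + 1) with ht
    set d := ν * t with hd
    set Q := s.length * (C * (d + 1)) with hQ
    have hQle : Q + 1 ≤ (C' + 1) * (t + 1) := by
      have h1 : d + 1 ≤ (ν + 1) * (t + 1) := by rw [hd]; nlinarith
      have h2 : Q ≤ C' * (t + 1) := by
        rw [hQ, hC']
        calc s.length * (C * (d + 1)) ≤ s.length * (C * ((ν + 1) * (t + 1))) :=
              Nat.mul_le_mul_left _ (Nat.mul_le_mul_left _ h1)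
          _ = s.length * (C * (ν + 1)) * (t + 1) := by ring
      nlinarith
    obtain ⟨_, hdim, hfin⟩ := a2b F T (m + 1) del hspan hcomm Q
    set box := Fin ν → Fin (t + 1) with hbox
    have hcard : Fintype.card box = (t + 1) ^ ν := by simp [hbox]
    set J := (t + 1) ^ ν with hJ
    have hlt : Module.finrank F (Dq T Q) < J := by
      have h1 : (Q + 1) ^ (m + 1) ≤ ((C' + 1) * (t + 1)) ^ (m + 1) :=
        Nat.pow_le_pow_left hQle (m + 1)
      have h2 : ((C' + 1) * (t + 1)) ^ (m + 1) < (t + 1) ^ (m + 1 + 1) := by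
        rw [mul_pow, pow_succ (t + 1) (m + 1), mul_comm ((t + 1) ^ (m + 1)) (t + 1)]
        exact Nat.mul_lt_mul_of_pos_right (by omega) (by positivity)
      have h3 : (t + 1) ^ (m + 1 + 1) ≤ (t + 1) ^ ν :=
        Nat.pow_le_pow_right (by omega) (by omega)
      omega
    let ee : Fin J ≃ box := (Fintype.equivFinOfCardEq hcard).symm
    let α : Fin J → (Fin ν →₀ ℕ) := fun j => Finsupp.equivFunOnFinite.symm fun i => (ee j i : ℕ)
    have hαinj : Function.Injective α := by
      intro j j' h
      apply ee.injective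
      funext i
      have := DFunLike.congr_fun h i
      simp only [α, Finsupp.equivFunOnFinite_symm_apply_apply] at this
      exact Fin.ext this
    have hαd : ∀ j, ((α j).sum fun _ n => n) ≤ d := by
      intro j
      rw [Finsupp.sum_fintype _ _ (by simp)]
      calc ∑ i, α j i ≤ ∑ _i : Fin ν, t := by
            refine Finset.sum_le_sum fun i _ => ?_
            simp only [α, Finsupp.equivFunOnFinite_symm_apply_apply]
            omega
        _ = d := by simp [hd]
    obtain ⟨g, hg0, hg⟩ := OD.exists_vec hfin hlt (fun j => mon y (α j))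
    have hch := OD.chain h4 hT d (C * (d + 1)) α hαd g s
      (fun D hD => ⟨(hs D hD).1, (hs D hD).2, hC D hD d⟩) 0 (by
        intro A hA
        apply hg A
        rwa [zero_add] at hA) 1 (OD.one_mem_Dq T 0)
    refine ⟨∑ j, monomial (α j) (g j), ?_, ?_⟩
    · intro h0
      apply hg0
      funext j
      have h1 := congrArg (coeff (α j)) h0
      rw [coeff_sum, coeff_zero] at h1
      simp only [coeff_monomial] at h1
      rw [Finset.sum_eq_single j (fun j' _ hj' => by rw [if_neg (fun h => hj' (hαinj h))])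
        (by simp)] at h1
      simpa using h1
    · intro A hA
      rw [OD.pair_sum]
      simp_rw [OD.pair_monomial]
      simpa using hch A hA

end GZ
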