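import Pool.Agent.GZ.Rows

/-!
# GZ row A7: a nonzero polynomial orthogonal to all words in straight derivations
-/

namespace GZ

open MvPolynomial

universe u

section A7

variable {F : Type u} [Field F] {ν : ℕ}

theorem coeff_nabla (D : Derivation ℤ F F) (G : MvPolynomial (Fin ν) F) (α : Fin ν →₀ ℕ) :
    (nabla D G).coeff α = D (G.coeff α) := by
  classical
  rw [nabla, coeff_sum]
  simp only [coeff_monomial]
  rw [Finset.sum_ite_eq']
  split_ifs with h
  · rfl
  · rw [notMem_support_iff.1 h, map_zero]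

theorem pair_of_subset (y : Fin ν → F) (G : MvPolynomial (Fin ν) F) (A : Module.End ℤ F)
    {S : Finset (Fin ν →₀ ℕ)} (h : G.support ⊆ S) :
    pair y G A = ∑ α ∈ S, G.coeff α * A (mon y α) := by
  rw [pair]
  refine Finset.sum_subset h fun α _ hα => ?_
  rw [notMem_support_iff.1 hα, zero_mul]

theorem support_nabla (D : Derivation ℤ F F) (G : MvPolynomial (Fin ν) F) :
    (nabla D G).support ⊆ G.support := by
  intro α hα
  rw [mem_support_iff, coeff_nabla] at hα
  rw [mem_support_iff]
  intro h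
  exact hα (by rw [h, map_zero])

/-- Leibniz rule for the pairing. -/
theorem der_pair (D : Derivation ℤ F F) (y : Fin ν → F) (G : MvPolynomial (Fin ν) F)
    (A : Module.End ℤ F) :
    D (pair y G A) = pair y (nabla D G) A + pair y G ((D.toLinearMap : Module.End ℤ F) * A) := by
  rw [pair_of_subset y (nabla D G) A (support_nabla D G), pair, pair, map_sum,
    ← Finset.sum_add_distrib]
  refine Finset.sum_congr rfl fun α _ => ?_
  rw [D.leibniz, coeff_nabla, smul_eq_mul, smul_eq_mul, add_comm, mul_comm (A (mon y α))]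
  rfl

theorem one_mem_W (s : List (Derivation ℤ F F)) : (1 : Module.End ℤ F) ∈ W s := by
  induction s with
  | nil => exact rfl
  | cons X s ih => exact ⟨1, ih, 0, by rw [pow_zero, mul_one]⟩

theorem mem_W_append (X₀ : Derivation ℤ F F) (s : List (Derivation ℤ F F))
    {A : Module.End ℤ F} (hA : A ∈ W s) (k : ℕ) :
    (X₀.toLinearMap : Module.End ℤ F) ^ k * A ∈ W (s ++ [X₀]) := by
  induction s generalizing A with
  | nil =>
    have h : A = 1 := hA
    rw [h]
    exact ⟨1, rfl, k, by rw [one_mul, mul_one]⟩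
  | cons X s ih =>
    obtain ⟨B, hB, j, rfl⟩ := hA
    exact ⟨_, ih hB, j, by rw [mul_assoc]⟩

end A7

theorem a7 (h6 : A6Stmt.{u}) (h6b : A6bStmt.{u}) : A7Stmt.{u} := by
  intro F _ _ ν y T hT hdim
  choose I hIp hI using fun s => h6 F ν y s
  -- chains of straight derivations in `T`
  let good : Set (List (Derivation ℤ F F)) := {s | ∀ D ∈ s, D ∈ T ∧ Straight y D}
  have hne : good.Nonempty := ⟨[], fun D hD => absurd hD (List.not_mem_nil)⟩
  obtain ⟨s, hs, hmin⟩ := exists_minimalFor_of_wellFoundedLT (· ∈ good)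
    (fun s => (I s).height) hne
  -- stability
  have hstab : ∀ X₀ : Derivation ℤ F F, X₀ ∈ T → Straight y X₀ → I (s ++ [X₀]) = I s := by
    intro X₀ hX₀ hX₀'
    have hle : I (s ++ [X₀]) ≤ I s := by
      intro G hG
      rw [hI] at hG ⊢
      intro A hA
      have h1 := hG _ (mem_W_append X₀ s hA 0)
      rwa [pow_zero, one_mul] at h1
    by_contra hcon
    have hlt : I (s ++ [X₀]) < I s := lt_of_le_of_ne hle hcon
    have h1 : (I (s ++ [X₀])).IsPrime := hIp _
    have h2 : (I s).IsPrime := hIp _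
    have h3 := Ideal.height_strict_mono_of_isPrime_of_isPrime hlt
    have hg : (s ++ [X₀]) ∈ good := by
      intro D hD
      rcases List.mem_append.1 hD with hD | hD
      · exact hs D hD
      · rw [List.mem_singleton] at hD
        rw [hD]
        exact ⟨hX₀, hX₀'⟩
    exact absurd (hmin hg h3.le) (not_le.2 h3)
  have hnab : ∀ X₀ : Derivation ℤ F F, X₀ ∈ T → Straight y X₀ → ∀ G ∈ I s, nabla X₀ G ∈ I s := by
    intro X₀ hX₀ hX₀' G hG
    have hG' : G ∈ I (s ++ [X₀]) := by rw [hstab X₀ hX₀ hX₀']; exact hG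
    rw [hI] at hG hG' ⊢
    intro A hA
    have h1 := der_pair X₀ y G A
    have h2 := hG' _ (mem_W_append X₀ s hA 1)
    rw [pow_one] at h2
    rw [hG A hA, map_zero, h2, add_zero] at h1
    exact h1.symm
  obtain ⟨G, hG0, hG⟩ := h6b F ν y T hT hdim s hs
  refine ⟨G, hG0, fun A hA => ?_⟩
  have hGI : G ∈ I s := (hI s G).2 hG
  have key : ∀ A ∈ Submonoid.closure {A : Module.End ℤ F | ∃ D ∈ T, Straight y D ∧
      A = D.toLinearMap}, ∀ G ∈ I s, pair y G A = 0 := by
    intro A hA
    refine Submonoid.closure_induction_left (motive := fun A _ => ∀ G ∈ I s, pair y G A = 0)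
      ?_ ?_ hA
    · intro G hG
      exact (hI s G).1 hG 1 (one_mem_W s)
    · rintro _ ⟨D, hD, hst, rfl⟩ B _ ih G hG
      have h1 := der_pair D y G B
      rw [ih G hG, ih _ (hnab D hD hst G hG), map_zero, zero_add] at h1
      exact h1.symm
  exact key A hA G hGI

end GZ
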