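import Pool.Agent.GZ.Rows

/-! GZ row A8a (helper40): the universal field. -/

namespace GZ

open MvPolynomial Filter

universe u

theorem a8a : A8aStmt.{u} := by
  intro K _
  let R := MvPolynomial ℕ K
  let Q := FractionRing R
  let F := AlgebraicClosure Q
  have : FaithfulSMul R F := by
    rw [faithfulSMul_iff_algebraMap_injective, IsScalarTower.algebraMap_eq R Q F]
    exact (algebraMap Q F).injective.comp (IsFractionRing.injective R Q)
  have : Algebra.IsAlgebraic R Q := IsLocalization.isAlgebraic Q (nonZeroDivisors R)
  have : Algebra.IsAlgebraic R F := Algebra.IsAlgebraic.trans R Q F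
  have hb : IsTranscendenceBasis K (algebraMap R F ∘ (X : ℕ → R)) :=
    (IsTranscendenceBasis.mvPolynomial ℕ K).algebraMap_comp
  exact ⟨{ F := F, z := algebraMap R F ∘ (X : ℕ → R), closed := inferInstance, indep := hb.1,
           algebraic := hb.isAlgebraic_field }⟩

end GZ
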