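import Pool.Agent.GZ.Rows

/-!
# GZ, row A8b: extension of a derivation to the universal field
-/

namespace GZ

open MvPolynomial TensorProduct

universe u

section

variable {K : Type u} [Field K] (UF : UField.{u} K) (δ : Derivation ℤ K K)

/-- The lift of `K` to the dual numbers over `F`. -/
noncomputable def A8b.phi : K →+* TrivSqZeroExt UF.F UF.F where
  toFun a := TrivSqZeroExt.inl (algebraMap K UF.F a) + TrivSqZeroExt.inr (algebraMap K UF.F (δ a))
  map_one' := by
    simp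
  map_zero' := by
    simp
  map_add' a b := by
    apply TrivSqZeroExt.ext
    · simp
    · simp only [TrivSqZeroExt.snd_add, TrivSqZeroExt.snd_inl, TrivSqZeroExt.snd_inr, map_add,
        zero_add]
  map_mul' a b := by
    apply TrivSqZeroExt.ext
    · simp
    · simp only [TrivSqZeroExt.snd_add, TrivSqZeroExt.snd_inl, TrivSqZeroExt.snd_inr,
        TrivSqZeroExt.snd_mul, TrivSqZeroExt.fst_add, TrivSqZeroExt.fst_inl,
        TrivSqZeroExt.fst_inr, Derivation.leibniz, smul_eq_mul, map_add, map_mul, zero_add,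
        add_zero, MulOpposite.smul_eq_mul_unop, MulOpposite.unop_op]
      ring

/-- The ring homomorphism `K[z] → F[ε]`. -/
noncomputable def A8b.psi : MvPolynomial ℕ K →+* TrivSqZeroExt UF.F UF.F :=
  eval₂Hom (A8b.phi UF δ) (fun i => TrivSqZeroExt.inl (UF.z i))

theorem A8b.psi_fst (P : MvPolynomial ℕ K) : (A8b.psi UF δ P).fst = aeval UF.z P := by
  have h : (TrivSqZeroExt.fstHom UF.F UF.F UF.F).toRingHom.comp (A8b.psi UF δ) =
      (aeval UF.z : MvPolynomial ℕ K →ₐ[K] UF.F).toRingHom := by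
    apply MvPolynomial.ringHom_ext
    · intro a
      simp [A8b.psi, A8b.phi]
    · intro i
      simp [A8b.psi]
  exact congrArg (fun f : MvPolynomial ℕ K →+* UF.F => f P) h

/-- the subring `K[z]` of `F`. -/
abbrev A8b.S : Subalgebra K UF.F := Algebra.adjoin K (Set.range UF.z)

/-- the underlying function of the derivation on `K[z]`. -/
noncomputable def A8b.fn (s : A8b.S UF) : UF.F :=
  (A8b.psi UF δ (UF.indep.aevalEquiv.symm s)).snd

theorem A8b.fst (s : A8b.S UF) :
    (A8b.psi UF δ (UF.indep.aevalEquiv.symm s)).fst = (s : UF.F) := by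
  rw [A8b.psi_fst]
  have h1 := UF.indep.algebraMap_aevalEquiv (UF.indep.aevalEquiv.symm s)
  rw [AlgEquiv.apply_symm_apply] at h1
  exact h1.symm

theorem A8b.fn_add (a b : A8b.S UF) : A8b.fn UF δ (a + b) = A8b.fn UF δ a + A8b.fn UF δ b := by
  simp [A8b.fn]

theorem A8b.fn_mul (a b : A8b.S UF) :
    A8b.fn UF δ (a * b) = a • A8b.fn UF δ b + b • A8b.fn UF δ a := by
  unfold A8b.fn
  rw [map_mul, map_mul, TrivSqZeroExt.snd_mul, A8b.fst, A8b.fst]
  simp only [Algebra.smul_def, MulOpposite.smul_eq_mul_unop, MulOpposite.unop_op]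
  rw [mul_comm ((A8b.psi UF δ (UF.indep.aevalEquiv.symm a)).snd)]
  rfl

/-- the derivation on `K[z]`. -/
noncomputable def A8b.d0 : Derivation ℤ (A8b.S UF) UF.F :=
  Derivation.mk' (AddMonoidHom.mk' (A8b.fn UF δ) (A8b.fn_add UF δ)).toIntLinearMap
    (A8b.fn_mul UF δ)

theorem A8b.d0_apply (s : A8b.S UF) : A8b.d0 UF δ s = A8b.fn UF δ s := rfl

theorem A8b.d0_algebraMap (a : K) :
    A8b.d0 UF δ (algebraMap K (A8b.S UF) a) = algebraMap K UF.F (δ a) := by
  rw [A8b.d0_apply, A8b.fn, AlgEquiv.commutes, A8b.psi, MvPolynomial.algebraMap_eq, coe_eval₂Hom,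
    eval₂_C]
  change (TrivSqZeroExt.inl (algebraMap K UF.F a) +
    TrivSqZeroExt.inr (algebraMap K UF.F (δ a)) : TrivSqZeroExt UF.F UF.F).snd = _
  rw [TrivSqZeroExt.snd_add, TrivSqZeroExt.snd_inl, TrivSqZeroExt.snd_inr, zero_add]

theorem A8b.d0_z (i : ℕ) :
    A8b.d0 UF δ ⟨UF.z i, Algebra.subset_adjoin ⟨i, rfl⟩⟩ = 0 := by
  have h : UF.indep.aevalEquiv.symm ⟨UF.z i, Algebra.subset_adjoin ⟨i, rfl⟩⟩ = X i := by
    rw [AlgEquiv.symm_apply_eq]
    apply Subtype.ext
    have h1 := UF.indep.algebraMap_aevalEquiv (X i)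
    rw [aeval_X] at h1
    exact h1.symm
  rw [A8b.d0_apply, A8b.fn, h, A8b.psi, coe_eval₂Hom, eval₂_X]
  simp

open scoped IntermediateField.algebraAdjoinAdjoin in
theorem A8b.etale [CharZero K] : Algebra.FormallyEtale (A8b.S UF) UF.F := by
  have hF : CharZero UF.F := charZero_of_injective_algebraMap (algebraMap K UF.F).injective
  have h1 : Algebra.FormallyEtale (A8b.S UF) (IntermediateField.adjoin K (Set.range UF.z)) :=
    .of_isLocalization (nonZeroDivisors _)
  have h2 : Algebra.IsAlgebraic (IntermediateField.adjoin K (Set.range UF.z)) UF.F := UF.algebraic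
  have h3 : Algebra.FormallyEtale (IntermediateField.adjoin K (Set.range UF.z)) UF.F :=
    Algebra.FormallyEtale.of_isSeparable _ _
  exact .comp _ (IntermediateField.adjoin K (Set.range UF.z)) _

end

theorem a8b : A8bStmt.{u} := by
  intro K _ _ UF δ
  have := A8b.etale UF
  let e := KaehlerDifferential.tensorKaehlerEquivOfFormallyEtale ℤ (A8b.S UF) UF.F
  let L : UF.F ⊗[A8b.S UF] Ω[(A8b.S UF)⁄ℤ] →ₗ[UF.F] UF.F :=
    (A8b.d0 UF δ).liftKaehlerDifferential.liftBaseChange UF.F
  let δ' : Derivation ℤ UF.F UF.F :=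
    (L ∘ₗ e.symm.toLinearMap).compDer (KaehlerDifferential.D ℤ UF.F)
  have key : ∀ s : A8b.S UF, δ' (algebraMap (A8b.S UF) UF.F s) = A8b.d0 UF δ s := by
    intro s
    change L (e.symm (KaehlerDifferential.D ℤ UF.F (algebraMap (A8b.S UF) UF.F s))) = _
    rw [KaehlerDifferential.tensorKaehlerEquivOfFormallyEtale_symm_D_algebraMap,
      LinearMap.liftBaseChange_tmul, one_smul, Derivation.liftKaehlerDifferential_comp_D]
  refine ⟨δ', fun a => ?_, fun i => ?_⟩
  · have h1 : algebraMap K UF.F a = algebraMap (A8b.S UF) UF.F (algebraMap K (A8b.S UF) a) := rfl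
    rw [h1, key, A8b.d0_algebraMap]
  · have h1 := key ⟨UF.z i, Algebra.subset_adjoin ⟨i, rfl⟩⟩
    rw [A8b.d0_z] at h1
    exact h1

end GZ
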