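import Pool.Agent.GZ.Rows

/-!
# GZ, row A8c: uniqueness of derivations on algebraic extensions
-/

namespace GZ

universe u

theorem a8c : A8cStmt.{u} := by
  intro E F _ _ _ φ D D' hD hD' K hK a ha
  -- the difference
  set Δ : E →+ F := D - D' with hΔ
  have hleib : ∀ x y, Δ (x * y) = φ x * Δ y + φ y * Δ x := by
    intro x y
    simp only [hΔ, AddMonoidHom.sub_apply, hD, hD']
    ring
  have hzero : ∀ x : K, Δ (x : E) = 0 := by
    intro x
    rw [hΔ, AddMonoidHom.sub_apply, hK x x.2, sub_self]
  have hone : Δ 1 = 0 := hzero 1
  have hpow : ∀ n : ℕ, Δ (a ^ (n + 1)) = φ ((n + 1 : ℕ) * a ^ n) * Δ a := by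
    intro n
    induction n with
    | zero => simp
    | succ n ih =>
      rw [pow_succ, hleib, ih]
      simp only [map_mul, map_pow, map_natCast]
      push_cast
      ring
  have hpoly : ∀ p : Polynomial K, Δ (Polynomial.aeval a p) =
      φ (Polynomial.aeval a (Polynomial.derivative p)) * Δ a := by
    intro p
    induction p using Polynomial.induction_on' with
    | add p q hp hq =>
      rw [map_add, map_add, hp, hq, map_add, map_add, map_add]
      ring
    | monomial n c =>
      rw [Polynomial.aeval_monomial, hleib]
      have h1 : Δ (algebraMap K E c) = 0 := hzero c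
      rw [h1, mul_zero, add_zero]
      cases n with
      | zero => simp [hone]
      | succ n =>
        rw [hpow, Polynomial.derivative_monomial, Polynomial.aeval_monomial]
        simp only [map_mul, map_pow, map_natCast, Nat.add_sub_cancel]
        ring
  have hint : IsIntegral K a := ha.isIntegral
  have hsep : (minpoly K a).Separable := (minpoly.irreducible hint).separable
  have hne : Polynomial.aeval a (Polynomial.derivative (minpoly K a)) ≠ 0 :=
    hsep.aeval_derivative_ne_zero (minpoly.aeval K a)
  have h1 := hpoly (minpoly K a)
  rw [minpoly.aeval, map_zero] at h1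
  have h2 : Δ a = 0 := by
    rcases mul_eq_zero.1 h1.symm with h | h
    · exact absurd ((map_eq_zero φ).1 h) hne
    · exact h
  rw [hΔ, AddMonoidHom.sub_apply, sub_eq_zero] at h2
  exact h2

end GZ
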