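import Pool.Agent.GZ.Rows

/-!
# GZ row A8d: the fixed field of the automorphisms commuting with the extended derivations
-/

namespace GZ

open MvPolynomial

universe u

namespace A8d

variable {K : Type u} [Field K]

/-- additive maps with the Leibniz rule kill one -/
theorem leib_one {F : Type u} [Field F] (D : F →+ F)
    (hD : ∀ a b, D (a * b) = a * D b + b * D a) : D 1 = 0 := by
  have h := hD 1 1
  rw [mul_one, one_mul] at h
  exact left_eq_add.mp h

/-- Leibniz rule for inverses -/
theorem leib_inv {F : Type u} [Field F] (D : F →+ F)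
    (hD : ∀ a b, D (a * b) = a * D b + b * D a) (x : F) (hx : x ≠ 0) :
    D x⁻¹ = -(x⁻¹ * (x⁻¹ * D x)) := by
  have h := hD x x⁻¹
  rw [mul_inv_cancel₀ hx, leib_one D hD] at h
  have h2 : x * D x⁻¹ = -(x⁻¹ * D x) := by linear_combination -h
  calc D x⁻¹ = x⁻¹ * (x * D x⁻¹) := by rw [← mul_assoc, inv_mul_cancel₀ hx, one_mul]
    _ = _ := by rw [h2]; ring

theorem deriv_eq [CharZero K] (UF : UField.{u} K) (h8c : A8cStmt.{u}) (D D' : UF.F →+ UF.F)
    (hD : ∀ a b, D (a * b) = a * D b + b * D a) (hD' : ∀ a b, D' (a * b) = a * D' b + b * D' a)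
    (hK : ∀ a : K, D (algebraMap K UF.F a) = D' (algebraMap K UF.F a))
    (hz : ∀ i, D (UF.z i) = D' (UF.z i)) : ∀ x, D x = D' x := by
  have hF : CharZero UF.F := charZero_of_injective_algebraMap (algebraMap K UF.F).injective
  have halg := UF.algebraic
  have hL : ∀ x ∈ IntermediateField.adjoin K (Set.range UF.z), D x = D' x := by
    intro x hx
    induction hx using IntermediateField.adjoin_induction with
    | mem x hx =>
      obtain ⟨i, rfl⟩ := hx
      exact hz i
    | algebraMap x => exact hK x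
    | add x y _ _ hx hy => rw [map_add, map_add, hx, hy]
    | inv x _ hx =>
      by_cases h0 : x = 0
      · rw [h0, inv_zero, map_zero, map_zero]
      · rw [leib_inv D hD x h0, leib_inv D' hD' x h0, hx]
    | mul x y _ _ hx hy => rw [hD, hD', hx, hy]
  intro x
  refine h8c UF.F UF.F (RingHom.id _) D D' hD hD'
    (IntermediateField.adjoin K (Set.range UF.z)).toSubfield hL x ?_
  obtain ⟨p, hp0, hp⟩ := halg.isAlgebraic x
  let ι : ↥(IntermediateField.adjoin K (Set.range UF.z)) →+*
      ↥(IntermediateField.adjoin K (Set.range UF.z)).toSubfield :=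
    { toFun := fun y => ⟨y.1, y.2⟩
      map_one' := rfl
      map_mul' := fun _ _ => rfl
      map_zero' := rfl
      map_add' := fun _ _ => rfl }
  refine ⟨p.map ι, ?_, ?_⟩
  · rw [Polynomial.map_ne_zero_iff ι.injective]
    exact hp0
  · rw [Polynomial.aeval_def, Polynomial.eval₂_map]
    rw [Polynomial.aeval_def] at hp
    exact hp

/-- automorphisms which move each `z i` by an integer commute with the extended derivations -/
theorem comm_of_shift [CharZero K] (UF : UField.{u} K) (h8c : A8cStmt.{u}) (σ : UF.F ≃ₐ[K] UF.F)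
    (hσ : ∀ i, ∃ n : ℤ, σ (UF.z i) = UF.z i + (n : UF.F))
    (δ : Derivation ℤ K K) (δ' : Derivation ℤ UF.F UF.F)
    (h1 : ∀ a, δ' (algebraMap K UF.F a) = algebraMap K UF.F (δ a)) (h2 : ∀ i, δ' (UF.z i) = 0)
    (w : UF.F) : σ (δ' w) = δ' (σ w) := by
  let D : UF.F →+ UF.F :=
    { toFun := fun x => σ.symm (δ' (σ x))
      map_zero' := by simp
      map_add' := fun x y => by simp }
  let D' : UF.F →+ UF.F :=
    { toFun := fun x => δ' x
      map_zero' := by simp
      map_add' := fun x y => by simp }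
  have h := deriv_eq UF h8c D D' ?_ ?_ ?_ ?_ w
  · have h' : σ.symm (δ' (σ w)) = δ' w := h
    rw [← h', AlgEquiv.apply_symm_apply]
  · intro a b
    show σ.symm (δ' (σ (a * b))) = a * σ.symm (δ' (σ b)) + b * σ.symm (δ' (σ a))
    rw [map_mul, Derivation.leibniz, map_add, smul_eq_mul, smul_eq_mul, map_mul, map_mul,
      AlgEquiv.symm_apply_apply, AlgEquiv.symm_apply_apply]
  · intro a b
    show δ' (a * b) = a * δ' b + b * δ' a
    rw [Derivation.leibniz, smul_eq_mul, smul_eq_mul]
  · intro a
    show σ.symm (δ' (σ (algebraMap K UF.F a))) = δ' (algebraMap K UF.F a)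
    rw [AlgEquiv.commutes, h1, AlgEquiv.commutes]
  · intro i
    show σ.symm (δ' (σ (UF.z i))) = δ' (UF.z i)
    obtain ⟨n, hn⟩ := hσ i
    rw [hn, map_add, h2]
    have h3 : δ' (n : UF.F) = 0 := by
      have := δ'.map_algebraMap n
      simpa using this
    rw [h3, add_zero, map_zero]

/-- the shift of the variables -/
noncomputable def shiftHom (m : ℕ → K) : MvPolynomial ℕ K →ₐ[K] MvPolynomial ℕ K :=
  aeval fun i => X i + C (m i)

noncomputable def shiftEquiv (m : ℕ → K) : MvPolynomial ℕ K ≃ₐ[K] MvPolynomial ℕ K :=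
  AlgEquiv.ofAlgHom (shiftHom m) (shiftHom (fun i => -m i))
    (by ext i : 1; simp [shiftHom]) (by ext i : 1; simp [shiftHom])

theorem eval_shiftHom (m x : ℕ → K) (p : MvPolynomial ℕ K) :
    eval x (shiftHom m p) = eval (x + m) p := by
  have h : ((aeval x : MvPolynomial ℕ K →ₐ[K] K).comp (shiftHom m)) =
      (aeval (x + m) : MvPolynomial ℕ K →ₐ[K] K) := by
    ext i : 1
    simp [shiftHom]
  have h2 := congrArg (fun g : MvPolynomial ℕ K →ₐ[K] K => g p) h
  simpa [coe_aeval_eq_eval] using h2

/-- every integral shift lifts to the universal field -/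
theorem exists_lift (UF : UField.{u} K) (m : ℕ → K) :
    ∃ σ : UF.F ≃ₐ[K] UF.F, ∀ p : MvPolynomial ℕ K,
      σ (aeval UF.z p) = aeval UF.z (shiftHom m p) := by
  have hcl := UF.closed
  have halg := UF.algebraic
  have hx := UF.indep
  set A := Algebra.adjoin K (Set.range UF.z) with hA
  have halgA : Algebra.IsAlgebraic A UF.F := by
    open scoped IntermediateField.algebraAdjoinAdjoin in
    exact Algebra.IsAlgebraic.trans A (IntermediateField.adjoin K (Set.range UF.z)) UF.F
  have hclo : IsAlgClosure A UF.F := ⟨hcl, halgA⟩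
  let e : A ≃ₐ[K] A := (hx.aevalEquiv.symm.trans (shiftEquiv m)).trans hx.aevalEquiv
  have he : ∀ p : MvPolynomial ℕ K, e (hx.aevalEquiv p) = hx.aevalEquiv (shiftHom m p) := by
    intro p
    show hx.aevalEquiv (shiftEquiv m (hx.aevalEquiv.symm (hx.aevalEquiv p))) = _
    rw [AlgEquiv.symm_apply_apply]
    rfl
  let τ : UF.F ≃+* UF.F := IsAlgClosure.equivOfEquiv UF.F UF.F e.toRingEquiv
  have hτ : ∀ a : A, τ (algebraMap A UF.F a) = algebraMap A UF.F (e a) := fun a =>
    IsAlgClosure.equivOfEquiv_algebraMap UF.F UF.F e.toRingEquiv a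
  refine ⟨AlgEquiv.ofRingEquiv (f := τ) ?_, ?_⟩
  · intro a
    have h1 : algebraMap K UF.F a = algebraMap A UF.F (algebraMap K A a) := rfl
    rw [h1, hτ, AlgEquiv.commutes]
  · intro p
    show τ (aeval UF.z p) = _
    have h1 : aeval UF.z p = algebraMap A UF.F (hx.aevalEquiv p) :=
      (hx.algebraMap_aevalEquiv p).symm
    rw [h1, hτ, he, hx.algebraMap_aevalEquiv]

end A8d

open A8d in
theorem a8d (h8c : A8cStmt.{u}) : A8dStmt.{u} := by
  intro K _ _ UF f hf
  have hF : CharZero UF.F := charZero_of_injective_algebraMap (algebraMap K UF.F).injective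
  have hcl := UF.closed
  have halg := UF.algebraic
  -- first step: f lies in K(z)
  have h1 : f ∈ IntermediateField.adjoin K (Set.range UF.z) := by
    set L := IntermediateField.adjoin K (Set.range UF.z) with hL
    have hclo : IsAlgClosure L UF.F := ⟨hcl, halg⟩
    have hnorm : Normal L UF.F := IsAlgClosure.normal L UF.F
    have hsep : Algebra.IsSeparable L UF.F := inferInstance
    have hgal : IsGalois L UF.F := ⟨⟩
    have h2 : f ∈ Set.range (algebraMap L UF.F) := by
      rw [InfiniteGalois.mem_range_algebraMap_iff_fixed]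
      intro σ
      have h3 := hf (σ.restrictScalars K) ?_
      · exact h3
      · intro δ δ' hδ hz w
        refine comm_of_shift UF h8c (σ.restrictScalars K) ?_ δ δ' hδ hz w
        intro i
        refine ⟨0, ?_⟩
        have h4 : σ (algebraMap L UF.F ⟨UF.z i, IntermediateField.subset_adjoin _ _ ⟨i, rfl⟩⟩) =
            algebraMap L UF.F ⟨UF.z i, IntermediateField.subset_adjoin _ _ ⟨i, rfl⟩⟩ :=
          σ.commutes _
        have h5 : σ (UF.z i) = UF.z i := h4
        simpa using h5
    obtain ⟨y, rfl⟩ := h2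
    exact y.2
  rw [IntermediateField.mem_adjoin_range_iff] at h1
  obtain ⟨p, q, hpq⟩ := h1
  by_cases hq0 : q = 0
  · refine ⟨0, ?_⟩
    rw [hpq, hq0, map_zero, div_zero, map_zero]
  -- shifts
  have hinj := algebraicIndependent_iff_injective_aeval.1 UF.indep
  have hne : ∀ r : MvPolynomial ℕ K, r ≠ 0 → aeval UF.z r ≠ 0 := by
    intro r hr h
    exact hr (hinj (by rw [h, map_zero]))
  have hshift : ∀ m : ℕ → ℤ, shiftHom (fun i => (m i : K)) p * q =
      p * shiftHom (fun i => (m i : K)) q := by
    intro m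
    obtain ⟨σ, hσ⟩ := exists_lift UF (fun i => (m i : K))
    have h2 : σ f = f := by
      apply hf
      intro δ δ' hδ hz w
      refine comm_of_shift UF h8c σ ?_ δ δ' hδ hz w
      intro i
      refine ⟨m i, ?_⟩
      have h3 := hσ (X i)
      simpa [shiftHom] using h3
    rw [hpq, map_div₀, hσ, hσ] at h2
    have hq1 : aeval UF.z q ≠ 0 := hne q hq0
    have hq2 : aeval UF.z (shiftHom (fun i => (m i : K)) q) ≠ 0 := by
      rw [← hσ]
      exact (map_ne_zero_iff σ σ.injective).mpr hq1
    rw [div_eq_div_iff hq2 hq1, ← map_mul, ← map_mul] at h2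
    exact hinj h2
  -- integer points
  have hints : ∀ r s : MvPolynomial ℕ K,
      (∀ x : ℕ → ℤ, eval (fun i => (x i : K)) r = eval (fun i => (x i : K)) s) → r = s := by
    intro r s h
    refine funext_set (fun _ => Set.range (fun n : ℤ => (n : K)))
      (fun _ => Set.infinite_range_of_injective Int.cast_injective) ?_
    intro x hx
    have hx' : ∀ i, ∃ n : ℤ, (n : K) = x i := fun i => hx i (Set.mem_univ i)
    choose y hy using hx'
    have hy' : x = fun i => (y i : K) := funext fun i => (hy i).symm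
    rw [hy']
    exact h y
  obtain ⟨n0, hn0⟩ : ∃ x : ℕ → ℤ, eval (fun i => (x i : K)) q ≠ 0 := by
    by_contra hcon
    push Not at hcon
    exact hq0 (hints q 0 fun x => by rw [hcon x, map_zero])
  have hconst : C (eval (fun i => (n0 i : K)) q) * p = C (eval (fun i => (n0 i : K)) p) * q := by
    apply hints
    intro x
    have h3 := congrArg (eval (fun i => (n0 i : K))) (hshift (fun i => x i - n0 i))
    rw [map_mul, map_mul, eval_shiftHom, eval_shiftHom] at h3
    have h4 : ((fun i => (n0 i : K)) + fun i => ((x i - n0 i : ℤ) : K)) = fun i => (x i : K) := by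
      funext i
      simp
    rw [h4] at h3
    rw [map_mul, map_mul, eval_C, eval_C]
    rw [← h3, mul_comm]
  refine ⟨eval (fun i => (n0 i : K)) p / eval (fun i => (n0 i : K)) q, ?_⟩
  have hq1 : aeval UF.z q ≠ 0 := hne q hq0
  rw [hpq, map_div₀, div_eq_div_iff hq1 ((map_ne_zero (algebraMap K UF.F)).mpr hn0)]
  have h5 := congrArg (aeval UF.z) hconst
  rw [map_mul, map_mul, ← algebraMap_eq, AlgHom.commutes, AlgHom.commutes] at h5
  rw [mul_comm, h5]

end GZ
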