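import Pool.Agent.GZ.Defs

/-!
# GZ: statements of the rows (each row is a `Prop`, proved in its own file)
-/

namespace GZ

open MvPolynomial Filter

universe u

/-! ## A block: differential algebra -/

/-- A1: Wronskian. -/
def A1Stmt : Prop := ∀ (F : Type u) [Field F] (D : Derivation ℤ F F) (h : ℕ) (e : Fin h → F),
  (∀ κ : Fin h → F, (∀ i, D (κ i) = 0) → ∑ i, κ i * e i = 0 → κ = 0) →
  (Matrix.of fun (a b : Fin h) => (D.toLinearMap ^ (a : ℕ) : Module.End ℤ F) (e b)).det ≠ 0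

/-- A2: adapted commuting basis. -/
def A2Stmt : Prop := ∀ (F : Type u) [Field F] [CharZero F] (ν : ℕ) (y : Fin ν → F)
  (T : Submodule F (Derivation ℤ F F)), LieT y T → ∀ D ∈ T, Straight y D →
  ∃ (m : ℕ) (del : Fin (m + 1) → Derivation ℤ F F), del 0 = D ∧
    Module.finrank F T = m + 1 ∧
    Submodule.span F (Set.range del) = T ∧ (∀ a b, ⁅del a, del b⁆ = 0)

/-- A2': if `T` is spanned by commuting `del`, then `Dq T q` is spanned by the ordered monomials, and has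
dimension at most `(q + 1) ^ (m + 1)`. -/
def A2bStmt : Prop := ∀ (F : Type u) [Field F]
  (T : Submodule F (Derivation ℤ F F)) (m : ℕ) (del : Fin m → Derivation ℤ F F),
  Submodule.span F (Set.range del) = T → (∀ a b, ⁅del a, del b⁆ = 0) → ∀ q : ℕ,
  Dq T q = Submodule.span F {A | ∃ β : Fin m → ℕ, ∑ a, β a ≤ q ∧
      A = (List.ofFn fun a => ((del a).toLinearMap : Module.End ℤ F) ^ β a).prod} ∧
  Module.finrank F (Dq T q) ≤ (q + 1) ^ m ∧ Module.Finite F (Dq T q)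

/-- A3: order drop. -/
def A3Stmt : Prop := ∀ (F : Type u) [Field F] [CharZero F] (ν : ℕ) (y : Fin ν → F)
  (T : Submodule F (Derivation ℤ F F)), LieT y T → ∀ D ∈ T, Straight y D →
  ∀ (Ω : Type u) [CommRing Ω] [IsDomain Ω] (Φ : F →+* Ω) (J h : ℕ) (e : Fin h → F),
  (∀ κ : Fin h → F, (∀ i, D (κ i) = 0) → ∑ i, κ i * e i = 0 → κ = 0) →
  ∀ (ρ : Fin J → Fin h → F), (∀ j i, D (ρ j i) = 0) →
  ∀ (g : Fin J → Ω) (q : ℕ),
  (∀ A ∈ Dq T (q + h), ∑ j, g j * Φ (A (∑ i, ρ j i * e i)) = 0) →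
  ∀ A ∈ Dq T q, ∀ k : ℕ,
    ∑ j, g j * Φ (((D.toLinearMap : Module.End ℤ F) ^ k * A) (∑ i, ρ j i * e i)) = 0

/-- A5: dimension of the monomials of degree at most `d` over the constants of a straight `D`. -/
def A5Stmt : Prop := ∀ (F : Type u) [Field F] [CharZero F] (ν : ℕ) (y : Fin ν → F)
  (D : Derivation ℤ F F), Straight y D → ∃ c : ℕ, ∀ d : ℕ, ∃ (h : ℕ) (e : Fin h → F),
  h ≤ c * (d + 1) ∧
  (∀ κ : Fin h → F, (∀ i, D (κ i) = 0) → ∑ i, κ i * e i = 0 → κ = 0) ∧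
  ∀ α : Fin ν →₀ ℕ, (α.sum fun _ n => n) ≤ d →
    ∃ ρ : Fin h → F, (∀ i, D (ρ i) = 0) ∧ mon y α = ∑ i, ρ i * e i

/-- A4: the ring homomorphisms attached to a chain of exponentials. -/
def A4Stmt : Prop := ∀ (F : Type u) [Field F] [CharZero F] (s : List (Derivation ℤ F F)),
  ∃ (Ω : Type u) (_ : CommRing Ω) (_ : IsDomain Ω) (c Φ : F →+* Ω),
  ∀ (J : ℕ) (g a : Fin J → F),
    (∑ j, c (g j) * Φ (a j) = 0 ↔ ∀ A ∈ W s, ∑ j, g j * A (a j) = 0)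

/-- A6: the ideals `I_s` are prime. -/
def A6Stmt : Prop := ∀ (F : Type u) [Field F] [CharZero F] (ν : ℕ) (y : Fin ν → F)
  (s : List (Derivation ℤ F F)), ∃ I : Ideal (MvPolynomial (Fin ν) F), I.IsPrime ∧
  ∀ G, G ∈ I ↔ ∀ A ∈ W s, pair y G A = 0

/-- A6': a nonzero element of `I_s`. -/
def A6bStmt : Prop := ∀ (F : Type u) [Field F] [CharZero F] (ν : ℕ) (y : Fin ν → F)
  (T : Submodule F (Derivation ℤ F F)), LieT y T → Module.finrank F T < ν →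
  ∀ s : List (Derivation ℤ F F), (∀ D ∈ s, D ∈ T ∧ Straight y D) →
  ∃ G : MvPolynomial (Fin ν) F, G ≠ 0 ∧ ∀ A ∈ W s, pair y G A = 0

/-- A7: a nonzero polynomial orthogonal to all words. -/
def A7Stmt : Prop := ∀ (F : Type u) [Field F] [CharZero F] (ν : ℕ) (y : Fin ν → F)
  (T : Submodule F (Derivation ℤ F F)), LieT y T → Module.finrank F T < ν →
  ∃ G : MvPolynomial (Fin ν) F, G ≠ 0 ∧
    ∀ A ∈ Submonoid.closure {A : Module.End ℤ F | ∃ D ∈ T, Straight y D ∧ A = D.toLinearMap},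
      pair y G A = 0

/-- A8a: the universal field. -/
structure UField (K : Type u) [Field K] where
  F : Type u
  [fld : Field F]
  [alg : Algebra K F]
  z : ℕ → F
  closed : IsAlgClosed F
  indep : AlgebraicIndependent K z
  algebraic : Algebra.IsAlgebraic (IntermediateField.adjoin K (Set.range z)) F

attribute [instance] UField.fld UField.alg

def A8aStmt : Prop := ∀ (K : Type u) [Field K], Nonempty (UField.{u} K)

/-- A8b: extension of derivations to the universal field. -/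
def A8bStmt : Prop := ∀ (K : Type u) [Field K] [CharZero K] (UF : UField.{u} K)
  (δ : Derivation ℤ K K), ∃ δ' : Derivation ℤ UF.F UF.F,
  (∀ a, δ' (algebraMap K UF.F a) = algebraMap K UF.F (δ a)) ∧ ∀ i, δ' (UF.z i) = 0

/-- A8c: uniqueness. Two additive derivation-like maps over a ring homomorphism which agree on a
subfield over which everything is algebraic are equal. -/
def A8cStmt : Prop := ∀ (E F : Type u) [Field E] [Field F] [CharZero E] (φ : E →+* F)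
  (D D' : E →+ F), (∀ a b, D (a * b) = φ a * D b + φ b * D a) →
  (∀ a b, D' (a * b) = φ a * D' b + φ b * D' a) →
  ∀ K : Subfield E, (∀ a ∈ K, D a = D' a) → ∀ a : E, IsAlgebraic K a → D a = D' a

/-- A8d: the fixed field. -/
def A8dStmt : Prop := ∀ (K : Type u) [Field K] [CharZero K] (UF : UField.{u} K) (f : UF.F),
  (∀ σ : UF.F ≃ₐ[K] UF.F,
    (∀ (δ : Derivation ℤ K K) (δ' : Derivation ℤ UF.F UF.F),
      (∀ a, δ' (algebraMap K UF.F a) = algebraMap K UF.F (δ a)) → (∀ i, δ' (UF.z i) = 0) →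
      ∀ w, σ (δ' w) = δ' (σ w)) → σ f = f) →
  ∃ a : K, f = algebraMap K UF.F a

/-- A9: straight derivations of extension fields are seen inside the universal field. -/
def A9Stmt : Prop := ∀ (K : Type u) [Field K] [CharZero K] (UF : UField.{u} K) (ν : ℕ)
  (y : Fin ν → K) (T : Submodule K (Derivation ℤ K K)), LieT y T →
  ∀ (E : Type u) [Field E] [Algebra K E] (D : Derivation ℤ E E), InSpan T D →
  Straight (fun j => algebraMap K E (y j)) D → ∀ a : K, D (algebraMap K E a) ≠ 0 →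
  ∃ X : Derivation ℤ UF.F UF.F,
    X ∈ Submodule.span UF.F {δ' | ∃ δ ∈ T,
      (∀ a, δ' (algebraMap K UF.F a) = algebraMap K UF.F (δ a)) ∧ ∀ i, δ' (UF.z i) = 0} ∧
    Straight (fun j => algebraMap K UF.F (y j)) X ∧ X (algebraMap K UF.F a) ≠ 0

/-- A9': `T'` is again a Lie algebra of derivations, of dimension at most that of `T`. -/
def A9bStmt : Prop := ∀ (K : Type u) [Field K] [CharZero K] (UF : UField.{u} K) (ν : ℕ)
  (y : Fin ν → K) (T : Submodule K (Derivation ℤ K K)), LieT y T →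
  LieT (fun j => algebraMap K UF.F (y j)) (Submodule.span UF.F {δ' | ∃ δ ∈ T,
      (∀ a, δ' (algebraMap K UF.F a) = algebraMap K UF.F (δ a)) ∧ ∀ i, δ' (UF.z i) = 0}) ∧
  Module.finrank UF.F (Submodule.span UF.F {δ' : Derivation ℤ UF.F UF.F | ∃ δ ∈ T,
      (∀ a, δ' (algebraMap K UF.F a) = algebraMap K UF.F (δ a)) ∧ ∀ i, δ' (UF.z i) = 0}) ≤
    Module.finrank K T

/-- A10: Theorem AS. -/
def ASStmt : Prop := ∀ (K : Type u) [Field K] [CharZero K] (ν : ℕ) (y : Fin ν → K)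
  (T : Submodule K (Derivation ℤ K K)), LieT y T → Module.finrank K T < ν →
  ∃ G : MvPolynomial (Fin ν) K, aeval y G = 0 ∧ (∃ α, G.coeff α = 1) ∧
    ∀ (E : Type u) [Field E] [Algebra K E] (D : Derivation ℤ E E), InSpan T D →
      Straight (fun j => algebraMap K E (y j)) D →
      ∀ α, D (algebraMap K E (G.coeff α)) = 0

/-! ## C block: curves -/

/-- g1. -/
def GeoLinStmt : Prop := ∀ (k K : Type u) [Field k] [Field K] [Algebra k K] (n : ℕ)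
  (I : Ideal (MvPolynomial (Fin n) k)) (N : ℕ) (e : Fin N → K), LinearIndependent k e →
  ∀ r : Fin N → MvPolynomial (Fin n) k,
  ∑ i, C (e i) * MvPolynomial.map (algebraMap k K) (r i) ∈
    I.map (MvPolynomial.map (algebraMap k K)) → ∀ i, r i ∈ I

/-- C1: Bezout-type bound. -/
def C1Stmt : Prop := ∀ (k : Type u) [Field k] (n d : ℕ) (q : Ideal (MvPolynomial (Fin n) k)),
  IsCurve q d → ∀ P : MvPolynomial (Fin n) k, P ∉ q →
    {x | x ∈ pts q ∧ eval x P = 0}.encard ≤ ((d * P.totalDegree : ℕ) : ℕ∞)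

/-- C2: plane relations for a prime of growth `d`, over any field. -/
def C2Stmt : Prop := ∀ (k : Type u) [Field k] (n d : ℕ) (q : Ideal (MvPolynomial (Fin n) k)),
  q.IsPrime → HasDimDeg q 1 d → ∀ w z : MvPolynomial (Fin n) k,
    w.totalDegree ≤ 1 → z.totalDegree ≤ 1 →
    ∃ g : MvPolynomial (Fin 2) k, g ≠ 0 ∧ g.totalDegree ≤ d ∧ aeval ![w, z] g ∈ q

/-- g3: the geometric components of a curve of degree at most `d`. -/
def GeoCompStmt : Prop := ∀ (k : Type u) [Field k] (n d : ℕ)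
  (q : Ideal (MvPolynomial (Fin n) k)), IsCurve q d →
  ∃ (r : ℕ) (Q : Fin r → Ideal (MvPolynomial (Fin n) (AlgebraicClosure k))), r ≤ d ∧
    (∀ i, (Q i).IsPrime ∧ HasDimDeg (Q i) 1 d) ∧ ⨅ i, Q i = geomIdeal q

/-- g4: a curve of degree at most `d` with more than `d ^ 3` rational points is good. -/
def GoodStmt : Prop := ∀ (k : Type u) [Field k] (n d : ℕ) (q : Ideal (MvPolynomial (Fin n) k)),
  IsCurve q d → ((d ^ 3 : ℕ) : ℕ∞) < (pts q).encard → Good (d ^ 2) q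

/-- C3: compat relations over a bounded linear form, simultaneously for `r` curves. -/
def C3Stmt : Prop := ∀ (k : Type u) [Field k] (n ν c r : ℕ)
  (q : Fin r → Ideal (MvPolynomial (Fin n) k)), (∀ i, Good c (q i)) →
  ∀ y : Fin ν → MvPolynomial (Fin n) k, (∀ j, (y j).totalDegree ≤ 1) →
  (∀ i, ∃ j, ∀ P : Polynomial k, P ≠ 0 → Polynomial.aeval (y j) P ∉ q i) →
  ∀ S : Finset k, r * c < S.card → ∃ s : Fin ν → k, (∀ j, s j ∈ S) ∧ ∀ i,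
    (∀ P : Polynomial k, P ≠ 0 → Polynomial.aeval (∑ j, C (s j) * y j) P ∉ q i) ∧
    ∀ b : Fin ν → k, ∃ N, N ≤ c ∧
      Compat (Set.range (algebraMap k (MvPolynomial (Fin n) k ⧸ q i)))
        (Ideal.Quotient.mk (q i) (∑ j, C (s j) * y j))
        (Ideal.Quotient.mk (q i) (∑ j, C (b j) * y j)) N

/-- C5: two distinct good curves share boundedly many points. -/
def C5Stmt : Prop := ∀ n c : ℕ, ∃ C5 : ℕ, ∀ (k : Type u) [Field k]
  (q q' : Ideal (MvPolynomial (Fin n) k)), Good c q → Good c q' → q ≠ q' →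
  (pts q ∩ pts q').encard ≤ (C5 : ℕ∞)

/-- C7: the derivation on a curve. -/
def C7Stmt : Prop := ∀ (k : Type u) [Field k] (ν c : ℕ) (r : Ideal (MvPolynomial (Fin ν) k))
  [r.IsPrime] (l : MvPolynomial (Fin ν) k),
  (∀ P : Polynomial k, P ≠ 0 → Polynomial.aeval l P ∉ r) →
  (∀ j, ∃ N, N ≤ c ∧ Compat (Set.range (algebraMap k (MvPolynomial (Fin ν) k ⧸ r)))
    (Ideal.Quotient.mk r l) (Ideal.Quotient.mk r (X j)) N) →
  (ringChar k = 0 ∨ c < ringChar k) →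
  ∃ D : Derivation k (FractionRing (MvPolynomial (Fin ν) k ⧸ r))
      (FractionRing (MvPolynomial (Fin ν) k ⧸ r)),
    D (algebraMap _ _ (Ideal.Quotient.mk r l)) = 1

/-- C6: functions of small degree with zero derivative are constant. -/
def C6Stmt : Prop := ∀ ν c : ℕ, ∃ C6 : ℕ, ∀ (k : Type u) [Field k]
  (r : Ideal (MvPolynomial (Fin ν) k)) [r.IsPrime] (l : MvPolynomial (Fin ν) k),
  l.totalDegree ≤ 1 →
  (∀ P : Polynomial k, P ≠ 0 → Polynomial.aeval l P ∉ r) →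
  (∀ j, ∃ N, N ≤ c ∧ Compat (Set.range (algebraMap k (MvPolynomial (Fin ν) k ⧸ r)))
    (Ideal.Quotient.mk r l) (Ideal.Quotient.mk r (X j)) N) →
  ∀ D : Derivation k (FractionRing (MvPolynomial (Fin ν) k ⧸ r))
      (FractionRing (MvPolynomial (Fin ν) k ⧸ r)),
    D (algebraMap _ _ (Ideal.Quotient.mk r l)) = 1 →
  ∀ (e : ℕ) (P Q : MvPolynomial (Fin ν) k), P.totalDegree ≤ e → Q.totalDegree ≤ e →
    (ringChar k = 0 ∨ C6 * (e + 1) ≤ ringChar k) →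
    D (algebraMap _ _ (Ideal.Quotient.mk r P) / algebraMap _ _ (Ideal.Quotient.mk r Q)) = 0 →
    ∀ x : Fin ν → k, (∀ R ∈ r, eval x R = 0) → eval x Q ≠ 0 →
      P - C (eval x P / eval x Q) * Q ∈ r

/-- C4: the Hilbert function of a member of a curve system. -/
def C4Stmt : Prop := ∀ (k : Type u) [Field k] (ν c : ℕ) (r : Ideal (MvPolynomial (Fin ν) k))
  (l : MvPolynomial (Fin ν) k), l.totalDegree ≤ 1 →
  (∀ j, ∃ N, N ≤ c ∧ Compat (Set.range (algebraMap k (MvPolynomial (Fin ν) k ⧸ r)))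
    (Ideal.Quotient.mk r l) (Ideal.Quotient.mk r (X j)) N) →
  ∀ t, hilb r t ≤ c ^ ν * (t + 1)

/-! ## B block: sequences -/

/-- B0: closedness. -/
def B0Stmt : Prop := ∀ (U : Ultrafilter ℕ) (ν c : ℕ) (k : ℕ → Type u) [∀ i, Field (k i)]
  (S : ∀ i, CurveSys (k i) ν c) (M : ℕ → ℕ), Scale U k M → ∀ Γ : ∀ i, Finset (S i).ι,
  Rich U S M Γ → ∀ P : ∀ i, MvPolynomial (Fin ν) (k i), Small U M P →
  (∀ᶠ i in (U : Filter ℕ), ∃ γ ∈ Γ i, P i ∉ (S i).r γ) →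
  ∀ Γ' : ∀ i, Finset (S i).ι, (∀ i γ, γ ∈ Γ' i ↔ γ ∈ Γ i ∧ P i ∉ (S i).r γ) →
  Rich U S M Γ'

/-- B1: diagonal lemma. -/
def B1Stmt : Prop := ∀ (U : Ultrafilter ℕ), (∀ m : ℕ, ∀ᶠ i in (U : Filter ℕ), m ≤ i) →
  ∀ (α : ℕ → Type u) [∀ i, Nonempty (α i)] (Q : ℕ → ∀ i, α i → Prop),
  (∀ m i x, Q (m + 1) i x → Q m i x) → (∀ m, ∀ᶠ i in (U : Filter ℕ), ∃ x, Q m i x) →
  ∃ x : ∀ i, α i, ∀ m, ∀ᶠ i in (U : Filter ℕ), Q m i (x i)

/-- B2: parameter count. -/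
def B2Stmt : Prop := ∀ ν c m : ℕ, 1 ≤ ν → ∃ m' M₀ : ℕ, ∀ (k : Type u) [Field k]
  (S : CurveSys k ν c) (Γ : Finset S.ι) (M : ℕ), M₀ ≤ M → m' * Γ.card ≤ M ^ (ν - 1) →
  ∃ f : MvPolynomial (Fin ν) k, f ≠ 0 ∧ m * f.totalDegree ≤ M ∧ ∀ γ ∈ Γ, f ∈ S.r γ

/-- B3: sampling. -/
def B3Stmt : Prop := ∀ ν c K m : ℕ, 1 ≤ ν → ∃ j₀ M₀ : ℕ, ∀ (k : Type u) [Field k]
  (S : CurveSys k ν c) (Γ : Finset S.ι) (M : ℕ), M₀ ≤ M → Γ.card ≤ K * M ^ (ν - 1) →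
  RichAt S Γ (j₀ * M) →
  ∃ f : MvPolynomial (Fin ν) k, f ≠ 0 ∧ m * f.totalDegree ≤ M ∧
    ∃ Γb : Finset S.ι, m * Γb.card ≤ M ^ (ν - 1) ∧ ∀ γ ∈ Γ, γ ∉ Γb → f ∈ S.r γ

/-- B4: a small polynomial vanishing on a rich subfamily. -/
def B4Stmt : Prop := ∀ (U : Ultrafilter ℕ) (ν c K : ℕ), 1 ≤ ν → ∀ (k : ℕ → Type u)
  [∀ i, Field (k i)] (S : ∀ i, CurveSys (k i) ν c) (M : ℕ → ℕ), Scale U k M →
  ∀ Γ : ∀ i, Finset (S i).ι, Rich U S M Γ →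
  (∀ᶠ i in (U : Filter ℕ), (Γ i).card ≤ K * M i ^ (ν - 1)) →
  ∃ (Γ' : ∀ i, Finset (S i).ι) (f : ∀ i, MvPolynomial (Fin ν) (k i)),
    (∀ i, Γ' i ⊆ Γ i) ∧ Rich U S M Γ' ∧ Small U M f ∧
    ∀ᶠ i in (U : Filter ℕ), f i ≠ 0 ∧ ∀ γ ∈ Γ' i, f i ∈ (S i).r γ

/-- B5: moreover a derivative which vanishes on no member. -/
def B5Stmt : Prop := ∀ (U : Ultrafilter ℕ) (ν c K : ℕ), 1 ≤ ν → ∀ (k : ℕ → Type u)
  [∀ i, Field (k i)] (S : ∀ i, CurveSys (k i) ν c) (M : ℕ → ℕ), Scale U k M →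
  ∀ Γ : ∀ i, Finset (S i).ι, Rich U S M Γ →
  (∀ᶠ i in (U : Filter ℕ), (Γ i).card ≤ K * M i ^ (ν - 1)) →
  ∃ (Γ' : ∀ i, Finset (S i).ι) (f : ∀ i, MvPolynomial (Fin ν) (k i)) (j : Fin ν),
    (∀ i, Γ' i ⊆ Γ i) ∧ Rich U S M Γ' ∧ Small U M f ∧
    ∀ᶠ i in (U : Filter ℕ), ∀ γ ∈ Γ' i, f i ∈ (S i).r γ ∧ pderiv j (f i) ∉ (S i).r γ

/-- A subring of sequences decided by `Γ`. -/
structure DecRing (U : Ultrafilter ℕ) {ν c : ℕ} {k : ℕ → Type u} [∀ i, Field (k i)]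
    (S : ∀ i, CurveSys (k i) ν c) (M : ℕ → ℕ) (Γ : ∀ i, Finset (S i).ι)
    (O : Subring (∀ i, MvPolynomial (Fin ν) (k i))) : Prop where
  var : ∀ l : Fin ν, (fun i => (X l : MvPolynomial (Fin ν) (k i))) ∈ O
  pd : ∀ a ∈ O, ∀ l : Fin ν, (fun i => pderiv l (a i)) ∈ O
  small : ∀ a ∈ O, Small U M a
  dec : ∀ a ∈ O, (∀ᶠ i in (U : Filter ℕ), ∀ γ ∈ Γ i, a i ∈ (S i).r γ) ∨
    (∀ᶠ i in (U : Filter ℕ), ∀ γ ∈ Γ i, a i ∉ (S i).r γ)

/-- B7: type selection for a countable set of small sequences. -/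
def B7Stmt : Prop := ∀ (U : Ultrafilter ℕ) (ν c : ℕ) (k : ℕ → Type u) [∀ i, Field (k i)]
  (S : ∀ i, CurveSys (k i) ν c) (M : ℕ → ℕ), Scale U k M → ∀ Γ : ∀ i, Finset (S i).ι,
  Rich U S M Γ → ∀ 𝒜 : Set (∀ i, MvPolynomial (Fin ν) (k i)), 𝒜.Countable →
  (∀ a ∈ 𝒜, Small U M a) → ∃ Γ' : ∀ i, Finset (S i).ι, (∀ i, Γ' i ⊆ Γ i) ∧ Rich U S M Γ' ∧
  ∀ a ∈ 𝒜, (∀ᶠ i in (U : Filter ℕ), ∀ γ ∈ Γ' i, a i ∈ (S i).r γ) ∨
    (∀ᶠ i in (U : Filter ℕ), ∀ γ ∈ Γ' i, a i ∉ (S i).r γ)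

/-- B6 + B7: a decided differential ring containing a given small sequence. -/
def B6Stmt : Prop := ∀ (U : Ultrafilter ℕ) (ν c : ℕ) (k : ℕ → Type u) [∀ i, Field (k i)]
  (S : ∀ i, CurveSys (k i) ν c) (M : ℕ → ℕ), Scale U k M → ∀ Γ : ∀ i, Finset (S i).ι,
  Rich U S M Γ → ∀ f : ∀ i, MvPolynomial (Fin ν) (k i), Small U M f →
  ∃ (Γ' : ∀ i, Finset (S i).ι) (O : Subring (∀ i, MvPolynomial (Fin ν) (k i))),
    (∀ i, Γ' i ⊆ Γ i) ∧ Rich U S M Γ' ∧ DecRing U S M Γ' O ∧ f ∈ O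

/-- The field of a decided ring, with its Lie algebra of derivations. -/
structure FieldOf (U : Ultrafilter ℕ) {ν c : ℕ} {k : ℕ → Type u} [∀ i, Field (k i)]
    (S : ∀ i, CurveSys (k i) ν c) (Γ : ∀ i, Finset (S i).ι)
    (O : Subring (∀ i, MvPolynomial (Fin ν) (k i))) where
  F : Type u
  [fld : Field F]
  charZero : CharZero F
  φ : O →+* F
  ker : ∀ a : O, φ a = 0 ↔ ∀ᶠ i in (U : Filter ℕ), ∀ γ ∈ Γ i, a.1 i ∈ (S i).r γ
  frac : ∀ x : F, ∃ a b : O, φ b ≠ 0 ∧ x = φ a / φ b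
  y : Fin ν → F
  hy : ∀ l, ∀ a : O, (a.1 = fun i => (X l : MvPolynomial (Fin ν) (k i))) → y l = φ a
  T : Submodule F (Derivation ℤ F F)
  lie : LieT y T
  mem : ∀ X : Derivation ℤ F F, X ∈ T ↔
    ∀ (a : O) (b : Fin ν → O), (∀ l, (b l).1 = fun i => pderiv l (a.1 i)) →
      X (φ a) = ∑ l, X (y l) * φ (b l)
  ofVec : ∀ w : Fin ν → F,
    (∀ (a : O) (b : Fin ν → O), (∀ l, (b l).1 = fun i => pderiv l (a.1 i)) → φ a = 0 →
      ∑ l, w l * φ (b l) = 0) → ∃ X ∈ T, ∀ l, X (y l) = w l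

attribute [instance] FieldOf.fld

/-- B8. -/
def B8Stmt : Prop := ∀ (U : Ultrafilter ℕ) (ν c : ℕ) (k : ℕ → Type u) [∀ i, Field (k i)]
  (S : ∀ i, CurveSys (k i) ν c) (M : ℕ → ℕ), Scale U k M → ∀ Γ : ∀ i, Finset (S i).ι,
  Rich U S M Γ → ∀ O : Subring (∀ i, MvPolynomial (Fin ν) (k i)), DecRing U S M Γ O →
  Nonempty (FieldOf.{u} U S Γ O)

/-- B8': the dimension of `T`. -/
def B8bStmt : Prop := ∀ (U : Ultrafilter ℕ) (ν c : ℕ) (k : ℕ → Type u) [∀ i, Field (k i)]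
  (S : ∀ i, CurveSys (k i) ν c) (M : ℕ → ℕ), Scale U k M → ∀ Γ : ∀ i, Finset (S i).ι,
  Rich U S M Γ → ∀ O : Subring (∀ i, MvPolynomial (Fin ν) (k i)), DecRing U S M Γ O →
  ∀ FO : FieldOf.{u} U S Γ O, ∀ f ∈ O, ∀ j : Fin ν,
  (∀ᶠ i in (U : Filter ℕ), ∀ γ ∈ Γ i, f i ∈ (S i).r γ ∧ pderiv j (f i) ∉ (S i).r γ) →
  Module.finrank FO.F FO.T < ν

/-- UP: ultraproducts of fields with derivations. -/
def UPStmt : Prop := ∀ (U : Ultrafilter ℕ) (K : ℕ → Type u) [∀ i, Field (K i)],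
  (uIdeal U K).IsMaximal ∧
  ∀ d : ∀ i, Derivation ℤ (K i) (K i), ∃ D : Derivation ℤ (UProd U K) (UProd U K),
    ∀ a : ∀ i, K i, D (Ideal.Quotient.mk _ a) = Ideal.Quotient.mk _ (fun i => d i (a i))

/-- B9: each sequence of members gives a straight derivation of an extension field. -/
def B9Stmt : Prop := ∀ (U : Ultrafilter ℕ) (ν c : ℕ) (k : ℕ → Type u) [∀ i, Field (k i)]
  (S : ∀ i, CurveSys (k i) ν c) (M : ℕ → ℕ), Scale U k M → ∀ Γ : ∀ i, Finset (S i).ι,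
  Rich U S M Γ → ∀ O : Subring (∀ i, MvPolynomial (Fin ν) (k i)), DecRing U S M Γ O →
  ∀ FO : FieldOf.{u} U S Γ O, ∀ γ : ∀ i, (S i).ι, (∀ᶠ i in (U : Filter ℕ), γ i ∈ Γ i) →
  ∃ (E : Type u) (_ : Field E) (_ : Algebra FO.F E) (D : Derivation ℤ E E),
    InSpan FO.T D ∧ Straight (fun j => algebraMap FO.F E (FO.y j)) D ∧
    ∀ a b : O, FO.φ b ≠ 0 → D (algebraMap FO.F E (FO.φ a / FO.φ b)) = 0 →
      ∀ᶠ i in (U : Filter ℕ), ∃ κ : k i, a.1 i - C κ * b.1 i ∈ (S i).r (γ i)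

/-- Theorem K. -/
def KStmt : Prop := ∀ (U : Ultrafilter ℕ) (ν c K : ℕ), 1 ≤ ν → ∀ (k : ℕ → Type u)
  [∀ i, Field (k i)] (S : ∀ i, CurveSys (k i) ν c) (M : ℕ → ℕ), Scale U k M →
  ∀ Γ : ∀ i, Finset (S i).ι, Rich U S M Γ →
  (∀ᶠ i in (U : Filter ℕ), (Γ i).card ≤ K * M i ^ (ν - 1)) →
  ∃ (D₁ : ℕ) (Γ' : ∀ i, Finset (S i).ι) (G : ∀ i, MvPolynomial (Fin ν) (k i)),
    (∀ i, Γ' i ⊆ Γ i) ∧ Rich U S M Γ' ∧
    ∀ᶠ i in (U : Filter ℕ), G i ≠ 0 ∧ (G i).totalDegree ≤ D₁ ∧ ∀ γ ∈ Γ' i, G i ∈ (S i).r γ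

/-! ## D block: assembly -/

def D1Stmt : Prop := ∀ (k : Type u) [Field k] (n : ℕ),
  NormData (⊥ : Ideal (MvPolynomial (Fin n) k)) (X : Fin n → MvPolynomial (Fin n) k) 1

/-- D2: one step down. -/
def D2Stmt : Prop := ∀ (k : Type u) [Field k] (n ν N e : ℕ)
  (J : Ideal (MvPolynomial (Fin n) k)) (y : Fin (ν + 1) → MvPolynomial (Fin n) k),
  NormData J y N → ∀ G : MvPolynomial (Fin (ν + 1)) k, G ≠ 0 → G.totalDegree ≤ e →
  (Infinite k ∨ ∃ S : Finset k, e < S.card) →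
  ∃ (N' : ℕ) (y' : Fin ν → MvPolynomial (Fin n) k), N' ≤ N * e ∧
    NormData (J ⊔ Ideal.span {aeval y G}) y' N'

/-- D3: minimal primes of a normalised ideal. -/
def D3Stmt : Prop := ∀ (k : Type u) [Field k] (n ν N : ℕ)
  (J : Ideal (MvPolynomial (Fin n) k)) (y : Fin ν → MvPolynomial (Fin n) k),
  NormData J y N → (∀ Z ∈ J.minimalPrimes, HasDimDeg (geomIdeal Z) ν N) ∧
    J.minimalPrimes.encard ≤ (N : ℕ∞)

/-- D4a: good curves containing a normalised ideal have a transcendental coordinate. -/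
def D4Stmt : Prop := ∀ (k : Type u) [Field k] (n ν N c : ℕ)
  (J : Ideal (MvPolynomial (Fin n) k)) (y : Fin ν → MvPolynomial (Fin n) k),
  NormData J y N → ∀ q : Ideal (MvPolynomial (Fin n) k), Good c q → J ≤ q →
  ∃ j, ∀ P : Polynomial k, P ≠ 0 → Polynomial.aeval (y j) P ∉ q

/-- The main theorem for good curves. -/
def MainStmt : Prop := ∀ n c : ℕ, 2 ≤ n → ∃ C D : ℕ, ∀ (k : Type u) [Field k] (M : ℕ)
  (Γ : Finset (Ideal (MvPolynomial (Fin n) k))), 1 ≤ M →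
  (ringChar k = 0 ∨ M ≤ ringChar k) → (∀ q ∈ Γ, Good c q) → Γ.card ≤ M ^ (n - 1) →
  ((C * M * Γ.card : ℕ) : ℕ∞) < (twoRich Γ).encard →
  ∃ m, 2 ≤ m ∧ m ≤ n - 1 ∧ ∃ Z : Ideal (MvPolynomial (Fin n) k), Z.IsPrime ∧
    HasDimDeg (geomIdeal Z) m D ∧
    ∃ Γ' ⊆ Γ, (∀ q ∈ Γ', Z ≤ q) ∧ M ^ (m - 1) ≤ Γ'.card

/-- The final statement. -/
def FinalStmt : Prop := ∀ n d : ℕ, 2 ≤ n → ∃ C D : ℕ, ∀ (k : Type u) [Field k]
  (Γ : Finset (Ideal (MvPolynomial (Fin n) k))), (∀ q ∈ Γ, IsCurve q d) →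
  (ringChar k ≠ 0 → Γ.card ≤ ringChar k ^ (n - 1)) →
  (twoRich Γ).Finite ∧
  (((twoRich Γ).ncard : ℝ) ≤ (C : ℝ) * (Γ.card : ℝ) ^ ((n : ℝ) / ((n : ℝ) - 1)) ∨
    ∃ m, 2 ≤ m ∧ m ≤ n - 1 ∧ ∃ Z : Ideal (MvPolynomial (Fin n) k), Z.IsPrime ∧
      HasDimDeg (geomIdeal Z) m D ∧
      ∃ Γ' ⊆ Γ, (∀ q ∈ Γ', Z ≤ q) ∧
        (Γ.card : ℝ) ^ (((m : ℝ) - 1) / ((n : ℝ) - 1)) ≤ (Γ'.card : ℝ))

end GZ
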