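import Pool.Agent.GZ.Defs
import Pool.Agent.GZ.Rows

/-!
# GZ, row A9: straight derivations of extension fields are seen inside the universal field
-/

namespace GZ

open MvPolynomial Filter

universe u

namespace A9

/-- A linear functional which is `1` at `1` and nonzero at a given nonzero vector. -/
theorem exists_retr {F E : Type u} [Field F] [Field E] [Algebra F E] (w : E) (hw : w ≠ 0) :
    ∃ π : E →ₗ[F] F, π 1 = 1 ∧ π w ≠ 0 := by
  obtain ⟨π, hπ⟩ : ∃ π : E →ₗ[F] F, π 1 = 1 := by
    have h0 : LinearMap.ker (Algebra.linearMap F E) = ⊥ :=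
      LinearMap.ker_eq_bot.mpr (FaithfulSMul.algebraMap_injective F E)
    obtain ⟨g, hg⟩ := LinearMap.exists_leftInverse_of_injective (Algebra.linearMap F E) h0
    refine ⟨g, ?_⟩
    have h1 := LinearMap.congr_fun hg 1
    simpa using h1
  by_cases h : w ∈ Submodule.span F {(1 : E)}
  · obtain ⟨c, rfl⟩ := Submodule.mem_span_singleton.mp h
    refine ⟨π, hπ, ?_⟩
    rw [map_smul, hπ]
    intro h0
    apply hw
    have : c = 0 := by simpa using h0
    rw [this, zero_smul]
  · by_cases h2 : π w = 0
    · obtain ⟨g, hg1, hg2⟩ := Submodule.exists_le_ker_of_notMem h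
      refine ⟨π + g, ?_, ?_⟩
      · have : g 1 = 0 := hg2 (Submodule.mem_span_singleton_self (1 : E))
        rw [LinearMap.add_apply, hπ, this, add_zero]
      · rw [LinearMap.add_apply, h2, zero_add]
        exact hg1
    · exact ⟨π, hπ, h2⟩

/-- Embedding into the universal field. -/
theorem emb (K : Type u) [Field K] (UF : UField.{u} K) (L : Type u) [Field L] [Algebra K L]
    (S : Set L) (hS : S.Countable) [Algebra.IsAlgebraic (Algebra.adjoin K S) L] :
    ∃ (B : Set L) (ι : L →ₐ[K] UF.F), B ⊆ S ∧ (∀ b ∈ B, ∃ i, ι b = UF.z i) ∧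
      Algebra.IsAlgebraic (Algebra.adjoin K B) L := by
  obtain ⟨B, hBS, hB⟩ := exists_isTranscendenceBasis_subset (R := K) S
  have hBc : B.Countable := hS.mono hBS
  obtain ⟨g, hg⟩ := Set.countable_iff_exists_injective.mp hBc
  have hz : AlgebraicIndependent K (UF.z ∘ g) := UF.indep.comp g hg
  have hcl := UF.closed
  have halg := hB.isAlgebraic
  let φ : Algebra.adjoin K (Set.range ((↑) : B → L)) →ₐ[K] UF.F :=
    (aeval (UF.z ∘ g)).comp hB.1.aevalEquiv.symm.toAlgHom
  have hφ : Function.Injective φ := by
    have h1 : Function.Injective (aeval (R := K) (UF.z ∘ g)) := hz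
    exact h1.comp hB.1.aevalEquiv.symm.injective
  let iA : Algebra (Algebra.adjoin K (Set.range ((↑) : B → L))) UF.F := φ.toRingHom.toAlgebra
  have hst : IsScalarTower K (Algebra.adjoin K (Set.range ((↑) : B → L))) UF.F :=
    IsScalarTower.of_algebraMap_eq (fun x => (φ.commutes x).symm)
  have hF1 : FaithfulSMul (Algebra.adjoin K (Set.range ((↑) : B → L))) UF.F :=
    (faithfulSMul_iff_algebraMap_injective _ _).mpr hφ
  let ψ : L →ₐ[Algebra.adjoin K (Set.range ((↑) : B → L))] UF.F := IsAlgClosed.lift
  refine ⟨B, ψ.restrictScalars K, hBS, ?_, ?_⟩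
  · intro b hb
    refine ⟨g ⟨b, hb⟩, ?_⟩
    have hmem : b ∈ Algebra.adjoin K (Set.range ((↑) : B → L)) :=
      Algebra.subset_adjoin ⟨⟨b, hb⟩, rfl⟩
    have h1 : ψ b = φ ⟨b, hmem⟩ := ψ.commutes ⟨b, hmem⟩
    have h2 : hB.1.aevalEquiv.symm ⟨b, hmem⟩ = X ⟨b, hb⟩ := by
      rw [AlgEquiv.symm_apply_eq]
      apply Subtype.ext
      simp
    have h3 : φ ⟨b, hmem⟩ = aeval (UF.z ∘ g) (hB.1.aevalEquiv.symm ⟨b, hmem⟩) := rfl
    rw [AlgHom.restrictScalars_apply, h1, h3, h2, aeval_X]
    rfl
  · have h := hB.isAlgebraic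
    rw [Subtype.range_coe] at h
    exact h

/-- The field generated by `S` is algebraic over the algebra generated by `S`. -/
theorem adjoin_alg (K : Type u) [Field K] (E : Type u) [Field E] [Algebra K E] (S : Set E) :
    Algebra.IsAlgebraic (Algebra.adjoin K
      ((algebraMap (IntermediateField.adjoin K S) E) ⁻¹' S)) (IntermediateField.adjoin K S) := by
  have hlift : ∀ r ∈ Algebra.adjoin K S, ∃ r' ∈ Algebra.adjoin K
      ((algebraMap (IntermediateField.adjoin K S) E) ⁻¹' S),
      algebraMap (IntermediateField.adjoin K S) E r' = r := by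
    intro r hr
    induction hr using Algebra.adjoin_induction with
    | mem x hx =>
      exact ⟨⟨x, IntermediateField.subset_adjoin K S hx⟩, Algebra.subset_adjoin hx, rfl⟩
    | algebraMap k => exact ⟨algebraMap K _ k, Subalgebra.algebraMap_mem _ k, rfl⟩
    | add x y _ _ hx hy =>
      obtain ⟨x', hx1, hx2⟩ := hx
      obtain ⟨y', hy1, hy2⟩ := hy
      exact ⟨x' + y', add_mem hx1 hy1, by rw [map_add, hx2, hy2]⟩
    | mul x y _ _ hx hy =>
      obtain ⟨x', hx1, hx2⟩ := hx
      obtain ⟨y', hy1, hy2⟩ := hy
      exact ⟨x' * y', mul_mem hx1 hy1, by rw [map_mul, hx2, hy2]⟩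
  constructor
  intro x
  obtain ⟨r, hr, s, hs, hx⟩ := IntermediateField.mem_adjoin_iff_div.mp x.2
  obtain ⟨r', hr1, hr2⟩ := hlift r hr
  obtain ⟨s', hs1, hs2⟩ := hlift s hs
  by_cases hs0 : s' = 0
  · have hx0 : x = 0 := by
      apply Subtype.ext
      rw [← hs2, hs0, map_zero, div_zero] at hx
      rw [hx]
      rfl
    rw [hx0]
    exact isAlgebraic_zero
  · have hxe : x = r' / s' := by
      apply (algebraMap (IntermediateField.adjoin K S) E).injective
      rw [map_div₀, hr2, hs2]
      exact hx
    refine ⟨Polynomial.C ⟨s', hs1⟩ * Polynomial.X - Polynomial.C ⟨r', hr1⟩, ?_, ?_⟩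
    · intro h0
      have h1 := congrArg (fun p => Polynomial.coeff p 1) h0
      simp only [Polynomial.coeff_sub, Polynomial.coeff_C_mul, Polynomial.coeff_X_one, mul_one,
        Polynomial.coeff_C_succ, sub_zero, Polynomial.coeff_zero] at h1
      exact hs0 (congrArg Subtype.val h1)
    · rw [map_sub, map_mul, Polynomial.aeval_X, Polynomial.aeval_C, Polynomial.aeval_C, hxe]
      change s' * (r' / s') - r' = 0
      field_simp
      ring

/-- The equalizer of two derivations over a ring homomorphism, as a subfield. -/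
def eqSub {E F : Type u} [Field E] [Field F] (φ : E →+* F) (D D' : E →+ F)
    (h : ∀ a b, D (a * b) = φ a * D b + φ b * D a)
    (h' : ∀ a b, D' (a * b) = φ a * D' b + φ b * D' a) : Subfield E where
  carrier := {x | D x = D' x}
  mul_mem' := by
    intro a b ha hb
    have h1 : D a = D' a := ha
    have h2 : D b = D' b := hb
    change D (a * b) = D' (a * b)
    rw [h, h', h1, h2]
  one_mem' := by
    have h1 := h 1 1
    have h2 := h' 1 1
    rw [mul_one, map_one φ, one_mul] at h1 h2
    change D 1 = D' 1
    have h3 : D 1 = 0 := by simpa using h1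
    have h4 : D' 1 = 0 := by simpa using h2
    rw [h3, h4]
  add_mem' := by
    intro a b ha hb
    have h1 : D a = D' a := ha
    have h2 : D b = D' b := hb
    change D (a + b) = D' (a + b)
    rw [map_add, map_add, h1, h2]
  zero_mem' := by
    change D 0 = D' 0
    rw [map_zero, map_zero]
  neg_mem' := by
    intro a ha
    have h1 : D a = D' a := ha
    change D (-a) = D' (-a)
    rw [map_neg, map_neg, h1]
  inv_mem' := by
    intro a ha
    have h1 : D a = D' a := ha
    change D a⁻¹ = D' a⁻¹
    by_cases ha0 : a = 0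
    · rw [ha0, inv_zero, map_zero, map_zero]
    · have e1 := h 1 1
      have e2 := h' 1 1
      rw [mul_one, map_one φ, one_mul] at e1 e2
      have h3 : D 1 = 0 := by simpa using e1
      have h4 : D' 1 = 0 := by simpa using e2
      have h5 := h a a⁻¹
      have h6 := h' a a⁻¹
      rw [mul_inv_cancel₀ ha0] at h5 h6
      have hφ : φ a ≠ 0 := by
        rw [Ne, map_eq_zero]
        exact ha0
      apply mul_left_cancel₀ hφ
      have h7 : φ a * D a⁻¹ = - (φ a⁻¹ * D a) := by
        rw [eq_neg_iff_add_eq_zero, ← h5, h3]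
      have h8 : φ a * D' a⁻¹ = - (φ a⁻¹ * D' a) := by
        rw [eq_neg_iff_add_eq_zero, ← h6, h4]
      rw [h7, h8, h1]

/-- Two derivations over a ring homomorphism which agree on `K` and on `B` are equal if the field is
algebraic over `K[B]`. -/
theorem agree (h8c : A8cStmt.{u}) {K L F : Type u} [Field K] [Field L] [Algebra K L] [Field F]
    [CharZero L] (φ : L →+* F) (D D' : L →+ F)
    (h : ∀ a b, D (a * b) = φ a * D b + φ b * D a)
    (h' : ∀ a b, D' (a * b) = φ a * D' b + φ b * D' a) (B : Set L)
    (halg : Algebra.IsAlgebraic (Algebra.adjoin K B) L)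
    (hK : ∀ k : K, D (algebraMap K L k) = D' (algebraMap K L k)) (hB : ∀ b ∈ B, D b = D' b)
    (x : L) : D x = D' x := by
  refine h8c L F φ D D' h h' (eqSub φ D D' h h') (fun a ha => ha) x ?_
  have hle : ∀ r ∈ Algebra.adjoin K B, r ∈ eqSub φ D D' h h' := by
    intro r hr
    induction hr using Algebra.adjoin_induction with
    | mem x hx => exact hB x hx
    | algebraMap k => exact hK k
    | add x y _ _ hx hy => exact add_mem hx hy
    | mul x y _ _ hx hy => exact mul_mem hx hy
  let f : Algebra.adjoin K B →+* eqSub φ D D' h h' :=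
    ((Algebra.adjoin K B).val.toRingHom).codRestrict (eqSub φ D D' h h')
      (fun r => hle r.1 r.2)
  have hf : Function.Injective f := by
    intro a b hab
    apply Subtype.ext
    have h1 := congrArg Subtype.val hab
    exact h1
  obtain ⟨p, hp0, hp⟩ := halg.isAlgebraic x
  refine ⟨p.map f, (Polynomial.map_ne_zero_iff hf).mpr hp0, ?_⟩
  rw [Polynomial.aeval_def, Polynomial.eval₂_map]
  rw [Polynomial.aeval_def] at hp
  exact hp

end A9

theorem a9 (h8b : A8bStmt.{u}) (h8c : A8cStmt.{u}) : A9Stmt.{u} := by
  intro K _ _ UF ν y T hT E _ _ D hspan hstr a ha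
  obtain ⟨N, e, Xs, hXs, hD⟩ := hspan
  obtain ⟨s, hs1, hs2⟩ := hstr
  choose N' κ hκ hrel using hs2
  let S : Set E := Set.range (fun t : Fin ν × ℕ × ℕ => κ t.1 t.2.1 t.2.2)
  have hSc : S.Countable := Set.countable_range _
  have hSD : ∀ x ∈ S, D x = 0 := by
    rintro x ⟨t, rfl⟩
    exact hκ t.1 t.2.1 t.2.2
  obtain ⟨π, hπ1, hπa⟩ := A9.exists_retr (F := IntermediateField.adjoin K S)
    (D (algebraMap K E a)) ha
  have halg0 := A9.adjoin_alg K E S
  have hcharE : CharZero E := charZero_of_injective_algebraMap (algebraMap K E).injective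
  have hcharL : CharZero (IntermediateField.adjoin K S) :=
    charZero_of_injective_algebraMap (algebraMap K (IntermediateField.adjoin K S)).injective
  obtain ⟨B, ι, hBS, hBz, hBalg⟩ := A9.emb K UF (IntermediateField.adjoin K S)
    ((algebraMap (IntermediateField.adjoin K S) E) ⁻¹' S)
    (hSc.preimage (algebraMap (IntermediateField.adjoin K S) E).injective)
  choose Xs' hXs1 hXs2 using fun b => h8b K UF (Xs b)
  let Y : Derivation ℤ UF.F UF.F := ∑ b, ι (π (e b)) • Xs' b
  have hY : ∀ f : UF.F, Y f = ∑ b, ι (π (e b)) * Xs' b f := by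
    intro f
    have h1 := congrFun (map_sum (Derivation.coeFnAddMonoidHom (R := ℤ) (A := UF.F) (M := UF.F))
      (fun b => ι (π (e b)) • Xs' b) Finset.univ) f
    rw [Finset.sum_apply] at h1
    exact h1
  have hYz : ∀ i, Y (UF.z i) = 0 := by
    intro i
    rw [hY]
    exact Finset.sum_eq_zero fun b _ => by rw [hXs2, mul_zero]
  -- the key identity
  have hYK : ∀ k : K, Y (algebraMap K UF.F k) = ι (π (D (algebraMap K E k))) := by
    intro k
    rw [hY, hD, map_sum, map_sum]
    refine Finset.sum_congr rfl fun b _ => ?_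
    have h1 : e b * algebraMap K E (Xs b k) =
        (algebraMap K (IntermediateField.adjoin K S) (Xs b k)) • e b := by
      rw [Algebra.smul_def, mul_comm]
      rfl
    rw [h1, map_smul, smul_eq_mul, map_mul, AlgHom.commutes, hXs1, mul_comm]
  let D1 : IntermediateField.adjoin K S →+ UF.F :=
    { toFun := fun x => Y (ι x)
      map_zero' := by rw [map_zero, map_zero]
      map_add' := fun x y => by rw [map_add, map_add] }
  let D2 : IntermediateField.adjoin K S →+ UF.F :=
    { toFun := fun x => ι (π (D (algebraMap (IntermediateField.adjoin K S) E x)))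
      map_zero' := by rw [map_zero, map_zero, map_zero, map_zero]
      map_add' := fun x y => by rw [map_add, map_add, map_add, map_add] }
  have key : ∀ x : IntermediateField.adjoin K S, Y (ι x) =
      ι (π (D (algebraMap (IntermediateField.adjoin K S) E x))) := by
    refine A9.agree h8c (K := K) (ι : IntermediateField.adjoin K S →+* UF.F) D1 D2 ?_ ?_ B hBalg
      ?_ ?_
    · intro x y
      change Y (ι (x * y)) = ι x * Y (ι y) + ι y * Y (ι x)
      rw [map_mul, Derivation.leibniz, smul_eq_mul, smul_eq_mul]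
    · intro x y
      change ι (π (D (algebraMap _ E (x * y)))) = ι x * ι (π (D (algebraMap _ E y))) +
        ι y * ι (π (D (algebraMap _ E x)))
      rw [map_mul, Derivation.leibniz, smul_eq_mul, smul_eq_mul, ← Algebra.smul_def,
        ← Algebra.smul_def, map_add, map_smul, map_smul, map_add, smul_eq_mul, smul_eq_mul,
        map_mul, map_mul]
    · intro k
      change Y (ι (algebraMap K _ k)) = ι (π (D (algebraMap _ E (algebraMap K _ k))))
      rw [AlgHom.commutes, hYK]
      rfl
    · intro b hb
      change Y (ι b) = ι (π (D (algebraMap _ E b)))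
      obtain ⟨i, hi⟩ := hBz b hb
      rw [hi, hYz, hSD _ (hBS hb), map_zero, map_zero]
  refine ⟨Y, ?_, ?_, ?_⟩
  · refine Submodule.sum_mem _ fun b _ => Submodule.smul_mem _ _ (Submodule.subset_span ?_)
    exact ⟨Xs b, hXs b, hXs1 b, hXs2 b⟩
  · have hl1 : lform s (fun j => algebraMap K UF.F (y j)) =
        algebraMap K UF.F (lform s y) := by
      simp [lform]
    have hl2 : lform s (fun j => algebraMap K E (y j)) =
        algebraMap K E (lform s y) := by
      simp [lform]
    refine ⟨s, ?_, ?_⟩
    · rw [hl1, hYK, ← hl2, hs1, hπ1, map_one]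
    · intro j
      have hmem : ∀ p q, κ j p q ∈ IntermediateField.adjoin K S := fun p q =>
        IntermediateField.subset_adjoin K S ⟨(j, p, q), rfl⟩
      refine ⟨N' j, fun p q => ι ⟨κ j p q, hmem p q⟩, ?_, ?_⟩
      · intro p q
        change Y (ι ⟨κ j p q, hmem p q⟩) = 0
        rw [key]
        have : D (algebraMap (IntermediateField.adjoin K S) E ⟨κ j p q, hmem p q⟩) = 0 :=
          hκ j p q
        rw [this, map_zero, map_zero]
      · have h1 := hrel j
        rw [hl2] at h1
        rw [hl1]
        have h2 : (algebraMap K (IntermediateField.adjoin K S) (y j)) ^ N' j =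
            ∑ b ∈ Finset.range (N' j), ∑ a ∈ Finset.range (N' j - b + 1),
              (⟨κ j a b, hmem a b⟩ : IntermediateField.adjoin K S) *
                (algebraMap K (IntermediateField.adjoin K S) (lform s y)) ^ a *
                (algebraMap K (IntermediateField.adjoin K S) (y j)) ^ b := by
          apply (algebraMap (IntermediateField.adjoin K S) E).injective
          rw [map_pow, map_sum]
          simp only [map_sum, map_mul, map_pow]
          exact h1
        have h3 := congrArg ι h2
        simp only [map_sum, map_mul, map_pow, AlgHom.commutes] at h3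
        exact h3
  · rw [hYK]
    intro h0
    exact hπa ((map_eq_zero ι).mp h0)

end GZ
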