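import Pool.Agent.GZ.A8d

/-!
# GZ, row A9b: the Lie algebra over the universal field
-/

namespace GZ

universe u

namespace A9b

variable {F : Type u} [Field F]

theorem sum_apply {ι : Type*} (t : Finset ι) (D : ι → Derivation ℤ F F) (a : F) :
    (∑ i ∈ t, D i) a = ∑ i ∈ t, D i a := by
  classical
  induction t using Finset.induction_on with
  | empty => simp
  | insert i t hi ih => rw [Finset.sum_insert hi, Finset.sum_insert hi, Derivation.add_apply, ih]

theorem smul_lie_eq (f : F) (X Y : Derivation ℤ F F) :
    ⁅f • X, Y⁆ = f • ⁅X, Y⁆ - (Y f) • X := by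
  apply Derivation.ext
  intro a
  simp only [Derivation.commutator_apply, Derivation.smul_apply, Derivation.sub_apply,
    smul_eq_mul, Derivation.leibniz]
  ring

theorem lie_smul_eq (f : F) (X Y : Derivation ℤ F F) :
    ⁅X, f • Y⁆ = f • ⁅X, Y⁆ + (X f) • Y := by
  apply Derivation.ext
  intro a
  simp only [Derivation.commutator_apply, Derivation.smul_apply, Derivation.add_apply,
    smul_eq_mul, Derivation.leibniz]
  ring

theorem bracket_mem {s : Set (Derivation ℤ F F)}
    (h : ∀ X ∈ s, ∀ Y ∈ s, ⁅X, Y⁆ ∈ Submodule.span F s) :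
    ∀ X ∈ Submodule.span F s, ∀ Y ∈ Submodule.span F s, ⁅X, Y⁆ ∈ Submodule.span F s := by
  have h1 : ∀ X ∈ Submodule.span F s, ∀ Y ∈ s, ⁅X, Y⁆ ∈ Submodule.span F s := by
    intro X hX Y hY
    induction hX using Submodule.span_induction with
    | mem X hX => exact h X hX Y hY
    | zero => rw [zero_lie]; exact Submodule.zero_mem _
    | add X X' _ _ h1 h2 => rw [add_lie]; exact Submodule.add_mem _ h1 h2
    | smul f X hX h1 =>
      rw [smul_lie_eq]
      exact Submodule.sub_mem _ (Submodule.smul_mem _ _ h1) (Submodule.smul_mem _ _ hX)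
  intro X hX Y hY
  induction hY using Submodule.span_induction with
  | mem Y hY => exact h1 X hX Y hY
  | zero => rw [lie_zero]; exact Submodule.zero_mem _
  | add Y Y' _ _ h1 h2 => rw [lie_add]; exact Submodule.add_mem _ h1 h2
  | smul f Y hY h1 =>
    rw [lie_smul_eq]
    exact Submodule.add_mem _ (Submodule.smul_mem _ _ h1) (Submodule.smul_mem _ _ hY)

end A9b

theorem a9b (h8b : A8bStmt.{u}) (h8c : A8cStmt.{u}) : A9bStmt.{u} := by
  intro K _ _ UF ν y T hT
  -- the evaluation at `y`
  let ev : T →ₗ[K] (Fin ν → K) :=
    { toFun := fun X j => (X : Derivation ℤ K K) (y j)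
      map_add' := fun X Y => rfl
      map_smul' := fun c X => rfl }
  have hev : Function.Injective ev := by
    rw [injective_iff_map_eq_zero]
    intro X hX
    apply Subtype.ext
    exact hT.inj X X.2 fun j => congrFun hX j
  have hfin : FiniteDimensional K T := FiniteDimensional.of_injective ev hev
  obtain ⟨g, hg⟩ := LinearMap.exists_leftInverse_of_injective ev (LinearMap.ker_eq_bot.2 hev)
  let b := Module.finBasis K T
  choose d hd1 hd2 using fun i => h8b K UF ((b i : T) : Derivation ℤ K K)
  set s : Set (Derivation ℤ UF.F UF.F) := {δ' | ∃ δ ∈ T,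
      (∀ a, δ' (algebraMap K UF.F a) = algebraMap K UF.F (δ a)) ∧ ∀ i, δ' (UF.z i) = 0} with hs
  have hds : ∀ i, d i ∈ s := fun i => ⟨b i, (b i).2, hd1 i, hd2 i⟩
  -- uniqueness
  have huniq : ∀ X Y : Derivation ℤ UF.F UF.F,
      (∀ a, X (algebraMap K UF.F a) = Y (algebraMap K UF.F a)) → (∀ i, X (UF.z i) = Y (UF.z i)) →
      X = Y := by
    intro X Y h1 h2
    apply Derivation.ext
    intro a
    exact A8d.deriv_eq UF h8c (X.toLinearMap.toAddMonoidHom) (Y.toLinearMap.toAddMonoidHom)
      (fun a b => X.leibniz a b) (fun a b => Y.leibniz a b) h1 h2 a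
  -- the span
  have hspan : Submodule.span UF.F s = Submodule.span UF.F (Set.range d) := by
    apply le_antisymm
    · rw [Submodule.span_le]
      rintro X ⟨δ, hδ, h1, h2⟩
      have h3 : X = ∑ i, algebraMap K UF.F (b.repr ⟨δ, hδ⟩ i) • d i := by
        apply huniq
        · intro a
          have h4 : (δ : Derivation ℤ K K) a = ∑ i, (b.repr ⟨δ, hδ⟩ i) * ((b i : T) :
              Derivation ℤ K K) a := by
            have h5 := congrArg (fun z : T => (z : Derivation ℤ K K)) (b.sum_repr ⟨δ, hδ⟩)
            simp only [Submodule.coe_sum, Submodule.coe_smul] at h5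
            have h6 := congrArg (fun z : Derivation ℤ K K => z a) h5
            simp only [A9b.sum_apply, Derivation.smul_apply, smul_eq_mul] at h6
            exact h6.symm
          rw [h1, h4]
          simp only [A9b.sum_apply, Derivation.smul_apply, smul_eq_mul, map_sum, map_mul, hd1]
        · intro i
          rw [h2]
          simp only [A9b.sum_apply, Derivation.smul_apply, smul_eq_mul,
            hd2, mul_zero, Finset.sum_const_zero]
      rw [h3]
      exact Submodule.sum_mem _ fun i _ => Submodule.smul_mem _ _ (Submodule.subset_span ⟨i, rfl⟩)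
    · rw [Submodule.span_le]
      rintro _ ⟨i, rfl⟩
      exact Submodule.subset_span (hds i)
  refine ⟨⟨?_, ?_⟩, ?_⟩
  · apply A9b.bracket_mem
    rintro X ⟨δ, hδ, h1, h2⟩ Y ⟨ε, hε, h3, h4⟩
    refine Submodule.subset_span ⟨⁅δ, ε⁆, hT.bracket δ hδ ε hε, fun a => ?_, fun i => ?_⟩
    · rw [Derivation.commutator_apply, Derivation.commutator_apply, h1, h3, h1, h3, map_sub]
    · rw [Derivation.commutator_apply, h2, h4, map_zero, map_zero, sub_zero]
  · intro X hX hX0
    rw [hspan, Submodule.mem_span_range_iff_exists_fun] at hX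
    obtain ⟨f, rfl⟩ := hX
    have hf : ∀ k, f k = 0 := by
      intro k
      have h1 : ∀ i, ∑ j, ((b i : T) : Derivation ℤ K K) (y j) * b.repr (g (Pi.single j 1)) k =
          if i = k then 1 else 0 := by
        intro i
        have h2 : g (ev (b i)) = b i := by
          have := LinearMap.congr_fun hg (b i)
          exact this
        have h3 : ev (b i) = ∑ j, (ev (b i) j) • (Pi.single j (1 : K) : Fin ν → K) := by
          exact pi_eq_sum_univ' (ev (b i))
        have h4 : b.repr (b i) k = ∑ j, ev (b i) j * b.repr (g (Pi.single j 1)) k := by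
          conv_lhs => rw [← h2, h3]
          simp
        rw [Module.Basis.repr_self, Finsupp.single_apply] at h4
        exact h4.symm
      have h5 : ∑ j, algebraMap K UF.F (b.repr (g (Pi.single j 1)) k) *
          (∑ i, f i • d i : Derivation ℤ UF.F UF.F) (algebraMap K UF.F (y j)) = 0 := by
        refine Finset.sum_eq_zero fun j _ => ?_
        rw [hX0 j, mul_zero]
      have h6 : ∑ j, algebraMap K UF.F (b.repr (g (Pi.single j 1)) k) *
          (∑ i, f i • d i : Derivation ℤ UF.F UF.F) (algebraMap K UF.F (y j)) = f k := by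
        simp only [A9b.sum_apply, Derivation.smul_apply, smul_eq_mul,
          hd1, Finset.mul_sum]
        rw [Finset.sum_comm]
        have h7 : ∀ i, ∑ j, algebraMap K UF.F (b.repr (g (Pi.single j 1)) k) *
            (f i * algebraMap K UF.F (((b i : T) : Derivation ℤ K K) (y j))) =
            f i * algebraMap K UF.F (if i = k then 1 else 0) := by
          intro i
          rw [← h1 i, map_sum, Finset.mul_sum]
          refine Finset.sum_congr rfl fun j _ => ?_
          rw [map_mul]
          ring
        rw [Finset.sum_congr rfl fun i _ => h7 i]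
        rw [Finset.sum_eq_single k]
        · simp
        · intro i _ hi
          rw [if_neg hi, map_zero, mul_zero]
        · intro h
          exact absurd (Finset.mem_univ _) h
      rw [← h6, h5]
    simp [hf]
  · rw [hspan]
    refine (finrank_range_le_card d).trans ?_
    rw [Fintype.card_fin]

end GZ
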