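import Pool.Agent.GZ.GeoLin

/-!
# GZ: elementary lemmas on the Hilbert function, and the extension `q ↦ geomIdeal q`
-/

namespace GZ

open MvPolynomial Filter

universe u

namespace HilbLem

variable {k : Type u} [Field k] {n : ℕ}

/-- The polynomials of degree at most `t`, modulo `I`. -/
noncomputable def HV (I : Ideal (MvPolynomial (Fin n) k)) (t : ℕ) :
    Submodule k (MvPolynomial (Fin n) k ⧸ I) :=
  (restrictTotalDegree (Fin n) k t).map (Ideal.Quotient.mkₐ k I).toLinearMap

theorem hilb_eq (I : Ideal (MvPolynomial (Fin n) k)) (t : ℕ) :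
    hilb I t = Module.finrank k (HV I t) := rfl

theorem mem_HV {I : Ideal (MvPolynomial (Fin n) k)} {t : ℕ} {x : MvPolynomial (Fin n) k ⧸ I} :
    x ∈ HV I t ↔ ∃ P : MvPolynomial (Fin n) k, P.totalDegree ≤ t ∧ Ideal.Quotient.mk I P = x := by
  rw [HV, Submodule.mem_map]
  constructor
  · rintro ⟨P, hP, h⟩
    exact ⟨P, (mem_restrictTotalDegree _ _ _).mp hP, h⟩
  · rintro ⟨P, hP, h⟩
    exact ⟨P, (mem_restrictTotalDegree _ _ _).mpr hP, h⟩

theorem mk_mem_HV {I : Ideal (MvPolynomial (Fin n) k)} {t : ℕ} {P : MvPolynomial (Fin n) k}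
    (h : P.totalDegree ≤ t) : Ideal.Quotient.mk I P ∈ HV I t := mem_HV.mpr ⟨P, h, rfl⟩

instance HV_finite (I : Ideal (MvPolynomial (Fin n) k)) (t : ℕ) : Module.Finite k (HV I t) := by
  unfold HV
  infer_instance

theorem HV_mono (I : Ideal (MvPolynomial (Fin n) k)) {t t' : ℕ} (h : t ≤ t') :
    HV I t ≤ HV I t' := by
  intro x hx
  obtain ⟨P, hP, rfl⟩ := mem_HV.mp hx
  exact mk_mem_HV (hP.trans h)

theorem hilb_mono (I : Ideal (MvPolynomial (Fin n) k)) {t t' : ℕ} (h : t ≤ t') :
    hilb I t ≤ hilb I t' := Submodule.finrank_mono (HV_mono I h)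

/-- A linear section. -/
theorem exists_section (I : Ideal (MvPolynomial (Fin n) k)) (t : ℕ) :
    ∃ s : HV I t →ₗ[k] MvPolynomial (Fin n) k,
      ∀ x, (s x).totalDegree ≤ t ∧ Ideal.Quotient.mk I (s x) = x.1 := by
  let f : restrictTotalDegree (Fin n) k t →ₗ[k] HV I t :=
    LinearMap.restrict (p := restrictTotalDegree (Fin n) k t) (q := HV I t)
      (Ideal.Quotient.mkₐ k I).toLinearMap
      (fun x hx => mk_mem_HV ((mem_restrictTotalDegree _ _ _).mp hx))
  have hf : Function.Surjective f := by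
    rintro ⟨x, hx⟩
    obtain ⟨P, hP, rfl⟩ := mem_HV.mp hx
    exact ⟨⟨P, (mem_restrictTotalDegree _ _ _).mpr hP⟩, rfl⟩
  obtain ⟨g, hg⟩ := f.exists_rightInverse_of_surjective (LinearMap.range_eq_top.mpr hf)
  refine ⟨(restrictTotalDegree (Fin n) k t).subtype ∘ₗ g, fun x => ⟨?_, ?_⟩⟩
  · exact (mem_restrictTotalDegree _ _ _).mp (g x).2
  · have h1 := congrArg Subtype.val (LinearMap.congr_fun hg x)
    exact h1

theorem hilb_anti {I J : Ideal (MvPolynomial (Fin n) k)} (h : I ≤ J) (t : ℕ) :
    hilb J t ≤ hilb I t := by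
  obtain ⟨s, hs⟩ := exists_section J t
  let g : HV J t →ₗ[k] HV I t :=
    LinearMap.codRestrict (HV I t) ((Ideal.Quotient.mkₐ k I).toLinearMap ∘ₗ s)
      (fun x => mk_mem_HV (hs x).1)
  rw [hilb_eq, hilb_eq]
  refine LinearMap.finrank_le_finrank_of_injective (f := g)
    (LinearMap.ker_eq_bot.mp (LinearMap.ker_eq_bot'.mpr fun x hx => ?_))
  have h1 : Ideal.Quotient.mk I (s x) = 0 := congrArg Subtype.val hx
  have h2 : s x ∈ J := h (Ideal.Quotient.eq_zero_iff_mem.mp h1)
  apply Subtype.ext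
  rw [← (hs x).2]
  exact Ideal.Quotient.eq_zero_iff_mem.mpr h2

/-- Interpolation at finitely many points. -/
theorem exists_interp {N : ℕ} (p : Fin N → Fin n → k) (hp : Function.Injective p) (i : Fin N) :
    ∃ L : MvPolynomial (Fin n) k, L.totalDegree ≤ N ∧ eval (p i) L = 1 ∧
      ∀ j, j ≠ i → eval (p j) L = 0 := by
  classical
  have hc : ∀ j : Fin N, j ≠ i → ∃ c : Fin n, p i c ≠ p j c := by
    intro j hj
    by_contra hcon
    push Not at hcon
    exact hj (hp (funext hcon)).symm
  let F : Fin N → MvPolynomial (Fin n) k := fun j =>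
    if h : j ≠ i then
      C (p i (hc j h).choose - p j (hc j h).choose)⁻¹ *
        (X (hc j h).choose - C (p j (hc j h).choose)) else 1
  refine ⟨∏ j, F j, ?_, ?_, ?_⟩
  · refine (totalDegree_finsetProd _ _).trans ?_
    refine (Finset.sum_le_card_nsmul _ _ 1 ?_).trans ?_
    · intro j _
      simp only [F]
      split_ifs with h
      · refine (totalDegree_mul _ _).trans ?_
        rw [totalDegree_C, zero_add]
        refine (totalDegree_sub _ _).trans ?_
        rw [totalDegree_C, totalDegree_X]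
        simp
      · simp
    · simp
  · rw [map_prod]
    refine Finset.prod_eq_one fun j _ => ?_
    simp only [F]
    split_ifs with h
    · rw [map_mul, eval_C, map_sub, eval_X, eval_C]
      exact inv_mul_cancel₀ (sub_ne_zero.mpr (hc j h).choose_spec)
    · simp
  · intro j hj
    rw [map_prod]
    refine Finset.prod_eq_zero (Finset.mem_univ j) ?_
    simp only [F]
    rw [dif_pos hj, map_mul, map_sub, eval_X, eval_C, eval_C, sub_self, mul_zero]

/-- Multiplication by a nonzerodivisor vanishing at `N` points of the zero set. -/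
theorem hilb_add_points (I : Ideal (MvPolynomial (Fin n) k)) (P : MvPolynomial (Fin n) k) (e : ℕ)
    (hP : P.totalDegree ≤ e) (hnz : ∀ R, P * R ∈ I → R ∈ I) (N : ℕ) (p : Fin N → Fin n → k)
    (hp : Function.Injective p) (hI : ∀ i, ∀ R ∈ I, eval (p i) R = 0)
    (hPp : ∀ i, eval (p i) P = 0) (t : ℕ) (ht : N ≤ t + e) :
    hilb I t + N ≤ hilb I (t + e) := by
  classical
  obtain ⟨s, hs⟩ := exists_section I t
  let ev : (MvPolynomial (Fin n) k ⧸ I) →ₐ[k] (Fin N → k) :=
    Ideal.Quotient.liftₐ I (AlgHom.pi (fun i => aeval (p i))) (by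
      intro a ha
      funext i
      simpa [aeval_eq_eval] using hI i a ha)
  have hev : ∀ (R : MvPolynomial (Fin n) k) (i : Fin N),
      ev (Ideal.Quotient.mk I R) i = eval (p i) R := by
    intro R i
    simp [ev, aeval_eq_eval]
  let g : HV I (t + e) →ₗ[k] (Fin N → k) := ev.toLinearMap ∘ₗ (HV I (t + e)).subtype
  have hg : ∀ (R : MvPolynomial (Fin n) k) (hR : Ideal.Quotient.mk I R ∈ HV I (t + e)) (i : Fin N),
      g ⟨Ideal.Quotient.mk I R, hR⟩ i = eval (p i) R := fun R hR i => hev R i
  have hsurj : LinearMap.range g = ⊤ := by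
    rw [LinearMap.range_eq_top]
    intro v
    choose L hL1 hL2 hL3 using exists_interp p hp
    have hmem : Ideal.Quotient.mk I (∑ i, C (v i) * L i) ∈ HV I (t + e) := by
      refine mk_mem_HV ((totalDegree_finsetSum _ _).trans (Finset.sup_le fun i _ => ?_))
      refine (totalDegree_mul _ _).trans ?_
      rw [totalDegree_C, zero_add]
      exact (hL1 i).trans ht
    refine ⟨⟨_, hmem⟩, ?_⟩
    funext j
    rw [hg, map_sum, Finset.sum_eq_single j]
    · rw [map_mul, eval_C, hL2, mul_one]
    · intro b _ hb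
      rw [map_mul, hL3 b j hb.symm, mul_zero]
    · intro h
      exact absurd (Finset.mem_univ j) h
  have h1 := LinearMap.finrank_range_add_finrank_ker g
  rw [hsurj, finrank_top, Module.finrank_fin_fun] at h1
  have hm : ∀ x : HV I t, Ideal.Quotient.mk I (P * s x) ∈ HV I (t + e) := by
    intro x
    refine mk_mem_HV ((totalDegree_mul _ _).trans ?_)
    have := (hs x).1
    omega
  let mu : HV I t →ₗ[k] HV I (t + e) :=
    LinearMap.codRestrict (HV I (t + e))
      ((Ideal.Quotient.mkₐ k I).toLinearMap ∘ₗ (LinearMap.mulLeft k P) ∘ₗ s) hm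
  let mu' : HV I t →ₗ[k] LinearMap.ker g := LinearMap.codRestrict (LinearMap.ker g) mu (by
    intro x
    rw [LinearMap.mem_ker]
    funext i
    have := hg (P * s x) (hm x) i
    refine this.trans ?_
    rw [map_mul, hPp, zero_mul]
    rfl)
  have h2 : Module.finrank k (HV I t) ≤ Module.finrank k (LinearMap.ker g) := by
    refine LinearMap.finrank_le_finrank_of_injective (f := mu')
      ((injective_iff_map_eq_zero mu').mpr fun x hx => ?_)
    have h3 : Ideal.Quotient.mk I (P * s x) = 0 :=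
      congrArg (fun y : LinearMap.ker g => (y.1 : MvPolynomial (Fin n) k ⧸ I)) hx
    have h4 : s x ∈ I := hnz _ (Ideal.Quotient.eq_zero_iff_mem.mp h3)
    apply Subtype.ext
    rw [← (hs x).2]
    exact Ideal.Quotient.eq_zero_iff_mem.mpr h4
  rw [hilb_eq, hilb_eq]
  omega

theorem hilb_iter_points (I : Ideal (MvPolynomial (Fin n) k)) (P : MvPolynomial (Fin n) k) (e : ℕ)
    (hP : P.totalDegree ≤ e) (hnz : ∀ R, P * R ∈ I → R ∈ I) (N : ℕ) (p : Fin N → Fin n → k)
    (hp : Function.Injective p) (hI : ∀ i, ∀ R ∈ I, eval (p i) R = 0)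
    (hPp : ∀ i, eval (p i) P = 0) (m : ℕ) : m * N ≤ hilb I (N + m * e) := by
  induction m with
  | zero => simp
  | succ m ih =>
    have h1 := hilb_add_points I P e hP hnz N p hp hI hPp (N + m * e) (by omega)
    have h2 : N + (m + 1) * e = N + m * e + e := by ring
    rw [h2]
    have h3 : (m + 1) * N = m * N + N := by ring
    omega

/-- The number of zeros on a scheme of linear growth. -/
theorem card_zeros_le (I : Ideal (MvPolynomial (Fin n) k)) (d : ℕ) (hd : HasDimDeg I 1 d)
    (P : MvPolynomial (Fin n) k) (e : ℕ)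
    (hP : P.totalDegree ≤ e) (hnz : ∀ R, P * R ∈ I → R ∈ I) (N : ℕ) (p : Fin N → Fin n → k)
    (hp : Function.Injective p) (hI : ∀ i, ∀ R ∈ I, eval (p i) R = 0)
    (hPp : ∀ i, eval (p i) P = 0) : N ≤ d * e := by
  rcases Nat.eq_zero_or_pos e with rfl | he
  · -- then every number is a lower bound for `hilb I N`
    by_contra hcon
    have hN : 1 ≤ N := by omega
    have h1 := hilb_iter_points I P 0 hP hnz N p hp hI hPp (hilb I N + 1)
    rw [mul_zero, add_zero] at h1
    have h2 : (hilb I N + 1) * 1 ≤ (hilb I N + 1) * N := Nat.mul_le_mul_left _ hN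
    omega
  · by_contra hcon
    push Not at hcon
    have hN : d * e + 1 ≤ N := hcon
    have heR : (0 : ℝ) < e := by exact_mod_cast he
    obtain ⟨T, hT⟩ := Filter.eventually_atTop.mp (hd.2 (1 / (2 * e)) (by positivity))
    -- choose `m` large
    obtain ⟨m, hm⟩ := exists_nat_gt (max (T : ℝ) (2 * ((d : ℝ) + 1 / (2 * e)) * N))
    have hm1 : (T : ℝ) < m := lt_of_le_of_lt (le_max_left _ _) hm
    have hm2 : 2 * ((d : ℝ) + 1 / (2 * e)) * N < m := lt_of_le_of_lt (le_max_right _ _) hm
    have hTm : T ≤ N + m * e := by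
      have h3 : T < m := by exact_mod_cast hm1
      have h4 : m * 1 ≤ m * e := Nat.mul_le_mul_left _ he
      omega
    have h5 := hT (N + m * e) hTm
    rw [Nat.factorial_one, Nat.cast_one, one_mul, pow_one] at h5
    have h6 : ((m * N : ℕ) : ℝ) ≤ (hilb I (N + m * e) : ℝ) := by
      exact_mod_cast hilb_iter_points I P e hP hnz N p hp hI hPp m
    have h7 : ((m : ℝ) * N) ≤ ((d : ℝ) + 1 / (2 * e)) * (N + m * e) := by
      have := h6.trans h5
      push_cast at this
      exact this
    have h8 : ((d : ℝ) * e + 1) ≤ N := by exact_mod_cast hN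
    have h9 : ((d : ℝ) + 1 / (2 * e)) * (N + m * e)
        = ((d : ℝ) + 1 / (2 * e)) * N + m * (d * e) + m * (1 / 2) := by
      field_simp
      ring
    have h10 : (m : ℝ) * ((d : ℝ) * e + 1) ≤ m * N :=
      mul_le_mul_of_nonneg_left h8 (Nat.cast_nonneg m)
    nlinarith

/-! ### Finite and infinite quotients -/

/-- Degree of a monomial. -/
theorem HV_stable_succ (I : Ideal (MvPolynomial (Fin n) k)) (t : ℕ) (h : HV I (t + 1) ≤ HV I t) :
    HV I (t + 2) ≤ HV I (t + 1) := by
  classical
  intro x hx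
  obtain ⟨P, hP, rfl⟩ := mem_HV.mp hx
  rw [P.as_sum, map_sum]
  refine Submodule.sum_mem _ fun α hα => ?_
  have hα1 : (α.sum fun _ a => a) ≤ t + 2 := (le_totalDegree hα).trans hP
  by_cases hα2 : (α.sum fun _ a => a) ≤ t + 1
  · exact mk_mem_HV ((totalDegree_monomial_le _ _).trans hα2)
  · have hne : α ≠ 0 := by
      rintro rfl
      simp at hα2
    obtain ⟨i, hi⟩ := Finsupp.ne_iff.mp hne
    rw [Finsupp.zero_apply] at hi
    have h1 : Finsupp.single i 1 + (α - Finsupp.single i 1) = α := by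
      refine add_tsub_cancel_of_le ?_
      rw [Finsupp.single_le_iff]
      omega
    have h2 : (monomial α (P.coeff α) : MvPolynomial (Fin n) k)
        = X i * monomial (α - Finsupp.single i 1) (P.coeff α) := by
      rw [X, monomial_mul, one_mul, h1]
    have h3 : ((α - Finsupp.single i 1).sum fun _ a => a) ≤ t + 1 := by
      have h4 : (α.sum fun _ a => a) = 1 + ((α - Finsupp.single i 1).sum fun _ a => a) := by
        conv_lhs => rw [← h1]
        rw [Finsupp.sum_add_index' (by simp) (by intros; rfl), Finsupp.sum_single_index rfl]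
      omega
    have h5 : Ideal.Quotient.mk I (monomial (α - Finsupp.single i 1) (P.coeff α)) ∈ HV I t :=
      h (mk_mem_HV ((totalDegree_monomial_le _ _).trans h3))
    obtain ⟨R, hR, hR2⟩ := mem_HV.mp h5
    rw [h2, map_mul, ← hR2, ← map_mul]
    refine mk_mem_HV ((totalDegree_mul _ _).trans ?_)
    rw [totalDegree_X]
    omega

theorem HV_stable (I : Ideal (MvPolynomial (Fin n) k)) (t : ℕ) (h : HV I (t + 1) ≤ HV I t) :
    ∀ s, HV I (t + s) ≤ HV I t := by
  have h1 : ∀ s, HV I (t + s + 1) ≤ HV I (t + s) := by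
    intro s
    induction s with
    | zero => exact h
    | succ s ih => exact HV_stable_succ I (t + s) ih
  intro s
  induction s with
  | zero => exact le_rfl
  | succ s ih => exact (h1 s).trans ih

theorem succ_le_hilb (I : Ideal (MvPolynomial (Fin n) k)) (hI : I ≠ ⊤)
    (hinf : ¬ Module.Finite k (MvPolynomial (Fin n) k ⧸ I)) (t : ℕ) : t + 1 ≤ hilb I t := by
  induction t with
  | zero =>
    have h1 : Ideal.Quotient.mk I 1 ∈ HV I 0 := mk_mem_HV (by simp)
    have h2 : (⟨Ideal.Quotient.mk I 1, h1⟩ : HV I 0) ≠ 0 := by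
      intro h
      have h3 : Ideal.Quotient.mk I 1 = 0 := congrArg Subtype.val h
      exact hI ((Ideal.eq_top_iff_one I).mpr (Ideal.Quotient.eq_zero_iff_mem.mp h3))
    have h4 : 0 < Module.finrank k (HV I 0) := by
      have : Nontrivial (HV I 0) := ⟨⟨_, _, h2⟩⟩
      exact Module.finrank_pos
    rw [hilb_eq]
    omega
  | succ t ih =>
    have h1 : ¬ HV I (t + 1) ≤ HV I t := by
      intro h
      apply hinf
      have htop : HV I t = ⊤ := by
        rw [eq_top_iff]
        intro x _
        obtain ⟨P, rfl⟩ := Ideal.Quotient.mk_surjective x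
        exact HV_stable I t h P.totalDegree (mk_mem_HV (Nat.le_add_left _ _))
      have h5 := HV_finite I t
      rw [htop] at h5
      exact Module.Finite.equiv (Submodule.topEquiv (R := k) (M := MvPolynomial (Fin n) k ⧸ I))
    have h2 : HV I t < HV I (t + 1) := lt_of_le_not_ge (HV_mono I (Nat.le_succ t)) h1
    have h3 := Submodule.finrank_lt_finrank_of_lt h2
    rw [hilb_eq] at ih ⊢
    omega

theorem hilb_le_finrank (I : Ideal (MvPolynomial (Fin n) k))
    (h : Module.Finite k (MvPolynomial (Fin n) k ⧸ I)) (t : ℕ) :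
    hilb I t ≤ Module.finrank k (MvPolynomial (Fin n) k ⧸ I) :=
  Submodule.finrank_le _

theorem finite_of_algebraic (I : Ideal (MvPolynomial (Fin n) k))
    (h : ∀ j : Fin n, ∃ p : Polynomial k, p ≠ 0 ∧ Polynomial.aeval (X j) p ∈ I) :
    Module.Finite k (MvPolynomial (Fin n) k ⧸ I) := by
  have h1 : ∀ j : Fin n, IsIntegral k (Ideal.Quotient.mk I (X j)) := by
    intro j
    obtain ⟨p, hp, hp2⟩ := h j
    rw [← isAlgebraic_iff_isIntegral]
    refine ⟨p, hp, ?_⟩
    have h2 := Ideal.Quotient.eq_zero_iff_mem.mpr hp2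
    rw [← h2]
    exact Polynomial.aeval_algHom_apply (Ideal.Quotient.mkₐ k I) (X j) p
  have h2 : (integralClosure k (MvPolynomial (Fin n) k ⧸ I)) = ⊤ := by
    rw [eq_top_iff]
    have h3 : (⊤ : Subalgebra k (MvPolynomial (Fin n) k ⧸ I))
        = (Algebra.adjoin k (Set.range (X : Fin n → MvPolynomial (Fin n) k))).map
            (Ideal.Quotient.mkₐ k I) := by
      rw [MvPolynomial.adjoin_range_X, Algebra.map_top, eq_comm, AlgHom.range_eq_top]
      exact Ideal.Quotient.mkₐ_surjective k I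
    rw [h3, AlgHom.map_adjoin, Algebra.adjoin_le_iff]
    rintro _ ⟨_, ⟨j, rfl⟩, rfl⟩
    exact h1 j
  have h3 : Algebra.IsIntegral k (MvPolynomial (Fin n) k ⧸ I) := by
    refine ⟨fun x => ?_⟩
    have : x ∈ integralClosure k (MvPolynomial (Fin n) k ⧸ I) := by rw [h2]; trivial
    exact this
  have h4 : Algebra.FiniteType k (MvPolynomial (Fin n) k ⧸ I) := inferInstance
  exact Algebra.IsIntegral.finite

/-- Linear lower growth excludes finite quotients. -/
theorem not_finite_of_dim {I : Ideal (MvPolynomial (Fin n) k)} {d : ℕ} (hd : HasDimDeg I 1 d) :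
    ¬ Module.Finite k (MvPolynomial (Fin n) k ⧸ I) := by
  intro h
  obtain ⟨c, hc, hc2⟩ := hd.1
  obtain ⟨T, hT⟩ := Filter.eventually_atTop.mp hc2
  obtain ⟨m, hm⟩ := exists_nat_gt
    (max (T : ℝ) ((Module.finrank k (MvPolynomial (Fin n) k ⧸ I) : ℝ) / c))
  have hm1 : (T : ℝ) < m := lt_of_le_of_lt (le_max_left _ _) hm
  have hm2 : (Module.finrank k (MvPolynomial (Fin n) k ⧸ I) : ℝ) / c < m :=
    lt_of_le_of_lt (le_max_right _ _) hm
  have hTm : T ≤ m := by
    have : T < m := by exact_mod_cast hm1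
    exact this.le
  have h1 := hT m hTm
  rw [pow_one] at h1
  have h2 : ((hilb I m : ℕ) : ℝ) ≤ Module.finrank k (MvPolynomial (Fin n) k ⧸ I) := by
    exact_mod_cast hilb_le_finrank I h m
  rw [div_lt_iff₀ hc] at hm2
  nlinarith

/-- Several primes. -/
theorem sum_hilb_le {r : ℕ} (I : Ideal (MvPolynomial (Fin n) k))
    (Q : Fin r → Ideal (MvPolynomial (Fin n) k)) (hQ : ∀ i, (Q i).IsPrime) (hI : ⨅ i, Q i = I)
    (e : Fin r → MvPolynomial (Fin n) k) (he : ∀ i, e i ∉ Q i) (he2 : ∀ i j, j ≠ i → e i ∈ Q j)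
    (c : ℕ) (hc : ∀ i, (e i).totalDegree ≤ c) (t : ℕ) :
    ∑ i, hilb (Q i) t ≤ hilb I (t + c) := by
  classical
  choose s hs using fun i => exists_section (Q i) t
  have hm : ∀ x : (∀ i, HV (Q i) t), Ideal.Quotient.mk I (∑ i, e i * s i (x i)) ∈ HV I (t + c) := by
    intro x
    refine mk_mem_HV ((totalDegree_finsetSum _ _).trans (Finset.sup_le fun i _ => ?_))
    refine (totalDegree_mul _ _).trans ?_
    have h1 := (hs i (x i)).1
    have h2 := hc i
    omega
  let F : (∀ i, HV (Q i) t) →ₗ[k] MvPolynomial (Fin n) k :=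
    ∑ i, (LinearMap.mulLeft k (e i)) ∘ₗ (s i) ∘ₗ (LinearMap.proj i)
  have hF : ∀ x, F x = ∑ i, e i * s i (x i) := by
    intro x
    simp [F, LinearMap.sum_apply]
  let G : (∀ i, HV (Q i) t) →ₗ[k] HV I (t + c) :=
    LinearMap.codRestrict (HV I (t + c)) ((Ideal.Quotient.mkₐ k I).toLinearMap ∘ₗ F)
      (fun x => by
        have := hm x
        rw [← hF] at this
        exact this)
  have h1 : Module.finrank k (∀ i, HV (Q i) t) ≤ Module.finrank k (HV I (t + c)) := by
    refine LinearMap.finrank_le_finrank_of_injective (f := G) ?_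
    intro x y hxy
    have h3 : Ideal.Quotient.mk I (F x) = Ideal.Quotient.mk I (F y) := congrArg Subtype.val hxy
    have h4 : F x - F y ∈ I := Ideal.Quotient.eq.mp h3
    rw [hF, hF, ← Finset.sum_sub_distrib] at h4
    funext j
    have h5 : ∑ i, (e i * s i (x i) - e i * s i (y i)) ∈ Q j := by
      rw [← hI] at h4
      exact (Ideal.mem_iInf.mp h4) j
    have h6 : e j * (s j (x j) - s j (y j)) ∈ Q j := by
      rw [← Finset.add_sum_erase _ _ (Finset.mem_univ j)] at h5
      have h8 := ((Q j).add_mem_iff_left ?_).mp h5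
      · rw [mul_sub]
        exact h8
      · refine Ideal.sum_mem _ fun i hi => ?_
        have h9 := he2 i j (Finset.ne_of_mem_erase hi).symm
        exact (Q j).sub_mem ((Q j).mul_mem_right _ h9) ((Q j).mul_mem_right _ h9)
    have h7 : s j (x j) - s j (y j) ∈ Q j := ((hQ j).mem_or_mem h6).resolve_left (he j)
    apply Subtype.ext
    rw [← (hs j (x j)).2, ← (hs j (y j)).2]
    exact Ideal.Quotient.eq.mpr h7
  have h2 : ∀ i, Module.Free k (HV (Q i) t) := fun i => Module.Free.of_divisionRing k _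
  have h3 : ∀ i, Module.Finite k (HV (Q i) t) := fun i => HV_finite _ _
  rw [Module.finrank_pi_fintype] at h1
  exact h1

/-! ### The extension to the algebraic closure -/

theorem totalDegree_map_le' {R S σ : Type*} [CommSemiring R] [CommSemiring S] (f : R →+* S)
    (P : MvPolynomial σ R) : (MvPolynomial.map f P).totalDegree ≤ P.totalDegree :=
  Finset.sup_mono (support_map_subset f P)

/-- A polynomial over `k` outside the prime `q` is a nonzerodivisor modulo the extension of `q`. -/
theorem mul_mem_map {K : Type u} [Field K] [Algebra k K] {q : Ideal (MvPolynomial (Fin n) k)}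
    (hq : q.IsPrime) {P : MvPolynomial (Fin n) k} (hP : P ∉ q) {R : MvPolynomial (Fin n) K}
    (h : MvPolynomial.map (algebraMap k K) P * R ∈ q.map (MvPolynomial.map (algebraMap k K))) :
    R ∈ q.map (MvPolynomial.map (algebraMap k K)) := by
  obtain ⟨N, e, r, he, hR, -⟩ := GeoLinAux.exists_decomp (k := k) R
  have h1 : MvPolynomial.map (algebraMap k K) P * R
      = ∑ i, C (e i) * MvPolynomial.map (algebraMap k K) (P * r i) := by
    rw [hR, Finset.mul_sum]
    refine Finset.sum_congr rfl fun i _ => ?_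
    rw [map_mul]
    ring
  rw [h1] at h
  rw [hR]
  refine Ideal.sum_mem _ fun i _ => ?_
  refine Ideal.mul_mem_left _ _ (Ideal.mem_map_of_mem _ ?_)
  have h2 := geoLin k K n q N e he (fun i => P * r i) h i
  exact (hq.mem_or_mem h2).resolve_left hP

theorem mul_mem_geomIdeal {q : Ideal (MvPolynomial (Fin n) k)}
    (hq : q.IsPrime) {P : MvPolynomial (Fin n) k} (hP : P ∉ q)
    {R : MvPolynomial (Fin n) (AlgebraicClosure k)}
    (h : MvPolynomial.map (algebraMap k (AlgebraicClosure k)) P * R ∈ geomIdeal q) :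
    R ∈ geomIdeal q := by
  obtain ⟨m, hm⟩ := h
  refine ⟨m, ?_⟩
  rw [mul_pow, ← map_pow] at hm
  refine mul_mem_map hq ?_ hm
  exact fun h1 => hP (hq.mem_of_pow_mem m h1)

theorem map_mem_geomIdeal {q : Ideal (MvPolynomial (Fin n) k)} {P : MvPolynomial (Fin n) k}
    (hP : P ∈ q) : MvPolynomial.map (algebraMap k (AlgebraicClosure k)) P ∈ geomIdeal q :=
  Ideal.le_radical (Ideal.mem_map_of_mem _ hP)

theorem eval_map_alg {K : Type u} [Field K] [Algebra k K] (x : Fin n → k)
    (P : MvPolynomial (Fin n) k) :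
    eval (fun i => algebraMap k K (x i)) (MvPolynomial.map (algebraMap k K) P)
      = algebraMap k K (eval x P) := by
  rw [eval_map, ← eval₂_id, eval₂_comp_left]
  rfl

/-- Points of `q` over `k` give zeros of `geomIdeal q`. -/
theorem eval_geomIdeal {q : Ideal (MvPolynomial (Fin n) k)} {x : Fin n → k} (hx : x ∈ pts q)
    {R : MvPolynomial (Fin n) (AlgebraicClosure k)} (hR : R ∈ geomIdeal q) :
    eval (fun i => algebraMap k (AlgebraicClosure k) (x i)) R = 0 := by
  obtain ⟨m, hm⟩ := hR
  have h1 : q.map (MvPolynomial.map (algebraMap k (AlgebraicClosure k)))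
      ≤ RingHom.ker (eval (fun i => algebraMap k (AlgebraicClosure k) (x i))) := by
    rw [Ideal.map_le_iff_le_comap]
    intro P hP
    rw [Ideal.mem_comap, RingHom.mem_ker, eval_map_alg, hx P hP, map_zero]
  have h2 := h1 hm
  rw [RingHom.mem_ker, map_pow] at h2
  exact eq_zero_of_pow_eq_zero h2

end HilbLem

end GZ
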