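import Pool.Agent.GZ.MainAux

namespace GZ

open MvPolynomial Filter

universe u

/-- The ideal of relations between the `y_j` modulo `q`. -/
noncomputable def relIdeal {k : Type u} [Field k] {n ν : ℕ}
    (y : Fin ν → MvPolynomial (Fin n) k) (q : Ideal (MvPolynomial (Fin n) k)) :
    Ideal (MvPolynomial (Fin ν) k) :=
  q.comap (aeval y : MvPolynomial (Fin ν) k →ₐ[k] MvPolynomial (Fin n) k)

theorem mem_relIdeal {k : Type u} [Field k] {n ν : ℕ}
    (y : Fin ν → MvPolynomial (Fin n) k) (q : Ideal (MvPolynomial (Fin n) k))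
    (P : MvPolynomial (Fin ν) k) : P ∈ relIdeal y q ↔ aeval y P ∈ q := Iff.rfl

theorem totalDegree_aeval_le {k : Type u} [Field k] {n ν : ℕ}
    (y : Fin ν → MvPolynomial (Fin n) k) (hy : ∀ j, (y j).totalDegree ≤ 1)
    (P : MvPolynomial (Fin ν) k) : (aeval y P).totalDegree ≤ P.totalDegree := by
  rw [aeval_def, eval₂_eq']
  refine (totalDegree_finsetSum _ _).trans (Finset.sup_le fun α hα => ?_)
  refine (totalDegree_mul _ _).trans ?_
  have h1 : ((algebraMap k (MvPolynomial (Fin n) k)) (coeff α P)).totalDegree = 0 := by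
    rw [algebraMap_eq]
    exact totalDegree_C _
  rw [h1, zero_add]
  refine (totalDegree_finsetProd _ _).trans ?_
  refine le_trans ?_ (le_totalDegree hα)
  rw [Finsupp.sum_fintype _ _ (by simp)]
  refine Finset.sum_le_sum fun j _ => ?_
  refine (totalDegree_pow _ _).trans ?_
  calc α j * (y j).totalDegree ≤ α j * 1 := Nat.mul_le_mul_left _ (hy j)
    _ = α j := mul_one _

theorem eval_aeval {k : Type u} [Field k] {n ν : ℕ}
    (y : Fin ν → MvPolynomial (Fin n) k) (x : Fin n → k) (P : MvPolynomial (Fin ν) k) :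
    eval x (aeval y P) = eval (fun j => eval x (y j)) P := by
  induction P using MvPolynomial.induction_on with
  | C a => simp
  | add p q hp hq => simp only [map_add, hp, hq]
  | mul_X p j hp => simp only [map_mul, hp, aeval_X, eval_X]

/-- Compat relations descend along injective ring homomorphisms over `k`. -/
theorem Compat.of_injective {k : Type u} [Field k] {A B : Type u} [CommRing A] [CommRing B]
    [Algebra k A] [Algebra k B] (f : A →ₐ[k] B) (hf : Function.Injective f) {l z : A} {N : ℕ}
    (h : Compat (Set.range (algebraMap k B)) (f l) (f z) N) :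
    Compat (Set.range (algebraMap k A)) l z N := by
  obtain ⟨κ, hκ, hrel⟩ := h
  choose κ0 hκ0 using hκ
  refine ⟨fun a b => algebraMap k A (κ0 a b), fun a b => ⟨_, rfl⟩, hf ?_⟩
  rw [map_pow, hrel, map_sum]
  refine Finset.sum_congr rfl fun b _ => ?_
  rw [map_sum]
  refine Finset.sum_congr rfl fun a _ => ?_
  rw [map_mul, map_mul, map_pow, map_pow, f.commutes, hκ0]

/-- The condition on the members of the system. -/
def SysCond {k : Type u} [Field k] {n ν : ℕ} (c : ℕ)
    (y : Fin ν → MvPolynomial (Fin n) k) (q : Ideal (MvPolynomial (Fin n) k)) : Prop :=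
  Good c q ∧ (∀ j, (y j).totalDegree ≤ 1) ∧ (ringChar k = 0 ∨ c < ringChar k) ∧
    ∃ j, ∀ P : Polynomial k, P ≠ 0 → Polynomial.aeval (y j) P ∉ q

theorem exists_finset_nat {k : Type u} [Field k] (c : ℕ)
    (h : ringChar k = 0 ∨ c < ringChar k) :
    ∃ S : Finset k, c < S.card ∧ ∀ s ∈ S, ∃ m : ℕ, m ≤ c ∧ (m : k) = s := by
  classical
  refine ⟨(Finset.range (c + 1)).image (fun m : ℕ => (m : k)), ?_, ?_⟩
  · rw [Finset.card_image_of_injOn, Finset.card_range]
    · exact Nat.lt_succ_self c
    · intro a ha b hb hab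
      simp only [Finset.coe_range, Set.mem_Iio] at ha hb
      have hab' : (a : k) = (b : k) := hab
      rcases h with h | h
      · have : CharP k 0 := by
          rw [← h]
          exact ringChar.charP k
        have : CharZero k := CharP.charP_to_charZero k
        exact_mod_cast hab'
      · have h1 := (CharP.cast_eq_iff_mod_eq k (ringChar k)).1 hab'
        rwa [Nat.mod_eq_of_lt (by omega), Nat.mod_eq_of_lt (by omega)] at h1
  · intro s hs
    obtain ⟨m, hm, rfl⟩ := Finset.mem_image.1 hs
    exact ⟨m, by simpa [Nat.lt_succ_iff] using hm, rfl⟩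

/-- The system of good curves at level `ν`. -/
noncomputable def sys (hC3 : C3Stmt.{u}) {k : Type u} [Field k] {n ν : ℕ} (c C5 : ℕ)
    (hC5 : ∀ q q' : Ideal (MvPolynomial (Fin n) k), Good c q → Good c q' → q ≠ q' →
      (pts q ∩ pts q').encard ≤ (C5 : ℕ∞))
    (y : Fin ν → MvPolynomial (Fin n) k) : CurveSys k ν (c + C5) where
  ι := {q : Ideal (MvPolynomial (Fin n) k) // SysCond c y q}
  Pt := Fin n → k
  pos := fun x j => eval x (y j)
  r := fun q => relIdeal y q.1
  inc := fun x q => x ∈ pts q.1
  prime := by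
    intro q
    have := q.2.1.prime
    exact Ideal.IsPrime.comap _
  vanish := by
    intro q x P hP hx
    rw [← eval_aeval]
    exact hx _ hP
  bez := by
    intro q P hP
    refine le_trans (Set.encard_le_encard ?_)
      ((q.2.1.bez (aeval y P) hP).trans ?_)
    · rintro x ⟨hx, hx0⟩
      refine ⟨hx, ?_⟩
      rw [eval_aeval]
      exact hx0
    · have h1 := totalDegree_aeval_le y q.2.2.1 P
      have h2 : c * (aeval y P).totalDegree ≤ (c + C5) * P.totalDegree :=
        Nat.mul_le_mul (Nat.le_add_right _ _) h1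
      exact_mod_cast h2
  meet := by
    intro q q' h
    have h1 := hC5 q.1 q'.1 q.2.1 q'.2.1 (fun h' => h (Subtype.ext h'))
    refine le_trans (Set.encard_le_encard ?_) (h1.trans ?_)
    · rintro x ⟨hx, hx'⟩
      exact ⟨hx, hx'⟩
    · exact_mod_cast Nat.le_add_left C5 c
  straight := by
    intro q
    obtain ⟨S, hS, hSn⟩ := exists_finset_nat (k := k) c q.2.2.2.1
    obtain ⟨s, hs, h⟩ := hC3 k n ν c 1 (fun _ => q.1) (fun _ => q.2.1) y q.2.2.1
      (fun _ => q.2.2.2.2) S (by omega)
    choose m hm hms using fun j => hSn (s j) (hs j)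
    obtain ⟨htr, hco⟩ := h 0
    have hl : aeval y (lform m (X : Fin ν → MvPolynomial (Fin ν) k)) = ∑ j, C (s j) * y j := by
      simp only [lform, map_sum, map_mul, aeval_X, map_natCast]
      refine Finset.sum_congr rfl fun j _ => ?_
      rw [← hms j, map_natCast]
    refine ⟨m, fun j => (hm j).trans (Nat.le_add_right _ _), ?_, ?_⟩
    · intro P hP hmem
      refine htr P hP ?_
      have h1 : aeval y (Polynomial.aeval (lform m (X : Fin ν → MvPolynomial (Fin ν) k)) P) ∈ q.1 :=
        hmem
      rw [← Polynomial.aeval_algHom_apply, hl] at h1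
      exact h1
    · intro j
      obtain ⟨N, hN, hcomp⟩ := hco (Pi.single j 1)
      refine ⟨N, hN.trans (Nat.le_add_right _ _), ?_⟩
      have hle : relIdeal y q.1 ≤ q.1.comap
          (aeval y : MvPolynomial (Fin ν) k →ₐ[k] MvPolynomial (Fin n) k) := le_rfl
      let f : (MvPolynomial (Fin ν) k ⧸ relIdeal y q.1) →ₐ[k] (MvPolynomial (Fin n) k ⧸ q.1) :=
        Ideal.quotientMapₐ q.1 (aeval y) hle
      have hf : Function.Injective f := Ideal.quotientMap_injective
      refine Compat.of_injective f hf ?_
      have h1 : f (Ideal.Quotient.mk (relIdeal y q.1) (lform m X)) =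
          Ideal.Quotient.mk q.1 (∑ j, C (s j) * y j) := by
        rw [← hl]
        rfl
      have h2 : f (Ideal.Quotient.mk (relIdeal y q.1) (X j)) =
          Ideal.Quotient.mk q.1 (∑ i, C ((Pi.single j 1 : Fin ν → k) i) * y i) := by
        have h3 : (∑ i, C ((Pi.single j 1 : Fin ν → k) i) * y i) = y j := by
          rw [Finset.sum_eq_single j]
          · simp
          · intro i _ hi
            simp [Pi.single_eq_of_ne hi]
          · simp
        rw [h3]
        change Ideal.Quotient.mk q.1 (aeval y (X j)) = _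
        rw [aeval_X]
      rw [h1, h2]
      exact hcomp

end GZ
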