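import Pool.Agent.GZ.D3
import Pool.Agent.GZ.HilbLem
import Pool.Agent.GZ.Sys

/-! GZ row C2 (helper40): plane relations of degree at most `d` for a prime of growth `d`. -/

namespace GZ

open MvPolynomial Filter

universe u

namespace C2

theorem choose_diff (e s : ℕ) : e * (s + 1) + (s + 2).choose 2 ≤ (s + e + 2).choose 2 := by
  induction e with
  | zero => simp
  | succ e ih =>
    have h : (s + (e + 1) + 2).choose 2 = (s + e + 2).choose 1 + (s + e + 2).choose 2 := by
      have : s + (e + 1) + 2 = (s + e + 2) + 1 := by ring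
      rw [this, Nat.choose_succ_succ]
    rw [h, Nat.choose_one_right]
    have : (e + 1) * (s + 1) = e * (s + 1) + (s + 1) := by ring
    omega

variable {k : Type u} [Field k] {n : ℕ}

/-- the ideal of plane relations -/
noncomputable def kerId (q : Ideal (MvPolynomial (Fin n) k)) (w z : MvPolynomial (Fin n) k) :
    Ideal (MvPolynomial (Fin 2) k) := q.comap (aeval ![w, z] : MvPolynomial (Fin 2) k →ₐ[k] _)

theorem mem_kerId {q : Ideal (MvPolynomial (Fin n) k)} {w z : MvPolynomial (Fin n) k}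
    {g : MvPolynomial (Fin 2) k} : g ∈ kerId q w z ↔ aeval ![w, z] g ∈ q := Iff.rfl

theorem kerId_isPrime {q : Ideal (MvPolynomial (Fin n) k)} (hq : q.IsPrime)
    (w z : MvPolynomial (Fin n) k) : (kerId q w z).IsPrime := Ideal.comap_isPrime _ _

/-- counting -/
theorem count (q : Ideal (MvPolynomial (Fin n) k)) (w z : MvPolynomial (Fin n) k)
    (hw : w.totalDegree ≤ 1) (hz : z.totalDegree ≤ 1) (e s : ℕ) (g : MvPolynomial (Fin 2) k)
    (he : e ≤ g.totalDegree ∨ g = 0)
    (hK : kerId q w z = Ideal.span {g}) : e * (s + 1) ≤ hilb q (s + e) := by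
  set P := restrictTotalDegree (Fin 2) k (s + e) with hP
  let f : P →ₗ[k] (MvPolynomial (Fin n) k ⧸ q) :=
    (((Ideal.Quotient.mkₐ k q).comp (aeval ![w, z])).toLinearMap).domRestrict P
  have hf : ∀ x : P, f x = Ideal.Quotient.mk q (aeval ![w, z] x.1) := fun _ => rfl
  have hyd : ∀ j, ((![w, z] : Fin 2 → MvPolynomial (Fin n) k) j).totalDegree ≤ 1 := by
    intro j
    fin_cases j
    · exact hw
    · exact hz
  have h1 : Module.finrank k (LinearMap.range f) ≤ hilb q (s + e) := by
    rw [HilbLem.hilb_eq]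
    apply Submodule.finrank_mono
    rintro _ ⟨x, rfl⟩
    rw [hf]
    apply HilbLem.mk_mem_HV
    exact (totalDegree_aeval_le _ hyd _).trans ((mem_restrictTotalDegree _ _ _).1 x.2)
  have h2 := LinearMap.finrank_range_add_finrank_ker f
  have h3 : Module.finrank k (LinearMap.ker f) ≤ (s + 2).choose 2 := by
    rw [← D3.finrank_rtd k 2 s]
    have hsub : (LinearMap.ker f).map P.subtype ≤
        (restrictTotalDegree (Fin 2) k s).map (LinearMap.mulLeft k g) := by
      rintro _ ⟨x, hx, rfl⟩
      have hx1 : aeval ![w, z] x.1 ∈ q := by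
        rw [← Ideal.Quotient.eq_zero_iff_mem, ← hf]
        exact hx
      have hx2 : x.1 ∈ Ideal.span {g} := by
        rw [← hK]
        exact hx1
      obtain ⟨r, hr⟩ := Ideal.mem_span_singleton'.1 hx2
      show x.1 ∈ _
      by_cases hx0 : x.1 = 0
      · rw [hx0]
        exact Submodule.zero_mem _
      · refine ⟨r, ?_, ?_⟩
        · have hg0 : g ≠ 0 := by
            rintro rfl
            apply hx0
            rw [← hr, mul_zero]
          have hr0 : r ≠ 0 := by
            rintro rfl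
            apply hx0
            rw [← hr, zero_mul]
          have h4 := totalDegree_mul_of_isDomain hr0 hg0
          rw [hr] at h4
          have h5 : x.1.totalDegree ≤ s + e := (mem_restrictTotalDegree _ _ _).1 x.2
          have h6 : e ≤ g.totalDegree := he.resolve_right hg0
          exact (mem_restrictTotalDegree _ _ _).2 (by omega)
        · rw [← hr]
          exact mul_comm _ _
    calc Module.finrank k (LinearMap.ker f) = Module.finrank k ((LinearMap.ker f).map P.subtype) :=
          (LinearEquiv.finrank_eq (Submodule.equivMapOfInjective _ P.injective_subtype _))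
      _ ≤ Module.finrank k ((restrictTotalDegree (Fin 2) k s).map (LinearMap.mulLeft k g)) :=
          Submodule.finrank_mono hsub
      _ ≤ Module.finrank k (restrictTotalDegree (Fin 2) k s) := Submodule.finrank_map_le _ _
  have h7 : Module.finrank k P = (s + e + 2).choose 2 := D3.finrank_rtd k 2 (s + e)
  have h8 := choose_diff e s
  omega

/-- growth -/
theorem growth (q : Ideal (MvPolynomial (Fin n) k)) (d e : ℕ) (hd : HasDimDeg q 1 d)
    (h : ∀ s, e * (s + 1) ≤ hilb q (s + e)) : e ≤ d := by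
  by_contra hlt
  push Not at hlt
  have h1 := hd.2 (1 / 2) (by norm_num)
  obtain ⟨t, ht1, ht2⟩ := (h1.and (eventually_ge_atTop (2 * e * e + e + 1))).exists
  obtain ⟨s, rfl⟩ : ∃ s, t = s + e := ⟨t - e, by omega⟩
  have h2 := h s
  have h3 : (e : ℝ) * ((s : ℝ) + 1) ≤ (hilb q (s + e) : ℝ) := by exact_mod_cast h2
  rw [Nat.factorial_one, Nat.cast_one, one_mul, pow_one] at ht1
  have h4 : (d : ℝ) + 1 ≤ (e : ℝ) := by exact_mod_cast hlt
  have h5 : ((2 * e * e + e + 1 : ℕ) : ℝ) ≤ ((s + e : ℕ) : ℝ) := by exact_mod_cast ht2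
  push_cast at h5 ht1
  have h6 : (e : ℝ) * ((s : ℝ) + 1) ≤ ((d : ℝ) + 1 / 2) * ((s : ℝ) + (e : ℝ)) := h3.trans ht1
  have h7 : (0 : ℝ) ≤ (s : ℝ) := Nat.cast_nonneg _
  have h8 : (0 : ℝ) ≤ (e : ℝ) := Nat.cast_nonneg _
  have h9 : ((d : ℝ) + 1 / 2) * ((s : ℝ) + (e : ℝ)) ≤ ((e : ℝ) - 1 / 2) * ((s : ℝ) + (e : ℝ)) := by
    apply mul_le_mul_of_nonneg_right _ (by positivity)
    linarith
  nlinarith

/-- prime ideals of the plane of dimension one are principal -/
theorem principal (K : Ideal (MvPolynomial (Fin 2) k)) (hK : K.IsPrime) (hmax : ¬ K.IsMaximal) :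
    ∃ g, K = Ideal.span {g} := by
  by_cases h0 : K = ⊥
  · exact ⟨0, by rw [h0]; simp⟩
  obtain ⟨p, hpK, hp⟩ := hK.exists_mem_prime_of_ne_bot h0
  refine ⟨p, ?_⟩
  by_contra hne
  have hpp : (Ideal.span {p}).IsPrime := (Ideal.span_singleton_prime hp.ne_zero).2 hp
  have hle : Ideal.span {p} ≤ K := by
    rw [Ideal.span_singleton_le_iff_mem]
    exact hpK
  have hlt : Ideal.span {p} < K := lt_of_le_of_ne hle (Ne.symm hne)
  obtain ⟨m, hm, hKm⟩ := Ideal.exists_le_maximal K hK.ne_top
  have hKm' : K < m := lt_of_le_of_ne hKm (by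
    rintro rfl
    exact hmax hm)
  have hbot : (⊥ : Ideal (MvPolynomial (Fin 2) k)) < Ideal.span {p} := by
    rw [bot_lt_iff_ne_bot, Ne, Ideal.span_singleton_eq_bot]
    exact hp.ne_zero
  have hdim : ringKrullDim (MvPolynomial (Fin 2) k) = 2 := by
    rw [MvPolynomial.ringKrullDim_of_isNoetherianRing, ringKrullDim_eq_zero_of_field]
    simp
  let x0 : PrimeSpectrum (MvPolynomial (Fin 2) k) := ⟨⊥, Ideal.isPrime_bot⟩
  let x1 : PrimeSpectrum (MvPolynomial (Fin 2) k) := ⟨Ideal.span {p}, hpp⟩
  let x2 : PrimeSpectrum (MvPolynomial (Fin 2) k) := ⟨K, hK⟩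
  let x3 : PrimeSpectrum (MvPolynomial (Fin 2) k) := ⟨m, hm.isPrime⟩
  have l01 : x0 < x1 := hbot
  have l12 : x1 < x2 := hlt
  have l23 : x2 < x3 := hKm'
  let c : LTSeries (PrimeSpectrum (MvPolynomial (Fin 2) k)) :=
    { length := 3
      toFun := ![x0, x1, x2, x3]
      step := by
        intro i
        fin_cases i
        · exact l01
        · exact l12
        · exact l23 }
  have hc := Order.LTSeries.length_le_krullDim c
  have : ((3 : ℕ) : WithBot ℕ∞) ≤ 2 := by
    rw [← hdim]
    exact hc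
  have h3 : ((3 : ℕ) : WithBot ℕ∞) ≤ ((2 : ℕ) : WithBot ℕ∞) := this
  have h4 : (3 : ℕ) ≤ 2 := by exact_mod_cast h3
  omega

/-- if the ideal of relations is maximal then `w` and `z` are algebraic -/
theorem algebraic_of_isMaximal (q : Ideal (MvPolynomial (Fin n) k)) (w z : MvPolynomial (Fin n) k)
    (hmax : (kerId q w z).IsMaximal) (j : Fin 2) :
    ∃ P : Polynomial k, P ≠ 0 ∧ Polynomial.aeval ((![w, z] : Fin 2 → MvPolynomial (Fin n) k) j) P ∈ q := by
  have h := quotient_mk_comp_C_isIntegral_of_isJacobsonRing (kerId q w z)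
    (Ideal.Quotient.mk _ (X j))
  obtain ⟨P, hP, hP2⟩ := h
  refine ⟨P, hP.ne_zero, ?_⟩
  have h1 : Polynomial.eval₂ ((Ideal.Quotient.mk (kerId q w z)).comp C)
      (Ideal.Quotient.mk (kerId q w z) (X j)) P =
      Ideal.Quotient.mk (kerId q w z) (Polynomial.eval₂ C (X j) P) := by
    rw [Polynomial.hom_eval₂]
  rw [h1, Ideal.Quotient.eq_zero_iff_mem, mem_kerId] at hP2
  have h2 : aeval ![w, z] (Polynomial.eval₂ (C : k →+* MvPolynomial (Fin 2) k) (X j) P) =
      Polynomial.aeval ((![w, z] : Fin 2 → MvPolynomial (Fin n) k) j) P := by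
    have h3 : Polynomial.eval₂ (C : k →+* MvPolynomial (Fin 2) k) (X j) P =
        Polynomial.aeval (X j : MvPolynomial (Fin 2) k) P := rfl
    rw [h3, ← Polynomial.aeval_algHom_apply, aeval_X]
  rwa [h2] at hP2

/-- main case -/
theorem main_case (q : Ideal (MvPolynomial (Fin n) k)) (hq : q.IsPrime) (d : ℕ)
    (hd : HasDimDeg q 1 d) (w z : MvPolynomial (Fin n) k)
    (hw : w.totalDegree ≤ 1) (hz : z.totalDegree ≤ 1) (j : Fin 2)
    (htr : ∀ P : Polynomial k, P ≠ 0 →
      Polynomial.aeval ((![w, z] : Fin 2 → MvPolynomial (Fin n) k) j) P ∉ q) :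
    ∃ g : MvPolynomial (Fin 2) k, g ≠ 0 ∧ g.totalDegree ≤ d ∧ kerId q w z = Ideal.span {g} := by
  have hnm : ¬ (kerId q w z).IsMaximal := by
    intro h
    obtain ⟨P, h1, h2⟩ := algebraic_of_isMaximal q w z h j
    exact htr P h1 h2
  obtain ⟨g, hg⟩ := principal _ (kerId_isPrime hq w z) hnm
  have hg0 : g ≠ 0 := by
    rintro rfl
    have := growth q d (d + 1) hd (fun s => count q w z hw hz (d + 1) s 0 (Or.inr rfl) hg)
    omega
  refine ⟨g, hg0, ?_, hg⟩
  exact growth q d g.totalDegree hd (fun s => count q w z hw hz _ s g (Or.inl le_rfl) hg)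

theorem degreeOf_aeval_X (P : Polynomial k) :
    degreeOf 1 (Polynomial.aeval (X 0 : MvPolynomial (Fin 2) k) P) = 0 := by
  rw [Polynomial.aeval_eq_sum_range]
  apply Nat.eq_zero_of_le_zero
  refine (degreeOf_sum_le _ _ _).trans (Finset.sup_le fun i _ => ?_)
  rw [MvPolynomial.smul_eq_C_mul]
  refine (degreeOf_C_mul_le _ _ _).trans ?_
  rw [degreeOf_X_pow_of_ne]
  exact one_ne_zero

end C2

open C2 in
theorem c2 : C2Stmt.{u} := by
  intro k _ n d q hq hd w z hw hz
  by_cases hwt : ∀ P : Polynomial k, P ≠ 0 → Polynomial.aeval w P ∉ q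
  · obtain ⟨g, h1, h2, h3⟩ := main_case q hq d hd w z hw hz 0 hwt
    refine ⟨g, h1, h2, ?_⟩
    rw [← mem_kerId, h3]
    exact Ideal.mem_span_singleton_self g
  · by_cases hzt : ∀ P : Polynomial k, P ≠ 0 → Polynomial.aeval z P ∉ q
    · obtain ⟨g, h1, h2, h3⟩ := main_case q hq d hd w z hw hz 1 hzt
      refine ⟨g, h1, h2, ?_⟩
      rw [← mem_kerId, h3]
      exact Ideal.mem_span_singleton_self g
    · push Not at hwt
      obtain ⟨P, hP0, hPq⟩ := hwt
      have hx : ∃ j : Fin n, ∀ P : Polynomial k, P ≠ 0 →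
          Polynomial.aeval (X j : MvPolynomial (Fin n) k) P ∉ q := by
        by_contra hcon
        push Not at hcon
        exact HilbLem.not_finite_of_dim hd (HilbLem.finite_of_algebraic q hcon)
      obtain ⟨j, hj⟩ := hx
      obtain ⟨g, h1, h2, h3⟩ := main_case q hq d hd w (X j) hw (by rw [totalDegree_X]) 1 hj
      refine ⟨g, h1, h2, ?_⟩
      set P' : MvPolynomial (Fin 2) k := Polynomial.aeval (X 0) P with hP'
      have hP'0 : P' ≠ 0 := by
        intro h
        apply hP0
        have hinj : Function.Injective (Polynomial.aeval (X 0 : MvPolynomial (Fin 2) k) :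
            Polynomial k →ₐ[k] MvPolynomial (Fin 2) k) := by
          rw [← transcendental_iff_injective]
          exact transcendental_X k 0
        exact hinj (by rw [map_zero]; exact h)
      have hP'K : P' ∈ kerId q w (X j) := by
        rw [mem_kerId, hP', ← Polynomial.aeval_algHom_apply, aeval_X]
        exact hPq
      rw [h3] at hP'K
      obtain ⟨r, hr⟩ := Ideal.mem_span_singleton'.1 hP'K
      have hr0 : r ≠ 0 := by
        rintro rfl
        apply hP'0
        rw [← hr, zero_mul]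
      have hdeg : degreeOf 1 g = 0 := by
        have h4 := degreeOf_mul_eq (n := (1 : Fin 2)) hr0 h1
        rw [hr, hP', degreeOf_aeval_X] at h4
        omega
      have hvars : (1 : Fin 2) ∉ g.vars := by
        rw [mem_vars_iff_degreeOf_ne_zero]
        exact fun h => h hdeg
      have heq : aeval ![w, z] g = aeval ![w, (X j : MvPolynomial (Fin n) k)] g := by
        refine eval₂Hom_congr' rfl ?_ rfl
        intro i hi _
        fin_cases i
        · rfl
        · exact absurd hi hvars
      rw [heq, ← mem_kerId, h3]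
      exact Ideal.mem_span_singleton_self g

end GZ
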