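import Pool.Agent.GZ.HilbLem

/-!
# GZ row Good: a curve of degree at most `d` with more than `d ^ 3` rational points is good
-/

namespace GZ

open MvPolynomial

universe u

namespace GoodAux

variable {k : Type u} [Field k]

theorem totalDegree_aeval_le {ν n : ℕ} (y : Fin ν → MvPolynomial (Fin n) k)
    (hy : ∀ j, (y j).totalDegree ≤ 1) (P : MvPolynomial (Fin ν) k) :
    (aeval y P).totalDegree ≤ P.totalDegree := by
  classical
  rw [aeval_def, eval₂_eq]
  refine (totalDegree_finsetSum _ _).trans (Finset.sup_le fun α hα => ?_)
  refine (totalDegree_mul _ _).trans ?_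
  have h0 : (algebraMap k (MvPolynomial (Fin n) k) (P.coeff α)).totalDegree = 0 := by
    rw [algebraMap_eq, totalDegree_C]
  rw [h0, zero_add]
  refine (totalDegree_finsetProd _ _).trans ?_
  refine le_trans ?_ (le_totalDegree hα)
  refine Finset.sum_le_sum fun i _ => ?_
  refine (totalDegree_pow _ _).trans ?_
  calc α i * (y i).totalDegree ≤ α i * 1 := Nat.mul_le_mul_left _ (hy i)
    _ = α i := mul_one _

theorem map_aeval_poly {K : Type u} [Field K] [Algebra k K] {n : ℕ} (j : Fin n)
    (P : Polynomial k) :
    MvPolynomial.map (algebraMap k K) (Polynomial.aeval (X j : MvPolynomial (Fin n) k) P)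
      = Polynomial.aeval (X j : MvPolynomial (Fin n) K) (P.map (algebraMap k K)) := by
  induction P using Polynomial.induction_on' with
  | add p q hp hq => rw [map_add, map_add, hp, hq, Polynomial.map_add, map_add]
  | monomial m a =>
    rw [Polynomial.aeval_monomial, Polynomial.map_monomial, Polynomial.aeval_monomial, map_mul,
      map_pow, map_X, algebraMap_eq, algebraMap_eq, map_C]

end GoodAux

open GoodAux

theorem good (hC1 : C1Stmt.{u}) (hC2 : C2Stmt.{u}) (hG : GeoCompStmt.{u}) : GoodStmt.{u} := by
  classical
  intro k _ n d q hq hcard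
  refine ⟨hq.1, ?_, ?_, ?_⟩
  · by_contra hcon
    push Not at hcon
    refine HilbLem.not_finite_of_dim hq.2 (HilbLem.finite_of_algebraic _ fun j => ?_)
    obtain ⟨P, hP0, hP⟩ := hcon j
    refine ⟨P.map (algebraMap k (AlgebraicClosure k)), ?_, ?_⟩
    · rwa [Polynomial.map_ne_zero_iff (algebraMap k (AlgebraicClosure k)).injective]
    · rw [← map_aeval_poly]
      exact HilbLem.map_mem_geomIdeal hP
  · intro P hP
    refine (hC1 k n d q hq P hP).trans ?_
    have h1 : d * P.totalDegree ≤ d ^ 2 * P.totalDegree :=
      Nat.mul_le_mul_right _ (Nat.le_self_pow two_ne_zero d)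
    exact_mod_cast h1
  · intro w z hw hz
    obtain ⟨r, Q, hr, hQ, hQI⟩ := hG k n d q hq
    have hw' := (HilbLem.totalDegree_map_le' (algebraMap k (AlgebraicClosure k)) w).trans hw
    have hz' := (HilbLem.totalDegree_map_le' (algebraMap k (AlgebraicClosure k)) z).trans hz
    choose g hg0 hgd hgQ using fun i =>
      hC2 (AlgebraicClosure k) n d (Q i) (hQ i).1 (hQ i).2 _ _ hw' hz'
    have hG0 : ∏ i, g i ≠ 0 := Finset.prod_ne_zero_iff.mpr fun i _ => hg0 i
    have hGd : (∏ i, g i).totalDegree ≤ d ^ 2 := by
      refine (totalDegree_finsetProd _ _).trans ?_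
      refine (Finset.sum_le_card_nsmul _ _ d fun i _ => hgd i).trans ?_
      rw [Finset.card_univ, Fintype.card_fin, smul_eq_mul, sq]
      exact Nat.mul_le_mul_right _ hr
    have hGmem : aeval ![MvPolynomial.map (algebraMap k (AlgebraicClosure k)) w,
        MvPolynomial.map (algebraMap k (AlgebraicClosure k)) z] (∏ i, g i) ∈ geomIdeal q := by
      rw [← hQI, Ideal.mem_iInf]
      intro i
      rw [map_prod, ← Finset.mul_prod_erase _ _ (Finset.mem_univ i)]
      exact (Q i).mul_mem_right _ (hgQ i)
    obtain ⟨N, e, s, he, hGs, hsd⟩ := GeoLinAux.exists_decomp (k := k) (∏ i, g i)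
    have hs : ∃ l, s l ≠ 0 := by
      by_contra hcon
      push Not at hcon
      apply hG0
      rw [hGs]
      refine Finset.sum_eq_zero fun i _ => ?_
      rw [hcon i, map_zero, mul_zero]
    obtain ⟨l, hl⟩ := hs
    refine ⟨s l, hl, (hsd l).trans hGd, ?_⟩
    by_contra hmem
    have hdeg : (aeval ![w, z] (s l)).totalDegree ≤ d ^ 2 := by
      refine (totalDegree_aeval_le _ ?_ _).trans ((hsd l).trans hGd)
      intro j
      fin_cases j
      · exact hw
      · exact hz
    -- every rational point is a zero
    have hzero : ∀ x ∈ pts q, eval x (aeval ![w, z] (s l)) = 0 := by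
      intro x hx
      have h1 := HilbLem.eval_geomIdeal hx hGmem
      have h2 : ∀ f : MvPolynomial (Fin 2) (AlgebraicClosure k),
          eval (fun i => algebraMap k (AlgebraicClosure k) (x i))
            (aeval ![MvPolynomial.map (algebraMap k (AlgebraicClosure k)) w,
              MvPolynomial.map (algebraMap k (AlgebraicClosure k)) z] f)
            = eval (fun i => algebraMap k (AlgebraicClosure k) (![eval x w, eval x z] i)) f := by
        intro f
        induction f using MvPolynomial.induction_on with
        | C a => rw [aeval_C, algebraMap_eq, eval_C, eval_C]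
        | add p q hp hq => rw [map_add, map_add, map_add, hp, hq]
        | mul_X p i hp =>
          rw [map_mul, map_mul, map_mul, hp, aeval_X, eval_X]
          congr 1
          fin_cases i
          · exact HilbLem.eval_map_alg x w
          · exact HilbLem.eval_map_alg x z
      have h3 : ∀ f : MvPolynomial (Fin 2) k,
          eval x (aeval ![w, z] f) = eval ![eval x w, eval x z] f := by
        intro f
        induction f using MvPolynomial.induction_on with
        | C a => rw [aeval_C, algebraMap_eq, eval_C, eval_C]
        | add p q hp hq => rw [map_add, map_add, map_add, hp, hq]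
        | mul_X p i hp =>
          rw [map_mul, map_mul, map_mul, hp, aeval_X, eval_X]
          congr 1
          fin_cases i
          · rfl
          · rfl
      rw [h2, hGs, map_sum] at h1
      have h4 : ∑ i, (eval ![eval x w, eval x z] (s i)) • e i = 0 := by
        rw [← h1]
        refine Finset.sum_congr rfl fun i _ => ?_
        rw [map_mul, eval_C, HilbLem.eval_map_alg, Algebra.smul_def, mul_comm]
      rw [h3]
      exact (Fintype.linearIndependent_iff.mp he) _ h4 l
    have h5 := hC1 k n d q hq _ hmem
    have h6 : (pts q).encard ≤ ((d ^ 3 : ℕ) : ℕ∞) := by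
      refine (Set.encard_le_encard (t := {x | x ∈ pts q ∧ eval x (aeval ![w, z] (s l)) = 0})
        fun x hx => ⟨hx, hzero x hx⟩).trans (h5.trans ?_)
      have h7 : d * (aeval ![w, z] (s l)).totalDegree ≤ d ^ 3 := by
        calc d * (aeval ![w, z] (s l)).totalDegree ≤ d * d ^ 2 := Nat.mul_le_mul_left _ hdeg
          _ = d ^ 3 := by ring
      exact_mod_cast h7
    exact absurd hcard (not_lt.mpr h6)

end GZ
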