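import Pool.Agent.GZ.Assembly2
import Pool.Agent.GZ.A9
import Pool.Agent.GZ.C2
import Pool.Agent.GZ.Good

namespace GZ

universe u

/-- The theorem on two-rich points. -/
theorem all : FinalStmt.{u} :=
  assembly2 (a9 a8b a8c) (good c1 c2 geoComp)

end GZ
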