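import Pool.Agent.GZ.Rows

/-! # GZ, row B0: closedness -/

namespace GZ

open MvPolynomial Filter

universe u

theorem b0 : B0Stmt.{u} := by
  intro U ν c k _ S M hsc Γ hR P hP hex Γ' hΓ' m
  filter_upwards [hR (m + 1), hP c, hex] with i h1 h2 h3
  refine ⟨?_, ?_⟩
  · obtain ⟨γ, hγ, hPγ⟩ := h3
    exact ⟨γ, (hΓ' i γ).2 ⟨hγ, hPγ⟩⟩
  · intro γ hγ
    obtain ⟨hγ1, hγ2⟩ := (hΓ' i γ).1 hγ
    have h4 := h1.2 γ hγ1
    have hsub : richPts (S i) (Γ i) γ ⊆
        richPts (S i) (Γ' i) γ ∪ {x | (S i).inc x γ ∧ eval ((S i).pos x) (P i) = 0} := by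
      rintro x ⟨hx, γ', hγ', hne, hx'⟩
      by_cases h0 : eval ((S i).pos x) (P i) = 0
      · exact Or.inr ⟨hx, h0⟩
      · refine Or.inl ⟨hx, γ', (hΓ' i γ').2 ⟨hγ', fun hmem => h0 ?_⟩, hne, hx'⟩
        exact (S i).vanish γ' x (P i) hmem hx'
    have h5 : (((m + 1) * M i : ℕ) : ℕ∞) ≤
        (richPts (S i) (Γ' i) γ).encard + (M i : ℕ∞) := by
      calc (((m + 1) * M i : ℕ) : ℕ∞) ≤ (richPts (S i) (Γ i) γ).encard := h4
        _ ≤ (richPts (S i) (Γ' i) γ ∪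
            {x | (S i).inc x γ ∧ eval ((S i).pos x) (P i) = 0}).encard :=
          Set.encard_le_encard hsub
        _ ≤ (richPts (S i) (Γ' i) γ).encard +
            {x | (S i).inc x γ ∧ eval ((S i).pos x) (P i) = 0}.encard :=
          Set.encard_union_le _ _
        _ ≤ (richPts (S i) (Γ' i) γ).encard + (M i : ℕ∞) := by
          refine add_le_add le_rfl (((S i).bez γ (P i) hγ2).trans ?_)
          exact_mod_cast h2
    have h6 : ((m * M i : ℕ) : ℕ∞) + (M i : ℕ∞) ≤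
        (richPts (S i) (Γ' i) γ).encard + (M i : ℕ∞) := by
      refine le_trans (le_of_eq ?_) h5
      rw [← Nat.cast_add]
      congr 1
      ring
    exact (ENat.add_le_add_iff_right (ENat.natCast_ne_top _)).1 h6

end GZ
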