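import Pool.Agent.GZ.Rows

/-! # GZ, row B1: diagonal lemma -/

namespace GZ

open MvPolynomial Filter

universe u

theorem b1 : B1Stmt.{u} := by
  classical
  intro U hU α _ Q hQ hex
  have hanti : ∀ i x m n, m ≤ n → Q n i x → Q m i x := by
    intro i x m n hmn
    induction hmn with
    | refl => exact id
    | step _ ih => exact fun h => ih (hQ _ _ _ h)
  let ms : ℕ → ℕ := fun i => Nat.findGreatest (fun m => ∃ x, Q m i x) i
  let xs : ∀ i, α i := fun i =>
    if h : ∃ x, Q (ms i) i x then h.choose else Classical.arbitrary (α i)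
  refine ⟨xs, fun m => ?_⟩
  filter_upwards [hU m, hex m] with i h1 h2
  have h3 : ∃ x, Q (ms i) i x :=
    Nat.findGreatest_spec (P := fun m => ∃ x, Q m i x) h1 h2
  have h4 : m ≤ ms i := Nat.le_findGreatest h1 h2
  have h5 : xs i = h3.choose := dif_pos h3
  rw [h5]
  exact hanti i _ m (ms i) h4 h3.choose_spec

end GZ
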