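import Pool.Agent.GZ.Rows

/-!
# GZ, row B2: parameter count
-/

namespace GZ

open MvPolynomial Filter

universe u

theorem finite_monomials (ν e : ℕ) :
    Set.Finite {n : Fin ν →₀ ℕ | (n.sum fun _ e => e) ≤ e} :=
  Finsupp.finite_of_degree_le e

theorem finite_rtd (k : Type u) [Field k] (ν e : ℕ) :
    Module.Finite k (restrictTotalDegree (Fin ν) k e) := by
  have : Finite {n : Fin ν →₀ ℕ | (n.sum fun _ e => e) ≤ e} := finite_monomials ν e
  exact Module.Finite.of_basis (basisRestrictSupport k _)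

theorem card_le_finrank (k : Type u) [Field k] (ν e : ℕ) :
    (e / ν + 1) ^ ν ≤ Module.finrank k (restrictTotalDegree (Fin ν) k e) := by
  have hfin : Finite {n : Fin ν →₀ ℕ | (n.sum fun _ e => e) ≤ e} := finite_monomials ν e
  have h1 : Module.finrank k (restrictTotalDegree (Fin ν) k e)
      = Nat.card {n : Fin ν →₀ ℕ | (n.sum fun _ e => e) ≤ e} :=
    Module.finrank_eq_nat_card_basis (basisRestrictSupport k _)
  have h2 : Nat.card (Fin ν → Fin (e / ν + 1)) = (e / ν + 1) ^ ν := by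
    rw [Nat.card_eq_fintype_card, Fintype.card_fun, Fintype.card_fin, Fintype.card_fin]
  rw [h1, ← h2]
  refine Nat.card_le_card_of_injective
    (fun a => ⟨Finsupp.equivFunOnFinite.symm fun j => (a j : ℕ), ?_⟩) ?_
  · rw [Set.mem_ofPred_eq, Finsupp.sum_fintype _ _ (fun _ => rfl)]
    calc ∑ j, (Finsupp.equivFunOnFinite.symm fun j => (a j : ℕ)) j
        ≤ ∑ _j : Fin ν, e / ν := by
          refine Finset.sum_le_sum fun j _ => ?_
          rw [Finsupp.equivFunOnFinite_symm_apply_apply]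
          have := (a j).isLt
          omega
      _ ≤ e := by
          rw [Finset.sum_const, Finset.card_univ, Fintype.card_fin, smul_eq_mul]
          exact Nat.mul_div_le e ν
  · intro a b hab
    rw [Subtype.mk.injEq] at hab
    have h3 := Finsupp.equivFunOnFinite.symm.injective hab
    funext j
    exact Fin.ext (congrFun h3 j)

theorem exists_ne_zero_of_sum_lt {k : Type u} [Field k] {V : Type u} [AddCommGroup V] [Module k V]
    [Module.Finite k V] {ι : Type u} (Γ : Finset ι) (A : ι → Type u) [∀ i, AddCommGroup (A i)]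
    [∀ i, Module k (A i)] (φ : ∀ i, V →ₗ[k] A i)
    (h : ∑ γ ∈ Γ, Module.finrank k (LinearMap.range (φ γ)) < Module.finrank k V) :
    ∃ v : V, v ≠ 0 ∧ ∀ γ ∈ Γ, φ γ v = 0 := by
  classical
  let Φ : V →ₗ[k] ∀ γ : Γ, LinearMap.range (φ γ) := LinearMap.pi fun γ => (φ γ).rangeRestrict
  have h1 : Module.finrank k (∀ γ : Γ, LinearMap.range (φ γ)) < Module.finrank k V := by
    rw [Module.finrank_pi_fintype]
    refine lt_of_eq_of_lt ?_ h
    exact Finset.sum_coe_sort Γ (fun γ => Module.finrank k (LinearMap.range (φ γ)))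
  have h2 : LinearMap.ker Φ ≠ ⊥ := LinearMap.ker_ne_bot_of_finrank_lt h1
  obtain ⟨f, hf1, hf2⟩ := Submodule.exists_mem_ne_zero_of_ne_bot h2
  refine ⟨f, hf2, fun γ hγ => ?_⟩
  rw [LinearMap.mem_ker] at hf1
  have h3 := congrFun hf1 ⟨γ, hγ⟩
  exact congrArg Subtype.val h3

theorem exists_of_sum_lt {k : Type u} [Field k] {ν e : ℕ} {ι : Type u}
    (r : ι → Ideal (MvPolynomial (Fin ν) k)) (Γ : Finset ι)
    (h : ∑ γ ∈ Γ, hilb (r γ) e < Module.finrank k (restrictTotalDegree (Fin ν) k e)) :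
    ∃ f : MvPolynomial (Fin ν) k, f ≠ 0 ∧ f.totalDegree ≤ e ∧ ∀ γ ∈ Γ, f ∈ r γ := by
  have := finite_rtd k ν e
  let φ : ∀ γ : ι, restrictTotalDegree (Fin ν) k e →ₗ[k] (MvPolynomial (Fin ν) k ⧸ r γ) :=
    fun γ => (Ideal.Quotient.mkₐ k (r γ)).toLinearMap.comp (Submodule.subtype _)
  have hr : ∀ γ, Module.finrank k (LinearMap.range (φ γ)) = hilb (r γ) e := by
    intro γ
    unfold hilb
    rw [LinearMap.range_comp, Submodule.range_subtype]
  obtain ⟨⟨f, hf⟩, hf1, hf2⟩ := exists_ne_zero_of_sum_lt Γ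
    (fun γ => MvPolynomial (Fin ν) k ⧸ r γ) φ (by
      rw [Finset.sum_congr rfl fun γ _ => hr γ]
      exact h)
  refine ⟨f, ?_, ?_, ?_⟩
  · rintro rfl
    exact hf1 rfl
  · exact (mem_restrictTotalDegree _ _ _).mp hf
  · intro γ hγ
    exact Ideal.Quotient.eq_zero_iff_mem.mp (hf2 γ hγ)

/-- B2. -/
theorem b2 (h4 : C4Stmt.{u}) : B2Stmt.{u} := by
  intro ν c m hν
  refine ⟨(m + 1) ^ (ν - 1) * (c * ν) ^ ν + 1, 1, ?_⟩
  intro k _ S Γ M hM hcard
  set e := M / (m + 1) with he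
  have hhilb : ∀ γ, hilb (S.r γ) e ≤ c ^ ν * (e + 1) := by
    intro γ
    obtain ⟨s, -, -, hs⟩ := S.straight γ
    refine h4 k ν c (S.r γ) (lform s X) ?_ hs e
    unfold lform
    refine (totalDegree_finsetSum _ _).trans (Finset.sup_le fun j _ => ?_)
    refine (totalDegree_mul _ _).trans ?_
    rw [totalDegree_X]
    have : ((s j : ℕ) : MvPolynomial (Fin ν) k).totalDegree = 0 := by
      rw [← map_natCast (C : k →+* MvPolynomial (Fin ν) k), totalDegree_C]
    rw [this]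
  have hsum : ∑ γ ∈ Γ, hilb (S.r γ) e < Module.finrank k (restrictTotalDegree (Fin ν) k e) := by
    refine lt_of_lt_of_le ?_ (card_le_finrank k ν e)
    have h1 : ∑ γ ∈ Γ, hilb (S.r γ) e ≤ Γ.card * (c ^ ν * (e + 1)) := by
      rw [← smul_eq_mul, ← Finset.sum_const]
      exact Finset.sum_le_sum fun γ _ => hhilb γ
    refine lt_of_le_of_lt h1 ?_
    -- `M < (m + 1) (e + 1)` and `e + 1 ≤ ν (e / ν + 1)`
    have h2 : M ≤ (m + 1) * (e + 1) := by
      rw [he]
      exact (Nat.lt_mul_div_succ M (by omega)).le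
    have h3 : e + 1 ≤ ν * (e / ν + 1) := Nat.lt_mul_div_succ e (by omega)
    have h4 : ν ^ ν * (Γ.card * (c ^ ν * (e + 1))) < (e + 1) ^ ν := by
      obtain ⟨μ, rfl⟩ : ∃ μ, ν = μ + 1 := ⟨ν - 1, by omega⟩
      rw [Nat.add_sub_cancel] at hcard
      have h5 : M ^ μ ≤ (m + 1) ^ μ * (e + 1) ^ μ := by
        rw [← mul_pow]
        exact Nat.pow_le_pow_left h2 μ
      have h6 : (m + 1) ^ μ * ((c * (μ + 1)) ^ (μ + 1) * Γ.card) < (m + 1) ^ μ * (e + 1) ^ μ := by
        rcases Nat.eq_zero_or_pos Γ.card with h7 | h7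
        · rw [h7, mul_zero, mul_zero]
          positivity
        · refine lt_of_lt_of_le ?_ (hcard.trans h5)
          rw [add_mul, one_mul, ← mul_assoc]
          omega
      have h8 : (c * (μ + 1)) ^ (μ + 1) * Γ.card < (e + 1) ^ μ :=
        lt_of_mul_lt_mul_left h6 (Nat.zero_le _)
      calc (μ + 1) ^ (μ + 1) * (Γ.card * (c ^ (μ + 1) * (e + 1)))
          = ((c * (μ + 1)) ^ (μ + 1) * Γ.card) * (e + 1) := by rw [mul_pow]; ring
        _ < (e + 1) ^ μ * (e + 1) := Nat.mul_lt_mul_of_pos_right h8 (Nat.succ_pos e)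
        _ = (e + 1) ^ (μ + 1) := by rw [pow_succ]
    have h5 : (e + 1) ^ ν ≤ ν ^ ν * (e / ν + 1) ^ ν := by
      rw [← mul_pow]
      exact Nat.pow_le_pow_left h3 ν
    exact lt_of_mul_lt_mul_left (lt_of_lt_of_le h4 h5) (Nat.zero_le _)
  obtain ⟨f, hf0, hf1, hf2⟩ := exists_of_sum_lt S.r Γ hsum
  refine ⟨f, hf0, ?_, hf2⟩
  calc m * f.totalDegree ≤ (m + 1) * e := Nat.mul_le_mul (by omega) hf1
    _ ≤ M := by rw [he]; exact Nat.mul_div_le M (m + 1)

end GZ
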