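import Pool.Agent.GZ.Rows

/-!
# GZ, row B3: sampling
-/

namespace GZ

open MvPolynomial Filter

universe u

theorem sum_fun_v {G : Type u} [Fintype G] [DecidableEq G] {N : ℕ} (v : Fin N → ℤ)
    (hv : ∑ a, v a = 0) (g : G) : ∑ χ : G → Fin N, v (χ g) = 0 := by
  have h := Finset.prod_univ_sum (fun _ : G => (Finset.univ : Finset (Fin N)))
    (fun h a => if h = g then v a else 1)
  rw [Fintype.piFinset_univ] at h
  simp only [Finset.prod_ite_eq', Finset.mem_univ, if_true] at h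
  rw [← h]
  exact Finset.prod_eq_zero (Finset.mem_univ g) (by simpa using hv)

theorem sum_fun_vv {G : Type u} [Fintype G] [DecidableEq G] {N : ℕ} (v : Fin N → ℤ)
    (hv : ∑ a, v a = 0) (g g' : G) (hg : g ≠ g') :
    ∑ χ : G → Fin N, v (χ g) * v (χ g') = 0 := by
  have h := Finset.prod_univ_sum (fun _ : G => (Finset.univ : Finset (Fin N)))
    (fun h a => (if h = g then v a else 1) * (if h = g' then v a else 1))
  rw [Fintype.piFinset_univ] at h
  simp only [Finset.prod_mul_distrib, Finset.prod_ite_eq', Finset.mem_univ, if_true] at h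
  rw [← h]
  exact Finset.prod_eq_zero (Finset.mem_univ g) (by simpa [hg] using hv)

theorem sampling {G : Type u} [Fintype G] [DecidableEq G] (c N B : ℕ) (hc : 0 < c) (hN : 0 < N)
    (hB : 0 < B) (w : G → G → ℕ) (hw : ∀ γ γ', w γ γ' ≤ c) (hW : ∀ γ, ∑ γ', w γ γ' = B) :
    ∃ T : Finset G, N * T.card ≤ 2 * Fintype.card G ∧
      B * (Finset.univ.filter fun γ => 2 * N * ∑ γ' ∈ T, w γ γ' ≤ B).card
        ≤ 8 * N * c * Fintype.card G := by
  obtain ⟨n, rfl⟩ : ∃ n, N = n + 1 := ⟨N - 1, by omega⟩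
  -- the centred indicator of the colour `0`
  let v : Fin (n + 1) → ℤ := fun a => (n + 1) * (if a = 0 then 1 else 0) - 1
  have hv : ∑ a, v a = 0 := by
    simp only [v, Finset.sum_sub_distrib, ← Finset.mul_sum, Finset.sum_ite_eq', Finset.mem_univ,
      if_true, Finset.sum_const, Finset.card_univ, Fintype.card_fin, mul_one]
    ring
  have hv2 : ∀ a, v a * v a = (n - 1) * v a + n := by
    intro a
    simp only [v]
    split_ifs <;> ring
  let T : (G → Fin (n + 1)) → Finset G := fun χ => Finset.univ.filter fun g => χ g = 0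
  have hD : ∀ χ γ, ((n + 1 : ℤ) * (∑ γ' ∈ T χ, w γ γ' : ℕ) - B) = ∑ g, (w γ g : ℤ) * v (χ g) := by
    intro χ γ
    simp only [T, v]
    rw [Finset.sum_filter, ← hW γ]
    push_cast
    rw [Finset.mul_sum, ← Finset.sum_sub_distrib]
    refine Finset.sum_congr rfl fun g _ => ?_
    split_ifs <;> ring
  have hC : ∀ χ, ((n + 1 : ℤ) * ((T χ).card : ℕ)) = Fintype.card G + ∑ g, v (χ g) := by
    intro χ
    simp only [T, v]
    rw [Finset.card_filter]
    push_cast
    rw [Finset.sum_sub_distrib, Finset.mul_sum, Finset.sum_const, Finset.card_univ, nsmul_eq_mul]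
    ring
  have hcard : ((Finset.univ : Finset (G → Fin (n + 1))).card : ℤ)
      = Fintype.card (G → Fin (n + 1)) := by rw [Finset.card_univ]
  -- the second moment
  have hS : ∀ γ, ∑ χ : G → Fin (n + 1), ((n + 1 : ℤ) * (∑ γ' ∈ T χ, w γ γ' : ℕ) - B) ^ 2
      ≤ ∑ _χ : G → Fin (n + 1), ((n + 1) * c * B : ℤ) := by
    intro γ
    have h1 : ∀ χ : G → Fin (n + 1), ((n + 1 : ℤ) * (∑ γ' ∈ T χ, w γ γ' : ℕ) - B) ^ 2
        = ∑ g, ∑ g', (w γ g * w γ g' : ℤ) * (v (χ g) * v (χ g')) := by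
      intro χ
      rw [hD, sq, Finset.sum_mul_sum]
      refine Finset.sum_congr rfl fun g _ => Finset.sum_congr rfl fun g' _ => ?_
      ring
    rw [Finset.sum_congr rfl fun χ _ => h1 χ, Finset.sum_comm]
    have h2 : ∀ g : G, ∑ χ : G → Fin (n + 1), ∑ g', (w γ g * w γ g' : ℤ) * (v (χ g) * v (χ g'))
        = (w γ g * w γ g : ℤ) * (n * Fintype.card (G → Fin (n + 1))) := by
      intro g
      rw [Finset.sum_comm, Finset.sum_eq_single g]
      · rw [← Finset.mul_sum]
        congr 1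
        rw [Finset.sum_congr rfl fun χ _ => hv2 (χ g), Finset.sum_add_distrib, ← Finset.mul_sum,
          sum_fun_v v hv g, Finset.sum_const, Finset.card_univ, nsmul_eq_mul]
        ring
      · intro g' _ hg'
        rw [← Finset.mul_sum, sum_fun_vv v hv g g' hg'.symm, mul_zero]
      · intro h
        exact absurd (Finset.mem_univ g) h
    rw [Finset.sum_congr rfl fun g _ => h2 g, Finset.sum_const, nsmul_eq_mul, hcard]
    have h3 : ∀ g : G, (w γ g * w γ g : ℤ) * (n * Fintype.card (G → Fin (n + 1)))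
        ≤ (w γ g : ℤ) * (c * ((n + 1) * Fintype.card (G → Fin (n + 1)))) := by
      intro g
      have h4 : (w γ g : ℤ) ≤ c := by exact_mod_cast hw γ g
      have h5 : (0 : ℤ) ≤ Fintype.card (G → Fin (n + 1)) := by positivity
      rw [mul_assoc]
      refine mul_le_mul_of_nonneg_left ?_ (by positivity)
      refine mul_le_mul h4 ?_ (by positivity) (by positivity)
      nlinarith
    calc ∑ g, (w γ g * w γ g : ℤ) * (n * Fintype.card (G → Fin (n + 1)))
        ≤ ∑ g, (w γ g : ℤ) * (c * ((n + 1) * Fintype.card (G → Fin (n + 1)))) :=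
          Finset.sum_le_sum fun g _ => h3 g
      _ = Fintype.card (G → Fin (n + 1)) * ((n + 1) * c * B) := by
          rw [← Finset.sum_mul, ← Nat.cast_sum, hW γ]
          ring
  -- averaging
  have hQ : ∑ χ : G → Fin (n + 1), (((n + 1) * c * B : ℤ) * ((n + 1 : ℤ) * ((T χ).card : ℕ))
      + ∑ γ, ((n + 1 : ℤ) * (∑ γ' ∈ T χ, w γ γ' : ℕ) - B) ^ 2)
      ≤ ∑ _χ : G → Fin (n + 1), (2 * ((n + 1) * c * B) * Fintype.card G : ℤ) := by
    rw [Finset.sum_add_distrib, Finset.sum_comm (s := (Finset.univ : Finset (G → Fin (n + 1)))),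
      ← Finset.mul_sum, Finset.sum_congr rfl fun χ _ => hC χ, Finset.sum_add_distrib,
      Finset.sum_comm (f := fun (χ : G → Fin (n + 1)) g => v (χ g)),
      Finset.sum_congr rfl fun g _ => sum_fun_v v hv g]
    have h1 := Finset.sum_le_sum (s := (Finset.univ : Finset G)) fun γ _ => hS γ
    refine (add_le_add_right h1 _).trans (le_of_eq ?_)
    simp only [Finset.sum_const, Finset.card_univ, nsmul_eq_mul]
    ring
  obtain ⟨χ, -, hχ⟩ := Finset.exists_le_of_sum_le (Finset.univ_nonempty) hQ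
  have hpos : (0 : ℤ) < (n + 1) * c * B := by positivity
  refine ⟨T χ, ?_, ?_⟩
  · have h1 : (0 : ℤ) ≤ ∑ γ, ((n + 1 : ℤ) * (∑ γ' ∈ T χ, w γ γ' : ℕ) - B) ^ 2 :=
      Finset.sum_nonneg fun γ _ => sq_nonneg _
    have h2 : ((n + 1) * c * B : ℤ) * ((n + 1 : ℤ) * ((T χ).card : ℕ))
        ≤ ((n + 1) * c * B) * (2 * Fintype.card G) := by linarith
    exact_mod_cast le_of_mul_le_mul_left h2 hpos
  · set Bad := Finset.univ.filter fun γ => 2 * (n + 1) * ∑ γ' ∈ T χ, w γ γ' ≤ B with hBad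
    have h1 : (B : ℤ) ^ 2 * Bad.card
        ≤ 4 * ∑ γ, ((n + 1 : ℤ) * (∑ γ' ∈ T χ, w γ γ' : ℕ) - B) ^ 2 := by
      rw [Finset.mul_sum]
      refine le_trans ?_ (Finset.sum_le_sum_of_subset_of_nonneg (Finset.subset_univ Bad)
        fun γ _ _ => by positivity)
      rw [mul_comm, ← nsmul_eq_mul, ← Finset.sum_const]
      refine Finset.sum_le_sum fun γ hγ => ?_
      have h2 := (Finset.mem_filter.mp hγ).2
      have h3 : (2 : ℤ) * (n + 1) * (∑ γ' ∈ T χ, w γ γ' : ℕ) ≤ B := by exact_mod_cast h2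
      have h4 : (0 : ℤ) ≤ (n + 1) * (∑ γ' ∈ T χ, w γ γ' : ℕ) := by positivity
      nlinarith
    have h2 : (0 : ℤ) ≤ ((n + 1) * c * B : ℤ) * ((n + 1 : ℤ) * ((T χ).card : ℕ)) := by positivity
    have h3 : (B : ℤ) * (B * Bad.card) ≤ B * (8 * (n + 1) * c * Fintype.card G) := by
      nlinarith
    have hB' : (0 : ℤ) < B := by exact_mod_cast hB
    exact_mod_cast le_of_mul_le_mul_left h3 hB'

/-- B3. -/
theorem b3 (h2 : B2Stmt.{u}) : B3Stmt.{u} := by
  intro ν c K m hν
  obtain ⟨m', M₀, hm'⟩ := h2 ν c (m + 1) hν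
  set N := 2 * K * m' + 1 with hN
  refine ⟨8 * N * (c + 1) * K * m + 2 * N * (c + 1) + 1, M₀ + 1, ?_⟩
  set j₀ := 8 * N * (c + 1) * K * m + 2 * N * (c + 1) + 1 with hj₀
  intro k _ S Γ M hM hcard hrich
  classical
  set B := j₀ * M with hBdef
  have hB : 0 < B := Nat.mul_pos (by omega) (by omega)
  -- choose `B` rich points on each curve
  have hP : ∀ γ : Γ, ∃ P : Finset S.Pt, P.card = B ∧ (P : Set S.Pt) ⊆ richPts S Γ γ := by
    intro γ
    obtain ⟨t, ht, htB⟩ := Set.exists_subset_encard_eq (hrich.2 γ γ.2)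
    have hfin : t.Finite := Set.finite_of_encard_eq_coe htB
    refine ⟨hfin.toFinset, ?_, by simpa using ht⟩
    have h1 : ((hfin.toFinset : Set S.Pt)).encard = hfin.toFinset.card :=
      Set.encard_coe_eq_coe_finsetCard _
    rw [hfin.coe_toFinset, htB] at h1
    exact_mod_cast h1.symm
  choose P hPB hPr using hP
  have hch : ∀ (γ : Γ) (x : S.Pt), ∃ γ' : Γ, x ∈ P γ → (γ' : S.ι) ≠ γ ∧ S.inc x γ' := by
    intro γ x
    by_cases hx : x ∈ P γ
    · obtain ⟨-, γ', hγ', hne, hinc⟩ := hPr γ (Finset.mem_coe.mpr hx)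
      exact ⟨⟨γ', hγ'⟩, fun _ => ⟨hne, hinc⟩⟩
    · exact ⟨γ, fun h => absurd h hx⟩
  choose o ho using hch
  let w : Γ → Γ → ℕ := fun γ γ' => ((P γ).filter fun x => o γ x = γ').card
  have hw : ∀ γ γ', w γ γ' ≤ c + 1 := by
    intro γ γ'
    refine le_trans ?_ (Nat.le_succ c)
    by_cases hne : (γ : S.ι) = γ'
    · have : ((P γ).filter fun x => o γ x = γ') = ∅ := by
        rw [Finset.filter_eq_empty_iff]
        intro x hx h
        have := (ho γ x hx).1
        rw [h] at this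
        exact this hne.symm
      simp only [w, this, Finset.card_empty]
      exact Nat.zero_le _
    · have h1 : (((P γ).filter fun x => o γ x = γ' : Finset S.Pt) : Set S.Pt)
          ⊆ {x | S.inc x γ ∧ S.inc x γ'} := by
        intro x hx
        rw [Finset.mem_coe, Finset.mem_filter] at hx
        refine ⟨(hPr γ (Finset.mem_coe.mpr hx.1)).1, ?_⟩
        rw [← hx.2]
        exact (ho γ x hx.1).2
      have h2 := (Set.encard_le_encard h1).trans (S.meet γ γ' hne)
      rw [Set.encard_coe_eq_coe_finsetCard] at h2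
      exact_mod_cast h2
  have hW : ∀ γ, ∑ γ', w γ γ' = B := by
    intro γ
    rw [← hPB γ]
    exact (Finset.card_eq_sum_card_fiberwise fun x _ => Finset.mem_coe.mpr (Finset.mem_univ _)).symm
  obtain ⟨T, hT1, hT2⟩ := sampling (c + 1) N B (by omega) (by omega) hB w hw hW
  rw [Fintype.card_coe] at hT1 hT2
  -- the polynomial vanishing on the sample
  obtain ⟨f, hf0, hfdeg, hf⟩ := hm' k S (T.map (Function.Embedding.subtype _)) M (by omega) (by
    rw [Finset.card_map]
    have h1 : N * (m' * T.card) ≤ N * M ^ (ν - 1) := by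
      calc N * (m' * T.card) = m' * (N * T.card) := by ring
        _ ≤ m' * (2 * (K * M ^ (ν - 1))) := by
            refine Nat.mul_le_mul_left _ (hT1.trans ?_)
            exact Nat.mul_le_mul_left _ hcard
        _ = (2 * K * m') * M ^ (ν - 1) := by ring
        _ ≤ N * M ^ (ν - 1) := Nat.mul_le_mul_right _ (by omega)
    exact Nat.le_of_mul_le_mul_left h1 (by omega))
  have hdeg : f.totalDegree ≤ M := by nlinarith
  refine ⟨f, hf0, by nlinarith, (Finset.univ.filter fun γ : Γ =>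
    2 * N * ∑ γ' ∈ T, w γ γ' ≤ B).map (Function.Embedding.subtype _), ?_, ?_⟩
  · rw [Finset.card_map]
    set b := (Finset.univ.filter fun γ : Γ => 2 * N * ∑ γ' ∈ T, w γ γ' ≤ B).card
    have h1 : B * (m * b) ≤ B * M ^ (ν - 1) := by
      calc B * (m * b) = m * (B * b) := by ring
        _ ≤ m * (8 * N * (c + 1) * (K * M ^ (ν - 1))) :=
            Nat.mul_le_mul_left _ (hT2.trans (Nat.mul_le_mul_left _ hcard))
        _ = (8 * N * (c + 1) * K * m) * M ^ (ν - 1) := by ring
        _ ≤ B * M ^ (ν - 1) := by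
            refine Nat.mul_le_mul_right _ ?_
            rw [hBdef]
            calc 8 * N * (c + 1) * K * m ≤ j₀ * 1 := by omega
              _ ≤ j₀ * M := Nat.mul_le_mul_left _ (by omega)
    exact Nat.le_of_mul_le_mul_left h1 hB
  · intro γ hγ hγb
    by_contra hfr
    apply hγb
    rw [Finset.mem_map]
    refine ⟨⟨γ, hγ⟩, ?_, rfl⟩
    rw [Finset.mem_filter]
    refine ⟨Finset.mem_univ _, ?_⟩
    have h1 : ∑ γ' ∈ T, w ⟨γ, hγ⟩ γ' = ((P ⟨γ, hγ⟩).filter fun x => o ⟨γ, hγ⟩ x ∈ T).card := by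
      rw [Finset.card_eq_sum_card_fiberwise (f := fun x => o ⟨γ, hγ⟩ x) (t := T)
        (fun x hx => by
          rw [Finset.mem_coe, Finset.mem_filter] at hx
          exact Finset.mem_coe.mpr hx.2)]
      refine Finset.sum_congr rfl fun γ' hγ' => ?_
      simp only [w]
      congr 1
      ext x
      simp only [Finset.mem_filter]
      constructor
      · rintro ⟨h, rfl⟩
        exact ⟨⟨h, hγ'⟩, rfl⟩
      · rintro ⟨⟨h, -⟩, h'⟩
        exact ⟨h, h'⟩
    have h2 : (((P ⟨γ, hγ⟩).filter fun x => o ⟨γ, hγ⟩ x ∈ T : Finset S.Pt) : Set S.Pt)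
        ⊆ {x | S.inc x γ ∧ eval (S.pos x) f = 0} := by
      intro x hx
      rw [Finset.mem_coe, Finset.mem_filter] at hx
      refine ⟨(hPr _ (Finset.mem_coe.mpr hx.1)).1, ?_⟩
      refine S.vanish _ x f (hf _ ?_) (ho _ x hx.1).2
      rw [Finset.mem_map]
      exact ⟨_, hx.2, rfl⟩
    have h3 := (Set.encard_le_encard h2).trans (S.bez γ f hfr)
    rw [Set.encard_coe_eq_coe_finsetCard] at h3
    have h4 : ((P ⟨γ, hγ⟩).filter fun x => o ⟨γ, hγ⟩ x ∈ T).card ≤ c * f.totalDegree := by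
      exact_mod_cast h3
    rw [h1]
    calc 2 * N * ((P ⟨γ, hγ⟩).filter fun x => o ⟨γ, hγ⟩ x ∈ T).card
        ≤ 2 * N * (c * M) := Nat.mul_le_mul_left _ (h4.trans (Nat.mul_le_mul_left _ hdeg))
      _ = (2 * N * c) * M := by ring
      _ ≤ j₀ * M := by
          refine Nat.mul_le_mul_right _ ?_
          have : 2 * N * c ≤ 2 * N * (c + 1) := Nat.mul_le_mul_left _ (by omega)
          omega

end GZ
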