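import Pool.Agent.GZ.Rows

/-!
# GZ, row B5: a small polynomial and a derivative which vanishes on no member
-/

namespace GZ

open MvPolynomial Filter

universe u

theorem totalDegree_pderiv_add_one_le {k : Type u} [Field k] {ν : ℕ} (f : MvPolynomial (Fin ν) k)
    (j : Fin ν) (h : pderiv j f ≠ 0) : (pderiv j f).totalDegree + 1 ≤ f.totalDegree := by
  have hs : (pderiv j f).support.Nonempty := by
    rwa [support_nonempty]
  obtain ⟨m, hm, hmd⟩ := Finset.exists_mem_eq_sup _ hs (fun s => s.sum fun _ e => e)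
  have h1 : (pderiv j f).totalDegree = m.sum fun _ e => e := hmd
  rw [h1]
  have h2 : m + Finsupp.single j 1 ∈ f.support := by
    rw [mem_support_iff] at hm ⊢
    intro h0
    rw [coeff_pderiv, h0, zero_mul] at hm
    exact hm rfl
  refine le_trans (le_of_eq ?_) (le_totalDegree h2)
  rw [Finsupp.sum_add_index' (fun _ => rfl) (fun _ _ _ => rfl), Finsupp.sum_single_index rfl]

theorem exists_pderiv_ne_zero {k : Type u} [Field k] {ν : ℕ} (f : MvPolynomial (Fin ν) k)
    (hd : f.totalDegree ≠ 0) (hc : ringChar k = 0 ∨ f.totalDegree < ringChar k) :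
    ∃ j, pderiv j f ≠ 0 := by
  have hs : f.support.Nonempty := by
    rw [support_nonempty]
    rintro rfl
    exact hd totalDegree_zero
  obtain ⟨m, hm, hmd⟩ := Finset.exists_mem_eq_sup _ hs (fun s => s.sum fun _ e => e)
  have h1 : f.totalDegree = m.sum fun _ e => e := hmd
  have h2 : ∃ j, m j ≠ 0 := by
    by_contra h
    push Not at h
    apply hd
    rw [h1, Finsupp.sum_fintype _ _ (fun _ => rfl)]
    exact Finset.sum_eq_zero fun j _ => h j
  obtain ⟨j, hj⟩ := h2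
  refine ⟨j, fun h0 => ?_⟩
  have h3 : Finsupp.single j 1 ≤ m := by
    rw [Finsupp.single_le_iff]
    omega
  have h4 := coeff_pderiv (i := j) f (m - Finsupp.single j 1)
  rw [h0, coeff_zero, tsub_add_cancel_of_le h3, Finsupp.tsub_apply, Finsupp.single_eq_same] at h4
  have h5 : m j ≤ f.totalDegree := by
    rw [h1, Finsupp.sum_fintype _ _ (fun _ => rfl)]
    exact Finset.single_le_sum (f := fun j => m j) (fun _ _ => Nat.zero_le _) (Finset.mem_univ j)
  have h6 : ((m j : ℕ) : k) ≠ 0 := by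
    intro h7
    have h8 := (ringChar.spec k (m j)).mp h7
    rcases hc with hc | hc
    · rw [hc, zero_dvd_iff] at h8
      exact hj h8
    · have := Nat.le_of_dvd (Nat.pos_of_ne_zero hj) h8
      omega
  have h7 : coeff m f * ((m j : ℕ) : k) = 0 := by
    rw [h4]
    congr 1
    have h8 : m j = (m j - 1) + 1 := by omega
    exact_mod_cast congrArg (Nat.cast : ℕ → k) h8
  rcases mul_eq_zero.mp h7 with h8 | h8
  · exact (mem_support_iff.mp hm) h8
  · exact h6 h8

/-- B5. -/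
theorem b5 (h0 : B0Stmt.{u}) (h4 : B4Stmt.{u}) : B5Stmt.{u} := by
  intro U ν c K hν k _ S M hM Γ hΓ hcard
  obtain ⟨Γ₁, f₁, hsub, hrich, hsmall, hf₁⟩ := h4 U ν c K hν k S M hM Γ hΓ hcard
  classical
  -- a polynomial of minimal degree
  have hex : ∀ i, ∃ f : MvPolynomial (Fin ν) (k i),
      (f₁ i ≠ 0 ∧ ∀ γ ∈ Γ₁ i, f₁ i ∈ (S i).r γ) →
      (f ≠ 0 ∧ (∀ γ ∈ Γ₁ i, f ∈ (S i).r γ)) ∧ ∀ g : MvPolynomial (Fin ν) (k i),
        (g ≠ 0 ∧ (∀ γ ∈ Γ₁ i, g ∈ (S i).r γ)) → f.totalDegree ≤ g.totalDegree := by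
    intro i
    by_cases h : f₁ i ≠ 0 ∧ ∀ γ ∈ Γ₁ i, f₁ i ∈ (S i).r γ
    · obtain ⟨f, hf, hmin⟩ := WellFounded.has_min
        (InvImage.wf (fun f : MvPolynomial (Fin ν) (k i) => f.totalDegree) Nat.lt_wfRel.wf)
        {g | g ≠ 0 ∧ (∀ γ ∈ Γ₁ i, g ∈ (S i).r γ)} ⟨f₁ i, h⟩
      exact ⟨f, fun _ => ⟨hf, fun g hg => not_lt.mp (hmin g hg)⟩⟩
    · exact ⟨0, fun h' => absurd h' h⟩
  choose f hf using hex
  have hfsmall : Small U M f := by
    intro m
    filter_upwards [hsmall m, hf₁] with i h1 h2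
    exact (Nat.mul_le_mul_left m ((hf i h2).2 _ h2)).trans h1
  have hj : ∀ᶠ i in (U : Filter ℕ), ∃ j : Fin ν, ∃ γ ∈ Γ₁ i, pderiv j (f i) ∉ (S i).r γ := by
    filter_upwards [hf₁, hrich 0, hM.char, hfsmall 2, hM.large 1] with i h1 h2 h3 h5 h6
    obtain ⟨⟨hf0, hfr⟩, hmin⟩ := hf i h1
    obtain ⟨γ₀, hγ₀⟩ := h2.1
    have hd : (f i).totalDegree ≠ 0 := by
      intro hd
      rw [totalDegree_eq_zero_iff_eq_C] at hd
      refine ((S i).prime γ₀).ne_top (Ideal.eq_top_of_isUnit_mem _ (hfr γ₀ hγ₀) ?_)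
      rw [hd]
      refine IsUnit.map C (isUnit_iff_ne_zero.mpr ?_)
      intro h7
      rw [h7, C_0] at hd
      exact hf0 hd
    obtain ⟨j, hj⟩ := exists_pderiv_ne_zero (f i) hd (by
      rcases h3 with h3 | h3
      · exact Or.inl h3
      · right
        omega)
    refine ⟨j, ?_⟩
    by_contra hcon
    push Not at hcon
    have h7 := hmin _ ⟨hj, hcon⟩
    have h8 := totalDegree_pderiv_add_one_le (f i) j hj
    omega
  rw [Ultrafilter.eventually_exists_iff] at hj
  obtain ⟨j, hj⟩ := hj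
  have hPsmall : Small U M (fun i => pderiv j (f i)) := by
    intro m
    filter_upwards [hfsmall m] with i h1
    refine (Nat.mul_le_mul_left m ?_).trans h1
    by_cases h : pderiv j (f i) = 0
    · rw [h, totalDegree_zero]
      exact Nat.zero_le _
    · have := totalDegree_pderiv_add_one_le (f i) j h
      omega
  refine ⟨fun i => (Γ₁ i).filter fun γ => pderiv j (f i) ∉ (S i).r γ, f, j, ?_, ?_, hfsmall, ?_⟩
  · exact fun i => (Finset.filter_subset _ _).trans (hsub i)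
  · exact h0 U ν c k S M hM Γ₁ hrich _ hPsmall hj _ fun i γ => Finset.mem_filter
  · filter_upwards [hf₁] with i h1 γ hγ
    rw [Finset.mem_filter] at hγ
    exact ⟨(hf i h1).1.2 γ hγ.1, hγ.2⟩

end GZ
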