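import Pool.Agent.GZ.Rows

/-! # GZ, row B6: a decided differential ring containing a given small sequence -/

namespace GZ

open MvPolynomial Filter

universe u

namespace B6

theorem totalDegree_pderiv_le {k : Type u} [Field k] {ν : ℕ} (l : Fin ν)
    (p : MvPolynomial (Fin ν) k) : (pderiv l p).totalDegree ≤ p.totalDegree := by
  rw [totalDegree]
  refine Finset.sup_le fun m hm => ?_
  have h1 : coeff (m + Finsupp.single l 1) p ≠ 0 := by
    intro h
    rw [mem_support_iff, coeff_pderiv, h, zero_mul] at hm
    exact hm rfl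
  have h2 := le_totalDegree (mem_support_iff.2 h1)
  refine le_trans ?_ h2
  rw [Finsupp.sum_add_index' (fun _ => rfl) (fun _ _ _ => rfl)]
  exact Nat.le_add_right _ _

variable {U : Ultrafilter ℕ} {ν : ℕ} {k : ℕ → Type u} [∀ i, Field (k i)] {M : ℕ → ℕ}

theorem small_add {a b : ∀ i, MvPolynomial (Fin ν) (k i)} (ha : Small U M a)
    (hb : Small U M b) : Small U M (a + b) := by
  intro m
  filter_upwards [ha m, hb m] with i h1 h2
  have h3 : ((a + b) i).totalDegree ≤ max (a i).totalDegree (b i).totalDegree :=
    totalDegree_add _ _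
  rcases le_total (a i).totalDegree (b i).totalDegree with h | h
  · rw [max_eq_right h] at h3
    exact le_trans (Nat.mul_le_mul_left _ h3) h2
  · rw [max_eq_left h] at h3
    exact le_trans (Nat.mul_le_mul_left _ h3) h1

theorem small_mul {a b : ∀ i, MvPolynomial (Fin ν) (k i)} (ha : Small U M a)
    (hb : Small U M b) : Small U M (a * b) := by
  intro m
  filter_upwards [ha (2 * m), hb (2 * m)] with i h1 h2
  have h3 : ((a * b) i).totalDegree ≤ (a i).totalDegree + (b i).totalDegree :=
    totalDegree_mul _ _
  have h4 : m * ((a * b) i).totalDegree ≤ m * ((a i).totalDegree + (b i).totalDegree) :=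
    Nat.mul_le_mul_left _ h3
  rw [Nat.mul_assoc] at h1 h2
  rw [Nat.mul_add] at h4
  omega

theorem small_int (n : ℤ) : Small U M (fun i => ((n : ℤ) : MvPolynomial (Fin ν) (k i))) := by
  intro m
  refine Eventually.of_forall fun i => ?_
  have h : ((n : ℤ) : MvPolynomial (Fin ν) (k i)) = C ((n : ℤ) : k i) := by
    rw [map_intCast]
  simp only []
  rw [h, totalDegree_C, Nat.mul_zero]
  exact Nat.zero_le _

theorem small_X (hsc : Scale U k M) (l : Fin ν) :
    Small U M (fun i => (X l : MvPolynomial (Fin ν) (k i))) := by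
  intro m
  filter_upwards [hsc.large m] with i hi
  rw [totalDegree_X, Nat.mul_one]
  exact hi

theorem small_pderiv {a : ∀ i, MvPolynomial (Fin ν) (k i)} (ha : Small U M a) (l : Fin ν) :
    Small U M (fun i => pderiv l (a i)) := by
  intro m
  filter_upwards [ha m] with i h1
  exact le_trans (Nat.mul_le_mul_left _ (totalDegree_pderiv_le l (a i))) h1

/-- iterated partial derivatives of `f` -/
noncomputable def itd (f : ∀ i, MvPolynomial (Fin ν) (k i)) :
    List (Fin ν) → ∀ i, MvPolynomial (Fin ν) (k i)
  | [] => f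
  | l :: L => fun i => pderiv l (itd f L i)

/-- the generators -/
noncomputable def gen (f : ∀ i, MvPolynomial (Fin ν) (k i)) :
    (Fin ν ⊕ List (Fin ν)) → ∀ i, MvPolynomial (Fin ν) (k i)
  | Sum.inl l => fun _ => X l
  | Sum.inr L => itd f L

/-- the map onto the ring -/
noncomputable def Phi (f : ∀ i, MvPolynomial (Fin ν) (k i)) :
    MvPolynomial (Fin ν ⊕ List (Fin ν)) ℤ →+* (∀ i, MvPolynomial (Fin ν) (k i)) :=
  eval₂Hom (Int.castRingHom _) (gen f)

theorem small_itd {f : ∀ i, MvPolynomial (Fin ν) (k i)} (hf : Small U M f) (L : List (Fin ν)) :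
    Small U M (itd f L) := by
  induction L with
  | nil => exact hf
  | cons l L ih => exact small_pderiv ih l

theorem small_gen (hsc : Scale U k M) {f : ∀ i, MvPolynomial (Fin ν) (k i)}
    (hf : Small U M f) (s : Fin ν ⊕ List (Fin ν)) : Small U M (gen f s) := by
  rcases s with l | L
  · exact small_X hsc l
  · exact small_itd hf L

theorem small_Phi (hsc : Scale U k M) {f : ∀ i, MvPolynomial (Fin ν) (k i)}
    (hf : Small U M f) (P : MvPolynomial (Fin ν ⊕ List (Fin ν)) ℤ) : Small U M (Phi f P) := by
  induction P using MvPolynomial.induction_on with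
  | C n =>
      have h : Phi f (C n) = fun i => ((n : ℤ) : MvPolynomial (Fin ν) (k i)) := by
        rw [Phi, coe_eval₂Hom, eval₂_C]
        rfl
      rw [h]
      exact small_int n
  | add P Q hP hQ =>
      rw [map_add]
      exact small_add hP hQ
  | mul_X P s hP =>
      have h : Phi f (P * X s) = Phi f P * gen f s := by
        rw [map_mul]
        congr 1
        rw [Phi, coe_eval₂Hom, eval₂_X]
      rw [h]
      exact small_mul hP (small_gen hsc hf s)

theorem gen_mem (f : ∀ i, MvPolynomial (Fin ν) (k i)) (s : Fin ν ⊕ List (Fin ν)) :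
    gen f s ∈ (Phi f).range := by
  refine ⟨X s, ?_⟩
  rw [Phi, coe_eval₂Hom, eval₂_X]

theorem pderiv_gen_mem (f : ∀ i, MvPolynomial (Fin ν) (k i)) (s : Fin ν ⊕ List (Fin ν))
    (l : Fin ν) : (fun i => pderiv l (gen f s i)) ∈ (Phi f).range := by
  rcases s with j | L
  · by_cases hj : j = l
    · subst hj
      have h : (fun i => pderiv j (gen f (Sum.inl j) i)) = 1 := by
        funext i
        exact pderiv_X_self j
      rw [h]
      exact one_mem _
    · have h : (fun i => pderiv l (gen f (Sum.inl j) i)) = 0 := by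
        funext i
        exact pderiv_X_of_ne hj
      rw [h]
      exact zero_mem _
  · exact gen_mem f (Sum.inr (l :: L))

theorem pderiv_mem (f : ∀ i, MvPolynomial (Fin ν) (k i)) (l : Fin ν)
    (P : MvPolynomial (Fin ν ⊕ List (Fin ν)) ℤ) :
    (fun i => pderiv l (Phi f P i)) ∈ (Phi f).range := by
  induction P using MvPolynomial.induction_on with
  | C n =>
      have h : (fun i => pderiv l (Phi f (C n) i)) = 0 := by
        funext i
        have h1 : Phi f (C n) = fun i => ((n : ℤ) : MvPolynomial (Fin ν) (k i)) := by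
          rw [Phi, coe_eval₂Hom, eval₂_C]
          rfl
        rw [h1]
        simp only []
        have h2 : ((n : ℤ) : MvPolynomial (Fin ν) (k i)) = C ((n : ℤ) : k i) := by
          rw [map_intCast]
        rw [h2, pderiv_C]
        rfl
      rw [h]
      exact zero_mem _
  | add P Q hP hQ =>
      have h : (fun i => pderiv l (Phi f (P + Q) i)) =
          (fun i => pderiv l (Phi f P i)) + (fun i => pderiv l (Phi f Q i)) := by
        funext i
        rw [map_add, Pi.add_apply, map_add]
        rfl
      rw [h]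
      exact add_mem hP hQ
  | mul_X P s hP =>
      have h1 : Phi f (P * X s) = Phi f P * gen f s := by
        rw [map_mul]
        congr 1
        rw [Phi, coe_eval₂Hom, eval₂_X]
      have h : (fun i => pderiv l (Phi f (P * X s) i)) =
          (fun i => pderiv l (Phi f P i)) * gen f s +
            Phi f P * (fun i => pderiv l (gen f s i)) := by
        funext i
        rw [h1, Pi.mul_apply, pderiv_mul]
        rfl
      rw [h]
      exact add_mem (mul_mem hP (gen_mem f s)) (mul_mem ⟨P, rfl⟩ (pderiv_gen_mem f s l))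

theorem countable_range (f : ∀ i, MvPolynomial (Fin ν) (k i)) :
    ((Phi f).range : Set (∀ i, MvPolynomial (Fin ν) (k i))).Countable := by
  have h : Countable (MvPolynomial (Fin ν ⊕ List (Fin ν)) ℤ) := by
    rw [← Cardinal.mk_le_aleph0_iff]
    refine (MvPolynomial.cardinalMk_le_max).trans ?_
    refine max_le (max_le ?_ ?_) le_rfl
    · exact Cardinal.mk_le_aleph0_iff.2 inferInstance
    · exact Cardinal.mk_le_aleph0_iff.2 inferInstance
  rw [RingHom.coe_range]
  exact Set.countable_range _

end B6

theorem b6 (h7 : B7Stmt.{u}) : B6Stmt.{u} := by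
  intro U ν c k _ S M hsc Γ hR f hf
  obtain ⟨Γ', h1, h2, h3⟩ := h7 U ν c k S M hsc Γ hR
    ((B6.Phi f).range : Set (∀ i, MvPolynomial (Fin ν) (k i))) (B6.countable_range f)
    (by
      rintro _ ⟨P, rfl⟩
      exact B6.small_Phi hsc hf P)
  refine ⟨Γ', (B6.Phi f).range, h1, h2, ⟨?_, ?_, ?_, ?_⟩, ?_⟩
  · exact fun l => B6.gen_mem f (Sum.inl l)
  · rintro _ ⟨P, rfl⟩ l
    exact B6.pderiv_mem f l P
  · rintro _ ⟨P, rfl⟩
    exact B6.small_Phi hsc hf P
  · exact fun a ha => h3 a ha
  · exact B6.gen_mem f (Sum.inr [])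

end GZ
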