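import Pool.Agent.GZ.Rows

/-! # GZ, row B7: type selection for a countable set of small sequences -/

namespace GZ

open MvPolynomial Filter

universe u

namespace B7

variable (U : Ultrafilter ℕ) {ν c : ℕ} {k : ℕ → Type u} [∀ i, Field (k i)]
  (S : ∀ i, CurveSys (k i) ν c)

open Classical in
/-- one step of the selection -/
noncomputable def step (a : ∀ i, MvPolynomial (Fin ν) (k i)) (Γ : ∀ i, Finset (S i).ι) :
    ∀ i, Finset (S i).ι :=
  if ∀ᶠ i in (U : Filter ℕ), ∃ γ ∈ Γ i, a i ∉ (S i).r γ then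
    fun i => (Γ i).filter (fun γ => a i ∉ (S i).r γ)
  else Γ

/-- the nested families -/
noncomputable def fam (Γ : ∀ i, Finset (S i).ι) (a : ℕ → ∀ i, MvPolynomial (Fin ν) (k i)) :
    ℕ → ∀ i, Finset (S i).ι
  | 0 => Γ
  | n + 1 => step U S (a n) (fam Γ a n)

theorem step_sub (a : ∀ i, MvPolynomial (Fin ν) (k i)) (Γ : ∀ i, Finset (S i).ι) (i : ℕ) :
    step U S a Γ i ⊆ Γ i := by
  classical
  unfold step
  split_ifs
  · exact Finset.filter_subset _ _
  · exact Finset.Subset.refl _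

theorem step_dec (a : ∀ i, MvPolynomial (Fin ν) (k i)) (Γ : ∀ i, Finset (S i).ι) :
    (∀ᶠ i in (U : Filter ℕ), ∀ γ ∈ step U S a Γ i, a i ∈ (S i).r γ) ∨
    (∀ᶠ i in (U : Filter ℕ), ∀ γ ∈ step U S a Γ i, a i ∉ (S i).r γ) := by
  classical
  unfold step
  split_ifs with h
  · exact Or.inr (Eventually.of_forall fun i γ hγ => (Finset.mem_filter.1 hγ).2)
  · refine Or.inl ?_
    have h' : ∀ᶠ i in (U : Filter ℕ), ¬ ∃ γ ∈ Γ i, a i ∉ (S i).r γ :=
      Ultrafilter.eventually_not.2 h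
    filter_upwards [h'] with i hi γ hγ
    by_contra hn
    exact hi ⟨γ, hγ, hn⟩

theorem step_rich (h0 : B0Stmt.{u}) {M : ℕ → ℕ} (hsc : Scale U k M)
    (a : ∀ i, MvPolynomial (Fin ν) (k i)) (ha : Small U M a) (Γ : ∀ i, Finset (S i).ι)
    (hR : Rich U S M Γ) : Rich U S M (step U S a Γ) := by
  classical
  unfold step
  split_ifs with h
  · exact h0 U ν c k S M hsc Γ hR a ha h _ (fun i γ => Finset.mem_filter)
  · exact hR

theorem fam_anti (Γ : ∀ i, Finset (S i).ι) (a : ℕ → ∀ i, MvPolynomial (Fin ν) (k i))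
    (m n : ℕ) (h : m ≤ n) (i : ℕ) : fam U S Γ a n i ⊆ fam U S Γ a m i := by
  induction h with
  | refl => exact Finset.Subset.refl _
  | step _ ih => exact Finset.Subset.trans (step_sub U S _ _ i) ih

theorem fam_rich (h0 : B0Stmt.{u}) {M : ℕ → ℕ} (hsc : Scale U k M) (Γ : ∀ i, Finset (S i).ι)
    (hR : Rich U S M Γ) (a : ℕ → ∀ i, MvPolynomial (Fin ν) (k i)) (ha : ∀ n, Small U M (a n))
    (n : ℕ) : Rich U S M (fam U S Γ a n) := by
  induction n with
  | zero => exact hR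
  | succ n ih => exact step_rich U S h0 hsc (a n) (ha n) _ ih

end B7

theorem b7 (h0 : B0Stmt.{u}) (h1 : B1Stmt.{u}) : B7Stmt.{u} := by
  classical
  intro U ν c k _ S M hsc Γ hR A hA hsm
  rcases Set.eq_empty_or_nonempty A with hA0 | hA0
  · refine ⟨Γ, fun i => Finset.Subset.refl _, hR, fun a ha => ?_⟩
    rw [hA0] at ha
    exact absurd ha (Set.notMem_empty a)
  obtain ⟨a, rfl⟩ := hA.exists_eq_range hA0
  have ha : ∀ n, Small U M (a n) := fun n => hsm (a n) ⟨n, rfl⟩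
  obtain ⟨x, hx⟩ := h1 U hsc.nonprincipal (fun _ => ULift.{u} ℕ)
    (fun m i x => m ≤ x.down ∧ RichAt (S i) (B7.fam U S Γ a x.down i) (m * M i))
    (by
      rintro m i x ⟨h2, h3, h4⟩
      refine ⟨Nat.le_of_succ_le h2, h3, fun γ hγ => le_trans ?_ (h4 γ hγ)⟩
      exact_mod_cast Nat.mul_le_mul_right (M i) (Nat.le_succ m))
    (by
      intro m
      filter_upwards [B7.fam_rich U S h0 hsc Γ hR a ha m m] with i hi
      exact ⟨⟨m⟩, le_refl m, hi⟩)
  refine ⟨fun i => B7.fam U S Γ a (x i).down i, fun i => B7.fam_anti U S Γ a 0 _ (Nat.zero_le _) i,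
    fun m => (hx m).mono fun i h => h.2, ?_⟩
  rintro _ ⟨n, rfl⟩
  have hle : ∀ᶠ i in (U : Filter ℕ), n + 1 ≤ (x i).down := (hx (n + 1)).mono fun i h => h.1
  rcases B7.step_dec U S (a n) (B7.fam U S Γ a n) with h | h
  · left
    filter_upwards [hle, h] with i hi1 hi2 γ hγ
    exact hi2 γ (B7.fam_anti U S Γ a (n + 1) _ hi1 i hγ)
  · right
    filter_upwards [hle, h] with i hi1 hi2 γ hγ
    exact hi2 γ (B7.fam_anti U S Γ a (n + 1) _ hi1 i hγ)

end GZ
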