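import Pool.Agent.GZ.Rows

/-! GZ row B8b (helper40): the dimension of `T` is less than `ν`. -/

namespace GZ

open MvPolynomial Filter

universe u

theorem b8b : B8bStmt.{u} := by
  intro U ν c k _ S M hM Γ hR O hO FO f hf j hfj
  set b : Fin ν → O := fun l => ⟨fun i => pderiv l (f i), hO.pd f hf l⟩ with hb
  have h0 : FO.φ ⟨f, hf⟩ = 0 := by
    rw [FO.ker]
    filter_upwards [hfj] with i hi γ hγ
    exact (hi γ hγ).1
  have hj : FO.φ (b j) ≠ 0 := by
    intro h
    rw [FO.ker] at h
    obtain ⟨i, h1, h2, h3⟩ := (h.and (hfj.and (hR 0))).exists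
    obtain ⟨γ, hγ⟩ := h3.1
    exact (h2 γ hγ).2 (h1 γ hγ)
  let L : FO.T →ₗ[FO.F] (Fin ν → FO.F) :=
    { toFun := fun X l => X.1 (FO.y l)
      map_add' := fun X Y => by
        funext l
        simp
      map_smul' := fun a X => by
        funext l
        simp }
  have hL : ∀ (X : FO.T) (l : Fin ν), L X l = X.1 (FO.y l) := fun _ _ => rfl
  have hLinj : Function.Injective L := by
    rw [injective_iff_map_eq_zero]
    intro X hX
    apply Subtype.ext
    refine FO.lie.inj X.1 X.2 fun l => ?_
    rw [← hL, hX]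
    rfl
  let w : (Fin ν → FO.F) →ₗ[FO.F] FO.F :=
    { toFun := fun v => ∑ l, v l * FO.φ (b l)
      map_add' := fun v v' => by
        simp [add_mul, Finset.sum_add_distrib]
      map_smul' := fun a v => by
        simp [mul_assoc, Finset.mul_sum] }
  have hw : ∀ v, w v = ∑ l, v l * FO.φ (b l) := fun _ => rfl
  have hrange : LinearMap.range L ≤ LinearMap.ker w := by
    rintro _ ⟨X, rfl⟩
    rw [LinearMap.mem_ker, hw]
    have := (FO.mem X.1).1 X.2 ⟨f, hf⟩ b (fun l => rfl)
    rw [h0, map_zero] at this
    exact this.symm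
  have hker : LinearMap.ker w ≠ ⊤ := by
    intro h
    have h1 : w (Pi.single j 1) = 0 := by
      rw [← LinearMap.mem_ker, h]
      exact Submodule.mem_top
    rw [hw, Finset.sum_eq_single j] at h1
    · rw [Pi.single_eq_same, one_mul] at h1
      exact hj h1
    · intro l _ hl
      rw [Pi.single_eq_of_ne hl, zero_mul]
    · intro h
      exact absurd (Finset.mem_univ j) h
  calc Module.finrank FO.F FO.T = Module.finrank FO.F (LinearMap.range L) :=
        (LinearMap.finrank_range_of_inj hLinj).symm
    _ ≤ Module.finrank FO.F (LinearMap.ker w) := Submodule.finrank_mono hrange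
    _ < Module.finrank FO.F (Fin ν → FO.F) := Submodule.finrank_lt hker
    _ = ν := Module.finrank_fin_fun FO.F

end GZ
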