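import Pool.Agent.GZ.HilbLem

/-!
# GZ row C1: Bezout-type bound for a curve
-/

namespace GZ

open MvPolynomial

universe u

theorem c1 : C1Stmt.{u} := by
  classical
  intro k _ n d q hq P hP
  by_contra hcon
  push Not at hcon
  -- a finite subset with `d * deg P + 1` elements
  have h1 : ((d * P.totalDegree + 1 : ℕ) : ℕ∞) ≤ {x | x ∈ pts q ∧ eval x P = 0}.encard := by
    have := Order.add_one_le_of_lt hcon
    exact_mod_cast this
  obtain ⟨T, hT, hTc⟩ := Set.exists_subset_encard_eq h1
  have hTf : T.Finite := Set.finite_of_encard_eq_coe hTc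
  have hTn : T.ncard = d * P.totalDegree + 1 := by
    rw [Set.ncard_def, hTc]
    rfl
  have hcard : hTf.toFinset.card = d * P.totalDegree + 1 := by
    rw [← hTn, Set.ncard_eq_toFinset_card T hTf]
  let eqv := hTf.toFinset.equivFin.symm
  have hmem : ∀ i, (eqv i : Fin n → k) ∈ pts q ∧ eval (eqv i : Fin n → k) P = 0 := fun i =>
    hT (hTf.mem_toFinset.mp (eqv i).2)
  have h2 := HilbLem.card_zeros_le (geomIdeal q) d hq.2
    (MvPolynomial.map (algebraMap k (AlgebraicClosure k)) P) P.totalDegree (HilbLem.totalDegree_map_le' _ _)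
    (fun R hR => HilbLem.mul_mem_geomIdeal hq.1 hP hR) hTf.toFinset.card
    (fun i j => algebraMap k (AlgebraicClosure k) ((eqv i : Fin n → k) j))
    (by
      intro i i' h
      apply eqv.injective
      apply Subtype.ext
      funext j
      exact (algebraMap k (AlgebraicClosure k)).injective (congrFun h j))
    (fun i R hR => HilbLem.eval_geomIdeal (hmem i).1 hR)
    (fun i => by
      rw [HilbLem.eval_map_alg, (hmem i).2, map_zero])
  omega

end GZ
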