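import Pool.Agent.GZ.Defs

set_option autoImplicit false

namespace GZ

open MvPolynomial

/-- A polynomial in `Z = X 0`, `t = X 1` of total degree at most `N`, whose `Z^N`-coefficient is one. -/
def CompatPoly {k : Type*} [Field k] (P : MvPolynomial (Fin 2) k) (N : ℕ) : Prop :=
  P.totalDegree ≤ N ∧ P.coeff (Finsupp.single 0 N) = 1

section Min

variable {k : Type*} [Field k]

theorem CompatPoly.ne_zero {P : MvPolynomial (Fin 2) k} {N : ℕ} (h : CompatPoly P N) : P ≠ 0 := by
  rintro rfl
  simpa using h.2

theorem CompatPoly.totalDegree_eq {P : MvPolynomial (Fin 2) k} {N : ℕ} (h : CompatPoly P N) :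
    P.totalDegree = N := by
  refine le_antisymm h.1 ?_
  have h2 : Finsupp.single (0 : Fin 2) N ∈ P.support := by
    rw [mem_support_iff, h.2]; exact one_ne_zero
  have h3 := le_totalDegree h2
  simpa using h3

theorem CompatPoly.monic {P : MvPolynomial (Fin 2) k} {N : ℕ} (h : CompatPoly P N) :
    (finSuccEquiv k 1 P).Monic ∧ (finSuccEquiv k 1 P).natDegree = N := by
  have hc : (finSuccEquiv k 1 P).coeff N = 1 := by
    ext m
    rw [finSuccEquiv_coeff_coeff, coeff_one]
    by_cases hm : 0 = m
    · subst hm
      rw [if_pos rfl]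
      have : Finsupp.cons N (0 : Fin 1 →₀ ℕ) = Finsupp.single (0 : Fin 2) N := by
        ext i
        refine Fin.cases ?_ (fun j => ?_) i
        · simp
        · simp [Fin.succ_ne_zero]
      rw [this, h.2]
    · rw [if_neg hm]
      by_contra hne
      have h2 : Finsupp.cons N m ∈ P.support := by
        rw [mem_support_iff]; exact hne
      have h3 := le_totalDegree h2
      rw [h.totalDegree_eq, Finsupp.sum_cons] at h3
      have h4 : (m.sum fun _ e => e) = 0 := by omega
      apply hm
      refine Finsupp.ext fun i => ?_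
      have h5 : m i ≤ m.sum fun _ e => e := by
        by_cases hi : m i = 0
        · omega
        · exact Finset.single_le_sum (f := fun i => m i) (fun _ _ => Nat.zero_le _) (by simpa using hi)
      simp only [Finsupp.coe_zero, Pi.zero_apply]; omega
  have hdeg : (finSuccEquiv k 1 P).natDegree ≤ N := by
    rw [natDegree_finSuccEquiv]
    exact (degreeOf_le_totalDegree P 0).trans h.1
  have hdeg' : (finSuccEquiv k 1 P).natDegree = N := by
    refine le_antisymm hdeg ?_
    apply Polynomial.le_natDegree_of_ne_zero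
    rw [hc]; exact one_ne_zero
  refine ⟨?_, hdeg'⟩
  rw [Polynomial.Monic, Polynomial.leadingCoeff, hdeg', hc]

theorem CompatPoly.of_monic {P : MvPolynomial (Fin 2) k} (hP : (finSuccEquiv k 1 P).Monic)
    (hd : P.totalDegree ≤ (finSuccEquiv k 1 P).natDegree) :
    CompatPoly P (finSuccEquiv k 1 P).natDegree := by
  refine ⟨hd, ?_⟩
  have h1 : (finSuccEquiv k 1 P).coeff (finSuccEquiv k 1 P).natDegree = 1 := hP
  have h2 := finSuccEquiv_coeff_coeff (0 : Fin 1 →₀ ℕ) P (finSuccEquiv k 1 P).natDegree
  rw [h1] at h2
  have : Finsupp.cons (finSuccEquiv k 1 P).natDegree (0 : Fin 1 →₀ ℕ)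
      = Finsupp.single (0 : Fin 2) (finSuccEquiv k 1 P).natDegree := by
    ext i
    refine Fin.cases ?_ (fun j => ?_) i
    · simp
    · simp [Fin.succ_ne_zero]
  rw [this] at h2
  rw [← h2]; simp

/-- A divisor of a compatible polynomial which is monic in `Z` is compatible. -/
theorem CompatPoly.of_mul {P m h : MvPolynomial (Fin 2) k} {N : ℕ} (hP : CompatPoly P N)
    (e : P = m * h) (hm : (finSuccEquiv k 1 m).Monic) :
    CompatPoly m (finSuccEquiv k 1 m).natDegree := by
  have hm0 : m ≠ 0 := by rintro rfl; exact hP.ne_zero (by simpa using e)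
  have hh0 : h ≠ 0 := by rintro rfl; exact hP.ne_zero (by simpa using e)
  have h1 : P.totalDegree = m.totalDegree + h.totalDegree := by
    rw [e, totalDegree_mul_of_isDomain hm0 hh0]
  have h2 : (finSuccEquiv k 1 P).natDegree
      = (finSuccEquiv k 1 m).natDegree + (finSuccEquiv k 1 h).natDegree := by
    rw [e, map_mul]
    apply Polynomial.natDegree_mul
    · simpa using hm0
    · simpa using hh0
  rw [hP.totalDegree_eq] at h1
  rw [hP.monic.2] at h2
  have h3 : (finSuccEquiv k 1 h).natDegree ≤ h.totalDegree := by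
    rw [natDegree_finSuccEquiv]
    exact degreeOf_le_totalDegree h 0
  exact CompatPoly.of_monic hm (by omega)

theorem aeval_finSuccEquiv {K : Type*} [CommRing K] [Algebra k K] (z l : K)
    (Q : MvPolynomial (Fin 2) k) :
    aeval ![z, l] Q = Polynomial.eval₂ (aeval (fun _ : Fin 1 => l) : MvPolynomial (Fin 1) k →ₐ[k] K).toRingHom z
      (finSuccEquiv k 1 Q) := by
  induction Q using MvPolynomial.induction_on with
  | C a =>
    rw [finSuccEquiv_apply]; simp
  | add p q hp hq => simp only [map_add, Polynomial.eval₂_add, hp, hq]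
  | mul_X p i hp =>
    rw [map_mul, map_mul, Polynomial.eval₂_mul, hp]
    congr 1
    refine Fin.cases ?_ (fun j => ?_) i
    · rw [finSuccEquiv_X_zero]; simp
    · rw [finSuccEquiv_X_succ]; simp [Subsingleton.elim j 0]

/-- **The minimal compatible relation.** -/
theorem exists_minPoly {K : Type*} [CommRing K] [IsDomain K] [Algebra k K] {z l : K}
    (hl : Transcendental k l) {P : MvPolynomial (Fin 2) k} {N : ℕ} (hP : CompatPoly P N)
    (hz : aeval ![z, l] P = 0) :
    ∃ (m : MvPolynomial (Fin 2) k) (N' : ℕ), 1 ≤ N' ∧ CompatPoly m N' ∧ Irreducible m ∧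
      ∀ Q : MvPolynomial (Fin 2) k, aeval ![z, l] Q = 0 ↔ m ∣ Q := by
  classical
  let _ : Algebra (MvPolynomial (Fin 1) k) K :=
    (aeval (fun _ : Fin 1 => l) : MvPolynomial (Fin 1) k →ₐ[k] K).toRingHom.toAlgebra
  have halg : algebraMap (MvPolynomial (Fin 1) k) K
      = (aeval (fun _ : Fin 1 => l) : MvPolynomial (Fin 1) k →ₐ[k] K).toRingHom := rfl
  have hinj : Function.Injective (algebraMap (MvPolynomial (Fin 1) k) K) := by
    have h1 : AlgebraicIndependent k (fun _ : Fin 1 => l) := by
      rw [algebraicIndependent_unique_type_iff]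
      exact hl
    exact h1
  have : FaithfulSMul (MvPolynomial (Fin 1) k) K := (faithfulSMul_iff_algebraMap_injective _ _).2 hinj
  have : Module.IsTorsionFree (MvPolynomial (Fin 1) k) K := inferInstance
  have hae : ∀ Q : MvPolynomial (Fin 2) k, aeval ![z, l] Q
      = Polynomial.aeval z (finSuccEquiv k 1 Q) := by
    intro Q
    rw [aeval_finSuccEquiv, Polynomial.aeval_def, halg]
  have hint : IsIntegral (MvPolynomial (Fin 1) k) z :=
    ⟨finSuccEquiv k 1 P, hP.monic.1, by
      have := hae P
      rw [hz] at this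
      rw [Polynomial.aeval_def] at this
      exact this.symm⟩
  set μ := minpoly (MvPolynomial (Fin 1) k) z with hμ
  set m : MvPolynomial (Fin 2) k := (finSuccEquiv k 1).symm μ with hm
  have hEm : finSuccEquiv k 1 m = μ := by rw [hm]; exact (finSuccEquiv k 1).apply_symm_apply μ
  have hdvd : ∀ Q : MvPolynomial (Fin 2) k, aeval ![z, l] Q = 0 ↔ m ∣ Q := by
    intro Q
    constructor
    · intro hQ
      have h1 : μ ∣ finSuccEquiv k 1 Q := by
        apply minpoly.isIntegrallyClosed_dvd hint
        rw [← hae]; exact hQ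
      obtain ⟨q, hq⟩ := h1
      refine ⟨(finSuccEquiv k 1).symm q, ?_⟩
      apply (finSuccEquiv k 1).injective
      rw [map_mul, hEm, hq]; simp
    · rintro ⟨q, rfl⟩
      rw [map_mul, hae m, hEm, minpoly.aeval, zero_mul]
  obtain ⟨h, hh⟩ := (hdvd P).1 hz
  refine ⟨m, μ.natDegree, ?_, ?_, ?_, hdvd⟩
  · exact minpoly.natDegree_pos hint
  · have := CompatPoly.of_mul hP hh (by rw [hEm]; exact minpoly.monic hint)
    rwa [hEm] at this
  · have := minpoly.irreducible hint
    rw [← MulEquiv.irreducible_iff (finSuccEquiv k 1), hEm]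
    exact this

end Min

section Rees

/-- The homomorphism `k[U,V] → B[T]`, `U ↦ l T`, `V ↦ T`. -/
noncomputable def reesHom (k : Type*) [Field k] {B : Type*} [CommRing B] [Algebra k B] (l : B) :
    MvPolynomial (Fin 2) k →ₐ[k] Polynomial B :=
  MvPolynomial.aeval ![Polynomial.C l * Polynomial.X, Polynomial.X]

/-- `z T` is integral over `k[l T, T]`. -/
def CI (k : Type*) [Field k] {B : Type*} [CommRing B] [Algebra k B] (l z : B) : Prop :=
  (reesHom k l).toRingHom.IsIntegralElem (Polynomial.C z * Polynomial.X)

variable {k : Type*} [Field k] {B : Type*} [CommRing B] [Algebra k B]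

theorem CI.refl (l : B) : CI k l l := by
  have h : (Polynomial.C l * Polynomial.X : Polynomial B) = (reesHom k l).toRingHom (X 0) := by
    simp [reesHom]
  unfold CI
  rw [h]
  exact RingHom.isIntegralElem_map _

theorem CI.algMap (l : B) (a : k) : CI k l (algebraMap k B a) := by
  have h : (Polynomial.C (algebraMap k B a) * Polynomial.X : Polynomial B)
      = (reesHom k l).toRingHom (C a * X 1) := by
    simp [reesHom, Polynomial.algebraMap_apply]
  unfold CI
  rw [h]
  exact RingHom.isIntegralElem_map _

theorem CI.add {l z w : B} (h1 : CI k l z) (h2 : CI k l w) : CI k l (z + w) := by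
  unfold CI at *
  rw [map_add, add_mul]
  exact RingHom.IsIntegralElem.add _ h1 h2

theorem CI.const_mul {l z : B} (a : k) (h1 : CI k l z) : CI k l (algebraMap k B a * z) := by
  unfold CI at *
  have h : (Polynomial.C (algebraMap k B a * z) * Polynomial.X : Polynomial B)
      = (reesHom k l).toRingHom (C a) * (Polynomial.C z * Polynomial.X) := by
    simp [reesHom, Polynomial.algebraMap_apply, mul_assoc]
  rw [h]
  exact RingHom.IsIntegralElem.mul _ (RingHom.isIntegralElem_map _) h1

theorem CI.sum {ι : Type*} {l : B} (s : Finset ι) (z : ι → B) (h : ∀ i ∈ s, CI k l (z i)) :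
    CI k l (∑ i ∈ s, z i) := by
  classical
  induction s using Finset.induction_on with
  | empty =>
    rw [Finset.sum_empty]
    have := CI.algMap (k := k) l (0 : k)
    simpa using this
  | insert a s ha ih =>
    rw [Finset.sum_insert ha]
    exact CI.add (h a (Finset.mem_insert_self a s)) (ih fun i hi => h i (Finset.mem_insert_of_mem hi))

theorem CI.trans {l l' z : B} (h1 : CI k l' l) (h2 : CI k l z) : CI k l' z := by
  let _ : Algebra (MvPolynomial (Fin 2) k) (Polynomial B) := (reesHom k l').toRingHom.toAlgebra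
  set Cl := integralClosure (MvPolynomial (Fin 2) k) (Polynomial B) with hCl
  have hU : Polynomial.C l * Polynomial.X ∈ Cl := h1
  have hV : (Polynomial.X : Polynomial B) ∈ Cl := by
    have h : (Polynomial.X : Polynomial B) = algebraMap (MvPolynomial (Fin 2) k) (Polynomial B) (X 1) := by
      change _ = (reesHom k l').toRingHom (X 1)
      simp [reesHom]
    rw [h]
    exact isIntegral_algebraMap
  have hrange : ∀ p : MvPolynomial (Fin 2) k, reesHom k l p ∈ Cl := by
    intro p
    induction p using MvPolynomial.induction_on with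
    | C a =>
      have h : reesHom k l (C a) = algebraMap (MvPolynomial (Fin 2) k) (Polynomial B) (C a) := by
        change _ = (reesHom k l').toRingHom (C a)
        simp [reesHom]
      rw [h]
      exact isIntegral_algebraMap
    | add p q hp hq => rw [map_add]; exact add_mem hp hq
    | mul_X p i hp =>
      rw [map_mul]
      refine mul_mem hp ?_
      fin_cases i
      · simpa [reesHom] using hU
      · simpa [reesHom] using hV
  obtain ⟨p, hp, hz⟩ := h2
  have hzint : IsIntegral Cl (Polynomial.C z * Polynomial.X : Polynomial B) := by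
    let f : MvPolynomial (Fin 2) k →+* Cl :=
      (reesHom k l).toRingHom.codRestrict Cl.toSubring (fun x => hrange x)
    refine ⟨p.map f, hp.map f, ?_⟩
    rw [Polynomial.eval₂_map]
    have hf : (algebraMap Cl (Polynomial B)).comp f = (reesHom k l).toRingHom := by
      ext x <;> rfl
    rw [hf]
    exact hz
  have : Algebra.IsIntegral (MvPolynomial (Fin 2) k) Cl := integralClosure.AlgebraIsIntegral
  exact isIntegral_trans (R := MvPolynomial (Fin 2) k) (A := Cl) _ hzint

end Rees

section Rees2

variable {k : Type*} [Field k] {B : Type*} [CommRing B] [Algebra k B]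

theorem deg_two (m : Fin 2 →₀ ℕ) : (m.sum fun _ e => e) = m 0 + m 1 := by
  rw [Finsupp.sum_fintype _ _ (fun _ => rfl)]
  simp

theorem aeval_two (z l : B) (g : MvPolynomial (Fin 2) k) :
    aeval ![z, l] g = ∑ m ∈ g.support, algebraMap k B (g.coeff m) * (z ^ m 0 * l ^ m 1) := by
  rw [aeval_def, eval₂_eq']
  simp

/-- A relation of total degree at most `e` with nonzero `Z ^ e`-coefficient gives integrality. -/
theorem CI.of_poly {z l : B} (g : MvPolynomial (Fin 2) k) (e : ℕ) (hd : g.totalDegree ≤ e)
    (hc : g.coeff (Finsupp.single 0 e) ≠ 0) (hz : aeval ![z, l] g = 0) : CI k l z := by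
  classical
  set c := g.coeff (Finsupp.single 0 e) with hcdef
  set s : Finset (Fin 2 →₀ ℕ) := g.support.erase (Finsupp.single 0 e) with hs
  have hmem : Finsupp.single (0 : Fin 2) e ∈ g.support := by
    rw [mem_support_iff]; exact hc
  have hlt : ∀ m ∈ s, m 0 < e ∧ m 0 + m 1 ≤ e := by
    intro m hm
    rw [hs, Finset.mem_erase] at hm
    have h1 := le_totalDegree hm.2
    rw [deg_two] at h1
    refine ⟨?_, h1.trans hd⟩
    by_contra hcon
    apply hm.1
    ext i
    fin_cases i
    · simp; omega
    · simp; omega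
  set q : Polynomial (MvPolynomial (Fin 2) k) :=
    ∑ m ∈ s, Polynomial.C (C (c⁻¹ * g.coeff m) * (X 0 ^ m 1 * X 1 ^ (e - m 0 - m 1))) *
      Polynomial.X ^ m 0 with hq
  have hqdeg : q.degree < (e : WithBot ℕ) := by
    rw [hq]
    refine lt_of_le_of_lt (Polynomial.degree_sum_le _ _) ?_
    refine (Finset.sup_lt_iff (WithBot.bot_lt_coe e)).2 ?_
    intro m hm
    refine lt_of_le_of_lt (Polynomial.degree_C_mul_X_pow_le _ _) ?_
    exact WithBot.coe_lt_coe.2 (hlt m hm).1
  refine ⟨Polynomial.X ^ e + q, Polynomial.monic_X_pow_add hqdeg, ?_⟩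
  rw [Polynomial.eval₂_add, Polynomial.eval₂_pow, Polynomial.eval₂_X, hq, Polynomial.eval₂_finsetSum]
  have hterm : ∀ m ∈ s, Polynomial.eval₂ (reesHom k l).toRingHom (Polynomial.C z * Polynomial.X)
      (Polynomial.C (C (c⁻¹ * g.coeff m) * (X 0 ^ m 1 * X 1 ^ (e - m 0 - m 1))) *
      Polynomial.X ^ m 0) =
      Polynomial.C (algebraMap k B c⁻¹ * (algebraMap k B (g.coeff m) * (z ^ m 0 * l ^ m 1))) *
        Polynomial.X ^ e := by
    intro m hm
    have h1 : (Polynomial.X : Polynomial B) ^ e
        = Polynomial.X ^ m 1 * Polynomial.X ^ (e - m 0 - m 1) * Polynomial.X ^ m 0 := by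
      rw [← pow_add, ← pow_add]
      congr 1
      have := (hlt m hm).2
      omega
    rw [Polynomial.eval₂_mul, Polynomial.eval₂_C, Polynomial.eval₂_pow, Polynomial.eval₂_X, h1]
    simp only [reesHom, AlgHom.toRingHom_eq_coe, RingHom.coe_coe, map_mul, map_pow, aeval_X,
      Matrix.cons_val_zero, Matrix.cons_val_one, mul_pow, aeval_C,
      Polynomial.algebraMap_apply]
    ring
  rw [Finset.sum_congr rfl hterm, ← Finset.sum_mul, mul_pow, ← Polynomial.C_pow, ← add_mul,
    ← map_sum, ← map_add]
  have hsum : z ^ e + ∑ m ∈ s, algebraMap k B c⁻¹ * (algebraMap k B (g.coeff m) * (z ^ m 0 * l ^ m 1))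
      = 0 := by
    rw [← Finset.mul_sum]
    have h2 := aeval_two z l g
    rw [hz, ← Finset.add_sum_erase _ _ hmem, ← hs] at h2
    have h3 : algebraMap k B c⁻¹ * algebraMap k B c = 1 := by
      rw [← map_mul, inv_mul_cancel₀ hc, map_one]
    have h4 : ∑ m ∈ s, algebraMap k B (g.coeff m) * (z ^ m 0 * l ^ m 1)
        = - (algebraMap k B c * z ^ e) := by
      have h5 : algebraMap k B (g.coeff (Finsupp.single 0 e)) *
          (z ^ (Finsupp.single (0 : Fin 2) e) 0 * l ^ (Finsupp.single (0 : Fin 2) e) 1)
          = algebraMap k B c * z ^ e := by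
        simp [hcdef]
      rw [h5] at h2
      linear_combination -h2
    rw [h4, mul_neg, ← mul_assoc, h3, one_mul, add_neg_cancel]
  rw [hsum, map_zero, zero_mul]

theorem coeff_reesHom (l : B) (p : MvPolynomial (Fin 2) k) (j : ℕ) :
    (reesHom k l p).coeff j = ∑ m ∈ p.support.filter (fun m => m 0 + m 1 = j),
      algebraMap k B (p.coeff m) * l ^ m 0 := by
  classical
  have h1 : reesHom k l p = ∑ m ∈ p.support,
      Polynomial.C (algebraMap k B (p.coeff m) * l ^ m 0) * Polynomial.X ^ (m 0 + m 1) := by
    rw [reesHom, aeval_def, eval₂_eq']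
    refine Finset.sum_congr rfl fun m _ => ?_
    simp only [Fin.prod_univ_two, Matrix.cons_val_zero, Matrix.cons_val_one,
      Polynomial.algebraMap_apply, map_mul, map_pow, pow_add, mul_pow]
    ring
  rw [h1, Polynomial.finsetSum_coeff, Finset.sum_filter]
  refine Finset.sum_congr rfl fun m _ => ?_
  rw [Polynomial.coeff_C_mul, Polynomial.coeff_X_pow]
  by_cases h : m 0 + m 1 = j
  · simp [h]
  · rw [if_neg h, if_neg (fun h' => h h'.symm), mul_zero]

/-- Integrality gives a compatible relation. -/
theorem CI.exists_compat {z l : B} (h : CI k l z) :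
    ∃ (P : MvPolynomial (Fin 2) k) (N : ℕ), CompatPoly P N ∧ aeval ![z, l] P = 0 := by
  classical
  obtain ⟨p, hp, hz⟩ := h
  set N := p.natDegree with hN
  -- the relation
  set P : MvPolynomial (Fin 2) k := ∑ b ∈ Finset.range (N + 1),
    ∑ m ∈ (p.coeff b).support.filter (fun m => m 0 + m 1 = N - b),
      monomial (Finsupp.single 0 b + Finsupp.single 1 (m 0)) ((p.coeff b).coeff m) with hP
  refine ⟨P, N, ⟨?_, ?_⟩, ?_⟩
  · rw [hP]
    refine totalDegree_finsetSum_le fun b hb => ?_
    refine totalDegree_finsetSum_le fun m hm => ?_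
    refine (totalDegree_monomial_le _ _).trans ?_
    refine (deg_two _).trans_le ?_
    rw [Finset.mem_filter] at hm
    rw [Finset.mem_range] at hb
    simp
    omega
  · rw [hP, coeff_sum]
    rw [Finset.sum_eq_single N]
    · have h1 : p.coeff N = 1 := hp
      rw [h1, coeff_sum]
      rw [Finset.sum_eq_single 0]
      · simp [coeff_monomial]
      · intro m hm hm0
        exfalso
        rw [Finset.mem_filter, mem_support_iff, coeff_one] at hm
        apply hm.1
        rw [if_neg (fun h => hm0 h.symm)]
      · intro h0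
        exfalso
        apply h0
        rw [Finset.mem_filter, mem_support_iff, coeff_one]
        simp
    · intro b hb hbN
      rw [coeff_sum]
      refine Finset.sum_eq_zero fun m hm => ?_
      rw [coeff_monomial, if_neg]
      intro h0
      have := DFunLike.congr_fun h0 0
      simp at this
      exact hbN this
    · intro h0
      exact absurd (Finset.self_mem_range_succ N) h0
  · rw [hP, map_sum]
    have h2 := congrArg (fun f : Polynomial B => f.coeff N) hz
    simp only [Polynomial.coeff_zero] at h2
    rw [Polynomial.eval₂_eq_sum_range, Polynomial.finsetSum_coeff] at h2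
    rw [← h2]
    refine Finset.sum_congr rfl fun b hb => ?_
    have hb' : b ≤ N := by rw [Finset.mem_range] at hb; omega
    have h3 : (reesHom k l).toRingHom (p.coeff b) * (Polynomial.C z * Polynomial.X) ^ b
        = Polynomial.C (z ^ b) * (reesHom k l (p.coeff b)) * Polynomial.X ^ b := by
      rw [mul_pow, Polynomial.C_pow]
      change reesHom k l (p.coeff b) * _ = _
      ring
    rw [h3, Polynomial.coeff_mul_X_pow', if_pos hb', Polynomial.coeff_C_mul, coeff_reesHom, map_sum,
      Finset.mul_sum]
    refine Finset.sum_congr rfl fun m hm => ?_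
    rw [aeval_monomial]
    simp [Finsupp.prod_add_index', pow_add]
    ring

end Rees2

section Bridge

variable {k : Type*} [Field k]

theorem eq_sum_two (P : MvPolynomial (Fin 2) k) (N : ℕ) (hd : P.totalDegree ≤ N) :
    P = ∑ b ∈ Finset.range (N + 1), ∑ a ∈ Finset.range (N - b + 1),
      monomial (Finsupp.single 0 b + Finsupp.single 1 a)
        (P.coeff (Finsupp.single 0 b + Finsupp.single 1 a)) := by
  classical
  ext m
  have hm : m = Finsupp.single 0 (m 0) + Finsupp.single 1 (m 1) := by
    ext i; fin_cases i <;> simp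
  rw [coeff_sum]
  by_cases h : m 0 + m 1 ≤ N
  · rw [Finset.sum_eq_single (m 0)]
    · rw [coeff_sum, Finset.sum_eq_single (m 1)]
      · rw [← hm, coeff_monomial, if_pos rfl]
      · intro a _ ha
        rw [coeff_monomial, if_neg]
        intro h0
        apply ha
        have := DFunLike.congr_fun h0 1
        simpa using this
      · intro h0
        exfalso; apply h0; rw [Finset.mem_range]; omega
    · intro b _ hb
      rw [coeff_sum]
      refine Finset.sum_eq_zero fun a _ => ?_
      rw [coeff_monomial, if_neg]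
      intro h0
      apply hb
      have := DFunLike.congr_fun h0 0
      simpa using this
    · intro h0
      exfalso; apply h0; rw [Finset.mem_range]; omega
  · have h1 : P.coeff m = 0 := by
      by_contra hne
      have h2 := le_totalDegree (mem_support_iff.2 hne)
      rw [deg_two] at h2
      omega
    rw [h1]
    symm
    refine Finset.sum_eq_zero fun b hb => ?_
    rw [coeff_sum]
    refine Finset.sum_eq_zero fun a ha => ?_
    rw [coeff_monomial, if_neg]
    intro h0
    apply h
    have e0 := DFunLike.congr_fun h0 0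
    have e1 := DFunLike.congr_fun h0 1
    simp at e0 e1
    rw [Finset.mem_range] at ha hb
    omega

theorem compat_of_poly {A : Type*} [CommRing A] [Algebra k A] {z l : A}
    {P : MvPolynomial (Fin 2) k} {N : ℕ} (hP : CompatPoly P N) (hz : aeval ![z, l] P = 0) :
    Compat (Set.range (algebraMap k A)) l z N := by
  classical
  refine ⟨fun a b => algebraMap k A (-P.coeff (Finsupp.single 0 b + Finsupp.single 1 a)),
    fun a b => ⟨_, rfl⟩, ?_⟩
  rw [eq_sum_two P N hP.1, Finset.sum_range_succ, map_add, map_sum] at hz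
  have h1 : aeval ![z, l] (∑ a ∈ Finset.range (N - N + 1),
      monomial (Finsupp.single 0 N + Finsupp.single 1 a)
        (P.coeff (Finsupp.single 0 N + Finsupp.single 1 a))) = z ^ N := by
    rw [Nat.sub_self, Finset.sum_range_one]
    simp [hP.2, aeval_monomial]
  rw [h1] at hz
  have h2 : ∀ b ∈ Finset.range N, aeval ![z, l] (∑ a ∈ Finset.range (N - b + 1),
      monomial (Finsupp.single 0 b + Finsupp.single 1 a)
        (P.coeff (Finsupp.single 0 b + Finsupp.single 1 a)))
      = - ∑ a ∈ Finset.range (N - b + 1),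
        algebraMap k A (-P.coeff (Finsupp.single 0 b + Finsupp.single 1 a)) * l ^ a * z ^ b := by
    intro b _
    rw [map_sum, ← Finset.sum_neg_distrib]
    refine Finset.sum_congr rfl fun a _ => ?_
    rw [aeval_monomial, Finsupp.prod_add_index' (by simp) (fun i => pow_add _)]
    simp
    ring
  rw [Finset.sum_congr rfl h2, Finset.sum_neg_distrib] at hz
  linear_combination hz

theorem poly_of_compat {A : Type*} [CommRing A] [Algebra k A] {z l : A} {N : ℕ}
    (h : Compat (Set.range (algebraMap k A)) l z N) :
    ∃ P : MvPolynomial (Fin 2) k, CompatPoly P N ∧ aeval ![z, l] P = 0 := by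
  classical
  obtain ⟨κ, hκ, hz⟩ := h
  choose f hf using hκ
  refine ⟨X 0 ^ N - ∑ b ∈ Finset.range N, ∑ a ∈ Finset.range (N - b + 1),
    monomial (Finsupp.single 0 b + Finsupp.single 1 a) (f a b), ⟨?_, ?_⟩, ?_⟩
  · refine (totalDegree_sub _ _).trans (max_le ?_ ?_)
    · rw [totalDegree_X_pow]
    · refine totalDegree_finsetSum_le fun b hb => ?_
      refine totalDegree_finsetSum_le fun a ha => ?_
      refine (totalDegree_monomial_le _ _).trans ?_
      refine (deg_two _).trans_le ?_
      rw [Finset.mem_range] at ha hb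
      simp
      omega
  · rw [coeff_sub, coeff_X_pow, if_pos rfl, coeff_sum, Finset.sum_eq_zero, sub_zero]
    intro b hb
    rw [coeff_sum]
    refine Finset.sum_eq_zero fun a ha => ?_
    rw [coeff_monomial, if_neg]
    intro h0
    have e0 := DFunLike.congr_fun h0 0
    simp at e0
    rw [Finset.mem_range] at hb
    omega
  · rw [map_sub, map_pow, aeval_X, Matrix.cons_val_zero, hz, sub_eq_zero, map_sum]
    refine Finset.sum_congr rfl fun b _ => ?_
    rw [map_sum]
    refine Finset.sum_congr rfl fun a _ => ?_
    rw [aeval_monomial, Finsupp.prod_add_index' (by simp) (fun i => pow_add _), hf]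
    simp
    ring

end Bridge

end GZ
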