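import Pool.Agent.GZ.Rows
import Pool.Agent.GZ.Compat

/-!
# GZ, row C3: compat relations over a generic bounded linear form
-/

set_option autoImplicit false

namespace GZ

open MvPolynomial

universe u

section Coeff

variable {k : Type u} [Field k]

theorem coeff_single_zero (p : MvPolynomial (Fin 2) k) (e : ℕ) :
    p.coeff (Finsupp.single 0 e) = (aeval ![(Polynomial.X : Polynomial k), 0] p).coeff e := by
  classical
  rw [aeval_two, Polynomial.finsetSum_coeff]
  have h : ∀ m : Fin 2 →₀ ℕ, (algebraMap k (Polynomial k) (p.coeff m) *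
      ((Polynomial.X : Polynomial k) ^ m 0 * 0 ^ m 1)).coeff e
      = if m = Finsupp.single 0 e then p.coeff m else 0 := by
    intro m
    by_cases h1 : m 1 = 0
    · rw [h1, pow_zero, mul_one, Polynomial.algebraMap_apply, Algebra.algebraMap_self, RingHom.id_apply,
        Polynomial.coeff_C_mul, Polynomial.coeff_X_pow]
      by_cases h0 : m 0 = e
      · have hm : m = Finsupp.single 0 e := by
          ext i; fin_cases i
          · simpa using h0
          · simpa using h1
        rw [if_pos hm, if_pos h0.symm, mul_one]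
      · rw [if_neg (fun h => h0 h.symm), if_neg, mul_zero]
        rintro rfl
        simp at h0
    · rw [zero_pow h1, mul_zero, mul_zero, Polynomial.coeff_zero, if_neg]
      rintro rfl
      simp at h1
  simp only [h]
  rw [Finset.sum_ite_eq' p.support (Finsupp.single 0 e)]
  split_ifs with hmem
  · rfl
  · simpa using hmem

/-- The leading-form polynomial. -/
noncomputable def topPoly (g : MvPolynomial (Fin 2) k) : Polynomial k :=
  ∑ m ∈ g.support.filter (fun m => m 0 + m 1 = g.totalDegree),
    Polynomial.C (g.coeff m * (-1) ^ m 0) * Polynomial.X ^ m 0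

theorem topPoly_ne_zero {g : MvPolynomial (Fin 2) k} (hg : g ≠ 0) : topPoly g ≠ 0 := by
  classical
  obtain ⟨m, hm, hmd⟩ : ∃ m ∈ g.support, m 0 + m 1 = g.totalDegree := by
    obtain ⟨m, hm, hmd⟩ := Finset.exists_mem_eq_sup g.support (support_nonempty.2 hg)
      (fun s => s.sum fun _ e => e)
    refine ⟨m, hm, ?_⟩
    rw [← deg_two, ← hmd]
    rfl
  intro h0
  have h1 : (topPoly g).coeff (m 0) = g.coeff m * (-1) ^ m 0 := by
    rw [topPoly, Polynomial.finsetSum_coeff, Finset.sum_eq_single m]
    · rw [Polynomial.coeff_C_mul_X_pow, if_pos rfl]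
    · intro m' hm' hne
      rw [Polynomial.coeff_C_mul_X_pow, if_neg]
      intro h2
      apply hne
      rw [Finset.mem_filter] at hm'
      ext i; fin_cases i
      · exact h2.symm
      · change m' 1 = m 1
        omega
    · intro h2
      exfalso; apply h2
      rw [Finset.mem_filter]
      exact ⟨hm, hmd⟩
  rw [h0, Polynomial.coeff_zero] at h1
  have h2 : g.coeff m = 0 := by
    rcases mul_eq_zero.1 h1.symm with h | h
    · exact h
    · exact absurd h (pow_ne_zero _ (neg_ne_zero.2 one_ne_zero))
  exact (mem_support_iff.1 hm) h2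

theorem topPoly_natDegree_le (g : MvPolynomial (Fin 2) k) :
    (topPoly g).natDegree ≤ g.totalDegree := by
  classical
  rw [topPoly]
  apply Polynomial.natDegree_sum_le_of_forall_le
  intro m hm
  refine (Polynomial.natDegree_C_mul_X_pow_le _ _).trans ?_
  rw [Finset.mem_filter] at hm
  omega

/-- Substituting `w = L - t Z`: the coefficient of `Z ^ e`. -/
theorem coeff_subst (g : MvPolynomial (Fin 2) k) (t : k) :
    (aeval ![(X 1 - C t * X 0 : MvPolynomial (Fin 2) k), X 0] g).coeff
      (Finsupp.single 0 g.totalDegree) = (topPoly g).eval t := by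
  classical
  rw [coeff_single_zero]
  have h1 : aeval ![(Polynomial.X : Polynomial k), 0]
      (aeval ![(X 1 - C t * X 0 : MvPolynomial (Fin 2) k), X 0] g)
      = aeval ![(- Polynomial.C t * Polynomial.X : Polynomial k), Polynomial.X] g := by
    have : (aeval ![(Polynomial.X : Polynomial k), 0]).comp
        (aeval ![(X 1 - C t * X 0 : MvPolynomial (Fin 2) k), X 0])
        = aeval ![(- Polynomial.C t * Polynomial.X : Polynomial k), Polynomial.X] := by
      ext i
      fin_cases i
      · simp [Polynomial.algebraMap_apply]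
      · simp
    rw [← this]; rfl
  rw [h1, aeval_two, Polynomial.finsetSum_coeff, topPoly, Polynomial.eval_finset_sum,
    Finset.sum_filter]
  refine Finset.sum_congr rfl fun m _ => ?_
  have h2 : algebraMap k (Polynomial k) (g.coeff m) *
      ((- Polynomial.C t * Polynomial.X) ^ m 0 * Polynomial.X ^ m 1)
      = Polynomial.C (g.coeff m * (-t) ^ m 0) * Polynomial.X ^ (m 0 + m 1) := by
    rw [← Polynomial.C_neg, mul_pow, ← Polynomial.C_pow, Polynomial.algebraMap_apply,
      Algebra.algebraMap_self, RingHom.id_apply, Polynomial.C_mul, pow_add]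
    ring
  rw [h2, Polynomial.coeff_C_mul_X_pow]
  by_cases h3 : m 0 + m 1 = g.totalDegree
  · rw [if_pos h3, if_pos h3.symm, Polynomial.eval_mul, Polynomial.eval_C, Polynomial.eval_pow,
      Polynomial.eval_X, neg_pow t]
    ring
  · rw [if_neg h3, if_neg (fun h => h3 h.symm)]

theorem totalDegree_subst (g : MvPolynomial (Fin 2) k) (t : k) :
    (aeval ![(X 1 - C t * X 0 : MvPolynomial (Fin 2) k), X 0] g).totalDegree ≤ g.totalDegree := by
  classical
  rw [aeval_two]
  refine totalDegree_finsetSum_le fun m hm => ?_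
  have h1 := le_totalDegree hm
  rw [deg_two] at h1
  refine (totalDegree_mul _ _).trans ?_
  rw [MvPolynomial.algebraMap_eq, totalDegree_C, zero_add]
  refine (totalDegree_mul _ _).trans ?_
  have h2 : ((X 1 - C t * X 0 : MvPolynomial (Fin 2) k) ^ m 0).totalDegree ≤ m 0 := by
    refine (totalDegree_pow _ _).trans ?_
    have h3 : (X 1 - C t * X 0 : MvPolynomial (Fin 2) k).totalDegree ≤ 1 := by
      refine (totalDegree_sub _ _).trans (max_le ?_ ?_)
      · rw [totalDegree_X]
      · refine (totalDegree_mul _ _).trans ?_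
        rw [totalDegree_C, totalDegree_X]
    calc _ ≤ m 0 * 1 := Nat.mul_le_mul_left _ h3
      _ = m 0 := mul_one _
  have h4 : ((X 0 : MvPolynomial (Fin 2) k) ^ m 1).totalDegree ≤ m 1 := by
    rw [totalDegree_X_pow]
  omega

end Coeff

section Step

variable {k : Type u} [Field k] {n : ℕ}

/-- All but `c` values of `t` are good for one curve. -/
theorem step_one {c : ℕ} {q : Ideal (MvPolynomial (Fin n) k)} (hq : Good c q)
    (w z : MvPolynomial (Fin n) k) (hw : w.totalDegree ≤ 1) (hz : z.totalDegree ≤ 1) :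
    ∃ bad : Finset k, bad.card ≤ c ∧ ∀ t, t ∉ bad →
      CI k (Ideal.Quotient.mk q (w + C t * z)) (Ideal.Quotient.mk q z) := by
  classical
  obtain ⟨g, hg0, hgc, hg⟩ := hq.rel w z hw hz
  refine ⟨(topPoly g).roots.toFinset, ?_, ?_⟩
  · refine (Multiset.toFinset_card_le _).trans ?_
    refine (Polynomial.card_roots' _).trans ?_
    exact (topPoly_natDegree_le g).trans hgc
  · intro t ht
    have ht' : (topPoly g).eval t ≠ 0 := by
      intro h0
      apply ht
      rw [Multiset.mem_toFinset, Polynomial.mem_roots (topPoly_ne_zero hg0)]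
      exact h0
    refine CI.of_poly (aeval ![(X 1 - C t * X 0 : MvPolynomial (Fin 2) k), X 0] g)
      g.totalDegree (totalDegree_subst g t) (by rw [coeff_subst]; exact ht') ?_
    have h1 : (aeval ![Ideal.Quotient.mk q z, Ideal.Quotient.mk q (w + C t * z)] :
        MvPolynomial (Fin 2) k →ₐ[k] _).comp
        (aeval ![(X 1 - C t * X 0 : MvPolynomial (Fin 2) k), X 0])
        = (Ideal.Quotient.mkₐ k q).comp (aeval ![w, z]) := by
      ext i
      fin_cases i
      · simp [Ideal.Quotient.algebraMap_eq, IsScalarTower.algebraMap_apply k (MvPolynomial (Fin n) k)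
          (MvPolynomial (Fin n) k ⧸ q)]
      · simp
    have h2 := DFunLike.congr_fun h1 g
    simp only [AlgHom.comp_apply] at h2
    rw [h2, Ideal.Quotient.mkₐ_eq_mk]
    exact Ideal.Quotient.eq_zero_iff_mem.2 hg

theorem mk_C_eq (q : Ideal (MvPolynomial (Fin n) k)) (a : k) :
    Ideal.Quotient.mk q (C a) = algebraMap k (MvPolynomial (Fin n) k ⧸ q) a := by
  rw [IsScalarTower.algebraMap_apply k (MvPolynomial (Fin n) k) (MvPolynomial (Fin n) k ⧸ q),
    Ideal.Quotient.algebraMap_eq, MvPolynomial.algebraMap_eq]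

theorem totalDegree_lin {ν : ℕ} (J : Finset (Fin ν)) (s : Fin ν → k)
    (y : Fin ν → MvPolynomial (Fin n) k) (hy : ∀ j, (y j).totalDegree ≤ 1) :
    (∑ j ∈ J, C (s j) * y j).totalDegree ≤ 1 := by
  refine totalDegree_finsetSum_le fun j _ => ?_
  refine (totalDegree_mul _ _).trans ?_
  rw [totalDegree_C, zero_add]
  exact hy j

theorem exists_generic {c r ν : ℕ} {q : Fin r → Ideal (MvPolynomial (Fin n) k)}
    (hq : ∀ i, Good c (q i)) (y : Fin ν → MvPolynomial (Fin n) k)
    (hy : ∀ j, (y j).totalDegree ≤ 1) (S : Finset k) (hS : r * c < S.card) (J : Finset (Fin ν)) :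
    ∃ s : Fin ν → k, (∀ j, s j ∈ S) ∧ ∀ i, ∀ j ∈ J,
      CI k (Ideal.Quotient.mk (q i) (∑ j ∈ J, C (s j) * y j)) (Ideal.Quotient.mk (q i) (y j)) := by
  classical
  induction J using Finset.induction_on with
  | empty =>
    obtain ⟨t, ht⟩ : S.Nonempty := Finset.card_pos.1 (by omega)
    exact ⟨fun _ => t, fun _ => ht, fun i j hj => absurd hj (Finset.notMem_empty j)⟩
  | insert a J ha ih =>
    obtain ⟨s, hs, hCI⟩ := ih
    set l := ∑ j ∈ J, C (s j) * y j with hl
    have hl1 : l.totalDegree ≤ 1 := totalDegree_lin J s y hy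
    choose bad hbc hbad using fun i => step_one (hq i) l (y a) hl1 (hy a)
    obtain ⟨t, htS, htb⟩ : ∃ t ∈ S, t ∉ Finset.univ.biUnion bad := by
      by_contra hcon
      push Not at hcon
      have h1 : S ⊆ Finset.univ.biUnion bad := fun t ht => hcon t ht
      have h2 := Finset.card_le_card h1
      have h3 : (Finset.univ.biUnion bad).card ≤ r * c := by
        refine Finset.card_biUnion_le.trans ?_
        refine (Finset.sum_le_card_nsmul _ _ c fun i _ => hbc i).trans ?_
        simp
      omega
    have htb' : ∀ i, t ∉ bad i := by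
      intro i hi
      exact htb (Finset.mem_biUnion.2 ⟨i, Finset.mem_univ i, hi⟩)
    refine ⟨Function.update s a t, ?_, ?_⟩
    · intro j
      by_cases hj : j = a
      · subst hj; rw [Function.update_self]; exact htS
      · rw [Function.update_of_ne hj]; exact hs j
    · intro i j hj
      have hsum : ∑ j ∈ insert a J, C (Function.update s a t j) * y j = l + C t * y a := by
        rw [Finset.sum_insert ha, Function.update_self, add_comm, hl]
        congr 1
        refine Finset.sum_congr rfl fun j' hj' => ?_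
        rw [Function.update_of_ne (ne_of_mem_of_not_mem hj' ha)]
      rw [hsum]
      have hya : CI k (Ideal.Quotient.mk (q i) (l + C t * y a)) (Ideal.Quotient.mk (q i) (y a)) :=
        hbad i t (htb' i)
      have hll : CI k (Ideal.Quotient.mk (q i) (l + C t * y a)) (Ideal.Quotient.mk (q i) l) := by
        have h1 : Ideal.Quotient.mk (q i) l = Ideal.Quotient.mk (q i) (l + C t * y a)
            + algebraMap k _ (-t) * Ideal.Quotient.mk (q i) (y a) := by
          rw [← mk_C_eq, ← map_mul, ← map_add]
          congr 1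
          rw [C_neg]; ring
        rw [h1]
        exact CI.add (CI.refl _) (CI.const_mul _ hya)
      rcases Finset.mem_insert.1 hj with rfl | hj
      · exact hya
      · exact CI.trans hll (hCI i j hj)

end Step

section Alg

variable {k : Type u} [Field k] {B : Type u} [CommRing B] [Algebra k B]

theorem integral_of_compat {z l : B} {P : MvPolynomial (Fin 2) k} {N : ℕ} (hP : CompatPoly P N)
    (hz : aeval ![z, l] P = 0) (hl : IsIntegral k l) : IsIntegral k z := by
  set Cl := integralClosure k B with hCl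
  have hrange : ∀ p : MvPolynomial (Fin 1) k,
      (aeval (fun _ : Fin 1 => l) : MvPolynomial (Fin 1) k →ₐ[k] B) p ∈ Cl := by
    intro p
    induction p using MvPolynomial.induction_on with
    | C a =>
      rw [aeval_C]
      exact isIntegral_algebraMap
    | add p q hp hq => rw [map_add]; exact add_mem hp hq
    | mul_X p i hp =>
      rw [map_mul, aeval_X]
      exact mul_mem hp hl
  have hzint : IsIntegral Cl z := by
    let f : MvPolynomial (Fin 1) k →+* Cl :=
      (aeval (fun _ : Fin 1 => l) : MvPolynomial (Fin 1) k →ₐ[k] B).toRingHom.codRestrict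
        Cl.toSubring (fun x => hrange x)
    refine ⟨(finSuccEquiv k 1 P).map f, hP.monic.1.map f, ?_⟩
    rw [Polynomial.eval₂_map]
    have hf : (algebraMap Cl B).comp f
        = (aeval (fun _ : Fin 1 => l) : MvPolynomial (Fin 1) k →ₐ[k] B).toRingHom := by
      ext x <;> rfl
    rw [hf, ← aeval_finSuccEquiv]
    exact hz
  have : Algebra.IsIntegral k Cl := integralClosure.AlgebraIsIntegral
  exact isIntegral_trans (R := k) (A := Cl) _ hzint

end Alg

theorem trans_iff {k : Type u} [Field k] {n : ℕ} (q : Ideal (MvPolynomial (Fin n) k))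
    (l : MvPolynomial (Fin n) k) :
    (∀ P : Polynomial k, P ≠ 0 → Polynomial.aeval l P ∉ q) ↔
      Transcendental k (Ideal.Quotient.mk q l) := by
  have h : ∀ P : Polynomial k, Polynomial.aeval (Ideal.Quotient.mk q l) P
      = Ideal.Quotient.mk q (Polynomial.aeval l P) := by
    intro P
    have := Polynomial.aeval_algHom_apply (Ideal.Quotient.mkₐ k q) l P
    simpa using this
  rw [transcendental_iff]
  constructor
  · intro h1 P hP
    by_contra hne
    apply h1 P hne
    rw [← Ideal.Quotient.eq_zero_iff_mem, ← h, hP]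
  · intro h1 P hP hmem
    apply hP
    apply h1
    rw [h]
    exact Ideal.Quotient.eq_zero_iff_mem.2 hmem

theorem mk_rel {k : Type u} [Field k] {n : ℕ} (q : Ideal (MvPolynomial (Fin n) k))
    (z l : MvPolynomial (Fin n) k) (g : MvPolynomial (Fin 2) k) :
    aeval ![Ideal.Quotient.mk q z, Ideal.Quotient.mk q l] g
      = Ideal.Quotient.mk q (aeval ![z, l] g) := by
  have h1 : (aeval ![Ideal.Quotient.mk q z, Ideal.Quotient.mk q l] :
      MvPolynomial (Fin 2) k →ₐ[k] _) = (Ideal.Quotient.mkₐ k q).comp (aeval ![z, l]) := by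
    ext i
    fin_cases i
    · simp
    · simp
  rw [h1, AlgHom.comp_apply, Ideal.Quotient.mkₐ_eq_mk]

theorem c3_trans {k : Type u} [Field k] {n : ℕ} (q : Ideal (MvPolynomial (Fin n) k))
    (l z : MvPolynomial (Fin n) k)
    (h : CI k (Ideal.Quotient.mk q l) (Ideal.Quotient.mk q z))
    (hz : ∀ P : Polynomial k, P ≠ 0 → Polynomial.aeval z P ∉ q) :
    ∀ P : Polynomial k, P ≠ 0 → Polynomial.aeval l P ∉ q := by
  rw [trans_iff] at hz ⊢
  intro halg
  apply hz
  obtain ⟨P, N, hP, hz⟩ := h.exists_compat
  exact (integral_of_compat hP hz halg.isIntegral).isAlgebraic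

theorem c3_deg {k : Type u} [Field k] {n c : ℕ} (q : Ideal (MvPolynomial (Fin n) k))
    (hq : Good c q) (l z : MvPolynomial (Fin n) k) (hl1 : l.totalDegree ≤ 1)
    (hz1 : z.totalDegree ≤ 1)
    (h : CI k (Ideal.Quotient.mk q l) (Ideal.Quotient.mk q z))
    (hl : ∀ P : Polynomial k, P ≠ 0 → Polynomial.aeval l P ∉ q) :
    ∃ N, N ≤ c ∧ Compat (Set.range (algebraMap k (MvPolynomial (Fin n) k ⧸ q)))
        (Ideal.Quotient.mk q l) (Ideal.Quotient.mk q z) N := by
  have hprime := hq.prime
  have hdom : IsDomain (MvPolynomial (Fin n) k ⧸ q) := Ideal.Quotient.isDomain _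
  rw [trans_iff] at hl
  obtain ⟨P, N, hP, hzP⟩ := h.exists_compat
  obtain ⟨m, N', _, hm, _, hdvd⟩ := exists_minPoly hl hP hzP
  obtain ⟨g, hg0, hgc, hg⟩ := hq.rel z l hz1 hl1
  have hg' : aeval ![Ideal.Quotient.mk q z, Ideal.Quotient.mk q l] g = 0 := by
    rw [mk_rel]
    exact Ideal.Quotient.eq_zero_iff_mem.2 hg
  obtain ⟨h, hh⟩ := (hdvd g).1 hg'
  refine ⟨N', ?_, compat_of_poly hm ((hdvd m).2 dvd_rfl)⟩
  have hh0 : h ≠ 0 := by rintro rfl; exact hg0 (by simpa using hh)
  have h2 : g.totalDegree = m.totalDegree + h.totalDegree := by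
    rw [hh, totalDegree_mul_of_isDomain hm.ne_zero hh0]
  rw [hm.totalDegree_eq] at h2
  omega

theorem c3 : C3Stmt.{u} := by
  intro k _ n ν c r q hq y hy htr S hS
  obtain ⟨s, hs, hCI⟩ := exists_generic hq y hy S hS Finset.univ
  refine ⟨s, hs, fun i => ?_⟩
  have htl : ∀ P : Polynomial k, P ≠ 0 → Polynomial.aeval (∑ j, C (s j) * y j) P ∉ q i := by
    obtain ⟨j, hj⟩ := htr i
    exact c3_trans (q i) _ (y j) (hCI i j (Finset.mem_univ j)) hj
  refine ⟨htl, fun b => ?_⟩
  have hzCI : CI k (Ideal.Quotient.mk (q i) (∑ j, C (s j) * y j))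
      (Ideal.Quotient.mk (q i) (∑ j, C (b j) * y j)) := by
    rw [map_sum (Ideal.Quotient.mk (q i)) (fun j => C (b j) * y j)]
    refine CI.sum _ _ fun j _ => ?_
    rw [map_mul, mk_C_eq]
    exact CI.const_mul _ (hCI i j (Finset.mem_univ j))
  exact c3_deg (q i) (hq i) _ _ (totalDegree_lin Finset.univ s y hy)
    (totalDegree_lin Finset.univ b y hy) hzCI htl

end GZ
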