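import Pool.Agent.GZ.Rows

/-!
# GZ row C4: the Hilbert function of a member of a curve system
-/

namespace GZ

open MvPolynomial

universe u

namespace C4

variable {k A : Type u} [Field k] [CommRing A] [Algebra k A] {ν : ℕ}

/-- Indices of the reduced monomials of degree at most `t`. -/
def idx (N : Fin ν → ℕ) (t : ℕ) : Set (ℕ × (Fin ν → ℕ)) :=
  {p | (∀ j, p.2 j < N j) ∧ p.1 + ∑ j, p.2 j ≤ t}

/-- The reduced monomial. -/
def rm (l : A) (x : Fin ν → A) (p : ℕ × (Fin ν → ℕ)) : A := l ^ p.1 * ∏ j, x j ^ p.2 j

/-- The span of the reduced monomials. -/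
def V (k : Type u) [Field k] {A : Type u} [CommRing A] [Algebra k A] (l : A) (x : Fin ν → A)
    (N : Fin ν → ℕ) (t : ℕ) : Submodule k A :=
  Submodule.span k (rm l x '' idx N t)

lemma V_mono (l : A) (x : Fin ν → A) (N : Fin ν → ℕ) {s t : ℕ} (h : s ≤ t) :
    V k l x N s ≤ V k l x N t := by
  apply Submodule.span_mono
  apply Set.image_mono
  rintro p ⟨h1, h2⟩
  exact ⟨h1, h2.trans h⟩

lemma rm_mem (l : A) (x : Fin ν → A) (N : Fin ν → ℕ) {t : ℕ} {p : ℕ × (Fin ν → ℕ)}
    (hp : p ∈ idx N t) : rm l x p ∈ V k l x N t :=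
  Submodule.subset_span ⟨p, hp, rfl⟩

lemma mul_x_mem (l : A) (x : Fin ν → A) (N : Fin ν → ℕ)
    (hN : ∀ j, Compat (Set.range (algebraMap k A)) l (x j) (N j)) {t : ℕ} {v : A}
    (hv : v ∈ V k l x N t) (j : Fin ν) : x j * v ∈ V k l x N (t + 1) := by
  induction hv using Submodule.span_induction with
  | zero => rw [mul_zero]; exact Submodule.zero_mem _
  | add a b _ _ ha hb => rw [mul_add]; exact Submodule.add_mem _ ha hb
  | smul c a _ ha => rw [mul_smul_comm]; exact Submodule.smul_mem _ _ ha
  | mem v hv =>
    obtain ⟨p, hp, rfl⟩ := hv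
    obtain ⟨h1, h2⟩ := hp
    have hsplit : ∀ b : Fin ν → ℕ, ∏ i, x i ^ b i
        = x j ^ b j * ∏ i ∈ Finset.univ.erase j, x i ^ b i := by
      intro b
      rw [← Finset.mul_prod_erase Finset.univ (fun i => x i ^ b i) (Finset.mem_univ j)]
    have hssplit : ∀ b : Fin ν → ℕ, ∑ i, b i
        = b j + ∑ i ∈ Finset.univ.erase j, b i := by
      intro b
      rw [← Finset.add_sum_erase Finset.univ b (Finset.mem_univ j)]
    have hupd : ∀ (b : Fin ν → ℕ) (m : ℕ), ∏ i, x i ^ (Function.update b j m) i
        = x j ^ m * ∏ i ∈ Finset.univ.erase j, x i ^ b i := by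
      intro b m
      rw [hsplit, Function.update_self]
      congr 1
      apply Finset.prod_congr rfl
      intro i hi
      rw [Function.update_of_ne (Finset.ne_of_mem_erase hi)]
    have hsupd : ∀ (b : Fin ν → ℕ) (m : ℕ), ∑ i, (Function.update b j m) i
        = m + ∑ i ∈ Finset.univ.erase j, b i := by
      intro b m
      rw [hssplit, Function.update_self]
      congr 1
      apply Finset.sum_congr rfl
      intro i hi
      rw [Function.update_of_ne (Finset.ne_of_mem_erase hi)]
    by_cases hlt : p.2 j + 1 < N j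
    · have : x j * rm l x p = rm l x (p.1, Function.update p.2 j (p.2 j + 1)) := by
        simp only [rm]
        rw [hupd, hsplit]
        ring
      rw [this]
      apply rm_mem
      refine ⟨?_, ?_⟩
      · intro i
        by_cases hij : i = j
        · subst hij; simpa using hlt
        · simpa [Function.update_of_ne hij] using h1 i
      · simp only
        rw [hsupd]
        have := hssplit p.2
        omega
    · have heq : p.2 j + 1 = N j := by have := h1 j; omega
      obtain ⟨κ, hκ, hrel⟩ := hN j
      have : x j * rm l x p = ∑ b ∈ Finset.range (N j), ∑ a ∈ Finset.range (N j - b + 1),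
          κ a b * rm l x (p.1 + a, Function.update p.2 j b) := by
        have e1 : x j * rm l x p = x j ^ N j * (l ^ p.1 * ∏ i ∈ Finset.univ.erase j, x i ^ p.2 i) := by
          simp only [rm]
          rw [hsplit, ← heq]
          ring
        rw [e1, hrel, Finset.sum_mul]
        apply Finset.sum_congr rfl
        intro b _
        rw [Finset.sum_mul]
        apply Finset.sum_congr rfl
        intro a _
        simp only [rm]
        rw [hupd]
        ring
      rw [this]
      apply Submodule.sum_mem
      intro b hb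
      apply Submodule.sum_mem
      intro a ha
      obtain ⟨c, hc⟩ := hκ a b
      rw [← hc, ← Algebra.smul_def]
      apply Submodule.smul_mem
      apply rm_mem
      rw [Finset.mem_range] at hb ha
      refine ⟨?_, ?_⟩
      · intro i
        by_cases hij : i = j
        · subst hij; simpa using hb
        · simpa [Function.update_of_ne hij] using h1 i
      · simp only
        rw [hsupd]
        have := hssplit p.2
        omega

lemma one_mem (l : A) (x : Fin ν → A) (N : Fin ν → ℕ) (hpos : ∀ j, 0 < N j) (t : ℕ) :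
    (1 : A) ∈ V k l x N t := by
  have : rm l x (0, 0) = 1 := by simp [rm]
  rw [← this]
  apply rm_mem
  exact ⟨fun j => hpos j, by simp⟩

lemma mon_mem (l : A) (x : Fin ν → A) (N : Fin ν → ℕ)
    (hN : ∀ j, Compat (Set.range (algebraMap k A)) l (x j) (N j)) (hpos : ∀ j, 0 < N j) :
    ∀ (t : ℕ) (α : Fin ν →₀ ℕ), (α.sum fun _ m => m) = t → (∏ j, x j ^ α j) ∈ V k l x N t := by
  intro t
  induction t with
  | zero =>
    intro α hα
    have h0 : ∀ j, α j = 0 := by
      intro j
      by_contra hj
      have hmem : j ∈ α.support := Finsupp.mem_support_iff.mpr hj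
      have := Finset.single_le_sum (f := fun i => α i) (fun i _ => Nat.zero_le _) hmem
      simp only [Finsupp.sum] at hα
      omega
    have : (∏ j, x j ^ α j) = 1 := by
      apply Finset.prod_eq_one
      intro j _
      rw [h0 j, pow_zero]
    rw [this]
    exact one_mem l x N hpos 0
  | succ t ih =>
    intro α hα
    have : ∃ j, α j ≠ 0 := by
      by_contra hcon
      push Not at hcon
      have : α = 0 := by ext j; simp [hcon j]
      rw [this] at hα
      simp at hα
    obtain ⟨j, hj⟩ := this
    have hle : Finsupp.single j 1 ≤ α := by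
      rw [Finsupp.single_le_iff]
      omega
    obtain ⟨β, rfl⟩ : ∃ β, α = Finsupp.single j 1 + β := ⟨α - Finsupp.single j 1, by
      rw [add_tsub_cancel_of_le hle]⟩
    have hβ : (β.sum fun _ m => m) = t := by
      rw [Finsupp.sum_add_index' (fun _ => rfl) (fun _ _ _ => rfl),
        Finsupp.sum_single_index rfl] at hα
      omega
    have hmem := mul_x_mem l x N hN (ih β hβ) j
    have : (∏ i, x i ^ ((Finsupp.single j 1 + β : Fin ν →₀ ℕ) i)) = x j * ∏ i, x i ^ β i := by
      simp only [Finsupp.add_apply, pow_add, Finset.prod_mul_distrib]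
      congr 1
      rw [Finset.prod_eq_single j]
      · simp
      · intro i _ hij
        rw [Finsupp.single_apply, if_neg (Ne.symm hij), pow_zero]
      · intro h; exact absurd (Finset.mem_univ _) h
    rw [this]
    exact hmem

lemma finite_idx (N : Fin ν → ℕ) (t : ℕ) :
    idx N t ⊆ ((Finset.range (t + 1)) ×ˢ (Fintype.piFinset fun j => Finset.range (N j)) :
      Finset (ℕ × (Fin ν → ℕ))) := by
  rintro p ⟨h1, h2⟩
  simp only [Finset.coe_product, Set.mem_prod, Finset.mem_coe, Finset.mem_range,
    Fintype.mem_piFinset]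
  exact ⟨by omega, h1⟩

lemma V_finite (l : A) (x : Fin ν → A) (N : Fin ν → ℕ) (t : ℕ) :
    Module.Finite k (V k l x N t) := by
  apply Module.Finite.span_of_finite
  exact ((Finset.finite_toSet _).subset (finite_idx N t)).image _

lemma finrank_V (l : A) (x : Fin ν → A) (N : Fin ν → ℕ) (c : ℕ) (hc : ∀ j, N j ≤ c) (t : ℕ) :
    Module.finrank k (V k l x N t) ≤ c ^ ν * (t + 1) := by
  classical
  set S : Finset (ℕ × (Fin ν → ℕ)) :=
    (Finset.range (t + 1)) ×ˢ (Fintype.piFinset fun j => Finset.range (N j)) with hS
  have hsub : V k l x N t ≤ Submodule.span k ((S.image (rm l x) : Finset A) : Set A) := by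
    apply Submodule.span_mono
    rw [Finset.coe_image]
    exact Set.image_mono (finite_idx N t)
  have h1 := Submodule.finrank_mono hsub
  have h2 := finrank_span_finset_le_card (R := k) (S.image (rm l x))
  have h3 : (S.image (rm l x)).card ≤ S.card := Finset.card_image_le
  have h4 : S.card ≤ c ^ ν * (t + 1) := by
    rw [hS, Finset.card_product, Finset.card_range, Fintype.card_piFinset, mul_comm]
    apply Nat.mul_le_mul_right
    calc ∏ j, (Finset.range (N j)).card ≤ ∏ _j : Fin ν, c := by
          apply Finset.prod_le_prod'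
          intro j _
          rw [Finset.card_range]
          exact hc j
      _ = c ^ ν := by simp
  exact h1.trans (h2.trans (h3.trans h4))

end C4

/-- Membership form: polynomials of degree at most `t` are reduced. -/
lemma C4.map_le {k : Type u} [Field k] {ν : ℕ} (r : Ideal (MvPolynomial (Fin ν) k))
    (l : MvPolynomial (Fin ν) k) (N : Fin ν → ℕ)
    (hN : ∀ j, Compat (Set.range (algebraMap k (MvPolynomial (Fin ν) k ⧸ r)))
      (Ideal.Quotient.mk r l) (Ideal.Quotient.mk r (X j)) (N j)) (t : ℕ) :
    (restrictTotalDegree (Fin ν) k t).map (Ideal.Quotient.mkₐ k r).toLinearMap ≤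
      C4.V k (Ideal.Quotient.mk r l) (fun j => Ideal.Quotient.mk r (X j)) N t := by
  rintro _ ⟨P, hP, rfl⟩
  have hP' : P.totalDegree ≤ t := (mem_restrictTotalDegree _ _ _).mp hP
  by_cases hpos : ∀ j, 0 < N j
  · have hsum : (Ideal.Quotient.mkₐ k r).toLinearMap P =
        ∑ α ∈ P.support, P.coeff α • ∏ j, (Ideal.Quotient.mk r (X j)) ^ α j := by
      conv_lhs => rw [P.as_sum]
      rw [map_sum]
      apply Finset.sum_congr rfl
      intro α _
      have : (monomial α) (P.coeff α) = P.coeff α • ∏ j, (X j : MvPolynomial (Fin ν) k) ^ α j := by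
        rw [MvPolynomial.smul_eq_C_mul, MvPolynomial.monomial_eq,
          Finsupp.prod_fintype _ _ (fun i => pow_zero _)]
      rw [this, map_smul]
      congr 1
      simp only [AlgHom.toLinearMap_apply, Ideal.Quotient.mkₐ_eq_mk, map_prod, map_pow]
    rw [hsum]
    apply Submodule.sum_mem
    intro α hα
    apply Submodule.smul_mem
    have hle : (α.sum fun _ m => m) ≤ t := (le_totalDegree hα).trans hP'
    exact C4.V_mono _ _ _ hle (C4.mon_mem _ _ N hN hpos _ α rfl)
  · push Not at hpos
    obtain ⟨j, hj⟩ := hpos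
    have hj0 : N j = 0 := by omega
    obtain ⟨κ, _, hrel⟩ := hN j
    rw [hj0] at hrel
    simp only [pow_zero, Finset.range_zero, Finset.sum_empty] at hrel
    have : (Ideal.Quotient.mkₐ k r).toLinearMap P = 0 := by
      rw [← one_mul ((Ideal.Quotient.mkₐ k r).toLinearMap P), hrel, zero_mul]
    rw [this]
    exact Submodule.zero_mem _

/-- C4. -/
theorem c4 : C4Stmt.{u} := by
  intro k _ ν c r l _ h t
  choose N hNc hN using h
  have h1 := C4.map_le r l N hN t
  have := C4.V_finite (k := k) (Ideal.Quotient.mk r l)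
    (fun j => Ideal.Quotient.mk r (X j : MvPolynomial (Fin ν) k)) N t
  exact (Submodule.finrank_mono h1).trans (C4.finrank_V _ _ N c hNc t)

end GZ
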