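import Pool.Agent.GZ.C4

/-!
# GZ row C6: functions of small degree with zero derivative are constant
-/

namespace GZ

open MvPolynomial

universe u

namespace C6

/-- Evaluation of a polynomial in two variables. -/
noncomputable def ev {k K : Type u} [Field k] [Field K] [Algebra k K] (L h : K) :
    Polynomial (Polynomial k) →+* K :=
  Polynomial.eval₂RingHom (Polynomial.aeval h : Polynomial k →ₐ[k] K).toRingHom L

lemma ev_apply {k K : Type u} [Field k] [Field K] [Algebra k K] (L h : K)
    (F : Polynomial (Polynomial k)) :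
    ev L h F = F.sum fun a f => Polynomial.aeval h f * L ^ a := by
  simp [ev, Polynomial.eval₂_eq_sum]

/-- The derivative in the outer variable. -/
lemma ev_deriv {k K : Type u} [Field k] [Field K] [Algebra k K] (L h : K)
    (D : Derivation k K K) (hL : D L = 1) (hh : D h = 0) (F : Polynomial (Polynomial k)) :
    D (ev L h F) = ev L h (Polynomial.derivative F) := by
  induction F using Polynomial.induction_on' with
  | add p q hp hq => rw [map_add, map_add, hp, hq, Polynomial.derivative_add, map_add]
  | monomial n f =>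
    have h1 : ev L h (Polynomial.monomial n f) = Polynomial.aeval h f * L ^ n := by
      simp [ev]
    have h2 : ev L h (Polynomial.derivative (Polynomial.monomial n f))
        = Polynomial.aeval h f * (n : K) * L ^ (n - 1) := by
      rw [Polynomial.derivative_monomial]
      simp [ev]
    have h3 : D (Polynomial.aeval h f) = 0 := by
      rw [Derivation.map_aeval, hh, smul_zero]
    rw [h1, h2, Derivation.leibniz, h3, smul_zero, add_zero, Derivation.leibniz_pow, hL]
    simp only [smul_eq_mul, nsmul_eq_mul, mul_one]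
    ring

lemma alg_of_rel {k K : Type u} [Field k] [Field K] [Algebra k K] (L h : K)
    (D : Derivation k K K) (hL : D L = 1) (hh : D h = 0) (a₀ : ℕ)
    (hchar : ∀ n : ℕ, 1 ≤ n → n ≤ a₀ → (n : k) ≠ 0) :
    ∀ m : ℕ, m ≤ a₀ → ∀ F : Polynomial (Polynomial k), F ≠ 0 → F.natDegree ≤ m →
      ev L h F = 0 → ∃ f : Polynomial k, f ≠ 0 ∧ Polynomial.aeval h f = 0 := by
  have hconst : ∀ F : Polynomial (Polynomial k), F ≠ 0 → F.natDegree ≤ 0 → ev L h F = 0 →
      ∃ f : Polynomial k, f ≠ 0 ∧ Polynomial.aeval h f = 0 := by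
    intro F hF hdeg hev
    have hC : F = Polynomial.C (F.coeff 0) :=
      Polynomial.eq_C_of_natDegree_le_zero hdeg
    refine ⟨F.coeff 0, ?_, ?_⟩
    · intro h0
      rw [h0, Polynomial.C_0] at hC
      exact hF hC
    · rw [hC] at hev
      simpa [ev] using hev
  intro m
  induction m with
  | zero => intro _ F hF hdeg hev; exact hconst F hF hdeg hev
  | succ m ih =>
    intro hm F hF hdeg hev
    by_cases hd : Polynomial.derivative F = 0
    · apply hconst F hF ?_ hev
      rw [Nat.le_zero]
      by_contra hne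
      obtain ⟨n, hn⟩ : ∃ n, F.natDegree = n + 1 := ⟨F.natDegree - 1, by omega⟩
      have hc : (Polynomial.derivative F).coeff n = 0 := by rw [hd]; simp
      rw [Polynomial.coeff_derivative] at hc
      have hlead : F.coeff (n + 1) ≠ 0 := by
        rw [← hn]
        exact Polynomial.leadingCoeff_ne_zero.mpr hF
      have hcast : ((n : Polynomial k) + 1) ≠ 0 := by
        have h1 := hchar (n + 1) (by omega) (by omega)
        intro h2
        apply h1
        have h3 := congrArg (Polynomial.eval 0) h2
        simpa using h3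
      exact (mul_ne_zero hlead hcast) hc
    · apply ih (by omega) (Polynomial.derivative F) hd
      · exact (Polynomial.natDegree_derivative_le F).trans (by omega)
      · rw [← ev_deriv L h D hL hh, hev, map_zero]

lemma pow_split {K : Type u} [Field K] {P Q : K} (hQ : Q ≠ 0) {i m : ℕ} (h : i ≤ m) :
    Q ^ m * (P / Q) ^ i = P ^ i * Q ^ (m - i) := by
  have h1 : Q ^ m = Q ^ (m - i) * Q ^ i := by rw [← pow_add]; congr 1; omega
  have h2 : Q ^ i ≠ 0 := pow_ne_zero _ hQ
  rw [div_pow, h1]
  field_simp

end C6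

/-- C6. -/
theorem c6 : C6Stmt.{u} := by
  classical
  intro ν c
  refine ⟨4 * (c ^ ν) ^ 2 + 1, ?_⟩
  intro k _ r _ l hldeg _ hcompat D hDl e P Q hP hQ hchar hD x hx hQx
  set B := MvPolynomial (Fin ν) k ⧸ r with hB
  set K := FractionRing B with hK
  set m₀ : ℕ := c ^ ν with hm₀
  set a₀ : ℕ := 4 * m₀ ^ 2 * (e + 1) with ha₀
  set c' : ℕ := 2 * m₀ with hc'
  have hcast : ∀ n : ℕ, 1 ≤ n → n ≤ a₀ → (n : k) ≠ 0 := by
    intro n hn1 hn2 h0
    have hdvd : ringChar k ∣ n := (ringChar.spec k n).mp h0
    rcases hchar with h | h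
    · rw [h] at hdvd
      have := Nat.eq_zero_of_zero_dvd hdvd
      omega
    · have hle : ringChar k ≤ n := Nat.le_of_dvd (by omega) hdvd
      have h2 : (4 * m₀ ^ 2 + 1) * (e + 1) = a₀ + (e + 1) := by rw [ha₀]; ring
      omega
  -- the elements
  let π : MvPolynomial (Fin ν) k →ₐ[k] B := Ideal.Quotient.mkₐ k r
  have hQr : Q ∉ r := fun h => hQx (hx Q h)
  have hQB : (Ideal.Quotient.mk r Q : B) ≠ 0 := by
    intro h
    exact hQr (Ideal.Quotient.eq_zero_iff_mem.mp h)
  have hinj : Function.Injective (algebraMap B K) := IsFractionRing.injective B K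
  have hQK : (algebraMap B K (Ideal.Quotient.mk r Q)) ≠ 0 := by
    intro h
    apply hQB
    apply hinj
    rw [h, map_zero]
  set L : K := algebraMap B K (Ideal.Quotient.mk r l) with hL
  set h : K := algebraMap B K (Ideal.Quotient.mk r P) / algebraMap B K (Ideal.Quotient.mk r Q)
    with hh
  choose N hNc hN using hcompat
  set t : ℕ := a₀ + c' * e with ht
  set W := C4.V k (Ideal.Quotient.mk r l : B) (fun j => Ideal.Quotient.mk r (X j)) N t with hW
  have hWfin : Module.Finite k W := C4.V_finite _ _ _ _
  have hWrank : Module.finrank k W ≤ m₀ * (t + 1) := C4.finrank_V _ _ N c hNc t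
  have hWmem : ∀ G : MvPolynomial (Fin ν) k, G.totalDegree ≤ t →
      (Ideal.Quotient.mk r G : B) ∈ W := by
    intro G hG
    apply C4.map_le r l N hN t
    exact ⟨G, (mem_restrictTotalDegree _ _ _).mpr hG, rfl⟩
  let w : Fin (a₀ + 1) × Fin (c' + 1) → W := fun p =>
    ⟨Ideal.Quotient.mk r (l ^ (p.1 : ℕ) * P ^ (p.2 : ℕ) * Q ^ (c' - (p.2 : ℕ))), by
      apply hWmem
      have h1 : (l ^ (p.1 : ℕ)).totalDegree ≤ a₀ := by
        refine (totalDegree_pow _ _).trans ?_
        have h3 : (p.1 : ℕ) ≤ a₀ := by have := p.1.isLt; omega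
        calc (p.1 : ℕ) * l.totalDegree ≤ a₀ * 1 := Nat.mul_le_mul h3 hldeg
          _ = a₀ := mul_one _
      have h2 : (P ^ (p.2 : ℕ)).totalDegree ≤ (p.2 : ℕ) * e :=
        (totalDegree_pow _ _).trans (Nat.mul_le_mul_left _ hP)
      have h4 : (Q ^ (c' - (p.2 : ℕ))).totalDegree ≤ (c' - (p.2 : ℕ)) * e :=
        (totalDegree_pow _ _).trans (Nat.mul_le_mul_left _ hQ)
      have h5 : (p.2 : ℕ) * e + (c' - (p.2 : ℕ)) * e = c' * e := by
        rw [← Nat.add_mul]
        congr 1
        have := p.2.isLt
        omega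
      refine (totalDegree_mul _ _).trans ?_
      refine (Nat.add_le_add_right (totalDegree_mul _ _) _).trans ?_
      omega⟩
  have hnot : ¬ LinearIndependent k w := by
    intro hli
    have h1 := hli.fintype_card_le_finrank
    rw [Fintype.card_prod, Fintype.card_fin, Fintype.card_fin] at h1
    have h2 : (a₀ + 1) * (c' + 1) ≤ m₀ * (t + 1) := h1.trans hWrank
    have h3 : m₀ * (c' * e) ≤ m₀ * a₀ := by
      apply Nat.mul_le_mul_left
      rw [ha₀, hc']
      rcases Nat.eq_zero_or_pos m₀ with h0 | hpos
      · rw [h0]; simp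
      · nlinarith [Nat.mul_le_mul_left (2 * m₀ * e) hpos]
    have h4 : (a₀ + 1) * (c' + 1) = m₀ * a₀ + m₀ * a₀ + a₀ + 2 * m₀ + 1 := by
      rw [hc']; ring
    have h5 : m₀ * (t + 1) = m₀ * a₀ + m₀ * (c' * e) + m₀ := by
      rw [ht]; ring
    omega
  obtain ⟨g, hg0, p₀, hp₀⟩ := Fintype.not_linearIndependent_iff.mp hnot
  -- the polynomial
  let F : Polynomial (Polynomial k) :=
    ∑ p : Fin (a₀ + 1) × Fin (c' + 1),
      Polynomial.monomial (p.1 : ℕ) (Polynomial.monomial (p.2 : ℕ) (g p))
  have hF0 : F ≠ 0 := by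
    intro h0
    apply hp₀
    have h1 : (F.coeff (p₀.1 : ℕ)).coeff (p₀.2 : ℕ) = g p₀ := by
      simp only [F, Polynomial.finsetSum_coeff]
      rw [Finset.sum_eq_single p₀]
      · rw [Polynomial.coeff_monomial, if_pos rfl, Polynomial.coeff_monomial, if_pos rfl]
      · intro p _ hne
        rw [Polynomial.coeff_monomial]
        split_ifs with h1
        · rw [Polynomial.coeff_monomial]
          split_ifs with h2
          · exact absurd (Prod.ext (Fin.ext h1) (Fin.ext h2)) hne
          · rfl
        · simp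
      · intro hmem; exact absurd (Finset.mem_univ _) hmem
    rw [← h1, h0]
    simp
  have hFdeg : F.natDegree ≤ a₀ := by
    apply Polynomial.natDegree_sum_le_of_forall_le
    intro p _
    refine (Polynomial.natDegree_monomial_le _).trans ?_
    have := p.1.isLt
    omega
  have hev : C6.ev L h F = 0 := by
    have hmul : algebraMap B K (Ideal.Quotient.mk r Q) ^ c' * C6.ev L h F = 0 := by
      have h1 : algebraMap B K (((∑ p, g p • w p : W) : B)) = 0 := by rw [hg0]; simp
      rw [← h1]
      simp only [F, map_sum, Submodule.coe_sum, Submodule.coe_smul, Finset.mul_sum]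
      apply Finset.sum_congr rfl
      intro p _
      have hsm : (algebraMap B K) (g p • (w p : B)) = g p • algebraMap B K (w p : B) :=
        map_smul (IsScalarTower.toAlgHom k B K) (g p) (w p : B)
      rw [hsm]
      have hevm : C6.ev L h (Polynomial.monomial (p.1 : ℕ) (Polynomial.monomial (p.2 : ℕ) (g p)))
          = (algebraMap k K (g p) * h ^ (p.2 : ℕ)) * L ^ (p.1 : ℕ) := by
        simp [C6.ev, Polynomial.aeval_monomial]
      rw [hevm]
      have hwp : algebraMap B K (w p : B) = L ^ (p.1 : ℕ)
          * algebraMap B K (Ideal.Quotient.mk r P) ^ (p.2 : ℕ)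
          * algebraMap B K (Ideal.Quotient.mk r Q) ^ (c' - (p.2 : ℕ)) := by
        simp only [w, map_mul, map_pow, hL]
      rw [hwp, Algebra.smul_def]
      have hple : (p.2 : ℕ) ≤ c' := by have := p.2.isLt; omega
      have hpow : algebraMap B K (Ideal.Quotient.mk r Q) ^ c' * h ^ (p.2 : ℕ)
          = algebraMap B K (Ideal.Quotient.mk r P) ^ (p.2 : ℕ)
            * algebraMap B K (Ideal.Quotient.mk r Q) ^ (c' - (p.2 : ℕ)) := by
        rw [hh]
        exact C6.pow_split hQK hple
      calc algebraMap B K (Ideal.Quotient.mk r Q) ^ c' *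
            (algebraMap k K (g p) * h ^ (p.2 : ℕ) * L ^ (p.1 : ℕ))
          = algebraMap k K (g p) * L ^ (p.1 : ℕ) *
            (algebraMap B K (Ideal.Quotient.mk r Q) ^ c' * h ^ (p.2 : ℕ)) := by ring
        _ = _ := by rw [hpow]; ring
    rcases mul_eq_zero.mp hmul with h1 | h1
    · exact absurd h1 (pow_ne_zero _ hQK)
    · exact h1
  obtain ⟨f, hf0, hf⟩ := C6.alg_of_rel L h D hDl hD a₀ hcast a₀ le_rfl F hF0 hFdeg hev
  have hint : IsIntegral k h := by
    rw [← isAlgebraic_iff_isIntegral]
    exact ⟨f, hf0, hf⟩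
  set μ := minpoly k h with hμ
  set m := μ.natDegree with hm
  set κ : k := eval x P / eval x Q with hκ
  -- homogenised minimal polynomial
  let H : MvPolynomial (Fin ν) k :=
    ∑ i ∈ Finset.range (m + 1), C (μ.coeff i) * P ^ i * Q ^ (m - i)
  have hHr : H ∈ r := by
    rw [← Ideal.Quotient.eq_zero_iff_mem]
    apply hinj
    rw [map_zero]
    have h1 : Polynomial.aeval h μ = 0 := minpoly.aeval k h
    rw [Polynomial.aeval_eq_sum_range] at h1
    have h2 : algebraMap B K (Ideal.Quotient.mk r H)
        = algebraMap B K (Ideal.Quotient.mk r Q) ^ m *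
          ∑ i ∈ Finset.range (m + 1), μ.coeff i • h ^ i := by
      simp only [H, map_sum, Finset.mul_sum, map_mul, map_pow]
      apply Finset.sum_congr rfl
      intro i hi
      rw [Finset.mem_range] at hi
      have hC : algebraMap B K (Ideal.Quotient.mk r (C (μ.coeff i))) = algebraMap k K (μ.coeff i) := by
        rw [IsScalarTower.algebraMap_apply k B K]
        rfl
      have hps := C6.pow_split (P := algebraMap B K (Ideal.Quotient.mk r P)) hQK
        (show i ≤ m by omega)
      rw [hC, Algebra.smul_def, hh]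
      calc algebraMap k K (μ.coeff i) * algebraMap B K (Ideal.Quotient.mk r P) ^ i *
            algebraMap B K (Ideal.Quotient.mk r Q) ^ (m - i)
          = algebraMap k K (μ.coeff i) * (algebraMap B K (Ideal.Quotient.mk r P) ^ i *
            algebraMap B K (Ideal.Quotient.mk r Q) ^ (m - i)) := by ring
        _ = _ := by rw [← hps]; ring
    rw [h2, hm, h1, mul_zero]
  have hroot : μ.IsRoot κ := by
    have h1 : eval x H = 0 := hx H hHr
    have h2 : eval x H = (eval x Q) ^ m * Polynomial.eval κ μ := by
      simp only [H, map_sum, map_mul, map_pow, eval_C]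
      rw [Polynomial.eval_eq_sum_range, Finset.mul_sum]
      apply Finset.sum_congr rfl
      intro i hi
      rw [Finset.mem_range] at hi
      have hps := C6.pow_split (P := eval x P) hQx (show i ≤ m by omega)
      rw [hκ]
      calc μ.coeff i * (eval x P) ^ i * (eval x Q) ^ (m - i)
          = μ.coeff i * ((eval x P) ^ i * (eval x Q) ^ (m - i)) := by ring
        _ = _ := by rw [← hps]; ring
    rw [h2] at h1
    rcases mul_eq_zero.mp h1 with h3 | h3
    · exact absurd h3 (pow_ne_zero _ hQx)
    · exact h3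
  have hval : algebraMap k K κ = h := minpoly.root hint hroot
  rw [← Ideal.Quotient.eq_zero_iff_mem]
  apply hinj
  rw [map_zero, map_sub, map_mul, map_sub, map_mul]
  have hC : algebraMap B K (Ideal.Quotient.mk r (C κ)) = algebraMap k K κ := by
    rw [IsScalarTower.algebraMap_apply k B K]
    rfl
  rw [hC, hval, hh, div_mul_cancel₀ _ hQK, sub_self]

end GZ
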