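import Pool.Agent.GZ.Rows

/-! # GZ, row D1: the trivial normalisation -/

namespace GZ

open MvPolynomial

universe u

theorem d1 : D1Stmt.{u} := by
  intro k _ n
  refine ⟨fun j => ?_, fun _ => 1, ?_, ?_⟩
  · rw [totalDegree_X]
  · intro t P hP
    refine ⟨fun _ => P, fun _ => hP, ?_⟩
    have h : aeval (X : Fin n → MvPolynomial (Fin n) k) P = P := by
      rw [aeval_X_left_apply]
    simp [h]
  · intro Q hQ i
    have h : aeval (X : Fin n → MvPolynomial (Fin n) k) (Q 0) = Q 0 := by
      rw [aeval_X_left_apply]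
    rw [Ideal.mem_bot] at hQ
    simp only [Fin.sum_univ_one, one_mul, h] at hQ
    rw [Subsingleton.elim i 0]
    exact hQ

end GZ
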