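import Pool.Agent.GZ.Rows

/-! # GZ, row D2: one step down in the normalisation -/

namespace GZ

open MvPolynomial

universe u

namespace D2

variable {k : Type u} [Field k]

/-- substitutions of degree at most one do not increase the total degree -/
theorem totalDegree_aeval_le {σ τ : Type*} (f : σ → MvPolynomial τ k)
    (hf : ∀ j, (f j).totalDegree ≤ 1) (Q : MvPolynomial σ k) :
    (aeval f Q).totalDegree ≤ Q.totalDegree := by
  rw [aeval_def, eval₂_eq]
  refine totalDegree_finsetSum_le fun α hα => ?_
  refine (totalDegree_mul _ _).trans ?_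
  rw [show (algebraMap k (MvPolynomial τ k)) (coeff α Q) = C (coeff α Q) from rfl,
    totalDegree_C, zero_add]
  refine (totalDegree_finsetProd _ _).trans ?_
  refine le_trans (Finset.sum_le_sum fun i _ => (totalDegree_pow _ _).trans
    (Nat.mul_le_mul_left (α i) (hf i))) ?_
  simp only [mul_one]
  exact le_totalDegree hα

section shift

variable {ν : ℕ}

/-- the linear change of coordinates -/
noncomputable def sh (s : Fin ν → k) :
    MvPolynomial (Fin (ν + 1)) k →ₐ[k] MvPolynomial (Fin (ν + 1)) k :=
  aeval (Fin.cons (X 0) (fun j => X j.succ + C (s j) * X 0))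

theorem sh_X0 (s : Fin ν → k) : sh s (X 0) = X 0 := by
  simp [sh]

theorem sh_Xs (s : Fin ν → k) (j : Fin ν) : sh s (X j.succ) = X j.succ + C (s j) * X 0 := by
  simp [sh]

theorem sh_C (s : Fin ν → k) (c : k) : sh s (C c) = C c := by
  simp [sh]

theorem sh_neg (s : Fin ν → k) (Q : MvPolynomial (Fin (ν + 1)) k) : sh s (sh (-s) Q) = Q := by
  have h : (sh s).comp (sh (-s)) = AlgHom.id k _ := by
    refine MvPolynomial.algHom_ext fun i => ?_
    refine Fin.cases ?_ (fun j => ?_) i
    · simp [sh_X0]
    · rw [AlgHom.comp_apply, sh_Xs, map_add, map_mul, sh_Xs, sh_X0, sh_C]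
      simp
  exact AlgHom.congr_fun h Q

theorem totalDegree_sh_le (s : Fin ν → k) (Q : MvPolynomial (Fin (ν + 1)) k) :
    (sh s Q).totalDegree ≤ Q.totalDegree := by
  refine totalDegree_aeval_le _ (fun j => ?_) Q
  refine Fin.cases ?_ (fun j => ?_) j
  · rw [Fin.cons_zero, totalDegree_X]
  · rw [Fin.cons_succ]
    refine (totalDegree_add _ _).trans (max_le (by rw [totalDegree_X]) ?_)
    refine (totalDegree_mul _ _).trans ?_
    rw [totalDegree_C, totalDegree_X]

/-- evaluation of a polynomial in `Z` over `k[Y']` -/
noncomputable def Th {n : ℕ} (y0 : MvPolynomial (Fin n) k) (y' : Fin ν → MvPolynomial (Fin n) k) :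
    Polynomial (MvPolynomial (Fin ν) k) →+* MvPolynomial (Fin n) k :=
  Polynomial.eval₂RingHom (aeval y').toRingHom y0

theorem Th_eq {n : ℕ} (s : Fin ν → k) (y : Fin (ν + 1) → MvPolynomial (Fin n) k)
    (Q : MvPolynomial (Fin (ν + 1)) k) :
    Th (y 0) (fun j => y j.succ - C (s j) * y 0) (finSuccEquiv k ν (sh s Q)) = aeval y Q := by
  have h : ((Th (y 0) (fun j => y j.succ - C (s j) * y 0)).comp
      ((finSuccEquiv k ν : MvPolynomial (Fin (ν + 1)) k →+* _).comp
        (sh s : MvPolynomial (Fin (ν + 1)) k →+* MvPolynomial (Fin (ν + 1)) k))) =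
      ((aeval y : MvPolynomial (Fin (ν + 1)) k →ₐ[k] MvPolynomial (Fin n) k) :
        MvPolynomial (Fin (ν + 1)) k →+* MvPolynomial (Fin n) k) := by
    refine MvPolynomial.ringHom_ext (fun c => ?_) (fun i => ?_)
    · simp [Th, finSuccEquiv_apply]
    · refine Fin.cases ?_ (fun j => ?_) i
      · simp [sh_X0, Th, finSuccEquiv_apply]
      · simp [sh_Xs, Th, finSuccEquiv_apply]
  exact RingHom.congr_fun h Q

theorem Th_sum {n : ℕ} (y0 : MvPolynomial (Fin n) k) (y' : Fin ν → MvPolynomial (Fin n) k)
    (p : Polynomial (MvPolynomial (Fin ν) k)) (e : ℕ) (h : p.degree < e) :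
    Th y0 y' p = ∑ a : Fin e, y0 ^ (a : ℕ) * aeval y' (p.coeff a) := by
  by_cases hp : p = 0
  · subst hp
    simp
  · show Polynomial.eval₂ _ _ _ = _
    rw [Polynomial.eval₂_eq_sum_range' _ ((Polynomial.natDegree_lt_iff_degree_lt hp).mpr h),
      Finset.sum_range]
    refine Finset.sum_congr rfl fun a _ => ?_
    rw [mul_comm]
    rfl

/-- restriction to the line through the origin with direction `(1, s)` -/
theorem line_eq (s : Fin ν → k) (G : MvPolynomial (Fin (ν + 1)) k) :
    Polynomial.map (eval (0 : Fin ν → k)) (finSuccEquiv k ν (sh s G)) =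
      aeval (fun i => Polynomial.C ((Fin.cons 1 s : Fin (ν + 1) → k) i) * Polynomial.X) G := by
  have h : ((Polynomial.mapRingHom (eval (0 : Fin ν → k))).comp
      ((finSuccEquiv k ν : MvPolynomial (Fin (ν + 1)) k →+* _).comp
        (sh s : MvPolynomial (Fin (ν + 1)) k →+* MvPolynomial (Fin (ν + 1)) k))) =
      ((aeval (fun i => Polynomial.C ((Fin.cons 1 s : Fin (ν + 1) → k) i) * Polynomial.X) :
        MvPolynomial (Fin (ν + 1)) k →ₐ[k] Polynomial k) :
        MvPolynomial (Fin (ν + 1)) k →+* Polynomial k) := by
    refine MvPolynomial.ringHom_ext (fun c => ?_) (fun i => ?_)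
    · simp [finSuccEquiv_apply]
    · refine Fin.cases ?_ (fun j => ?_) i
      · simp [sh_X0, finSuccEquiv_apply]
      · simp [sh_Xs, finSuccEquiv_apply]
  exact RingHom.congr_fun h G

theorem line_coeff (c : Fin (ν + 1) → k) (G : MvPolynomial (Fin (ν + 1)) k) (e : ℕ) :
    (aeval (fun i => Polynomial.C (c i) * Polynomial.X) G : Polynomial k).coeff e =
      eval c (homogeneousComponent e G) := by
  induction G using MvPolynomial.induction_on' with
  | monomial α a =>
    rw [aeval_monomial]
    have h1 : (α.prod fun i n => (Polynomial.C (c i) * Polynomial.X : Polynomial k) ^ n) =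
        Polynomial.C (α.prod fun i n => c i ^ n) * Polynomial.X ^ α.degree := by
      rw [Finsupp.prod_fintype _ _ (fun i => pow_zero _), Finsupp.prod_fintype _ _ (fun i => pow_zero _),
        Finsupp.degree_eq_sum, map_prod, ← Finset.prod_pow_eq_pow_sum, ← Finset.prod_mul_distrib]
      refine Finset.prod_congr rfl fun i _ => ?_
      rw [mul_pow, map_pow]
    rw [h1]
    have h2 : homogeneousComponent e (monomial α a) =
        if α.degree = e then monomial α a else 0 := by
      ext β
      rw [coeff_homogeneousComponent]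
      by_cases h3 : α.degree = e
      · rw [if_pos h3, coeff_monomial]
        by_cases h4 : α = β
        · subst h4
          rw [if_pos h3, if_pos rfl]
        · rw [if_neg h4, ite_self]
      · rw [if_neg h3, coeff_zero, coeff_monomial]
        by_cases h4 : α = β
        · subst h4
          rw [if_neg h3]
        · rw [if_neg h4, ite_self]
    rw [h2]
    show (Polynomial.C a * (Polynomial.C (α.prod fun i n => c i ^ n) *
      Polynomial.X ^ α.degree)).coeff e = _
    rw [Polynomial.coeff_C_mul, Polynomial.coeff_C_mul, Polynomial.coeff_X_pow]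
    by_cases h3 : α.degree = e
    · rw [if_pos h3, if_pos h3.symm, eval_monomial]
      ring
    · rw [if_neg h3, if_neg (Ne.symm h3)]
      simp
  | add p q hp hq =>
    rw [map_add, Polynomial.coeff_add, hp, hq, map_add, map_add]

/-- a direction in which the top form does not vanish -/
theorem exists_dir (G : MvPolynomial (Fin (ν + 1)) k) (hG : G ≠ 0)
    (hk : Infinite k ∨ ∃ S : Finset k, G.totalDegree < S.card) :
    ∃ s : Fin ν → k,
      eval (Fin.cons 1 s : Fin (ν + 1) → k) (homogeneousComponent G.totalDegree G) ≠ 0 := by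
  classical
  set e := G.totalDegree with he
  obtain ⟨S, hS⟩ : ∃ S : Finset k, e < S.card := by
    rcases hk with hk | hk
    · obtain ⟨S, hS⟩ := Infinite.exists_subset_card_eq k (e + 1)
      exact ⟨S, by omega⟩
    · exact hk
  set H := homogeneousComponent e G with hH
  -- a monomial of degree `e`
  obtain ⟨α, hα, hαe⟩ : ∃ α ∈ G.support, α.degree = e := by
    obtain ⟨α, h1, h2⟩ := Finset.exists_mem_eq_sup G.support (support_nonempty.mpr hG)
      (fun s => s.sum fun _ e => e)
    exact ⟨α, h1, h2.symm⟩
  have hαH : coeff α H ≠ 0 := by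
    rw [hH, coeff_homogeneousComponent, if_pos hαe]
    exact mem_support_iff.mp hα
  have hHd : ∀ β, coeff β H ≠ 0 → β.degree = e := by
    intro β hβ
    rw [hH, coeff_homogeneousComponent] at hβ
    by_contra h
    rw [if_neg h] at hβ
    exact hβ rfl
  have hHt : H.totalDegree ≤ e := by
    refine Finset.sup_le fun β hβ => ?_
    exact (hHd β (mem_support_iff.mp hβ)).le
  set p := finSuccEquiv k ν H with hp
  set D := p.eval 1 with hD
  have hDt : D.totalDegree ≤ e := by
    rw [hD, Polynomial.eval_eq_sum, Polynomial.sum]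
    refine totalDegree_finsetSum_le fun i hi => ?_
    rw [one_pow, mul_one]
    have h1 : (p.coeff i).totalDegree + i ≤ H.totalDegree :=
      totalDegree_coeff_finSuccEquiv_add_le H i (Polynomial.mem_support_iff.mp hi)
    omega
  have hD0 : D ≠ 0 := by
    have h1 : coeff (Finsupp.tail α) D = coeff α H := by
      rw [hD, Polynomial.eval_eq_sum, Polynomial.sum, coeff_sum, Finset.sum_eq_single (α 0)]
      · rw [one_pow, mul_one, finSuccEquiv_coeff_coeff, Finsupp.cons_tail]
      · intro i hi hne
        rw [one_pow, mul_one, finSuccEquiv_coeff_coeff]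
        by_contra h2
        have h3 := hHd _ h2
        apply hne
        have h4 : (Finsupp.cons i (Finsupp.tail α)).degree = i + (Finsupp.tail α).degree := by
          rw [Finsupp.degree_eq_sum, Finsupp.degree_eq_sum, Fin.sum_univ_succ]
          simp
        have h5 : α.degree = α 0 + (Finsupp.tail α).degree := by
          rw [Finsupp.degree_eq_sum, Finsupp.degree_eq_sum, Fin.sum_univ_succ]
          simp [Finsupp.tail_apply]
        omega
      · intro h2
        rw [one_pow, mul_one, Polynomial.notMem_support_iff.mp h2, coeff_zero]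
    intro h2
    rw [h2, coeff_zero] at h1
    exact hαH h1.symm
  by_contra hcon
  push Not at hcon
  refine hD0 (eq_zero_of_eval_zero_at_prod_finset D (fun _ => S) (fun i => ?_) fun x _ => ?_)
  · exact lt_of_le_of_lt ((degreeOf_le_totalDegree D i).trans hDt) hS
  · have h1 := hcon x
    rw [eval_eq_eval_mv_eval', ← hp, Polynomial.eval_map] at h1
    rw [hD, ← Polynomial.eval₂_id, Polynomial.hom_eval₂, RingHom.comp_id, map_one]
    exact h1

end shift

section division

variable {ν : ℕ}

/-- total degree of a polynomial in `Z` over `k[Y']` -/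
def TD (t : ℕ) (p : Polynomial (MvPolynomial (Fin ν) k)) : Prop :=
  ∀ a, p.coeff a = 0 ∨ (p.coeff a).totalDegree + a ≤ t

theorem TD.of {t : ℕ} {Q : MvPolynomial (Fin (ν + 1)) k} (h : Q.totalDegree ≤ t) :
    TD t (finSuccEquiv k ν Q) := by
  intro a
  by_cases h0 : (finSuccEquiv k ν Q).coeff a = 0
  · exact Or.inl h0
  · exact Or.inr ((totalDegree_coeff_finSuccEquiv_add_le Q a h0).trans h)

theorem TD.sub {t : ℕ} {p q : Polynomial (MvPolynomial (Fin ν) k)} (hp : TD t p) (hq : TD t q) :
    TD t (p - q) := by
  intro a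
  rw [Polynomial.coeff_sub]
  rcases hp a with h1 | h1 <;> rcases hq a with h2 | h2
  · left
    rw [h1, h2, sub_zero]
  · right
    rw [h1, zero_sub, totalDegree_neg]
    exact h2
  · right
    rw [h2, sub_zero]
    exact h1
  · right
    have := totalDegree_sub (p.coeff a) (q.coeff a)
    rcases max_cases (p.coeff a).totalDegree (q.coeff a).totalDegree with ⟨h3, -⟩ | ⟨h3, -⟩ <;>
      omega

theorem TD.mul {t : ℕ} {g : Polynomial (MvPolynomial (Fin ν) k)} (hg : TD g.natDegree g)
    (c : MvPolynomial (Fin ν) k) (n : ℕ) (hn : g.natDegree ≤ n) (hc : c.totalDegree + n ≤ t) :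
    TD t (g * (Polynomial.C c * Polynomial.X ^ (n - g.natDegree))) := by
  intro a
  rw [← mul_assoc, Polynomial.coeff_mul_X_pow']
  by_cases h : n - g.natDegree ≤ a
  · rw [if_pos h, Polynomial.coeff_mul_C]
    rcases hg (a - (n - g.natDegree)) with h1 | h1
    · left
      rw [h1, zero_mul]
    · right
      have := totalDegree_mul (g.coeff (a - (n - g.natDegree))) c
      omega
  · left
    rw [if_neg h]

theorem div_td {g : Polynomial (MvPolynomial (Fin ν) k)} (hg : g.Monic) (hgt : TD g.natDegree g)
    (t : ℕ) : ∀ m : ℕ, ∀ Q : Polynomial (MvPolynomial (Fin ν) k), Q.natDegree < m → TD t Q →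
      ∃ H R : Polynomial (MvPolynomial (Fin ν) k), Q = H * g + R ∧ R.degree < g.degree ∧ TD t R := by
  intro m
  induction m with
  | zero => intro Q hQ; omega
  | succ m ih =>
    intro Q hQ hQt
    by_cases hdeg : Q.degree < g.degree
    · exact ⟨0, Q, by simp, hdeg, hQt⟩
    · have hle : g.degree ≤ Q.degree := not_lt.mp hdeg
      have hQ0 : Q ≠ 0 := by
        intro h0
        rw [h0, Polynomial.degree_zero, le_bot_iff, Polynomial.degree_eq_bot] at hle
        exact hg.ne_zero hle
      have hnle : g.natDegree ≤ Q.natDegree := Polynomial.natDegree_le_natDegree hle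
      set Q' := Q - g * (Polynomial.C Q.leadingCoeff *
        Polynomial.X ^ (Q.natDegree - g.natDegree)) with hQ'
      have hlt : Q'.degree < Q.degree := Polynomial.div_wf_lemma ⟨hle, hQ0⟩ hg
      have hlc : Q.leadingCoeff.totalDegree + Q.natDegree ≤ t := by
        rcases hQt Q.natDegree with h1 | h1
        · exact absurd (Polynomial.leadingCoeff_eq_zero.mp h1) hQ0
        · exact h1
      have hQ't : TD t Q' := hQt.sub (TD.mul hgt _ _ hnle hlc)
      by_cases hz : Q' = 0
      · refine ⟨Polynomial.C Q.leadingCoeff * Polynomial.X ^ (Q.natDegree - g.natDegree), 0, ?_, ?_, ?_⟩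
        · rw [add_zero, mul_comm]
          exact sub_eq_zero.mp hz
        · rw [Polynomial.degree_zero, bot_lt_iff_ne_bot, Ne, Polynomial.degree_eq_bot]
          exact hg.ne_zero
        · intro a
          left
          rw [Polynomial.coeff_zero]
      · obtain ⟨H, R, h1, h2, h3⟩ := ih Q' (by
          have := Polynomial.natDegree_lt_natDegree hz hlt
          omega) hQ't
        refine ⟨Polynomial.C Q.leadingCoeff * Polynomial.X ^ (Q.natDegree - g.natDegree) + H, R,
          ?_, h2, h3⟩
        calc Q = Q' + g * (Polynomial.C Q.leadingCoeff *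
            Polynomial.X ^ (Q.natDegree - g.natDegree)) := by rw [hQ']; ring
          _ = _ := by rw [h1]; ring

end division


end D2

open D2 in
theorem d2 : D2Stmt.{u} := by
  classical
  intro k _ n ν N e J y hND G hG hGe hk
  obtain ⟨hy, b, hspan, hind⟩ := hND
  by_cases he : G.totalDegree = 0
  · have hGC : G = C (coeff 0 G) := totalDegree_eq_zero_iff_eq_C.mp he
    have hc : coeff 0 G ≠ 0 := by
      intro h
      rw [h, C_0] at hGC
      exact hG hGC
    have htop : J ⊔ Ideal.span {aeval y G} = ⊤ := by
      rw [Ideal.eq_top_iff_one]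
      have h1 : (C (coeff 0 G)⁻¹ : MvPolynomial (Fin n) k) * aeval y G = 1 := by
        rw [hGC, aeval_C, coeff_C, if_pos rfl,
          show (algebraMap k (MvPolynomial (Fin n) k)) (coeff 0 G) = C (coeff 0 G) from rfl,
          ← C_mul, inv_mul_cancel₀ hc, C_1]
      rw [← h1]
      exact Ideal.mul_mem_left _ _ (Ideal.mem_sup_right (Ideal.mem_span_singleton_self _))
    refine ⟨0, fun _ => 0, Nat.zero_le _, fun j => by simp, Fin.elim0, fun t P hP =>
      ⟨Fin.elim0, fun i => i.elim0, ?_⟩, fun Q hQ i => i.elim0⟩
    rw [htop]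
    exact Submodule.mem_top
  · set e' := G.totalDegree with he'
    obtain ⟨s, hs⟩ := exists_dir G hG (hk.imp id fun ⟨S, hS⟩ => ⟨S, lt_of_le_of_lt hGe hS⟩)
    set y' : Fin ν → MvPolynomial (Fin n) k := fun j => y j.succ - C (s j) * y 0 with hy'
    set g0 := finSuccEquiv k ν (sh s G) with hg0
    have hg0t : TD e' g0 := TD.of (totalDegree_sh_le s G)
    have hcoef : eval (0 : Fin ν → k) (g0.coeff e') =
        eval (Fin.cons 1 s : Fin (ν + 1) → k) (homogeneousComponent e' G) := by
      rw [← coeff_eval_eq_eval_coeff, hg0, line_eq, line_coeff]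
    have hcne : g0.coeff e' ≠ 0 := by
      intro h
      rw [h, map_zero] at hcoef
      exact hs hcoef.symm
    have hconst : (g0.coeff e').totalDegree = 0 := by
      rcases hg0t e' with h | h
      · exact absurd h hcne
      · omega
    obtain ⟨c0, hc0⟩ : ∃ c0 : k, g0.coeff e' = C c0 := ⟨_, totalDegree_eq_zero_iff_eq_C.mp hconst⟩
    have hc0ne : c0 ≠ 0 := by
      intro h
      rw [h, C_0] at hc0
      exact hcne hc0
    have hdeg : g0.natDegree = e' := by
      refine le_antisymm ?_ (Polynomial.le_natDegree_of_ne_zero hcne)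
      rw [Polynomial.natDegree_le_iff_coeff_eq_zero]
      intro a ha
      rcases hg0t a with h | h
      · exact h
      · omega
    have hg0ne : g0 ≠ 0 := by
      intro h
      rw [h, Polynomial.coeff_zero] at hcne
      exact hcne rfl
    have hdeg' : g0.degree = e' := by
      rw [Polynomial.degree_eq_natDegree hg0ne, hdeg]
    set g := Polynomial.C (C c0⁻¹) * g0 with hg
    have hCne : (C c0⁻¹ : MvPolynomial (Fin ν) k) ≠ 0 := by
      rw [Ne, C_eq_zero]
      exact inv_ne_zero hc0ne
    have hgdeg : g.degree = e' := by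
      rw [hg, Polynomial.degree_mul, Polynomial.degree_C hCne, zero_add, hdeg']
    have hgnat : g.natDegree = e' := Polynomial.natDegree_eq_of_degree_eq_some hgdeg
    have hmonic : g.Monic := by
      show g.leadingCoeff = 1
      rw [Polynomial.leadingCoeff, hgnat, hg, Polynomial.coeff_C_mul, hc0, ← C_mul,
        inv_mul_cancel₀ hc0ne, C_1]
    have hgt : TD g.natDegree g := by
      rw [hgnat]
      intro a
      rw [hg, Polynomial.coeff_C_mul]
      rcases hg0t a with h | h
      · left
        rw [h, mul_zero]
      · right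
        have := totalDegree_mul (C c0⁻¹) (g0.coeff a)
        rw [totalDegree_C, zero_add] at this
        omega
    -- the evaluation
    have hTh : ∀ Q : MvPolynomial (Fin (ν + 1)) k,
        Th (y 0) y' (finSuccEquiv k ν (sh s Q)) = aeval y Q := fun Q => Th_eq s y Q
    have hThg : Th (y 0) y' g0 = aeval y G := hTh G
    -- the new basis
    let b' : Fin (N * e') → MvPolynomial (Fin n) k := fun x =>
      b (finProdFinEquiv.symm x).1 * y 0 ^ ((finProdFinEquiv.symm x).2 : ℕ)
    have hsum : ∀ q : Fin N → Fin e' → MvPolynomial (Fin ν) k,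
        ∑ x, b' x * aeval y' (q (finProdFinEquiv.symm x).1 (finProdFinEquiv.symm x).2) =
          ∑ i, b i * ∑ a : Fin e', y 0 ^ (a : ℕ) * aeval y' (q i a) := by
      intro q
      rw [Equiv.sum_comp finProdFinEquiv.symm (fun p : Fin N × Fin e' =>
        b p.1 * y 0 ^ (p.2 : ℕ) * aeval y' (q p.1 p.2)), Fintype.sum_prod_type]
      refine Finset.sum_congr rfl fun i _ => ?_
      rw [Finset.mul_sum]
      refine Finset.sum_congr rfl fun a _ => ?_
      rw [mul_assoc]
    refine ⟨N * e', y', Nat.mul_le_mul_left N hGe, ?_, b', ?_, ?_⟩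
    · intro j
      refine (totalDegree_sub _ _).trans (max_le (hy _) ?_)
      refine (totalDegree_mul _ _).trans ?_
      rw [totalDegree_C, zero_add]
      exact hy _
    · intro t P hP
      obtain ⟨Q, hQt, hQ⟩ := hspan t P hP
      have hdiv : ∀ i, ∃ H R : Polynomial (MvPolynomial (Fin ν) k),
          finSuccEquiv k ν (sh s (Q i)) = H * g + R ∧ R.degree < g.degree ∧ TD t R := fun i =>
        div_td hmonic hgt t _ _ (Nat.lt_succ_self _)
          (TD.of ((totalDegree_sh_le s (Q i)).trans (hQt i)))
      choose H R hH hR hRt using hdiv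
      refine ⟨fun x => (R (finProdFinEquiv.symm x).1).coeff (finProdFinEquiv.symm x).2,
        fun x => ?_, ?_⟩
      · rcases hRt (finProdFinEquiv.symm x).1 (finProdFinEquiv.symm x).2 with h | h
        · show ((R (finProdFinEquiv.symm x).1).coeff (finProdFinEquiv.symm x).2).totalDegree ≤ t
          rw [h, totalDegree_zero]
          exact Nat.zero_le t
        · show ((R (finProdFinEquiv.symm x).1).coeff (finProdFinEquiv.symm x).2).totalDegree ≤ t
          omega
      · rw [hsum fun i a => (R i).coeff a]
        have h1 : ∀ i, ∑ a : Fin e', y 0 ^ (a : ℕ) * aeval y' ((R i).coeff a) =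
            Th (y 0) y' (R i) := fun i => (Th_sum (y 0) y' (R i) e' (by
              have := hR i
              rwa [hgdeg] at this)).symm
        simp only [h1]
        have h2 : P - ∑ i, b i * Th (y 0) y' (R i) = (P - ∑ i, b i * aeval y (Q i)) +
            ∑ i, b i * (Th (y 0) y' (H i) * (C c0⁻¹ * aeval y G)) := by
          have h3 : ∀ i, aeval y (Q i) = Th (y 0) y' (H i) * (C c0⁻¹ * aeval y G) +
              Th (y 0) y' (R i) := by
            intro i
            rw [← hTh (Q i), hH i, map_add, map_mul, hg, map_mul, hThg]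
            congr 3
            show Polynomial.eval₂ _ _ _ = _
            rw [Polynomial.eval₂_C]
            simp
          simp only [h3, mul_add, Finset.sum_add_distrib]
          ring
        rw [h2]
        refine Ideal.add_mem _ (Ideal.mem_sup_left hQ) (Ideal.mem_sup_right ?_)
        refine Ideal.sum_mem _ fun i _ => ?_
        refine Ideal.mul_mem_left _ _ (Ideal.mul_mem_left _ _ (Ideal.mul_mem_left _ _ ?_))
        exact Ideal.mem_span_singleton_self _
    · intro Q hQ
      let p : Fin N → Polynomial (MvPolynomial (Fin ν) k) := fun i =>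
        ∑ a : Fin e', Polynomial.monomial (a : ℕ) (Q (finProdFinEquiv (i, a)))
      have hpc : ∀ i (a : Fin e'), (p i).coeff a = Q (finProdFinEquiv (i, a)) := by
        intro i a
        simp only [p, Polynomial.finsetSum_coeff, Polynomial.coeff_monomial]
        rw [Finset.sum_eq_single a]
        · rw [if_pos rfl]
        · intro a' _ hne
          rw [if_neg fun h => hne (Fin.ext h)]
        · intro h
          exact absurd (Finset.mem_univ a) h
      have hpd : ∀ i, (p i).degree < e' := by
        intro i
        refine lt_of_le_of_lt (Polynomial.degree_sum_le _ _)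
          ((Finset.sup_lt_iff (WithBot.bot_lt_coe e')).mpr fun a _ => ?_)
        exact lt_of_le_of_lt (Polynomial.degree_monomial_le _ _) (WithBot.coe_lt_coe.mpr a.2)
      have hQ' : ∑ i, b i * Th (y 0) y' (p i) ∈ J ⊔ Ideal.span {aeval y G} := by
        have h1 := hsum fun i a => Q (finProdFinEquiv (i, a))
        simp only [Prod.mk.eta, Equiv.apply_symm_apply] at h1
        rw [h1] at hQ
        have h2 : ∀ i, Th (y 0) y' (p i) =
            ∑ a : Fin e', y 0 ^ (a : ℕ) * aeval y' (Q (finProdFinEquiv (i, a))) := by
          intro i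
          rw [Th_sum (y 0) y' (p i) e' (hpd i)]
          exact Finset.sum_congr rfl fun a _ => by rw [hpc]
        simp only [h2]
        exact hQ
      obtain ⟨j, hj, z, hz, hjz⟩ := Submodule.mem_sup.mp hQ'
      obtain ⟨F, rfl⟩ := Ideal.mem_span_singleton'.mp hz
      obtain ⟨H, -, hH⟩ := hspan F.totalDegree F le_rfl
      -- preimages
      have hpre : ∀ i, ∃ Pi : MvPolynomial (Fin (ν + 1)) k, finSuccEquiv k ν (sh s Pi) = p i := by
        intro i
        refine ⟨sh (-s) ((finSuccEquiv k ν).symm (p i)), ?_⟩
        rw [sh_neg, AlgEquiv.apply_symm_apply]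
      choose Pi hPi using hpre
      have hmem : ∑ i, b i * aeval y (Pi i - H i * G) ∈ J := by
        have h1 : ∑ i, b i * aeval y (Pi i - H i * G) = j +
            (F - ∑ i, b i * aeval y (H i)) * aeval y G := by
          have h2 : ∀ i, aeval y (Pi i - H i * G) =
              Th (y 0) y' (p i) - aeval y (H i) * aeval y G := by
            intro i
            rw [map_sub, map_mul, ← hTh (Pi i), hPi]
          simp only [h2, mul_sub, Finset.sum_sub_distrib]
          rw [← hjz, sub_mul, Finset.sum_mul]
          simp only [mul_assoc]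
          ring
        rw [h1]
        exact Ideal.add_mem _ hj (Ideal.mul_mem_right _ _ hH)
      have h0 := hind _ hmem
      have hp0 : ∀ i, p i = 0 := by
        intro i
        have h1 : Pi i = H i * G := sub_eq_zero.mp (h0 i)
        have h2 : p i = finSuccEquiv k ν (sh s (H i)) * g0 := by
          rw [← hPi, h1, map_mul, map_mul]
        by_contra hne
        have h3 : finSuccEquiv k ν (sh s (H i)) ≠ 0 := by
          intro h
          rw [h, zero_mul] at h2
          exact hne h2
        have h4 := hpd i
        rw [h2, Polynomial.degree_mul, hdeg', Polynomial.degree_eq_natDegree h3] at h4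
        have h5 : (finSuccEquiv k ν (sh s (H i))).natDegree + e' < e' := by exact_mod_cast h4
        omega
      intro x
      have h1 := hpc (finProdFinEquiv.symm x).1 (finProdFinEquiv.symm x).2
      rw [hp0, Polynomial.coeff_zero, Prod.mk.eta, Equiv.apply_symm_apply] at h1
      exact h1.symm

end GZ
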