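import Pool.Agent.GZ.Rows

/-! # GZ row D3: minimal primes of a normalised ideal. -/

namespace GZ

open MvPolynomial Filter

universe u

namespace D3

/-! ### counting monomials -/

theorem sum_multichoose (ν t : ℕ) :
    ∑ j ∈ Finset.range (t + 1), ν.multichoose j = (ν + 1).multichoose t := by
  induction t with
  | zero => simp
  | succ t ih =>
    rw [Finset.sum_range_succ, ih, Nat.multichoose_succ_succ, add_comm]

theorem card_le (ν t : ℕ) :
    Nat.card {s : Fin ν →₀ ℕ | (s.sum fun _ e => e) ≤ t} = (t + ν).choose ν := by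
  classical
  have h1 : {s : Fin ν →₀ ℕ | (s.sum fun _ e => e) ≤ t} =
      ((Finset.range (t + 1)).biUnion (fun j => (Finset.univ : Finset (Fin ν)).finsuppAntidiag j) :
        Finset (Fin ν →₀ ℕ)) := by
    ext s
    simp only [Set.mem_setOf_eq, Finset.coe_biUnion, Set.mem_iUnion, Finset.mem_coe,
      Finset.mem_finsuppAntidiag, Finset.mem_range]
    rw [Finsupp.sum_fintype _ _ (fun _ => rfl)]
    constructor
    · intro h
      exact ⟨∑ i, s i, by omega, rfl, Finset.subset_univ _⟩
    · rintro ⟨j, hj, h2, -⟩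
      have h3 : (Finset.univ.sum fun i => s i) = j := h2
      omega
  have h2 : Nat.card {s : Fin ν →₀ ℕ | (s.sum fun _ e => e) ≤ t} =
      ((Finset.range (t + 1)).biUnion (fun j => (Finset.univ : Finset (Fin ν)).finsuppAntidiag j) :
        Finset (Fin ν →₀ ℕ)).card := by
    rw [Nat.card_coe_set_eq, h1, Set.ncard_coe_finset]
  rw [h2, Finset.card_biUnion]
  · simp only [Finset.card_finsuppAntidiag_nat_eq_multichoose, Finset.card_univ, Fintype.card_fin]
    rw [sum_multichoose, Nat.multichoose_eq]
    have : ν + 1 + t - 1 = ν + t := by omega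
    rw [this, add_comm t ν]
    exact Nat.choose_symm_of_eq_add (by omega)
  · intro i _ j _ hij
    rw [Function.onFun, Finset.disjoint_left]
    intro s hs hs'
    rw [Finset.mem_finsuppAntidiag] at hs hs'
    exact hij (hs.1.symm.trans hs'.1)

theorem finrank_rtd (k : Type u) [Field k] (ν t : ℕ) :
    Module.finrank k (restrictTotalDegree (Fin ν) k t) = (t + ν).choose ν := by
  rw [← card_le]
  exact Module.finrank_eq_nat_card_basis (basisRestrictSupport k _)

/-! ### the intersection of a minimal prime with `k[y]` -/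

section Basic

variable {k : Type u} [Field k] {n ν N : ℕ} {J : Ideal (MvPolynomial (Fin n) k)}
  {y : Fin ν → MvPolynomial (Fin n) k}

theorem inter (hN : NormData J y N) {Z : Ideal (MvPolynomial (Fin n) k)}
    (hZ : Z ∈ J.minimalPrimes) {Q : MvPolynomial (Fin ν) k} (hQ : aeval y Q ∈ Z) : Q = 0 := by
  by_contra hQ0
  obtain ⟨-, b, hspan, hind⟩ := hN
  obtain ⟨r, hr, hQr⟩ := Ideal.exists_mul_mem_of_mem_minimalPrimes hZ hQ
  obtain ⟨R, -, hR⟩ := hspan r.totalDegree r le_rfl
  apply hr
  have h1 : ∑ i, b i * aeval y (R i * Q) ∈ J := by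
    have h2 : ∑ i, b i * aeval y (R i * Q) =
        aeval y Q * r - aeval y Q * (r - ∑ i, b i * aeval y (R i)) := by
      rw [mul_sub, sub_sub_cancel, Finset.mul_sum]
      apply Finset.sum_congr rfl
      intro i _
      rw [map_mul]
      ring
    rw [h2]
    exact J.sub_mem hQr (J.mul_mem_left _ hR)
  have h3 := hind _ h1
  have h4 : ∀ i, R i = 0 := fun i => (mul_eq_zero.1 (h3 i)).resolve_right hQ0
  simpa [h4] using hR

/-- the number of minimal primes is at most `N`. -/
theorem card_min (hN : NormData J y N) : J.minimalPrimes.encard ≤ (N : ℕ∞) := by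
  classical
  by_contra hcon
  rw [not_le] at hcon
  have h0 : ((N + 1 : ℕ) : ℕ∞) ≤ J.minimalPrimes.encard := by
    rw [Nat.cast_add, Nat.cast_one]
    exact Order.add_one_le_of_lt hcon
  obtain ⟨T, hT, hTc⟩ := Set.exists_subset_encard_eq h0
  have hTfin : T.Finite := Set.finite_of_encard_eq_coe hTc
  have hTcard : hTfin.toFinset.card = N + 1 := by
    have := hTfin.encard_eq_coe_toFinset_card
    rw [hTc] at this
    exact_mod_cast this.symm
  let Z : Fin (N + 1) → Ideal (MvPolynomial (Fin n) k) :=
    fun i => (hTfin.toFinset.equivFinOfCardEq hTcard).symm i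
  have hZinj : Function.Injective Z := by
    intro i j h
    exact (hTfin.toFinset.equivFinOfCardEq hTcard).symm.injective (Subtype.ext h)
  have hZmem : ∀ i, Z i ∈ J.minimalPrimes := by
    intro i
    apply hT
    have := ((hTfin.toFinset.equivFinOfCardEq hTcard).symm i).2
    rwa [Set.Finite.mem_toFinset] at this
  have hprime : ∀ i, (Z i).IsPrime := fun i => (hZmem i).1.1
  -- separating elements
  have hsep : ∀ i j, j ≠ i → ∃ a, a ∈ Z j ∧ a ∉ Z i := by
    intro i j hij
    have h1 : ¬ Z j ≤ Z i := by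
      intro h
      have := (hZmem i).2 (hZmem j).1 h
      exact hij (hZinj (le_antisymm h this))
    exact SetLike.not_le_iff_exists.1 h1
  choose a ha1 ha2 using hsep
  let e : Fin (N + 1) → MvPolynomial (Fin n) k :=
    fun i => ∏ j : {j : Fin (N + 1) // j ≠ i}, a i j.1 j.2
  have he1 : ∀ i j, j ≠ i → e i ∈ Z j := by
    intro i j hij
    exact Ideal.mem_of_dvd _ (Finset.dvd_prod_of_mem _ (Finset.mem_univ ⟨j, hij⟩)) (ha1 i j hij)
  have he2 : ∀ i, e i ∉ Z i := by
    intro i h
    haveI := hprime i
    rw [Ideal.IsPrime.prod_mem_iff] at h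
    obtain ⟨j, -, hj⟩ := h
    exact ha2 i j.1 j.2 hj
  have hN' := hN
  obtain ⟨-, b, hspan, hind⟩ := hN
  have hexp : ∀ i, ∃ Q : Fin N → MvPolynomial (Fin ν) k,
      e i - ∑ l, b l * aeval y (Q l) ∈ J := by
    intro i
    obtain ⟨Q, -, hQ⟩ := hspan (e i).totalDegree (e i) le_rfl
    exact ⟨Q, hQ⟩
  choose Q hQ using hexp
  -- a nontrivial relation
  let f : (Fin (N + 1) → MvPolynomial (Fin ν) k) →ₗ[MvPolynomial (Fin ν) k]
      (Fin N → MvPolynomial (Fin ν) k) :=
    { toFun := fun P l => ∑ i, P i * Q i l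
      map_add' := by
        intro P P'
        ext1 l
        simp [add_mul, Finset.sum_add_distrib]
      map_smul' := by
        intro c P
        ext1 l
        simp [Finset.mul_sum, mul_assoc] }
  have hfin : ¬ Function.Injective f := by
    intro h
    have := le_of_fin_injective (MvPolynomial (Fin ν) k) f h
    omega
  rw [injective_iff_map_eq_zero] at hfin
  push Not at hfin
  obtain ⟨P, hP, hP0⟩ := hfin
  apply hP0
  have hsum : ∑ i, aeval y (P i) * e i ∈ J := by
    have h1 : ∑ i, aeval y (P i) * e i =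
        ∑ i, aeval y (P i) * (e i - ∑ l, b l * aeval y (Q i l)) +
          ∑ l, b l * aeval y (∑ i, P i * Q i l) := by
      have h2 : ∑ l, b l * aeval y (∑ i, P i * Q i l) =
          ∑ i, aeval y (P i) * ∑ l, b l * aeval y (Q i l) := by
        simp only [map_sum, map_mul, Finset.mul_sum]
        rw [Finset.sum_comm]
        apply Finset.sum_congr rfl
        intro i _
        apply Finset.sum_congr rfl
        intro l _
        ring
      rw [h2, ← Finset.sum_add_distrib]
      apply Finset.sum_congr rfl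
      intro i _
      ring
    rw [h1]
    apply J.add_mem
    · exact J.sum_mem fun i _ => J.mul_mem_left _ (hQ i)
    · have h3 : ∀ l, ∑ i, P i * Q i l = 0 := fun l => congrFun hP l
      simp [h3]
  ext1 i
  have h4 : aeval y (P i) * e i ∈ Z i := by
    have h5 : ∑ j, aeval y (P j) * e j ∈ Z i := (hZmem i).1.2 hsum
    have h6 : aeval y (P i) * e i = ∑ j, aeval y (P j) * e j -
        ∑ j ∈ Finset.univ.erase i, aeval y (P j) * e j := by
      rw [← Finset.add_sum_erase _ _ (Finset.mem_univ i)]
      ring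
    rw [h6]
    apply (Z i).sub_mem h5
    apply (Z i).sum_mem
    intro j hj
    exact (Z i).mul_mem_left _ (he1 j i (Finset.ne_of_mem_erase hj).symm)
  have h7 := ((hprime i).mem_or_mem h4).resolve_right (he2 i)
  exact inter hN' (hZmem i) h7

end Basic

/-! ### extension of scalars -/

section Ext

variable {k K : Type u} [Field k] [Field K] [Algebra k K] {n ν : ℕ}

theorem map_aeval' (y : Fin ν → MvPolynomial (Fin n) k) (Q : MvPolynomial (Fin ν) k) :
    MvPolynomial.map (algebraMap k K) (aeval y Q) =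
      aeval (fun j => MvPolynomial.map (algebraMap k K) (y j))
        (MvPolynomial.map (algebraMap k K) Q) := by
  induction Q using MvPolynomial.induction_on with
  | C a => simp [algebraMap_eq]
  | add p q hp hq => rw [map_add, map_add, hp, hq, map_add, map_add]
  | mul_X p i hp =>
    rw [map_mul, map_mul, hp, map_mul, map_mul, aeval_X, map_X, aeval_X]

theorem exists_expand (G : MvPolynomial (Fin ν) K) :
    ∃ (N : ℕ) (e : Fin N → K) (r : Fin N → MvPolynomial (Fin ν) k), LinearIndependent k e ∧
      G = ∑ i, C (e i) * MvPolynomial.map (algebraMap k K) (r i) := by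
  classical
  let B := Module.Basis.ofVectorSpace k K
  let F : Finset (Module.Basis.ofVectorSpaceIndex k K) :=
    G.support.biUnion fun α => (B.repr (G.coeff α)).support
  let σ := F.equivFin
  refine ⟨F.card, fun i => B (σ.symm i), fun i => ∑ α ∈ G.support,
    monomial α (B.repr (G.coeff α) (σ.symm i)), ?_, ?_⟩
  · exact B.linearIndependent.comp (fun i => (σ.symm i : Module.Basis.ofVectorSpaceIndex k K))
      (fun i j h => σ.symm.injective (Subtype.ext h))
  · have h1 : ∀ α ∈ G.support, G.coeff α =
        ∑ i : Fin F.card, B (σ.symm i) * algebraMap k K (B.repr (G.coeff α) (σ.symm i)) := by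
      intro α hα
      have h2 : ∑ i : Fin F.card, B (σ.symm i) * algebraMap k K (B.repr (G.coeff α) (σ.symm i)) =
          ∑ x ∈ F, B x * algebraMap k K (B.repr (G.coeff α) x) := by
        rw [← Finset.sum_coe_sort F]
        exact Fintype.sum_equiv σ.symm _ _ (fun i => rfl)
      rw [h2]
      have h3 : G.coeff α = ∑ x ∈ (B.repr (G.coeff α)).support,
          B x * algebraMap k K (B.repr (G.coeff α) x) := by
        conv_lhs => rw [← B.linearCombination_repr (G.coeff α)]
        rw [Finsupp.linearCombination_apply, Finsupp.sum]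
        apply Finset.sum_congr rfl
        intro x _
        rw [Algebra.smul_def, mul_comm]
      refine h3.trans (Finset.sum_subset ?_ ?_)
      · intro x hx
        exact Finset.mem_biUnion.2 ⟨α, hα, hx⟩
      · intro x _ hx
        rw [Finsupp.notMem_support_iff.1 hx]
        simp
    conv_lhs => rw [G.as_sum]
    rw [Finset.sum_congr rfl fun α hα => by rw [h1 α hα]]
    simp only [map_sum, MvPolynomial.map_monomial, Finset.mul_sum, C_mul_monomial]
    rw [Finset.sum_comm]

end Ext

section Low

variable {k : Type u} [Field k] {n ν N : ℕ} {J : Ideal (MvPolynomial (Fin n) k)}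
  {y : Fin ν → MvPolynomial (Fin n) k}

theorem inter_geom (hG : GeoLinStmt.{u}) (hN : NormData J y N)
    {Z : Ideal (MvPolynomial (Fin n) k)}
    (hZ : Z ∈ J.minimalPrimes) {Q : MvPolynomial (Fin ν) (AlgebraicClosure k)}
    (hQ : aeval (fun j => MvPolynomial.map (algebraMap k (AlgebraicClosure k)) (y j)) Q ∈
      geomIdeal Z) : Q = 0 := by
  obtain ⟨m, hm⟩ := hQ
  rw [← map_pow] at hm
  obtain ⟨M, e, r, he, hr⟩ := exists_expand (k := k) (Q ^ m)
  rw [hr] at hm
  have h1 : ∑ i, C (e i) * MvPolynomial.map (algebraMap k (AlgebraicClosure k)) (aeval y (r i)) ∈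
      Z.map (MvPolynomial.map (algebraMap k (AlgebraicClosure k))) := by
    have h2 : ∑ i, C (e i) * MvPolynomial.map (algebraMap k (AlgebraicClosure k))
        (aeval y (r i)) = aeval (fun j => MvPolynomial.map (algebraMap k (AlgebraicClosure k))
          (y j)) (∑ i, C (e i) * MvPolynomial.map (algebraMap k (AlgebraicClosure k)) (r i)) := by
      rw [map_sum]
      apply Finset.sum_congr rfl
      intro i _
      rw [map_mul, map_aeval', aeval_C, algebraMap_eq]
    rw [h2]
    exact hm
  have h3 := hG k (AlgebraicClosure k) n Z M e he (fun i => aeval y (r i)) h1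
  have h4 : ∀ i, r i = 0 := fun i => inter hN hZ (h3 i)
  have h5 : Q ^ m = 0 := by rw [hr]; simp [h4]
  exact eq_zero_of_pow_eq_zero h5

end Low

/-! ### degrees -/

theorem deg_aeval {K : Type u} [Field K] {n ν : ℕ} (y : Fin ν → MvPolynomial (Fin n) K)
    (hy : ∀ j, (y j).totalDegree ≤ 1) (Q : MvPolynomial (Fin ν) K) :
    (aeval y Q).totalDegree ≤ Q.totalDegree := by
  classical
  rw [aeval_def, eval₂_eq']
  apply totalDegree_finsetSum_le
  intro d hd
  refine (totalDegree_mul _ _).trans ?_
  rw [algebraMap_eq, totalDegree_C, zero_add]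
  refine (totalDegree_finsetProd _ _).trans ?_
  have h1 : ∀ i ∈ (Finset.univ : Finset (Fin ν)), (y i ^ d i).totalDegree ≤ d i := by
    intro i _
    refine (totalDegree_pow _ _).trans ?_
    calc d i * (y i).totalDegree ≤ d i * 1 := Nat.mul_le_mul_left _ (hy i)
      _ = d i := mul_one _
  refine (Finset.sum_le_sum h1).trans ?_
  have h2 := le_totalDegree hd
  rwa [Finsupp.sum_fintype _ _ (fun _ => rfl)] at h2

theorem deg_map {k K : Type u} [Field k] [Field K] [Algebra k K] {n : ℕ}
    (p : MvPolynomial (Fin n) k) :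
    (MvPolynomial.map (algebraMap k K) p).totalDegree ≤ p.totalDegree :=
  Finset.sup_mono (support_map_subset _ _)

section Bounds

variable {k : Type u} [Field k] {n ν N : ℕ} {J : Ideal (MvPolynomial (Fin n) k)}
  {y : Fin ν → MvPolynomial (Fin n) k}

theorem low (hG : GeoLinStmt.{u}) (hN : NormData J y N)
    {Z : Ideal (MvPolynomial (Fin n) k)} (hZ : Z ∈ J.minimalPrimes) (t : ℕ) :
    (t + ν).choose ν ≤ hilb (geomIdeal Z) t := by
  let y' : Fin ν → MvPolynomial (Fin n) (AlgebraicClosure k) :=
    fun j => MvPolynomial.map (algebraMap k (AlgebraicClosure k)) (y j)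
  have hy' : ∀ j, (y' j).totalDegree ≤ 1 := fun j => (deg_map _).trans (hN.1 j)
  let L : restrictTotalDegree (Fin ν) (AlgebraicClosure k) t →ₗ[AlgebraicClosure k]
      (MvPolynomial (Fin n) (AlgebraicClosure k) ⧸ geomIdeal Z) :=
    (Ideal.Quotient.mkₐ (AlgebraicClosure k) (geomIdeal Z)).toLinearMap ∘ₗ
      (aeval y').toLinearMap ∘ₗ Submodule.subtype _
  have hL : Function.Injective L := by
    rw [injective_iff_map_eq_zero]
    intro Q hQ
    apply Subtype.ext
    exact inter_geom hG hN hZ (Ideal.Quotient.eq_zero_iff_mem.1 hQ)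
  have h1 : LinearMap.range L ≤ (restrictTotalDegree (Fin n) (AlgebraicClosure k) t).map
      (Ideal.Quotient.mkₐ (AlgebraicClosure k) (geomIdeal Z)).toLinearMap := by
    rintro x ⟨Q, rfl⟩
    refine ⟨aeval y' Q.1, ?_, rfl⟩
    exact (mem_restrictTotalDegree _ _ _).2 ((deg_aeval y' hy' Q.1).trans
      ((mem_restrictTotalDegree _ _ _).1 Q.2))
  rw [← finrank_rtd (AlgebraicClosure k), ← LinearMap.finrank_range_of_inj hL]
  exact Submodule.finrank_mono h1

theorem up (hN : NormData J y N)
    {Z : Ideal (MvPolynomial (Fin n) k)} (hZ : Z ∈ J.minimalPrimes) (t : ℕ) :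
    hilb (geomIdeal Z) t ≤ N * (t + ν).choose ν := by
  classical
  obtain ⟨hy, b, hspan, -⟩ := hN
  let y' : Fin ν → MvPolynomial (Fin n) (AlgebraicClosure k) :=
    fun j => MvPolynomial.map (algebraMap k (AlgebraicClosure k)) (y j)
  let b' : Fin N → MvPolynomial (Fin n) (AlgebraicClosure k) :=
    fun i => MvPolynomial.map (algebraMap k (AlgebraicClosure k)) (b i)
  let mk := (Ideal.Quotient.mkₐ (AlgebraicClosure k) (geomIdeal Z)).toLinearMap
  let L : (Fin N → restrictTotalDegree (Fin ν) (AlgebraicClosure k) t) →ₗ[AlgebraicClosure k]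
      (MvPolynomial (Fin n) (AlgebraicClosure k) ⧸ geomIdeal Z) :=
    mk ∘ₗ LinearMap.lsum (AlgebraicClosure k)
      (fun _ : Fin N => restrictTotalDegree (Fin ν) (AlgebraicClosure k) t) (AlgebraicClosure k)
      (fun i => LinearMap.mulLeft (AlgebraicClosure k) (b' i) ∘ₗ (aeval y').toLinearMap ∘ₗ
        Submodule.subtype _)
  have hL : ∀ Q, L Q = mk (∑ i, b' i * aeval y' (Q i).1) := by
    intro Q
    simp [L, LinearMap.lsum_apply]
  have hJ : ∀ P ∈ J, mk (MvPolynomial.map (algebraMap k (AlgebraicClosure k)) P) = 0 := by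
    intro P hP
    apply Ideal.Quotient.eq_zero_iff_mem.2
    exact Ideal.le_radical (Ideal.mem_map_of_mem _ (hZ.1.2 hP))
  have h1 : (restrictTotalDegree (Fin n) (AlgebraicClosure k) t).map mk ≤ LinearMap.range L := by
    rw [Submodule.map_le_iff_le_comap, restrictTotalDegree, restrictSupport_eq_span,
      Submodule.span_le]
    rintro _ ⟨α, hα, rfl⟩
    have h2 : (monomial α (1 : k)).totalDegree ≤ t := by
      rw [totalDegree_monomial _ one_ne_zero]
      exact hα
    obtain ⟨Q, hQd, hQ⟩ := hspan t (monomial α 1) h2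
    refine ⟨fun i => ⟨MvPolynomial.map (algebraMap k (AlgebraicClosure k)) (Q i),
      (mem_restrictTotalDegree _ _ _).2 ((deg_map _).trans (hQd i))⟩, ?_⟩
    rw [hL]
    have h3 := hJ _ hQ
    rw [map_sub, map_sub, sub_eq_zero, map_monomial, map_one] at h3
    rw [h3]
    have h4 : MvPolynomial.map (algebraMap k (AlgebraicClosure k)) (∑ i, b i * aeval y (Q i)) =
        ∑ i, b' i * aeval y' (MvPolynomial.map (algebraMap k (AlgebraicClosure k)) (Q i)) := by
      rw [map_sum]
      apply Finset.sum_congr rfl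
      intro i _
      rw [map_mul, map_aeval']
    rw [h4]
  haveI : Module.Finite (AlgebraicClosure k) (LinearMap.range L) := inferInstance
  refine (Submodule.finrank_mono h1).trans ?_
  refine (LinearMap.finrank_range_le L).trans ?_
  rw [Module.finrank_pi_fintype]
  simp [finrank_rtd]

end Bounds

theorem hasDimDeg (hG : GeoLinStmt.{u}) {k : Type u} [Field k] {n ν N : ℕ}
    {J : Ideal (MvPolynomial (Fin n) k)}
    {y : Fin ν → MvPolynomial (Fin n) k} (hN : NormData J y N)
    {Z : Ideal (MvPolynomial (Fin n) k)} (hZ : Z ∈ J.minimalPrimes) :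
    HasDimDeg (geomIdeal Z) ν N := by
  constructor
  · refine ⟨1 / (ν.factorial : ℝ), by positivity, Eventually.of_forall fun t => ?_⟩
    have h1 := low hG hN hZ t
    have h2 : t ^ ν ≤ ν.factorial * (t + ν).choose ν := by
      rw [← Nat.ascFactorial_eq_factorial_mul_choose]
      exact (Nat.pow_le_pow_left (Nat.le_succ t) ν).trans (Nat.pow_succ_le_ascFactorial _ _)
    have h3 : (t : ℝ) ^ ν ≤ (ν.factorial : ℝ) * (hilb (geomIdeal Z) t : ℝ) := by
      exact_mod_cast h2.trans (Nat.mul_le_mul_left _ h1)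
    rw [div_mul_eq_mul_div, one_mul, div_le_iff₀ (by positivity), mul_comm]
    exact h3
  · intro ε hε
    have h1 : Tendsto (fun t : ℕ => (N : ℝ) * (1 + (ν : ℝ) / (t : ℝ)) ^ ν) atTop
        (nhds ((N : ℝ) * (1 + 0) ^ ν)) := by
      apply Tendsto.const_mul
      apply Tendsto.pow
      apply Tendsto.const_add
      exact tendsto_const_div_atTop_nhds_zero_nat (ν : ℝ)
    rw [add_zero, one_pow, mul_one] at h1
    have h2 := h1.eventually (gt_mem_nhds (show (N : ℝ) < N + ε by linarith))
    filter_upwards [h2, eventually_gt_atTop 0] with t ht ht0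
    have h3 := up hN hZ t
    have h4 : ν.factorial * (t + ν).choose ν ≤ (t + ν) ^ ν := by
      rw [← Nat.ascFactorial_eq_factorial_mul_choose]
      exact Nat.ascFactorial_le_pow_add _ _
    have h5 : (ν.factorial : ℝ) * (hilb (geomIdeal Z) t : ℝ) ≤ (N : ℝ) * ((t : ℝ) + ν) ^ ν := by
      have h6 : ν.factorial * hilb (geomIdeal Z) t ≤ N * (t + ν) ^ ν := by
        calc ν.factorial * hilb (geomIdeal Z) t ≤ ν.factorial * (N * (t + ν).choose ν) :=
              Nat.mul_le_mul_left _ h3
          _ = N * (ν.factorial * (t + ν).choose ν) := by ring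
          _ ≤ N * (t + ν) ^ ν := Nat.mul_le_mul_left _ h4
      exact_mod_cast h6
    refine h5.trans ?_
    have ht1 : (0 : ℝ) < t := by exact_mod_cast ht0
    have h7 : ((t : ℝ) + ν) ^ ν = (1 + (ν : ℝ) / t) ^ ν * (t : ℝ) ^ ν := by
      rw [← mul_pow]
      congr 1
      field_simp
    rw [h7, ← mul_assoc]
    exact mul_le_mul_of_nonneg_right ht.le (by positivity)

end D3

theorem d3 (hG : GeoLinStmt.{u}) : D3Stmt.{u} := by
  intro k _ n ν N J y hN
  exact ⟨fun Z hZ => D3.hasDimDeg hG hN hZ, D3.card_min hN⟩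

end GZ
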