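import Pool.Agent.GZ.Rows

/-! # GZ row D4: a transcendental coordinate. -/

namespace GZ

open MvPolynomial

universe u

theorem d4 : D4Stmt.{u} := by
  intro k _ n ν N c J y hN q hq hJq
  by_contra hcon
  push Not at hcon
  choose P hP0 hPq using hcon
  haveI := hq.prime
  obtain ⟨-, b, hspan, -⟩ := hN
  let f : MvPolynomial (Fin n) k →ₐ[k] (MvPolynomial (Fin n) k ⧸ q) := Ideal.Quotient.mkₐ k q
  have hint : ∀ j, IsIntegral k (f (y j)) := by
    intro j
    have h1 : IsAlgebraic k (f (y j)) := by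
      refine ⟨P j, hP0 j, ?_⟩
      rw [Polynomial.aeval_algHom_apply]
      exact Ideal.Quotient.eq_zero_iff_mem.2 (hPq j)
    exact h1.isIntegral
  have hY : (Subalgebra.toSubmodule (Algebra.adjoin k (Set.range fun j => f (y j)))).FG := by
    apply fg_adjoin_of_finite (Set.finite_range _)
    rintro x ⟨j, rfl⟩
    exact hint j
  have htop : (⊤ : Submodule k (MvPolynomial (Fin n) k ⧸ q)) ≤
      ⨆ i : Fin N, (Subalgebra.toSubmodule (Algebra.adjoin k (Set.range fun j => f (y j)))).map
        (LinearMap.mulLeft k (f (b i))) := by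
    rintro x -
    obtain ⟨p, rfl⟩ := Ideal.Quotient.mk_surjective x
    obtain ⟨Q, -, hQ⟩ := hspan p.totalDegree p le_rfl
    have h1 : (Ideal.Quotient.mk q) p = ∑ i, f (b i) * f (aeval y (Q i)) := by
      have h2 : (Ideal.Quotient.mk q) (p - ∑ i, b i * aeval y (Q i)) = 0 :=
        Ideal.Quotient.eq_zero_iff_mem.2 (hJq hQ)
      rw [map_sub, sub_eq_zero] at h2
      rw [h2, map_sum]
      apply Finset.sum_congr rfl
      intro i _
      rw [map_mul]
      rfl
    rw [h1]
    apply Submodule.sum_mem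
    intro i _
    apply Submodule.mem_iSup_of_mem i
    refine ⟨f (aeval y (Q i)), ?_, rfl⟩
    have h3 : f (aeval y (Q i)) = aeval (fun j => f (y j)) (Q i) := by
      rw [MvPolynomial.comp_aeval_apply]
    rw [h3]
    exact Algebra.adjoin_range_eq_range_aeval k (fun j => f (y j)) ▸ ⟨Q i, rfl⟩
  have hfin : (⊤ : Submodule k (MvPolynomial (Fin n) k ⧸ q)).FG := by
    have h5 : (⨆ i : Fin N, (Subalgebra.toSubmodule (Algebra.adjoin k
        (Set.range fun j => f (y j)))).map (LinearMap.mulLeft k (f (b i)))).FG :=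
      Submodule.fg_iSup _ (fun i => hY.map _)
    rw [top_le_iff.1 htop] at h5
    exact h5
  haveI : Module.Finite k (MvPolynomial (Fin n) k ⧸ q) := ⟨hfin⟩
  obtain ⟨j, hj⟩ := hq.trans
  have h6 : IsIntegral k (f (X j)) := IsIntegral.of_finite k _
  obtain ⟨p, hp, hp2⟩ := h6
  apply hj p hp.ne_zero
  rw [← Polynomial.aeval_def, Polynomial.aeval_algHom_apply] at hp2
  exact Ideal.Quotient.eq_zero_iff_mem.1 hp2

end GZ
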