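import Pool.Agent.GZ.Rows

/-! # Row Final: the theorem for curves from the main theorem for good curves -/

set_option autoImplicit false

open Filter MvPolynomial

namespace GZ

universe u

/-- the smallest `M` with `L ≤ M ^ e` -/
theorem exists_scale (L e : ℕ) (hL : 1 ≤ L) (he : 1 ≤ e) : ∃ M : ℕ, 1 ≤ M ∧ L ≤ M ^ e ∧
    (M : ℝ) ≤ 2 * (L : ℝ) ^ (1 / (e : ℝ)) ∧ ∀ p : ℕ, L ≤ p ^ e → M ≤ p := by
  classical
  have hex : ∃ M : ℕ, L ≤ M ^ e := ⟨L, Nat.le_self_pow (by omega) L⟩
  have hM := Nat.find_spec hex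
  have hmin : ∀ p : ℕ, L ≤ p ^ e → Nat.find hex ≤ p := fun p hp => Nat.find_min' hex hp
  set M := Nat.find hex with hMdef
  have hM1 : 1 ≤ M := by
    by_contra h
    have h0 : M = 0 := by omega
    rw [h0, zero_pow (by omega)] at hM
    omega
  refine ⟨M, hM1, hM, ?_, hmin⟩
  have h1 : (M - 1) ^ e < L := by
    by_contra h
    have h2 := hmin (M - 1) (not_lt.mp h)
    omega
  have hLr : (1 : ℝ) ≤ (L : ℝ) ^ (1 / (e : ℝ)) :=
    Real.one_le_rpow (by exact_mod_cast hL) (by positivity)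
  have h2 : ((M - 1 : ℕ) : ℝ) ≤ (L : ℝ) ^ (1 / (e : ℝ)) := by
    rw [one_div, Real.le_rpow_inv_iff_of_pos (by positivity) (by positivity)
      (by exact_mod_cast (by omega : 0 < e)), Real.rpow_natCast]
    exact_mod_cast h1.le
  have h3 : (M : ℝ) = ((M - 1 : ℕ) : ℝ) + 1 := by
    rw [Nat.cast_sub hM1]
    simp
  rw [h3]
  linarith

theorem final (hMain : MainStmt.{u}) (hGood : GoodStmt.{u}) (hC5 : C5Stmt.{u}) :
    FinalStmt.{u} := by
  classical
  intro n d hn
  obtain ⟨C0, D, hM⟩ := hMain n (d ^ 2) hn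
  obtain ⟨C5, h5⟩ := hC5 n (d ^ 2)
  refine ⟨2 * C0 + d ^ 3, D, ?_⟩
  intro k _ Γ hΓ hp
  have hsmall : ∀ q ∈ Γ, ¬ Good (d ^ 2) q → (pts q).encard ≤ ((d ^ 3 : ℕ) : ℕ∞) := by
    intro q hq hg
    by_contra h
    exact hg (hGood k n d q (hΓ q hq) (not_le.mp h))
  have hfin2 : ∀ q ∈ Γ, ∀ q' ∈ Γ, q ≠ q' → (pts q ∩ pts q').Finite := by
    intro q hq q' hq' hne
    by_cases h1 : Good (d ^ 2) q
    · by_cases h2 : Good (d ^ 2) q'
      · exact Set.finite_of_encard_le_coe (h5 k q q' h1 h2 hne)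
      · exact (Set.finite_of_encard_le_coe (hsmall q' hq' h2)).subset Set.inter_subset_right
    · exact (Set.finite_of_encard_le_coe (hsmall q hq h1)).subset Set.inter_subset_left
  have hfin : (twoRich Γ).Finite := by
    have hsub : twoRich Γ ⊆ ⋃ z ∈ ((Γ ×ˢ Γ).filter (fun z => z.1 ≠ z.2)),
        (pts z.1 ∩ pts z.2) := by
      rintro x ⟨q, hq, q', hq', hne, hx, hx'⟩
      simp only [Set.mem_iUnion]
      exact ⟨(q, q'), by simp [hq, hq', hne], hx, hx'⟩
    refine Set.Finite.subset ?_ hsub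
    refine Set.Finite.biUnion (Finset.finite_toSet _) fun z hz => ?_
    simp only [Finset.coe_filter, Finset.mem_product, Set.mem_ofPred_eq] at hz
    exact hfin2 z.1 hz.1.1 z.2 hz.1.2 hz.2
  refine ⟨hfin, ?_⟩
  rcases Nat.eq_zero_or_pos Γ.card with h0 | hL
  · left
    have hemp : twoRich Γ = ∅ := by
      ext x
      simp only [twoRich, Set.mem_ofPred_eq, Set.mem_empty_iff_false, iff_false, not_exists]
      rintro q ⟨hq, -⟩
      rw [Finset.card_eq_zero] at h0
      rw [h0] at hq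
      exact absurd hq (Finset.notMem_empty q)
    rw [hemp]
    simp only [Set.ncard_empty, Nat.cast_zero]
    positivity
  · obtain ⟨M, hM1, hM2, hM3, hM4⟩ := exists_scale Γ.card (n - 1) hL (by omega)
    have hn1 : ((n - 1 : ℕ) : ℝ) = (n : ℝ) - 1 := by
      rw [Nat.cast_sub (by omega)]
      simp
    rw [hn1] at hM3
    have hnpos : (0 : ℝ) < (n : ℝ) - 1 := by
      rw [← hn1]
      exact_mod_cast (by omega : 0 < n - 1)
    have hLr : (0 : ℝ) < (Γ.card : ℝ) := by exact_mod_cast hL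
    set Γg := Γ.filter (fun q => Good (d ^ 2) q) with hΓg
    have hsubg : Γg ⊆ Γ := Finset.filter_subset _ _
    have hcardg : Γg.card ≤ Γ.card := Finset.card_le_card hsubg
    by_cases hcase : ((C0 * M * Γg.card : ℕ) : ℕ∞) < (twoRich Γg).encard
    · right
      obtain ⟨m, hm2, hmn, Z, hZp, hZ, Γ', hΓ', hZle, hcard⟩ := hM k M Γg hM1 (by
        by_cases hc : ringChar k = 0
        · exact Or.inl hc
        · exact Or.inr (hM4 _ (hp hc))) (fun q hq => (Finset.mem_filter.mp hq).2)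
        (hcardg.trans hM2) hcase
      refine ⟨m, hm2, hmn, Z, hZp, hZ, Γ', hΓ'.trans hsubg, hZle, ?_⟩
      have h1 : (Γ.card : ℝ) ^ (((m : ℝ) - 1) / ((n : ℝ) - 1)) ≤ (M : ℝ) ^ (m - 1) := by
        have h2 : (Γ.card : ℝ) ≤ (M : ℝ) ^ ((n : ℝ) - 1) := by
          rw [← hn1, Real.rpow_natCast]
          exact_mod_cast hM2
        have hMr : (0 : ℝ) ≤ (M : ℝ) := Nat.cast_nonneg _
        have hm0 : (0 : ℝ) ≤ (m : ℝ) - 1 := by
          have : (2 : ℝ) ≤ m := by exact_mod_cast hm2
          linarith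
        calc (Γ.card : ℝ) ^ (((m : ℝ) - 1) / ((n : ℝ) - 1))
            ≤ ((M : ℝ) ^ ((n : ℝ) - 1)) ^ (((m : ℝ) - 1) / ((n : ℝ) - 1)) :=
              Real.rpow_le_rpow hLr.le h2 (by positivity)
          _ = (M : ℝ) ^ ((m : ℝ) - 1) := by
              rw [← Real.rpow_mul hMr]
              congr 1
              field_simp
          _ = (M : ℝ) ^ (m - 1) := by
              rw [← Real.rpow_natCast, Nat.cast_sub (by omega)]
              simp
      exact h1.trans (by exact_mod_cast hcard)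
    · left
      have h1 : (twoRich Γg).encard ≤ ((C0 * M * Γg.card : ℕ) : ℕ∞) := not_lt.mp hcase
      set Γb := Γ.filter (fun q => ¬ Good (d ^ 2) q) with hΓb
      have hcardb : Γb.card ≤ Γ.card := Finset.card_le_card (Finset.filter_subset _ _)
      have hsub : twoRich Γ ⊆ twoRich Γg ∪ ⋃ q ∈ Γb, pts q := by
        rintro x ⟨q, hq, q', hq', hne, hx, hx'⟩
        by_cases hg1 : Good (d ^ 2) q
        · by_cases hg2 : Good (d ^ 2) q'
          · left
            exact ⟨q, Finset.mem_filter.mpr ⟨hq, hg1⟩, q', Finset.mem_filter.mpr ⟨hq', hg2⟩, hne,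
              hx, hx'⟩
          · right
            simp only [Set.mem_iUnion]
            exact ⟨q', Finset.mem_filter.mpr ⟨hq', hg2⟩, hx'⟩
        · right
          simp only [Set.mem_iUnion]
          exact ⟨q, Finset.mem_filter.mpr ⟨hq, hg1⟩, hx⟩
      have h2 : (⋃ q ∈ Γb, pts q).encard ≤ ((Γb.card * d ^ 3 : ℕ) : ℕ∞) := by
        have hind : ∀ s : Finset (Ideal (MvPolynomial (Fin n) k)), s ⊆ Γb →
            (⋃ q ∈ s, pts q).encard ≤ ((s.card * d ^ 3 : ℕ) : ℕ∞) := by
          intro s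
          induction s using Finset.induction_on with
          | empty => intro _; simp
          | insert q s hqs ih =>
            intro hs
            rw [Finset.set_biUnion_insert, Finset.card_insert_of_notMem hqs]
            have hq : q ∈ Γb := hs (Finset.mem_insert_self q s)
            have hq' := Finset.mem_filter.mp hq
            have h3 := hsmall q hq'.1 hq'.2
            have h4 := ih ((Finset.subset_insert q s).trans hs)
            calc (pts q ∪ ⋃ x ∈ s, pts x).encard ≤ (pts q).encard + (⋃ x ∈ s, pts x).encard :=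
                  Set.encard_union_le _ _
              _ ≤ ((d ^ 3 : ℕ) : ℕ∞) + ((s.card * d ^ 3 : ℕ) : ℕ∞) := add_le_add h3 h4
              _ = (((s.card + 1) * d ^ 3 : ℕ) : ℕ∞) := by
                  rw [← Nat.cast_add]
                  congr 1
                  ring
        exact hind Γb le_rfl
      have h3 : (twoRich Γ).encard ≤ ((C0 * M * Γ.card + Γ.card * d ^ 3 : ℕ) : ℕ∞) := by
        refine (Set.encard_le_encard hsub).trans ((Set.encard_union_le _ _).trans ?_)
        refine (add_le_add h1 h2).trans ?_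
        rw [← Nat.cast_add]
        have h4 : C0 * M * Γg.card + Γb.card * d ^ 3 ≤ C0 * M * Γ.card + Γ.card * d ^ 3 := by
          gcongr
        exact_mod_cast h4
      have h4 : (twoRich Γ).ncard ≤ C0 * M * Γ.card + Γ.card * d ^ 3 := by
        rw [← hfin.cast_ncard_eq] at h3
        exact_mod_cast h3
      have h5' : (Γ.card : ℝ) ^ (1 / ((n : ℝ) - 1)) * (Γ.card : ℝ) =
          (Γ.card : ℝ) ^ ((n : ℝ) / ((n : ℝ) - 1)) := by
        rw [← Real.rpow_add_one hLr.ne']
        congr 1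
        field_simp
        ring
      have h6 : (1 : ℝ) ≤ (Γ.card : ℝ) ^ (1 / ((n : ℝ) - 1)) :=
        Real.one_le_rpow (by exact_mod_cast hL) (by positivity)
      calc ((twoRich Γ).ncard : ℝ) ≤ ((C0 * M * Γ.card + Γ.card * d ^ 3 : ℕ) : ℝ) := by
            exact_mod_cast h4
        _ = C0 * (M : ℝ) * Γ.card + 1 * (Γ.card : ℝ) * (d : ℝ) ^ 3 := by
            push_cast
            ring
        _ ≤ C0 * (2 * (Γ.card : ℝ) ^ (1 / ((n : ℝ) - 1))) * Γ.card +
            (Γ.card : ℝ) ^ (1 / ((n : ℝ) - 1)) * (Γ.card : ℝ) * (d : ℝ) ^ 3 := by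
            gcongr
        _ = (2 * C0 + (d : ℝ) ^ 3) * ((Γ.card : ℝ) ^ (1 / ((n : ℝ) - 1)) * (Γ.card : ℝ)) := by
            ring
        _ = ((2 * C0 + d ^ 3 : ℕ) : ℝ) * (Γ.card : ℝ) ^ ((n : ℝ) / ((n : ℝ) - 1)) := by
            rw [h5']
            push_cast
            ring

end GZ
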