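import Pool.Agent.GZ.Rows

/-!
# GZ row GeoLin: coefficients with respect to elements linearly independent over the small field
-/

namespace GZ

open MvPolynomial

universe u

namespace GeoLinAux

variable {k K : Type u} [Field k] [Field K] [Algebra k K] {σ : Type*}

/-- Apply a linear functional to all coefficients. -/
noncomputable def appl (φ : K →ₗ[k] k) (P : MvPolynomial σ K) : MvPolynomial σ k :=
  ∑ α ∈ P.support, monomial α (φ (P.coeff α))

theorem coeff_appl (φ : K →ₗ[k] k) (P : MvPolynomial σ K) (β : σ →₀ ℕ) :
    (appl φ P).coeff β = φ (P.coeff β) := by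
  classical
  rw [appl, coeff_sum]
  simp only [coeff_monomial]
  rw [Finset.sum_ite_eq']
  split_ifs with h
  · rfl
  · rw [notMem_support_iff.mp h, map_zero]

theorem appl_add (φ : K →ₗ[k] k) (P Q : MvPolynomial σ K) :
    appl φ (P + Q) = appl φ P + appl φ Q := by
  ext β
  simp [coeff_appl]

theorem appl_zero (φ : K →ₗ[k] k) : appl φ (0 : MvPolynomial σ K) = 0 := by
  ext β
  simp [coeff_appl]

theorem appl_sum (φ : K →ₗ[k] k) {ι : Type*} (s : Finset ι) (P : ι → MvPolynomial σ K) :
    appl φ (∑ i ∈ s, P i) = ∑ i ∈ s, appl φ (P i) := by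
  classical
  induction s using Finset.induction_on with
  | empty => simp [appl_zero]
  | insert a s ha ih => rw [Finset.sum_insert ha, Finset.sum_insert ha, appl_add, ih]

theorem appl_mul_map (φ : K →ₗ[k] k) (P : MvPolynomial σ K) (r : MvPolynomial σ k) :
    appl φ (P * MvPolynomial.map (algebraMap k K) r) = appl φ P * r := by
  classical
  ext β
  rw [coeff_appl, coeff_mul, coeff_mul, map_sum]
  refine Finset.sum_congr rfl fun x _ => ?_
  rw [coeff_map, coeff_appl, mul_comm, ← Algebra.smul_def, map_smul, smul_eq_mul, mul_comm]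

theorem appl_C_mul_map (φ : K →ₗ[k] k) (e : K) (r : MvPolynomial σ k) :
    appl φ (C e * MvPolynomial.map (algebraMap k K) r) = C (φ e) * r := by
  classical
  rw [appl_mul_map]
  congr 1
  ext β
  rw [coeff_appl, coeff_C, coeff_C]
  split_ifs <;> simp

theorem appl_mem (φ : K →ₗ[k] k) (I : Ideal (MvPolynomial σ k)) (P : MvPolynomial σ K)
    (hP : P ∈ I.map (MvPolynomial.map (algebraMap k K))) : appl φ P ∈ I := by
  rw [Ideal.map] at hP
  have key : ∀ a : MvPolynomial σ K, appl φ (a * P) ∈ I := by
    refine Submodule.span_induction (p := fun P _ => ∀ a, appl φ (a * P) ∈ I) ?_ ?_ ?_ ?_ hP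
    · rintro _ ⟨r, hr, rfl⟩ a
      rw [appl_mul_map]
      exact I.mul_mem_left _ hr
    · intro a
      rw [mul_zero, appl_zero]; exact I.zero_mem
    · intro x y _ _ hx hy a
      rw [mul_add, appl_add]; exact I.add_mem (hx a) (hy a)
    · intro b x _ hx a
      rw [smul_eq_mul, ← mul_assoc]
      exact hx _
  have := key 1
  rwa [one_mul] at this

/-- A functional picking out one of finitely many independent elements. -/
theorem exists_dual {N : ℕ} (e : Fin N → K) (he : LinearIndependent k e) (j : Fin N) :
    ∃ φ : K →ₗ[k] k, ∀ i, φ (e i) = if i = j then 1 else 0 := by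
  classical
  have hinj : LinearMap.ker (Fintype.linearCombination k e) = ⊥ := by
    rw [LinearMap.ker_eq_bot]
    exact linearIndependent_iff_injective_fintypeLinearCombination.mp he
  obtain ⟨g, hg⟩ := (Fintype.linearCombination k e).exists_leftInverse_of_injective hinj
  refine ⟨(LinearMap.proj j) ∘ₗ g, fun i => ?_⟩
  have h1 : g (e i) = Pi.single i 1 := by
    have h2 : Fintype.linearCombination k e (Pi.single i 1) = e i := by
      rw [Fintype.linearCombination_apply_single, one_smul]
    rw [← h2, ← LinearMap.comp_apply, hg, LinearMap.id_apply]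
  rw [LinearMap.comp_apply, h1, LinearMap.proj_apply, Pi.single_apply]
  by_cases hij : i = j
  · simp [hij]
  · rw [if_neg hij, if_neg (fun h => hij h.symm)]

theorem mem_of_sum_mem (I : Ideal (MvPolynomial σ k)) {N : ℕ} (e : Fin N → K)
    (he : LinearIndependent k e) (r : Fin N → MvPolynomial σ k)
    (h : ∑ i, C (e i) * MvPolynomial.map (algebraMap k K) (r i) ∈
      I.map (MvPolynomial.map (algebraMap k K))) (j : Fin N) : r j ∈ I := by
  obtain ⟨φ, hφ⟩ := exists_dual e he j
  have h1 := appl_mem φ I _ h
  rw [appl_sum] at h1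
  simp only [appl_C_mul_map, hφ] at h1
  rw [Finset.sum_eq_single j] at h1
  · simpa using h1
  · intro b _ hb
    simp [hb]
  · intro hj
    exact absurd (Finset.mem_univ j) hj

/-- Every polynomial over `K` is a finite combination of polynomials over `k` with independent
coefficients. -/
theorem exists_decomp (P : MvPolynomial σ K) : ∃ (N : ℕ) (e : Fin N → K)
    (r : Fin N → MvPolynomial σ k), LinearIndependent k e ∧
    P = ∑ i, C (e i) * MvPolynomial.map (algebraMap k K) (r i) ∧
    ∀ i, (r i).totalDegree ≤ P.totalDegree := by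
  classical
  let V : Submodule k K := Submodule.span k ((fun α => P.coeff α) '' (P.support : Set (σ →₀ ℕ)))
  have : Module.Finite k V :=
    Module.Finite.span_of_finite k ((P.support.finite_toSet).image _)
  let b := Module.finBasis k V
  refine ⟨Module.finrank k V, fun i => (b i : K),
    fun i => ∑ α ∈ P.support, monomial α (if h : P.coeff α ∈ V then b.repr ⟨P.coeff α, h⟩ i else 0),
    ?_, ?_, ?_⟩
  · exact b.linearIndependent.map' V.subtype (Submodule.ker_subtype V)
  · ext β
    rw [coeff_sum]
    simp only [coeff_C_mul, coeff_map, coeff_sum, coeff_monomial]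
    by_cases hβ : β ∈ P.support
    · have hV : P.coeff β ∈ V := Submodule.subset_span ⟨β, hβ, rfl⟩
      have h2 : ∀ i, (∑ x ∈ P.support, if x = β then
          (if h : P.coeff x ∈ V then b.repr ⟨P.coeff x, h⟩ i else 0) else 0)
          = b.repr ⟨P.coeff β, hV⟩ i := by
        intro i
        rw [Finset.sum_ite_eq' P.support β, if_pos hβ, dif_pos hV]
      simp only [h2]
      have h3 := congrArg (Subtype.val) (b.sum_repr ⟨P.coeff β, hV⟩)
      rw [Submodule.coe_sum] at h3
      simp only [Submodule.coe_smul] at h3
      calc P.coeff β = ∑ i, b.repr ⟨P.coeff β, hV⟩ i • (b i : K) := h3.symm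
        _ = _ := by
            refine Finset.sum_congr rfl fun i _ => ?_
            rw [Algebra.smul_def, mul_comm]
    · have h2 : ∀ i, (∑ x ∈ P.support, if x = β then
          (if h : P.coeff x ∈ V then b.repr ⟨P.coeff x, h⟩ i else 0) else 0) = 0 := by
        intro i
        rw [Finset.sum_ite_eq' P.support β, if_neg hβ]
      simp only [h2, map_zero, mul_zero, Finset.sum_const_zero]
      exact notMem_support_iff.mp hβ
  · intro i
    refine (totalDegree_finsetSum _ _).trans (Finset.sup_le fun α hα => ?_)
    refine (totalDegree_monomial_le _ _).trans ?_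
    exact le_totalDegree hα

end GeoLinAux

theorem geoLin : GeoLinStmt.{u} := by
  intro k K _ _ _ n I N e he r h i
  exact GeoLinAux.mem_of_sum_mem I e he r h i

end GZ
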