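import Pool.Agent.GZ.RichDrop

namespace GZ

open MvPolynomial Filter

universe u

/-- A common denominator for finitely many elements. -/
theorem common_denom {R F : Type u} [CommRing R] [Field F] (φ : R →+* F)
    (hfrac : ∀ x : F, ∃ a b : R, φ b ≠ 0 ∧ x = φ a / φ b) {ι : Type} [DecidableEq ι]
    (g : ι → F) (s : Finset ι) :
    ∃ b : R, φ b ≠ 0 ∧ ∀ α ∈ s, ∃ a : R, φ a = g α * φ b := by
  induction s using Finset.induction_on with
  | empty => exact ⟨1, by simp, by simp⟩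
  | insert α s hα ih =>
    obtain ⟨b, hb, h⟩ := ih
    obtain ⟨a', b', hb', hx⟩ := hfrac (g α)
    refine ⟨b * b', by simp [hb, hb'], fun β hβ => ?_⟩
    rcases Finset.mem_insert.1 hβ with rfl | hβ
    · refine ⟨a' * b, ?_⟩
      rw [hx, map_mul, map_mul]
      field_simp
    · obtain ⟨a, ha⟩ := h β hβ
      refine ⟨a * b', ?_⟩
      rw [map_mul, map_mul, ha]
      ring

/-- Theorem K when all index types are nonempty. -/
theorem k_core (hAS : ASStmt.{u}) (h5 : B5Stmt.{u}) (h6 : B6Stmt.{u}) (h8 : B8Stmt.{u})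
    (h8b : B8bStmt.{u}) (h9 : B9Stmt.{u}) (U : Ultrafilter ℕ) (ν c K : ℕ) (hν : 1 ≤ ν)
    (k : ℕ → Type u) [∀ i, Field (k i)] (S : ∀ i, CurveSys (k i) ν c)
    [hne : ∀ i, Nonempty (S i).ι]
    (M : ℕ → ℕ) (hS : Scale U k M) (Γ : ∀ i, Finset (S i).ι) (hΓ : Rich U S M Γ)
    (hcard : ∀ᶠ i in (U : Filter ℕ), (Γ i).card ≤ K * M i ^ (ν - 1)) :
    ∃ (D₁ : ℕ) (Γ' : ∀ i, Finset (S i).ι) (G : ∀ i, MvPolynomial (Fin ν) (k i)),
    (∀ i, Γ' i ⊆ Γ i) ∧ Rich U S M Γ' ∧
    ∀ᶠ i in (U : Filter ℕ), G i ≠ 0 ∧ (G i).totalDegree ≤ D₁ ∧ ∀ γ ∈ Γ' i, G i ∈ (S i).r γ := by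
  classical
  obtain ⟨Γ1, f, j, hsub1, hrich1, hsmall, hf⟩ := h5 U ν c K hν k S M hS Γ hΓ hcard
  obtain ⟨Γ2, O, hsub2, hrich2, hdec, hfO⟩ := h6 U ν c k S M hS Γ1 hrich1 f hsmall
  obtain ⟨FO⟩ := h8 U ν c k S M hS Γ2 hrich2 O hdec
  have hdim := h8b U ν c k S M hS Γ2 hrich2 O hdec FO f hfO j
    (by filter_upwards [hf] with i hi γ hγ using hi γ (hsub2 i hγ))
  have := FO.charZero
  obtain ⟨G, hG0, ⟨α0, hα0⟩, hG⟩ := hAS FO.F ν FO.y FO.T FO.lie hdim
  -- common denominators
  obtain ⟨b, hb, hab⟩ := common_denom FO.φ FO.frac (fun α => G.coeff α) G.support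
  choose! a0 ha0 using hab
  let a : (Fin ν →₀ ℕ) → O := fun α => if α = α0 then b else if α ∈ G.support then a0 α else 0
  have ha : ∀ α, FO.φ (a α) = G.coeff α * FO.φ b := by
    intro α
    by_cases h : α = α0
    · simp [a, h, hα0]
    · by_cases h' : α ∈ G.support
      · simp only [a, h, h', if_true, if_false]
        exact ha0 α h'
      · simp only [a, h, h', if_false]
        rw [notMem_support_iff.1 h']
        simp
  have haα0 : a α0 = b := by simp [a]
  -- the relation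
  let Y : Fin ν → O := fun l => ⟨fun i => X l, hdec.var l⟩
  have hY : ∀ l, FO.y l = FO.φ (Y l) := fun l => FO.hy l (Y l) rfl
  let s : O := ∑ α ∈ G.support, a α * ∏ l, Y l ^ α l
  have hs0 : FO.φ s = 0 := by
    have h1 : FO.φ s = FO.φ b * aeval FO.y G := by
      simp only [s, map_sum, map_mul, map_prod, map_pow]
      rw [aeval_def, eval₂_eq', Finset.mul_sum]
      refine Finset.sum_congr rfl fun α _ => ?_
      rw [ha α]
      simp only [← hY, Algebra.algebraMap_self, RingHom.id_apply]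
      ring
    rw [h1, hG0, mul_zero]
  have hs : ∀ᶠ i in (U : Filter ℕ), ∀ γ ∈ Γ2 i, s.1 i ∈ (S i).r γ := (FO.ker s).1 hs0
  have hsval : ∀ i, s.1 i = ∑ α ∈ G.support, (a α).1 i * monomial α (1 : k i) := by
    intro i
    have h1 : s.1 = ∑ α ∈ G.support, (a α).1 * ∏ l, (Y l).1 ^ α l := by
      simp only [s]
      push_cast
      rfl
    rw [h1, Finset.sum_apply]
    refine Finset.sum_congr rfl fun α _ => ?_
    rw [Pi.mul_apply, Finset.prod_apply]
    congr 1
    rw [monomial_eq, Finsupp.prod_fintype _ _ (by simp)]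
    simp [Y]
  -- b vanishes on no member
  have hbno : ∀ᶠ i in (U : Filter ℕ), ∀ γ ∈ Γ2 i, b.1 i ∉ (S i).r γ := by
    rcases hdec.dec b.1 b.2 with h | h
    · exact absurd ((FO.ker b).2 h) hb
    · exact h
  -- constancy
  have hconst : ∀ᶠ i in (U : Filter ℕ), ∀ γ ∈ Γ2 i, ∀ α ∈ G.support, ∃ κ : k i,
      (a α).1 i - C κ * b.1 i ∈ (S i).r γ := by
    by_contra hcon
    have hcon' : ∀ᶠ i in (U : Filter ℕ), ¬ ∀ γ ∈ Γ2 i, ∀ α ∈ G.support, ∃ κ : k i,
        (a α).1 i - C κ * b.1 i ∈ (S i).r γ := (Ultrafilter.eventually_not).2 hcon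
    have hch : ∀ i, ∃ γ : (S i).ι, (¬ (∀ γ ∈ Γ2 i, ∀ α ∈ G.support, ∃ κ : k i,
        (a α).1 i - C κ * b.1 i ∈ (S i).r γ)) → γ ∈ Γ2 i ∧ ∃ α ∈ G.support, ∀ κ : k i,
        (a α).1 i - C κ * b.1 i ∉ (S i).r γ := by
      intro i
      by_cases h : (∀ γ ∈ Γ2 i, ∀ α ∈ G.support, ∃ κ : k i,
        (a α).1 i - C κ * b.1 i ∈ (S i).r γ)
      · exact ⟨Classical.choice (hne i), fun h' => absurd h h'⟩
      · push Not at h
        obtain ⟨γ, hγ, α, hα, h⟩ := h
        exact ⟨γ, fun _ => ⟨hγ, α, hα, h⟩⟩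
    choose γ hγ using hch
    have hγ1 : ∀ᶠ i in (U : Filter ℕ), γ i ∈ Γ2 i := by
      filter_upwards [hcon'] with i hi using (hγ i hi).1
    obtain ⟨E, fE, aE, D, hspan, hstr, hD⟩ := h9 U ν c k S M hS Γ2 hrich2 O hdec FO γ hγ1
    have hkill := hG E D hspan hstr
    have hall : ∀ α ∈ G.support, ∀ᶠ i in (U : Filter ℕ), ∃ κ : k i,
        (a α).1 i - C κ * b.1 i ∈ (S i).r (γ i) := by
      intro α _
      apply hD (a α) b hb
      have : FO.φ (a α) / FO.φ b = G.coeff α := by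
        rw [ha α]
        field_simp
      rw [this]
      exact hkill α
    have hall' : ∀ᶠ i in (U : Filter ℕ), ∀ α ∈ G.support, ∃ κ : k i,
        (a α).1 i - C κ * b.1 i ∈ (S i).r (γ i) :=
      (Filter.eventually_all_finset _).2 hall
    have hfalse : ∀ᶠ i in (U : Filter ℕ), False := by
      filter_upwards [hall', hcon'] with i h1 h2
      obtain ⟨_, α, hα, h3⟩ := hγ i h2
      obtain ⟨κ, hκ⟩ := h1 α hα
      exact h3 κ hκ
    exact hfalse.exists.elim fun _ h => h
  -- choose the constants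
  have hne2 : ∀ᶠ i in (U : Filter ℕ), (Γ2 i).Nonempty := by
    filter_upwards [hrich2 0] with i hi using hi.1
  have hch2 : ∀ i, ∃ κ : (Fin ν →₀ ℕ) → k i, κ α0 = 1 ∧
      (((Γ2 i).Nonempty ∧ ∀ γ ∈ Γ2 i, ∀ α ∈ G.support, ∃ κ : k i,
        (a α).1 i - C κ * b.1 i ∈ (S i).r γ) →
        ∃ γ ∈ Γ2 i, ∀ α ∈ G.support, (a α).1 i - C (κ α) * b.1 i ∈ (S i).r γ) := by
    intro i
    by_cases h : ((Γ2 i).Nonempty ∧ ∀ γ ∈ Γ2 i, ∀ α ∈ G.support, ∃ κ : k i,
        (a α).1 i - C κ * b.1 i ∈ (S i).r γ)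
    · obtain ⟨⟨γ, hγ⟩, h2⟩ := h
      have h3 := h2 γ hγ
      choose! κ hκ using h3
      refine ⟨fun α => if α = α0 then 1 else κ α, by simp, fun _ => ⟨γ, hγ, fun α hα => ?_⟩⟩
      by_cases hα0' : α = α0
      · subst hα0'
        simp [haα0]
      · simp only [hα0', if_false]
        exact hκ α hα
    · exact ⟨fun _ => 1, rfl, fun h' => absurd h' h⟩
  choose κ hκ1 hκ2 using hch2
  let Γ3 : ∀ i, Finset (S i).ι := fun i => (Γ2 i).filter
    (fun γ => ∀ α ∈ G.support, (a α).1 i - C (κ i α) * b.1 i ∈ (S i).r γ)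
  let Gs : ∀ i, MvPolynomial (Fin ν) (k i) := fun i => ∑ α ∈ G.support, monomial α (κ i α)
  have hα0mem : α0 ∈ G.support := by
    rw [mem_support_iff, hα0]
    exact one_ne_zero
  refine ⟨G.totalDegree, Γ3, Gs, fun i => ((Finset.filter_subset _ _).trans (hsub2 i)).trans
    (hsub1 i), ?_, ?_⟩
  · intro m
    filter_upwards [hrich2 (m + 1), hdec.small b.1 b.2 c, hbno, hconst, hne2] with i hi1 hi2 hi3
      hi4 hi5
    refine rich_drop (S i) (Γ2 i) (Γ3 i) (b.1 i) (m * M i) (M i) ?_ ?_ ?_ ?_ hi2 ?_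
    · obtain ⟨γ, hγ, h⟩ := hκ2 i ⟨hi5, hi4⟩
      exact ⟨γ, Finset.mem_filter.2 ⟨hγ, h⟩⟩
    · intro γ hγ
      exact (Finset.mem_filter.1 hγ).1
    · intro γ hγ
      exact hi3 γ (Finset.mem_filter.1 hγ).1
    · intro γ hγ x hx hx0 γ' hγ' _ hx'
      refine Finset.mem_filter.2 ⟨hγ', fun α hα => ?_⟩
      obtain ⟨κ', hκ'⟩ := hi4 γ' hγ' α hα
      have h1 := (S i).vanish γ x _ ((Finset.mem_filter.1 hγ).2 α hα) hx
      have h2 := (S i).vanish γ' x _ hκ' hx'
      simp only [map_sub, map_mul, eval_C] at h1 h2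
      have h3 : κ' = κ i α := by
        have h4 : κ' * eval ((S i).pos x) (b.1 i) = κ i α * eval ((S i).pos x) (b.1 i) := by
          rw [sub_eq_zero] at h1 h2
          rw [← h1, ← h2]
        exact mul_right_cancel₀ hx0 h4
      rw [← h3]
      exact hκ'
    · have : m * M i + M i = (m + 1) * M i := by ring
      rw [this]
      exact hi1
  · filter_upwards [hs, hbno] with i hi1 hi2
    have hcoeff : (Gs i).coeff α0 = 1 := by
      simp only [Gs, coeff_sum, coeff_monomial]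
      rw [Finset.sum_ite_eq' G.support α0]
      simp [hα0mem, hκ1 i]
    refine ⟨?_, ?_, ?_⟩
    · intro h0
      rw [h0] at hcoeff
      simp at hcoeff
    · refine (totalDegree_finsetSum _ _).trans (Finset.sup_le fun α hα => ?_)
      refine (totalDegree_monomial_le _ _).trans ?_
      exact le_totalDegree hα
    · intro γ hγ
      have hγ2 := (Finset.mem_filter.1 hγ).1
      have hγ3 := (Finset.mem_filter.1 hγ).2
      have h1 : b.1 i * Gs i = s.1 i - ∑ α ∈ G.support,
          ((a α).1 i - C (κ i α) * b.1 i) * monomial α (1 : k i) := by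
        rw [hsval i, ← Finset.sum_sub_distrib, Finset.mul_sum]
        refine Finset.sum_congr rfl fun α _ => ?_
        have h2 : monomial α (κ i α) = C (κ i α) * monomial α (1 : k i) := by
          rw [C_mul_monomial, mul_one]
        rw [h2]
        ring
      have h3 : b.1 i * Gs i ∈ (S i).r γ := by
        rw [h1]
        refine Ideal.sub_mem _ (hi1 γ hγ2) (Ideal.sum_mem _ fun α hα => ?_)
        exact Ideal.mul_mem_right _ _ (hγ3 α hα)
      exact (((S i).prime γ).mem_or_mem h3).resolve_left (hi2 γ hγ2)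

/-- Adding a dummy curve without points. -/
noncomputable def addDummy {k : Type u} [Field k] {ν c : ℕ} (hν : 0 < ν) (hc : 1 ≤ c)
    (S : CurveSys k ν c) : CurveSys k ν c where
  ι := Option S.ι
  Pt := S.Pt
  pos := S.pos
  r := fun γ => match γ with
    | some γ => S.r γ
    | none => RingHom.ker (aeval (fun j : Fin ν => if j = ⟨0, hν⟩ then (Polynomial.X : Polynomial k)
        else 0) : MvPolynomial (Fin ν) k →ₐ[k] Polynomial k)
  inc := fun x γ => match γ with
    | some γ => S.inc x γ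
    | none => False
  prime := by
    rintro (_ | γ)
    · exact RingHom.ker_isPrime _
    · exact S.prime γ
  vanish := by
    rintro (_ | γ) x P hP hx
    · exact hx.elim
    · exact S.vanish γ x P hP hx
  bez := by
    rintro (_ | γ) P hP
    · simp
    · exact S.bez γ P hP
  meet := by
    rintro (_ | γ) (_ | γ') h
    · simp
    · simp
    · simp
    · exact S.meet γ γ' (fun h' => h (by rw [h']))
  straight := by
    rintro (_ | γ)
    · refine ⟨fun j => if j = ⟨0, hν⟩ then 1 else 0, fun j => ?_, ?_, fun j => ⟨1, hc, ?_⟩⟩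
      · dsimp only
        split_ifs
        · exact hc
        · exact Nat.zero_le _
      · intro P hP hmem
        have h1 : lform (fun j : Fin ν => if j = ⟨0, hν⟩ then 1 else 0)
            (X : Fin ν → MvPolynomial (Fin ν) k) = X ⟨0, hν⟩ := by
          simp [lform]
        rw [h1] at hmem
        rw [RingHom.mem_ker] at hmem
        have h2 : (aeval (fun j : Fin ν => if j = ⟨0, hν⟩ then (Polynomial.X : Polynomial k)
            else 0) : MvPolynomial (Fin ν) k →ₐ[k] Polynomial k)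
            (Polynomial.aeval (X ⟨0, hν⟩ : MvPolynomial (Fin ν) k) P) = P := by
          rw [← Polynomial.aeval_algHom_apply]
          simp
        exact hP (h2.symm.trans hmem)
      · refine ⟨fun a b => if j = ⟨0, hν⟩ ∧ a = 1 ∧ b = 0 then 1 else 0, fun a b => ?_, ?_⟩
        · dsimp only
          split_ifs
          · exact ⟨1, map_one _⟩
          · exact ⟨0, map_zero _⟩
        · have h1 : lform (fun j : Fin ν => if j = ⟨0, hν⟩ then 1 else 0)
              (X : Fin ν → MvPolynomial (Fin ν) k) = X ⟨0, hν⟩ := by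
            simp [lform]
          rw [h1]
          by_cases hj : j = ⟨0, hν⟩
          · subst hj
            simp [Finset.sum_range_succ]
          · have h2 : (Ideal.Quotient.mk (RingHom.ker (aeval (fun j : Fin ν =>
                if j = ⟨0, hν⟩ then (Polynomial.X : Polynomial k) else 0) :
                MvPolynomial (Fin ν) k →ₐ[k] Polynomial k))) (X j) = 0 := by
              rw [Ideal.Quotient.eq_zero_iff_mem, RingHom.mem_ker]
              simp [hj]
            rw [h2]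
            simp [hj]
    · exact S.straight γ

theorem kThm (hAS : ASStmt.{u}) (h5 : B5Stmt.{u}) (h6 : B6Stmt.{u}) (h8 : B8Stmt.{u})
    (h8b : B8bStmt.{u}) (h9 : B9Stmt.{u}) : KStmt.{u} := by
  classical
  intro U ν c K hν k _ S M hS Γ hΓ hcard
  have hc : 1 ≤ c := by
    obtain ⟨i, hi⟩ := (hΓ 0).exists
    obtain ⟨γ, hγ⟩ := hi.1
    obtain ⟨s, -, -, h3⟩ := (S i).straight γ
    obtain ⟨N, hN, κ, -, h4⟩ := h3 ⟨0, hν⟩
    rcases Nat.eq_zero_or_pos N with rfl | hN'
    · exfalso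
      have := (S i).prime γ
      simp at h4
    · omega
  let S' : ∀ i, CurveSys (k i) ν c := fun i => addDummy hν hc (S i)
  have hne : ∀ i, Nonempty (S' i).ι := fun i => ⟨(none : Option (S i).ι)⟩
  let Γs : ∀ i, Finset (S' i).ι := fun i => (Γ i).map Function.Embedding.some
  have hrich : Rich U S' M Γs := by
    intro m
    filter_upwards [hΓ m] with i hi
    refine ⟨hi.1.map, ?_⟩
    intro γ' hγ'
    obtain ⟨γ, hγ, rfl⟩ := Finset.mem_map.1 hγ'
    refine (hi.2 γ hγ).trans (Set.encard_le_encard ?_)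
    rintro x ⟨hx, γ2, hγ2, hne2, hx2⟩
    refine ⟨hx, some γ2, Finset.mem_map_of_mem _ hγ2, ?_, hx2⟩
    intro h
    exact hne2 (Option.some_injective _ h)
  obtain ⟨D₁, Γ', G, hsub, hr, hG⟩ := k_core hAS h5 h6 h8 h8b h9 U ν c K hν k S' M hS Γs hrich
    (by filter_upwards [hcard] with i hi using (Finset.card_map _).le.trans hi)
  refine ⟨D₁, fun i => Finset.eraseNone (Γ' i), G, ?_, ?_, ?_⟩
  · intro i γ hγ
    have h1 := hsub i (Finset.mem_eraseNone.1 hγ)
    obtain ⟨γ2, hγ2, h⟩ := Finset.mem_map.1 h1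
    have := Option.some_injective _ h
    exact this ▸ hγ2
  · intro m
    filter_upwards [hr m] with i hi
    refine ⟨?_, ?_⟩
    · obtain ⟨γ', hγ'⟩ := hi.1
      obtain ⟨γ2, hγ2, h⟩ := Finset.mem_map.1 (hsub i hγ')
      subst h
      exact ⟨γ2, Finset.mem_eraseNone.2 hγ'⟩
    · intro γ hγ
      refine (hi.2 (some γ) (Finset.mem_eraseNone.1 hγ)).trans (Set.encard_le_encard ?_)
      rintro x ⟨hx, γ2, hγ2, hne2, hx2⟩
      obtain ⟨γ3, hγ3, h⟩ := Finset.mem_map.1 (hsub i hγ2)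
      subst h
      exact ⟨hx, γ3, Finset.mem_eraseNone.2 hγ2, fun h => hne2 (by rw [h]; rfl), hx2⟩
  · filter_upwards [hG] with i hi
    exact ⟨hi.1, hi.2.1, fun γ hγ => hi.2.2 (some γ) (Finset.mem_eraseNone.1 hγ)⟩

end GZ
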