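import Pool.Agent.GZ.Sys

namespace GZ

open MvPolynomial Filter

universe u

/-- Richness for families of primes. -/
def RichQ {k : Type u} [Field k] {n : ℕ} (Δ : Finset (Ideal (MvPolynomial (Fin n) k)))
    (B : ℕ) : Prop :=
  Δ.Nonempty ∧ ∀ q ∈ Δ, (B : ℕ∞) ≤ (rp Δ q).encard

/-- The state of the descent at level `ν`. -/
def PState (U : Ultrafilter ℕ) {n : ℕ} {k : ℕ → Type u} [∀ i, Field (k i)] (M : ℕ → ℕ)
    (Γ : ∀ i, Finset (Ideal (MvPolynomial (Fin n) (k i)))) (ν : ℕ) : Prop :=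
  ∃ (N : ℕ) (J : ∀ i, Ideal (MvPolynomial (Fin n) (k i)))
    (y : ∀ i, Fin ν → MvPolynomial (Fin n) (k i))
    (Δ : ∀ i, Finset (Ideal (MvPolynomial (Fin n) (k i)))),
    (∀ i, Δ i ⊆ Γ i) ∧
    (∀ᶠ i in (U : Filter ℕ), (∃ N' ≤ N, NormData (J i) (y i) N') ∧ ∀ q ∈ Δ i, J i ≤ q) ∧
    ∀ m : ℕ, ∀ᶠ i in (U : Filter ℕ), RichQ (Δ i) (m * M i)

/-- No variety of degree at most `D` contains many members. -/
def Fail {k : Type u} [Field k] {n : ℕ} (M D : ℕ)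
    (Γ : Finset (Ideal (MvPolynomial (Fin n) k))) : Prop :=
  ∀ m, 2 ≤ m → m ≤ n - 1 → ∀ Z : Ideal (MvPolynomial (Fin n) k), Z.IsPrime →
    HasDimDeg (geomIdeal Z) m D → ∀ Γ' ⊆ Γ, (∀ q ∈ Γ', Z ≤ q) → Γ'.card < M ^ (m - 1)

theorem state_card (hD3 : D3Stmt.{u}) (U : Ultrafilter ℕ) {n : ℕ} {k : ℕ → Type u}
    [∀ i, Field (k i)] (M : ℕ → ℕ)
    (Γ : ∀ i, Finset (Ideal (MvPolynomial (Fin n) (k i))))
    (hprime : ∀ i, ∀ q ∈ Γ i, q.IsPrime)
    (hcard : ∀ i, (Γ i).card ≤ M i ^ (n - 1))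
    (hfail : ∀ i, Fail (M i) i (Γ i)) (hU : ∀ m : ℕ, ∀ᶠ i in (U : Filter ℕ), m ≤ i)
    (ν : ℕ) (hν : 2 ≤ ν) (hνn : ν ≤ n) (N : ℕ)
    (J : ∀ i, Ideal (MvPolynomial (Fin n) (k i)))
    (y : ∀ i, Fin ν → MvPolynomial (Fin n) (k i))
    (Δ : ∀ i, Finset (Ideal (MvPolynomial (Fin n) (k i))))
    (hsub : ∀ i, Δ i ⊆ Γ i)
    (hJ : ∀ᶠ i in (U : Filter ℕ), (∃ N' ≤ N, NormData (J i) (y i) N') ∧ ∀ q ∈ Δ i, J i ≤ q) :
    ∀ᶠ i in (U : Filter ℕ), (Δ i).card ≤ (N + 1) * M i ^ (ν - 1) := by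
  rcases Nat.lt_or_ge ν n with hlt | hge
  · filter_upwards [hJ, hU N] with i hi hiN
    obtain ⟨⟨N', hN', hnorm⟩, hJq⟩ := hi
    obtain ⟨h1, h2⟩ := hD3 (k i) n ν N' (J i) (y i) hnorm
    have h3 : (Δ i).card ≤ N' * M i ^ (ν - 1) := by
      refine card_le_of_minimalPrimes (J i) N' _ h2 (Δ i) hJq
        (fun q hq => hprime i q (hsub i hq)) ?_
      intro Z hZ Δ' hΔ' hZq
      exact (hfail i ν hν (by omega) Z hZ.1.1 ((h1 Z hZ).mono (hN'.trans hiN)) Δ'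
        (hΔ'.trans (hsub i)) hZq).le
    calc (Δ i).card ≤ N' * M i ^ (ν - 1) := h3
      _ ≤ (N + 1) * M i ^ (ν - 1) := Nat.mul_le_mul_right _ (by omega)
  · have hνn' : ν = n := le_antisymm hνn hge
    subst hνn'
    filter_upwards with i
    calc (Δ i).card ≤ (Γ i).card := Finset.card_le_card (hsub i)
      _ ≤ M i ^ (ν - 1) := hcard i
      _ = 1 * M i ^ (ν - 1) := (one_mul _).symm
      _ ≤ (N + 1) * M i ^ (ν - 1) := Nat.mul_le_mul_right _ (by omega)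

theorem exists_big {k : Type u} [Field k] (M D : ℕ) (hD : D < M)
    (h : ringChar k = 0 ∨ M ≤ ringChar k) : Infinite k ∨ ∃ S : Finset k, D < S.card := by
  have h' : ringChar k = 0 ∨ D < ringChar k := by
    rcases h with h | h
    · exact Or.inl h
    · exact Or.inr (by omega)
  obtain ⟨S, hS, -⟩ := exists_finset_nat D h'
  exact Or.inr ⟨S, hS⟩

theorem step (hK : KStmt.{u}) (hC3 : C3Stmt.{u}) (hD2 : D2Stmt.{u}) (hD3 : D3Stmt.{u})
    (hD4 : D4Stmt.{u}) (U : Ultrafilter ℕ) {n c C5 : ℕ} {k : ℕ → Type u}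
    [∀ i, Field (k i)] (M : ℕ → ℕ)
    (hC5 : ∀ i, ∀ q q' : Ideal (MvPolynomial (Fin n) (k i)), Good c q → Good c q' → q ≠ q' →
      (pts q ∩ pts q').encard ≤ (C5 : ℕ∞))
    (hS : Scale U k M)
    (Γ : ∀ i, Finset (Ideal (MvPolynomial (Fin n) (k i))))
    (hgood : ∀ i, ∀ q ∈ Γ i, Good c q)
    (hcard : ∀ i, (Γ i).card ≤ M i ^ (n - 1))
    (hfail : ∀ i, Fail (M i) i (Γ i))
    (ν : ℕ) (hν : 2 ≤ ν) (hνn : ν + 1 ≤ n) (hP : PState U M Γ (ν + 1)) :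
    PState U M Γ ν := by
  classical
  obtain ⟨N, J, y, Δ, hsub, hJ, hrich⟩ := hP
  have hcardΔ := state_card hD3 U M Γ (fun i q hq => (hgood i q hq).prime) hcard hfail
    hS.nonprincipal (ν + 1) (by omega) hνn N J y Δ hsub hJ
  let S : ∀ i, CurveSys (k i) (ν + 1) (c + C5) := fun i => sys hC3 c C5 (hC5 i) (y i)
  have hcond : ∀ᶠ i in (U : Filter ℕ), ∀ q ∈ Δ i, SysCond c (y i) q := by
    filter_upwards [hJ, hS.large (c + 1), hS.char] with i hi hMi hch q hq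
    obtain ⟨⟨N', hN', hnorm⟩, hJq⟩ := hi
    have hg := hgood i q (hsub i hq)
    refine ⟨hg, hnorm.1, ?_, hD4 (k i) n (ν + 1) N' c (J i) (y i) hnorm q hg (hJq q hq)⟩
    rcases hch with h | h
    · exact Or.inl h
    · exact Or.inr (by omega)
  let Γs : ∀ i, Finset (S i).ι := fun i => (Δ i).subtype (SysCond c (y i))
  have hmem : ∀ i (γ : (S i).ι), γ ∈ Γs i ↔ γ.1 ∈ Δ i := fun i γ => Finset.mem_subtype
  have hRs : Rich U S M Γs := by
    intro m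
    filter_upwards [hrich m, hcond] with i hi hc
    refine ⟨?_, ?_⟩
    · obtain ⟨q, hq⟩ := hi.1
      exact ⟨⟨q, hc q hq⟩, (hmem i ⟨q, hc q hq⟩).2 hq⟩
    · intro γ hγ
      refine (hi.2 γ.1 ((hmem i γ).1 hγ)).trans (Set.encard_le_encard ?_)
      rintro x ⟨hx, q', hq', hne, hx'⟩
      refine ⟨hx, ⟨q', hc q' hq'⟩, (hmem i ⟨q', hc q' hq'⟩).2 hq', ?_, hx'⟩
      intro h
      exact hne (congrArg Subtype.val h)
  have hcs : ∀ᶠ i in (U : Filter ℕ), (Γs i).card ≤ (N + 1) * M i ^ (ν + 1 - 1) := by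
    filter_upwards [hcardΔ] with i hi
    refine le_trans ?_ hi
    have h1 : (Γs i).card = ((Δ i).filter (SysCond c (y i))).card := Finset.card_subtype _ _
    rw [h1]
    exact Finset.card_filter_le _ _
  obtain ⟨D₁, Γ's, G, hsub', hrich', hG⟩ := hK U (ν + 1) (c + C5) (N + 1) (by omega) k S M hS Γs
    hRs hcs
  let Δ' : ∀ i, Finset (Ideal (MvPolynomial (Fin n) (k i))) := fun i =>
    (Γ's i).map ⟨(Subtype.val : {q // SysCond c (y i) q} → Ideal (MvPolynomial (Fin n) (k i))),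
      Subtype.val_injective⟩
  have hmem' : ∀ i q, q ∈ Δ' i ↔ ∃ γ ∈ Γ's i, γ.1 = q := by
    intro i q
    exact Finset.mem_map
  have hΔ' : ∀ i, Δ' i ⊆ Δ i := by
    intro i q hq
    obtain ⟨γ, hγ, rfl⟩ := (hmem' i q).1 hq
    exact (hmem i γ).1 (hsub' i hγ)
  let J' : ∀ i, Ideal (MvPolynomial (Fin n) (k i)) := fun i =>
    J i ⊔ Ideal.span {aeval (y i) (G i)}
  have hch : ∀ i, ∃ y' : Fin ν → MvPolynomial (Fin n) (k i),
      ((∃ N' ≤ N, NormData (J i) (y i) N') ∧ G i ≠ 0 ∧ (G i).totalDegree ≤ D₁ ∧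
        (Infinite (k i) ∨ ∃ S : Finset (k i), D₁ < S.card)) →
      ∃ N'' ≤ N * D₁, NormData (J' i) y' N'' := by
    intro i
    by_cases h : ((∃ N' ≤ N, NormData (J i) (y i) N') ∧ G i ≠ 0 ∧ (G i).totalDegree ≤ D₁ ∧
        (Infinite (k i) ∨ ∃ S : Finset (k i), D₁ < S.card))
    · obtain ⟨⟨N', hN', hnorm⟩, hG0, hGd, hbig⟩ := h
      obtain ⟨N'', y', hN'', hnorm'⟩ := hD2 (k i) n ν N' D₁ (J i) (y i) hnorm (G i) hG0 hGd hbig
      exact ⟨y', fun _ => ⟨N'', hN''.trans (Nat.mul_le_mul_right _ hN'), hnorm'⟩⟩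
    · exact ⟨fun _ => 0, fun h' => absurd h' h⟩
  choose y' hy' using hch
  refine ⟨N * D₁, J', y', Δ', fun i => (hΔ' i).trans (hsub i), ?_, ?_⟩
  · filter_upwards [hJ, hG, hS.large (D₁ + 1), hS.char] with i hi hGi hMi hchar
    refine ⟨hy' i ⟨hi.1, hGi.1, hGi.2.1, exists_big (M i) D₁ (by omega) hchar⟩, ?_⟩
    intro q hq
    refine sup_le (hi.2 q (hΔ' i hq)) ?_
    rw [Ideal.span_le, Set.singleton_subset_iff]
    obtain ⟨γ, hγ, rfl⟩ := (hmem' i q).1 hq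
    exact hGi.2.2 γ hγ
  · intro m
    filter_upwards [hrich' m] with i hi
    refine ⟨?_, ?_⟩
    · obtain ⟨γ, hγ⟩ := hi.1
      exact ⟨γ.1, (hmem' i _).2 ⟨γ, hγ, rfl⟩⟩
    · intro q hq
      obtain ⟨γ, hγ, rfl⟩ := (hmem' i q).1 hq
      refine (hi.2 γ hγ).trans (Set.encard_le_encard ?_)
      rintro x ⟨hx, γ', hγ', hne, hx'⟩
      exact ⟨hx, γ'.1, (hmem' i _).2 ⟨γ', hγ', rfl⟩, fun h => hne (Subtype.ext h), hx'⟩

theorem state_two_false (hD3 : D3Stmt.{u}) (U : Ultrafilter ℕ) {n c C5 : ℕ} {k : ℕ → Type u}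
    [∀ i, Field (k i)] (M : ℕ → ℕ)
    (hC5 : ∀ i, ∀ q q' : Ideal (MvPolynomial (Fin n) (k i)), Good c q → Good c q' → q ≠ q' →
      (pts q ∩ pts q').encard ≤ (C5 : ℕ∞))
    (hS : Scale U k M)
    (Γ : ∀ i, Finset (Ideal (MvPolynomial (Fin n) (k i))))
    (hgood : ∀ i, ∀ q ∈ Γ i, Good c q)
    (hcard : ∀ i, (Γ i).card ≤ M i ^ (n - 1))
    (hfail : ∀ i, Fail (M i) i (Γ i)) (hn : 2 ≤ n)
    (hP : PState U M Γ 2) : False := by
  obtain ⟨N, J, y, Δ, hsub, hJ, hrich⟩ := hP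
  have hcardΔ := state_card hD3 U M Γ (fun i q hq => (hgood i q hq).prime) hcard hfail
    hS.nonprincipal 2 le_rfl hn N J y Δ hsub hJ
  obtain ⟨i, h1, h2, h3⟩ := (hcardΔ.and ((hrich ((N + 1) * C5 + 1)).and (hS.large 1))).exists
  obtain ⟨q, hq⟩ := h2.1
  have h4 := h2.2 q hq
  have h5 := rp_le C5 (Δ i) q (fun q' hq' hne => hC5 i q q' (hgood i q (hsub i hq))
    (hgood i q' (hsub i hq')) hne.symm)
  have h6 : ((N + 1) * C5 + 1) * M i ≤ (Δ i).card * C5 := by exact_mod_cast h4.trans h5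
  have h7 : (Δ i).card * C5 ≤ (N + 1) * M i * C5 := by
    refine Nat.mul_le_mul_right _ ?_
    simpa using h1
  nlinarith

theorem main (hK : KStmt.{u}) (hC3 : C3Stmt.{u}) (hC5 : C5Stmt.{u}) (hD1 : D1Stmt.{u})
    (hD2 : D2Stmt.{u}) (hD3 : D3Stmt.{u}) (hD4 : D4Stmt.{u}) : MainStmt.{u} := by
  classical
  intro n c hn
  obtain ⟨C5, hC5⟩ := hC5 n c
  by_contra hcon
  have hcon' : ∀ i : ℕ, ∃ (k : Type u) (_ : Field k) (M : ℕ)
      (Γ : Finset (Ideal (MvPolynomial (Fin n) k))), 1 ≤ M ∧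
      (ringChar k = 0 ∨ M ≤ ringChar k) ∧ (∀ q ∈ Γ, Good c q) ∧ Γ.card ≤ M ^ (n - 1) ∧
      ((i * M * Γ.card : ℕ) : ℕ∞) < (twoRich Γ).encard ∧ Fail M i Γ := by
    intro i
    by_contra h
    refine hcon ⟨i, i, ?_⟩
    intro k _ M Γ h1 h2 h3 h4 h5
    by_contra h6
    refine h ⟨k, inferInstance, M, Γ, h1, h2, h3, h4, h5, ?_⟩
    intro m hm hm' Z hZ hZd Γ' hΓ' hZq
    by_contra h7
    exact h6 ⟨m, hm, hm', Z, hZ, hZd, Γ', hΓ', hZq, not_lt.1 h7⟩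
  choose k inst M Γ hM hchar hgood hcard hbig hfail using hcon'
  have hC5' : ∀ i, ∀ q q' : Ideal (MvPolynomial (Fin n) (k i)), Good c q → Good c q' → q ≠ q' →
      (pts q ∩ pts q').encard ≤ (C5 : ℕ∞) := fun i q q' h h' hne => hC5 (k i) q q' h h' hne
  -- growth of M
  have hgrow : ∀ i, i * M i < C5 * M i ^ (n - 1) := by
    intro i
    have h1 := twoRich_le C5 (Γ i) (fun q hq q' hq' hne =>
      hC5' i q q' (hgood i q hq) (hgood i q' hq') hne.symm)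
    have h2 : i * M i * (Γ i).card < (Γ i).card * ((Γ i).card * C5) := by
      exact_mod_cast (hbig i).trans_le h1
    have h3 : 0 < (Γ i).card := by
      rcases Nat.eq_zero_or_pos (Γ i).card with h | h
      · rw [h] at h2
        simp at h2
      · exact h
    have h4 : i * M i < (Γ i).card * C5 := by
      have : i * M i * (Γ i).card < ((Γ i).card * C5) * (Γ i).card := by
        calc i * M i * (Γ i).card < (Γ i).card * ((Γ i).card * C5) := h2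
          _ = ((Γ i).card * C5) * (Γ i).card := by ring
      exact lt_of_mul_lt_mul_right this (Nat.zero_le _)
    calc i * M i < (Γ i).card * C5 := h4
      _ ≤ M i ^ (n - 1) * C5 := Nat.mul_le_mul_right _ (hcard i)
      _ = C5 * M i ^ (n - 1) := mul_comm _ _
  have hlarge : ∀ m : ℕ, ∀ᶠ i in atTop, m ≤ M i := by
    intro m
    filter_upwards [eventually_ge_atTop (C5 * m ^ (n - 1))] with i hi
    by_contra hlt
    have h1 : M i ≤ m := by omega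
    have h2 := hgrow i
    have h3 : C5 * M i ^ (n - 1) ≤ C5 * m ^ (n - 1) :=
      Nat.mul_le_mul_left _ (Nat.pow_le_pow_left h1 _)
    have h4 : i ≤ i * M i := Nat.le_mul_of_pos_right _ (hM i)
    omega
  let U : Ultrafilter ℕ := Filter.hyperfilter ℕ
  have hU : (U : Filter ℕ) ≤ atTop := Nat.hyperfilter_le_atTop
  have hS : Scale U k M := by
    refine ⟨fun m => hU (hlarge m), ?_, fun m => hU (eventually_ge_atTop m)⟩
    exact Filter.Eventually.of_forall hchar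
  -- pruning
  have hpr : ∀ i, ∃ Δ ⊆ Γ i, Δ.Nonempty ∧ ∀ q ∈ Δ, ((i * M i : ℕ) : ℕ∞) ≤ (rp Δ q).encard :=
    fun i => prune (i * M i) _ (Γ i) rfl (hbig i)
  choose Δ hΔ hΔne hΔr using hpr
  have hPn : PState U M Γ n := by
    refine ⟨1, fun _ => ⊥, fun _ => X, Δ, hΔ, ?_, ?_⟩
    · filter_upwards with i
      exact ⟨⟨1, le_rfl, hD1 (k i) n⟩, fun q _ => bot_le⟩
    · intro m
      filter_upwards [hS.nonprincipal m] with i hi
      refine ⟨hΔne i, fun q hq => le_trans ?_ (hΔr i q hq)⟩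
      exact_mod_cast Nat.mul_le_mul_right _ hi
  have hdesc : ∀ j, j + 2 ≤ n → PState U M Γ (n - j) := by
    intro j
    induction j with
    | zero => intro _; exact hPn
    | succ j ih =>
      intro hj
      have h1 := ih (by omega)
      have h2 : n - j = (n - (j + 1)) + 1 := by omega
      rw [h2] at h1
      exact step hK hC3 hD2 hD3 hD4 U M hC5' hS Γ hgood hcard hfail (n - (j + 1)) (by omega)
        (by omega) h1
  have h2 := hdesc (n - 2) (by omega)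
  have h3 : n - (n - 2) = 2 := by omega
  rw [h3] at h2
  exact state_two_false hD3 U M hC5' hS Γ hgood hcard hfail hn h2

end GZ
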