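import Pool.Agent.GZ.Rows

/-! GZ row UP (helper40): ultraproducts of fields with derivations. -/

namespace GZ

open MvPolynomial Filter

universe u

theorem mem_uIdeal {U : Ultrafilter ℕ} {K : ℕ → Type u} [∀ i, CommRing (K i)] {a : ∀ i, K i} :
    a ∈ uIdeal U K ↔ ∀ᶠ i in (U : Filter ℕ), a i = 0 := Iff.rfl

theorem uIdeal_isMaximal (U : Ultrafilter ℕ) (K : ℕ → Type u) [∀ i, Field (K i)] :
    (uIdeal U K).IsMaximal := by
  rw [Ideal.isMaximal_iff]
  refine ⟨?_, ?_⟩
  · intro h
    have h1 : ∀ᶠ i in (U : Filter ℕ), (1 : ∀ i, K i) i = 0 := h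
    obtain ⟨i, hi⟩ := h1.exists
    exact one_ne_zero hi
  · intro J a hJ ha haJ
    have ha' : ¬ ∀ᶠ i in (U : Filter ℕ), a i = 0 := ha
    rw [← Ultrafilter.eventually_not] at ha'
    have h1 : (fun i => (a i)⁻¹) * a - 1 ∈ uIdeal U K := by
      rw [mem_uIdeal]
      filter_upwards [ha'] with i hi
      simp [inv_mul_cancel₀ hi]
    have h2 := J.sub_mem (J.mul_mem_left (fun i => (a i)⁻¹) haJ) (hJ h1)
    rwa [sub_sub_cancel] at h2

theorem up : UPStmt.{u} := by
  intro U K _
  refine ⟨uIdeal_isMaximal U K, fun d => ?_⟩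
  let f : (∀ i, K i) →+ UProd U K :=
    { toFun := fun a => Ideal.Quotient.mk _ (fun i => d i (a i))
      map_zero' := by
        have : (fun i => d i ((0 : ∀ i, K i) i)) = (0 : ∀ i, K i) := by
          funext i
          simp
        rw [this, map_zero]
      map_add' := by
        intro a b
        rw [← map_add]
        congr 1
        funext i
        simp }
  have hf : ∀ a : ∀ i, K i, f a = Ideal.Quotient.mk _ (fun i => d i (a i)) := fun a => rfl
  let g : UProd U K →+ UProd U K := QuotientAddGroup.lift _ f (by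
    intro a ha
    have ha' : ∀ᶠ i in (U : Filter ℕ), a i = 0 := ha
    rw [AddMonoidHom.mem_ker, hf, Ideal.Quotient.eq_zero_iff_mem, mem_uIdeal]
    filter_upwards [ha'] with i hi
    rw [hi, map_zero])
  have hg : ∀ a : ∀ i, K i, g (Ideal.Quotient.mk _ a) = Ideal.Quotient.mk _ (fun i => d i (a i)) :=
    fun a => rfl
  refine ⟨Derivation.mk' g.toIntLinearMap ?_, fun a => hg a⟩
  intro x y
  obtain ⟨a, rfl⟩ := Ideal.Quotient.mk_surjective x
  obtain ⟨b, rfl⟩ := Ideal.Quotient.mk_surjective y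
  show g (Ideal.Quotient.mk _ a * Ideal.Quotient.mk _ b) =
    Ideal.Quotient.mk _ a * g (Ideal.Quotient.mk _ b) + Ideal.Quotient.mk _ b * g (Ideal.Quotient.mk _ a)
  rw [← map_mul, hg, hg, hg, ← map_mul, ← map_mul, ← map_add]
  congr 1
  funext i
  simp [Derivation.leibniz]

end GZ
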