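import Pool.Agent.GZ.A1
import Pool.Agent.GZ.A2
import Pool.Agent.GZ.A2b
import Pool.Agent.GZ.A3
import Pool.Agent.GZ.A4
import Pool.Agent.GZ.A5
import Pool.Agent.GZ.A6
import Pool.Agent.GZ.A6b
import Pool.Agent.GZ.A7
import Pool.Agent.GZ.A8a
import Pool.Agent.GZ.A8b
import Pool.Agent.GZ.A8c
import Pool.Agent.GZ.A8d
import Pool.Agent.GZ.A10
import Pool.Agent.GZ.B0
import Pool.Agent.GZ.B1
import Pool.Agent.GZ.B2
import Pool.Agent.GZ.B3
import Pool.Agent.GZ.B4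
import Pool.Agent.GZ.B5
import Pool.Agent.GZ.B6
import Pool.Agent.GZ.B7
import Pool.Agent.GZ.B8b
import Pool.Agent.GZ.UP
import Pool.Agent.GZ.C1
import Pool.Agent.GZ.C3
import Pool.Agent.GZ.C4
import Pool.Agent.GZ.C6
import Pool.Agent.GZ.GeoLin
import Pool.Agent.GZ.D1
import Pool.Agent.GZ.D2
import Pool.Agent.GZ.D3
import Pool.Agent.GZ.D4
import Pool.Agent.GZ.KThm
import Pool.Agent.GZ.Main
import Pool.Agent.GZ.Final

namespace GZ

universe u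

/-- Assembly over the missing rows. -/
theorem assembly (h9 : A9Stmt.{u}) (h9b : A9bStmt.{u}) (hb8 : B8Stmt.{u}) (hb9 : B9Stmt.{u})
    (hC5 : C5Stmt.{u}) (hGood : GoodStmt.{u}) : FinalStmt.{u} := by
  have hA6b : A6bStmt.{u} := a6b a4 a5
  have hA7 : A7Stmt.{u} := a7 (a6 a4) hA6b
  have hAS : ASStmt.{u} := a10 hA7 a8a (a8d a8c) h9 h9b
  have hB2 : B2Stmt.{u} := b2 c4
  have hB4 : B4Stmt.{u} := b4 b0 b1 hB2 (b3 hB2)
  have hB5 : B5Stmt.{u} := b5 b0 hB4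
  have hB6 : B6Stmt.{u} := b6 (b7 b0 b1)
  have hK : KStmt.{u} := kThm hAS hB5 hB6 hb8 b8b hb9
  have hMain : MainStmt.{u} := main hK c3 hC5 d1 d2 (d3 geoLin) d4
  exact final hMain hGood hC5

end GZ
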