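import Pool.Agent.GZ.Rows

/-! GZ row B8 (helper40): the field of a decided ring and its Lie algebra of derivations. -/

noncomputable section

namespace GZ

open MvPolynomial Filter

universe u

/-- Derivations of a ring with values in its field of quotients extend to the field. -/
theorem exists_derivation_of {O F : Type u} [CommRing O] [Field F] (φ : O →+* F)
    (frac : ∀ x : F, ∃ a b : O, φ b ≠ 0 ∧ x = φ a / φ b) (δ : O → F)
    (hadd : ∀ a b, δ (a + b) = δ a + δ b)
    (hmul : ∀ a b, δ (a * b) = φ a * δ b + φ b * δ a) (h0 : ∀ a, φ a = 0 → δ a = 0) :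
    ∃ X : Derivation ℤ F F, ∀ a, X (φ a) = δ a := by
  choose num den hden hfr using frac
  have hz : δ 0 = 0 := h0 0 (map_zero φ)
  have hneg : ∀ a, δ (-a) = -δ a := by
    intro a
    have := hadd a (-a)
    rw [add_neg_cancel, hz] at this
    linear_combination -this
  have hsub : ∀ a b, δ (a - b) = δ a - δ b := by
    intro a b
    rw [sub_eq_add_neg, hadd, hneg, sub_eq_add_neg]
  have h1 : δ 1 = 0 := by
    have := hmul 1 1
    rw [mul_one, map_one, one_mul] at this
    linear_combination -this
  let f : F → F := fun x => (δ (num x) - x * δ (den x)) / φ (den x)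
  have key : ∀ (x : F) (a b : O), φ b ≠ 0 → x * φ b = φ a → f x * φ b = δ a - x * δ b := by
    intro x a b hb hx
    have e1 : x * φ (den x) = φ (num x) := by
      have := hfr x
      rw [eq_div_iff (hden x)] at this
      exact this
    have e2 : δ (num x * b - a * den x) = 0 := by
      apply h0
      rw [map_sub, map_mul, map_mul, ← e1, ← hx]
      ring
    rw [hsub, hmul, hmul] at e2
    have e3 : f x * φ (den x) = δ (num x) - x * δ (den x) := by
      show (δ (num x) - x * δ (den x)) / φ (den x) * φ (den x) = _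
      rw [div_mul_cancel₀ _ (hden x)]
    apply mul_right_cancel₀ (hden x)
    linear_combination φ b * e3 + e2 + δ b * e1 - δ (den x) * hx
  have hfadd : ∀ x y, f (x + y) = f x + f y := by
    intro x y
    have ex : x * φ (den x) = φ (num x) := by
      have := hfr x
      rw [eq_div_iff (hden x)] at this
      exact this
    have ey : y * φ (den y) = φ (num y) := by
      have := hfr y
      rw [eq_div_iff (hden y)] at this
      exact this
    have k1 := key x _ _ (hden x) ex
    have k2 := key y _ _ (hden y) ey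
    have hxy : φ (den x * den y) ≠ 0 := by
      rw [map_mul]
      exact mul_ne_zero (hden x) (hden y)
    have k3 := key (x + y) (num x * den y + num y * den x) (den x * den y) hxy (by
      rw [map_mul, map_add, map_mul, map_mul, ← ex, ← ey]
      ring)
    apply mul_right_cancel₀ hxy
    rw [k3, hadd, hmul, hmul, hmul, map_mul, ← ex, ← ey]
    linear_combination -(φ (den y)) * k1 - φ (den x) * k2
  have hfmul : ∀ x y, f (x * y) = x * f y + y * f x := by
    intro x y
    have ex : x * φ (den x) = φ (num x) := by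
      have := hfr x
      rw [eq_div_iff (hden x)] at this
      exact this
    have ey : y * φ (den y) = φ (num y) := by
      have := hfr y
      rw [eq_div_iff (hden y)] at this
      exact this
    have k1 := key x _ _ (hden x) ex
    have k2 := key y _ _ (hden y) ey
    have hxy : φ (den x * den y) ≠ 0 := by
      rw [map_mul]
      exact mul_ne_zero (hden x) (hden y)
    have k3 := key (x * y) (num x * num y) (den x * den y) hxy (by
      rw [map_mul, map_mul, ← ex, ← ey]
      ring)
    apply mul_right_cancel₀ hxy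
    rw [k3, hmul, hmul, map_mul, ← ex, ← ey]
    linear_combination -(y * φ (den y)) * k1 - x * φ (den x) * k2
  have hf0 : f 0 = 0 := by
    have := hfadd 0 0
    rw [add_zero] at this
    linear_combination -this
  let g : F →+ F := { toFun := f, map_zero' := hf0, map_add' := hfadd }
  refine ⟨Derivation.mk' g.toIntLinearMap (fun x y => hfmul x y), fun a => ?_⟩
  have hb : φ (1 : O) ≠ 0 := by
    rw [map_one]
    exact one_ne_zero
  have := key (φ a) a 1 hb (by rw [map_one, mul_one])
  rw [map_one, mul_one, h1, mul_zero, sub_zero] at this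
  exact this

section

variable {U : Ultrafilter ℕ} {ν c : ℕ} {k : ℕ → Type u} [∀ i, Field (k i)]
  {S : ∀ i, CurveSys (k i) ν c} {M : ℕ → ℕ} {Γ : ∀ i, Finset (S i).ι}
  {O : Subring (∀ i, MvPolynomial (Fin ν) (k i))}

/-- the ideal of the elements which vanish on the family -/
def decIdeal (U : Ultrafilter ℕ) (Γ : ∀ i, Finset (S i).ι)
    (O : Subring (∀ i, MvPolynomial (Fin ν) (k i))) : Ideal O where
  carrier := {a | ∀ᶠ i in (U : Filter ℕ), ∀ γ ∈ Γ i, a.1 i ∈ (S i).r γ}
  add_mem' := by
    intro a b ha hb
    filter_upwards [ha, hb] with i h1 h2 γ hγ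
    exact Ideal.add_mem _ (h1 γ hγ) (h2 γ hγ)
  zero_mem' := Eventually.of_forall fun i γ _ => Ideal.zero_mem _
  smul_mem' := by
    intro x a ha
    filter_upwards [ha] with i h1 γ hγ
    exact Ideal.mul_mem_left _ _ (h1 γ hγ)

theorem mem_decIdeal {a : O} : a ∈ decIdeal U Γ O ↔
    ∀ᶠ i in (U : Filter ℕ), ∀ γ ∈ Γ i, a.1 i ∈ (S i).r γ := Iff.rfl

theorem decIdeal_isPrime (hR : Rich U S M Γ) (hO : DecRing U S M Γ O) :
    (decIdeal U Γ O).IsPrime := by
  refine ⟨?_, ?_⟩
  · intro h
    have h1 : (1 : O) ∈ decIdeal U Γ O := by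
      rw [h]
      exact Submodule.mem_top
    rw [mem_decIdeal] at h1
    obtain ⟨i, h2, h3⟩ := (h1.and (hR 0)).exists
    obtain ⟨γ, hγ⟩ := h3.1
    exact ((S i).prime γ).ne_top ((Ideal.eq_top_iff_one _).2 (h2 γ hγ))
  · intro a b hab
    rcases hO.dec a.1 a.2 with ha | ha
    · exact Or.inl ha
    · right
      rw [mem_decIdeal] at hab ⊢
      filter_upwards [ha, hab] with i h1 h2 γ hγ
      exact (((S i).prime γ).mem_or_mem (h2 γ hγ)).resolve_left (h1 γ hγ)

/-- the partial derivatives on the ring -/
def decPd (hO : DecRing U S M Γ O) (l : Fin ν) (a : O) : O :=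
  ⟨fun i => pderiv l (a.1 i), hO.pd a.1 a.2 l⟩

theorem decPd_add (hO : DecRing U S M Γ O) (l : Fin ν) (a b : O) :
    decPd hO l (a + b) = decPd hO l a + decPd hO l b := by
  apply Subtype.ext
  funext i
  show pderiv l (a.1 i + b.1 i) = pderiv l (a.1 i) + pderiv l (b.1 i)
  rw [map_add]

theorem decPd_mul (hO : DecRing U S M Γ O) (l : Fin ν) (a b : O) :
    decPd hO l (a * b) = a * decPd hO l b + b * decPd hO l a := by
  apply Subtype.ext
  funext i
  show pderiv l (a.1 i * b.1 i) = a.1 i * pderiv l (b.1 i) + b.1 i * pderiv l (a.1 i)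
  rw [Derivation.leibniz]
  rfl

theorem pderiv_comm' {R : Type u} [CommRing R] (l m : Fin ν) (a : MvPolynomial (Fin ν) R) :
    pderiv l (pderiv m a) = pderiv m (pderiv l a) := by
  have h : ⁅(pderiv l : Derivation R (MvPolynomial (Fin ν) R) (MvPolynomial (Fin ν) R)),
      (pderiv m : Derivation R (MvPolynomial (Fin ν) R) (MvPolynomial (Fin ν) R))⁆ = 0 := by
    apply MvPolynomial.derivation_ext
    intro i
    have h1 : ∀ p q : Fin ν, pderiv p (pderiv q (X i : MvPolynomial (Fin ν) R)) = 0 := by
      intro p q
      rw [pderiv_X]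
      by_cases h : i = q
      · subst h
        rw [Pi.single_eq_same, Derivation.map_one_eq_zero]
      · rw [Pi.single_eq_of_ne h, map_zero]
    rw [Derivation.commutator_apply, h1, h1, sub_zero, Derivation.zero_apply]
  have h2 := congrArg (fun D => D a) h
  simp only [Derivation.commutator_apply, Derivation.zero_apply] at h2
  exact sub_eq_zero.1 h2

theorem decPd_comm (hO : DecRing U S M Γ O) (l m : Fin ν) (a : O) :
    decPd hO l (decPd hO m a) = decPd hO m (decPd hO l a) := by
  apply Subtype.ext
  funext i
  exact pderiv_comm' l m (a.1 i)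

/-- the coordinates -/
def decVar (hO : DecRing U S M Γ O) (l : Fin ν) : O := ⟨fun i => X l, hO.var l⟩

theorem decPd_var (hO : DecRing U S M Γ O) (l m : Fin ν) :
    decPd hO l (decVar hO m) = if m = l then 1 else 0 := by
  apply Subtype.ext
  funext i
  show pderiv l (X m) = _
  rw [pderiv_X]
  by_cases h : m = l
  · subst h
    simp
  · rw [Pi.single_eq_of_ne h, if_neg h]
    rfl

end

theorem exists_decField {U : Ultrafilter ℕ} {ν c : ℕ} {k : ℕ → Type u} [∀ i, Field (k i)]
    {S : ∀ i, CurveSys (k i) ν c} {M : ℕ → ℕ} {Γ : ∀ i, Finset (S i).ι}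
    {O : Subring (∀ i, MvPolynomial (Fin ν) (k i))} (hR : Rich U S M Γ) (hO : DecRing U S M Γ O) :
    ∃ (F : Type u) (_ : Field F) (φ : O →+* F),
      (∀ a : O, φ a = 0 ↔ ∀ᶠ i in (U : Filter ℕ), ∀ γ ∈ Γ i, a.1 i ∈ (S i).r γ) ∧
      ∀ x : F, ∃ a b : O, φ b ≠ 0 ∧ x = φ a / φ b := by
  have hprime := decIdeal_isPrime hR hO
  let A := O ⧸ decIdeal U Γ O
  let F := FractionRing A
  let φ : O →+* F := (algebraMap A F).comp (Ideal.Quotient.mk _)
  refine ⟨F, inferInstance, φ, ?_, ?_⟩
  · intro a
    show algebraMap A F (Ideal.Quotient.mk _ a) = 0 ↔ _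
    rw [IsFractionRing.to_map_eq_zero_iff, Ideal.Quotient.eq_zero_iff_mem]
    exact Iff.rfl
  · intro x
    obtain ⟨a, b, hb, hx⟩ := IsFractionRing.div_surjective (A := A) x
    obtain ⟨a, rfl⟩ := Ideal.Quotient.mk_surjective a
    obtain ⟨b, rfl⟩ := Ideal.Quotient.mk_surjective b
    refine ⟨a, b, ?_, hx.symm⟩
    show algebraMap A F (Ideal.Quotient.mk _ b) ≠ 0
    rw [Ne, IsFractionRing.to_map_eq_zero_iff]
    exact nonZeroDivisors.ne_zero hb

theorem b8 : B8Stmt.{u} := by
  intro U ν c k _ S M hM Γ hR O hO
  obtain ⟨F, _, φ, hker, hfrac⟩ := exists_decField hR hO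
  have hchar : CharZero F := by
    apply charZero_of_inj_zero
    intro n hn
    have h1 : φ (n : O) = 0 := by
      rw [map_natCast]
      exact hn
    rw [hker] at h1
    obtain ⟨i, h2, h3, h4, h5⟩ := (h1.and ((hR 0).and ((hM.large (n + 1)).and hM.char))).exists
    obtain ⟨γ, hγ⟩ := h3.1
    have h6 : ((n : ℕ) : MvPolynomial (Fin ν) (k i)) ∈ (S i).r γ := by
      have := h2 γ hγ
      have e : ((n : O).1 i) = ((n : ℕ) : MvPolynomial (Fin ν) (k i)) := by
        rw [SubringClass.coe_natCast]
        rfl
      rwa [e] at this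
    have h7 : (n : k i) = 0 := by
      by_contra h
      apply ((S i).prime γ).ne_top
      apply Ideal.eq_top_of_isUnit_mem _ h6
      rw [← map_natCast (C : k i →+* MvPolynomial (Fin ν) (k i)) n]
      exact (IsUnit.mk0 _ h).map C
    rw [ringChar.spec] at h7
    rcases h5 with h5 | h5
    · rw [h5] at h7
      exact Nat.eq_zero_of_zero_dvd h7
    · by_contra hn0
      have := Nat.le_of_dvd (Nat.pos_of_ne_zero hn0) h7
      omega
  let y : Fin ν → F := fun l => φ (decVar hO l)
  have hpd : ∀ (a : O) (b : Fin ν → O), (∀ l, (b l).1 = fun i => pderiv l (a.1 i)) →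
      ∀ l, b l = decPd hO l a := by
    intro a b hb l
    apply Subtype.ext
    rw [hb l]
    rfl
  let T : Submodule F (Derivation ℤ F F) :=
    { carrier := {D | ∀ a : O, D (φ a) = ∑ l, D (y l) * φ (decPd hO l a)}
      add_mem' := by
        intro D D' h h' a
        rw [Derivation.add_apply, h a, h' a, ← Finset.sum_add_distrib]
        refine Finset.sum_congr rfl fun l _ => ?_
        rw [Derivation.add_apply, add_mul]
      zero_mem' := by
        intro a
        simp
      smul_mem' := by
        intro x D h a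
        rw [Derivation.smul_apply, h a, smul_eq_mul, Finset.mul_sum]
        refine Finset.sum_congr rfl fun l _ => ?_
        rw [Derivation.smul_apply, smul_eq_mul, mul_assoc] }
  have hT : ∀ D : Derivation ℤ F F, D ∈ T ↔ ∀ a : O, D (φ a) = ∑ l, D (y l) * φ (decPd hO l a) :=
    fun D => Iff.rfl
  have hlie : LieT y T := by
    refine ⟨?_, ?_⟩
    · intro D hD D' hD'
      rw [hT] at hD hD' ⊢
      intro a
      simp only [Derivation.commutator_apply]
      rw [hD' a, hD a, map_sum, map_sum]
      have e1 : ∀ l, D (D' (y l) * φ (decPd hO l a)) = D (D' (y l)) * φ (decPd hO l a) +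
          ∑ m, D' (y l) * D (y m) * φ (decPd hO m (decPd hO l a)) := by
        intro l
        rw [Derivation.leibniz, hD (decPd hO l a), smul_eq_mul, smul_eq_mul, Finset.mul_sum, add_comm,
          mul_comm (φ _)]
        congr 1
        exact Finset.sum_congr rfl fun m _ => by ring
      have e2 : ∀ l, D' (D (y l) * φ (decPd hO l a)) = D' (D (y l)) * φ (decPd hO l a) +
          ∑ m, D (y l) * D' (y m) * φ (decPd hO m (decPd hO l a)) := by
        intro l
        rw [Derivation.leibniz, hD' (decPd hO l a), smul_eq_mul, smul_eq_mul, Finset.mul_sum, add_comm,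
          mul_comm (φ _)]
        congr 1
        exact Finset.sum_congr rfl fun m _ => by ring
      simp_rw [e1, e2, Finset.sum_add_distrib]
      have e3 : ∑ l, ∑ m, D' (y l) * D (y m) * φ (decPd hO m (decPd hO l a)) =
          ∑ l, ∑ m, D (y l) * D' (y m) * φ (decPd hO m (decPd hO l a)) := by
        rw [Finset.sum_comm]
        refine Finset.sum_congr rfl fun l _ => Finset.sum_congr rfl fun m _ => ?_
        rw [decPd_comm]
        ring
      rw [e3]
      simp_rw [sub_mul, Finset.sum_sub_distrib]
      ring
    · intro D hD hy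
      rw [hT] at hD
      have h1 : ∀ a, D (φ a) = 0 := by
        intro a
        rw [hD a]
        exact Finset.sum_eq_zero fun l _ => by rw [hy l, zero_mul]
      apply Derivation.ext
      intro x
      obtain ⟨a, b, hb, hx⟩ := hfrac x
      rw [eq_div_iff hb] at hx
      have h2 := congrArg D hx
      rw [Derivation.leibniz, h1 a, h1 b, smul_zero, zero_add, smul_eq_mul] at h2
      rw [Derivation.zero_apply]
      exact (mul_eq_zero.1 h2).resolve_left hb
  refine ⟨{ F := F, charZero := hchar, φ := φ, ker := hker, frac := hfrac, y := y, hy := ?_, T := T,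
            lie := hlie, mem := ?_, ofVec := ?_ }⟩
  · intro l a ha
    show φ (decVar hO l) = φ a
    congr 1
    apply Subtype.ext
    rw [ha]
    rfl
  · intro D
    rw [hT]
    constructor
    · intro h a b hb
      rw [h a]
      exact Finset.sum_congr rfl fun l _ => by rw [hpd a b hb l]
    · intro h a
      exact h a (fun l => decPd hO l a) (fun l => rfl)
  · intro w hw
    have hw' : ∀ a : O, φ a = 0 → ∑ l, w l * φ (decPd hO l a) = 0 := fun a ha =>
      hw a (fun l => decPd hO l a) (fun l => rfl) ha
    obtain ⟨D, hD⟩ := exists_derivation_of φ hfrac (fun a => ∑ l, w l * φ (decPd hO l a))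
      (fun a b => by
        rw [← Finset.sum_add_distrib]
        refine Finset.sum_congr rfl fun l _ => ?_
        rw [decPd_add, map_add, mul_add])
      (fun a b => by
        rw [Finset.mul_sum, Finset.mul_sum, ← Finset.sum_add_distrib]
        refine Finset.sum_congr rfl fun l _ => ?_
        rw [decPd_mul, map_add, map_mul, map_mul]
        ring)
      hw'
    have hDy : ∀ l, D (y l) = w l := by
      intro l
      show D (φ (decVar hO l)) = w l
      rw [hD, Finset.sum_eq_single l]
      · rw [decPd_var, if_pos rfl, map_one, mul_one]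
      · intro m _ hm
        rw [decPd_var, if_neg (Ne.symm hm), map_zero, mul_zero]
      · intro h
        exact absurd (Finset.mem_univ l) h
    refine ⟨D, ?_, hDy⟩
    rw [hT]
    intro a
    rw [hD]
    exact Finset.sum_congr rfl fun l _ => by rw [hDy]

end GZ
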