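import Pool.Agent.GZ.Rows

/-!
# GZ row B9: a sequence of members gives a straight derivation of an extension field

The extension field is the ultraproduct of the function fields of the members, and the derivation is the
ultraproduct of the derivations of row C7.
-/

namespace GZ

open MvPolynomial Filter

universe u

namespace B9

/-! ### Generalities -/

theorem mk_zero_iff (U : Ultrafilter ℕ) (K : ℕ → Type u) [∀ i, CommRing (K i)] (a : ∀ i, K i) :
    Ideal.Quotient.mk (uIdeal U K) a = 0 ↔ ∀ᶠ i in (U : Filter ℕ), a i = 0 := by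
  rw [Ideal.Quotient.eq_zero_iff_mem]
  rfl

theorem mk_eq_iff (U : Ultrafilter ℕ) (K : ℕ → Type u) [∀ i, CommRing (K i)] (a b : ∀ i, K i) :
    Ideal.Quotient.mk (uIdeal U K) a = Ideal.Quotient.mk (uIdeal U K) b ↔
      ∀ᶠ i in (U : Filter ℕ), a i = b i := by
  rw [← sub_eq_zero, ← map_sub, mk_zero_iff]
  simp [sub_eq_zero]

/-- A ring homomorphism out of a field of quotients. -/
theorem exists_hom {O F E : Type u} [CommRing O] [Field F] [Field E] (φ : O →+* F)
    (hfrac : ∀ x : F, ∃ a b : O, φ b ≠ 0 ∧ x = φ a / φ b) (ψ : O →+* E)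
    (h : ∀ a, φ a = 0 ↔ ψ a = 0) : ∃ f : F →+* E, ∀ a, f (φ a) = ψ a := by
  choose p q hq hpq using hfrac
  have key : ∀ a b : O, φ b ≠ 0 → ψ (p (φ a / φ b)) / ψ (q (φ a / φ b)) = ψ a / ψ b := by
    intro a b hb
    have h1 := hpq (φ a / φ b)
    have h2 := hq (φ a / φ b)
    set p' := p (φ a / φ b)
    set q' := q (φ a / φ b)
    have h3 : φ (a * q' - p' * b) = 0 := by
      rw [map_sub, map_mul, map_mul, sub_eq_zero]
      rwa [div_eq_div_iff hb h2] at h1
    have h4 := (h _).1 h3
    rw [map_sub, map_mul, map_mul, sub_eq_zero] at h4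
    have hb' : ψ b ≠ 0 := fun e => hb ((h b).2 e)
    have hq' : ψ q' ≠ 0 := fun e => h2 ((h q').2 e)
    rw [div_eq_div_iff hq' hb']
    exact h4.symm
  have val : ∀ (x : F) (a b : O), φ b ≠ 0 → x = φ a / φ b → ψ (p x) / ψ (q x) = ψ a / ψ b := by
    intro x a b hb hx
    rw [hx]
    exact key a b hb
  have hψ : ∀ b, φ b ≠ 0 → ψ b ≠ 0 := fun b hb e => hb ((h b).2 e)
  have h1 : φ (1 : O) ≠ 0 := by simp
  refine ⟨{ toFun := fun x => ψ (p x) / ψ (q x), map_one' := ?_, map_mul' := ?_, map_zero' := ?_, map_add' := ?_ }, fun a => ?_⟩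
  · rw [val 1 1 1 h1 (by simp)]
    simp
  · intro x y
    rw [val (x * y) (p x * p y) (q x * q y) (by rw [map_mul]; exact mul_ne_zero (hq x) (hq y))
      (by rw [map_mul, map_mul, mul_div_mul_comm, ← hpq x, ← hpq y])]
    rw [map_mul, map_mul, mul_div_mul_comm]
  · rw [val 0 0 1 h1 (by simp)]
    simp
  · intro x y
    rw [val (x + y) (p x * q y + q x * p y) (q x * q y)
      (by rw [map_mul]; exact mul_ne_zero (hq x) (hq y))
      (by rw [map_add, map_mul, map_mul, map_mul, ← div_add_div _ _ (hq x) (hq y), ← hpq x, ← hpq y])]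
    rw [map_add, map_mul, map_mul, map_mul, ← div_add_div _ _ (hψ _ (hq x)) (hψ _ (hq y))]
  · show ψ (p (φ a)) / ψ (q (φ a)) = ψ a
    rw [val (φ a) a 1 h1 (by simp)]
    simp

/-- Expansion of finitely many vectors in a basis of their span. -/
theorem exists_expand {F E : Type u} [Field F] [Field E] [Algebra F E] {ν : ℕ} (w : Fin ν → E) :
    ∃ (N : ℕ) (e : Fin N → E) (v : Fin N → Fin ν → F), LinearIndependent F e ∧
      ∀ l, w l = ∑ b, e b * algebraMap F E (v b l) := by
  let V := Submodule.span F (Set.range w)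
  have : FiniteDimensional F V := FiniteDimensional.span_of_finite F (Set.finite_range w)
  let B := Module.finBasis F V
  have hw : ∀ l, w l ∈ V := fun l => Submodule.subset_span ⟨l, rfl⟩
  refine ⟨Module.finrank F V, fun b => (B b : E), fun b l => B.repr ⟨w l, hw l⟩ b, ?_, fun l => ?_⟩
  · exact B.linearIndependent.map' V.subtype (by simp)
  · have h1 := congrArg (fun z : V => (z : E)) (B.sum_repr ⟨w l, hw l⟩)
    simp only at h1
    rw [← h1]
    simp only [AddSubmonoidClass.coe_finsetSum, Submodule.coe_smul, Algebra.smul_def]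
    exact Finset.sum_congr rfl fun b _ => mul_comm _ _

/-- The map from polynomials to the function field. -/
noncomputable def toK {k : Type u} [Field k] {ν : ℕ} (r : Ideal (MvPolynomial (Fin ν) k)) :
    MvPolynomial (Fin ν) k →+* FractionRing (MvPolynomial (Fin ν) k ⧸ r) :=
  (algebraMap _ _).comp (Ideal.Quotient.mk r)

theorem toK_zero {k : Type u} [Field k] {ν : ℕ} (r : Ideal (MvPolynomial (Fin ν) k)) [r.IsPrime]
    (P : MvPolynomial (Fin ν) k) : toK r P = 0 ↔ P ∈ r := by
  unfold toK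
  rw [RingHom.comp_apply, map_eq_zero_iff _ (IsFractionRing.injective (MvPolynomial (Fin ν) k ⧸ r)
      (FractionRing (MvPolynomial (Fin ν) k ⧸ r))), Ideal.Quotient.eq_zero_iff_mem]

/-- The chain rule. -/
theorem chain {k : Type u} [Field k] {ν : ℕ} (r : Ideal (MvPolynomial (Fin ν) k)) [r.IsPrime]
    (d : Derivation k (FractionRing (MvPolynomial (Fin ν) k ⧸ r))
      (FractionRing (MvPolynomial (Fin ν) k ⧸ r))) (P : MvPolynomial (Fin ν) k) :
    d (toK r P) = ∑ l, d (toK r (X l)) * toK r (pderiv l P) := by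
  induction P using MvPolynomial.induction_on with
  | C a =>
    have h1 : toK r (C a) = algebraMap k _ a := by
      unfold toK
      rw [RingHom.comp_apply, ← MvPolynomial.algebraMap_eq]
      rfl
    rw [h1, Derivation.map_algebraMap]
    simp
  | add p q hp hq =>
    rw [map_add, map_add, hp, hq, ← Finset.sum_add_distrib]
    refine Finset.sum_congr rfl fun l _ => ?_
    rw [map_add, map_add]
    ring
  | mul_X p n hp =>
    rw [map_mul, Derivation.leibniz, hp]
    have h2 : ∀ l, d (toK r (X l)) * toK r (pderiv l (p * X n)) =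
        (if l = n then toK r p * d (toK r (X n)) else 0) +
        toK r (X n) * (d (toK r (X l)) * toK r (pderiv l p)) := by
      intro l
      rw [Derivation.leibniz, MvPolynomial.pderiv_X, smul_eq_mul, smul_eq_mul, map_add, map_mul,
        map_mul]
      by_cases hl : l = n
      · subst hl
        simp
        ring
      · simp [hl, Ne.symm hl]
        ring
    simp only [h2, Finset.sum_add_distrib, Finset.sum_ite_eq', Finset.mem_univ, if_true,
      smul_eq_mul, Finset.mul_sum]

/-- Two additive maps which satisfy the Leibniz rule over a homomorphism and agree on `φ O` agree. -/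
theorem ext_frac {O F E : Type u} [CommRing O] [Field F] [Field E] (φ : O →+* F)
    (hfrac : ∀ x : F, ∃ a b : O, φ b ≠ 0 ∧ x = φ a / φ b) (f : F →+* E) (D D' : F → E)
    (hD : ∀ a b, D (a * b) = f a * D b + f b * D a)
    (hD' : ∀ a b, D' (a * b) = f a * D' b + f b * D' a)
    (h : ∀ a : O, D (φ a) = D' (φ a)) (x : F) : D x = D' x := by
  obtain ⟨a, b, hb, rfl⟩ := hfrac x
  have h1 : φ a = φ b * (φ a / φ b) := by field_simp
  have h2 := h a
  have h3 := hD (φ b) (φ a / φ b)
  have h4 := hD' (φ b) (φ a / φ b)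
  rw [← h1] at h3 h4
  rw [h3, h4, h b] at h2
  have h5 : f (φ b) ≠ 0 := by
    rw [Ne, map_eq_zero]
    exact hb
  exact mul_left_cancel₀ h5 (add_right_cancel h2)

theorem exists_int {k K : Type u} [Field k] [Field K] [Algebra k K] (d : Derivation k K K) :
    ∃ D : Derivation ℤ K K, ∀ a, D a = d a :=
  ⟨Derivation.mk' (AddMonoidHom.toIntLinearMap (d.toLinearMap.toAddMonoidHom))
    (fun a b => d.leibniz a b), fun _ => rfl⟩

/-- The ultraproduct, as an abstract field. -/
theorem up_fun (hUP : UPStmt.{u}) (U : Ultrafilter ℕ) (K : ℕ → Type u) [∀ i, Field (K i)]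
    (g : ∀ i, K i → K i) (hg : ∀ i, ∃ D : Derivation ℤ (K i) (K i), ∀ a, D a = g i a) :
    ∃ (E : Type u) (_ : Field E) (mk : (∀ i, K i) →+* E) (D : Derivation ℤ E E),
      (∀ a, mk a = 0 ↔ ∀ᶠ i in (U : Filter ℕ), a i = 0) ∧
      ∀ a : ∀ i, K i, D (mk a) = mk (fun i => g i (a i)) := by
  choose dz hdz using hg
  obtain ⟨h1, h2⟩ := hUP U K
  obtain ⟨D, hD⟩ := h2 dz
  refine ⟨UProd U K, Ideal.Quotient.field (uIdeal U K), Ideal.Quotient.mk (uIdeal U K),
    Derivation.mk' (AddMonoidHom.toIntLinearMap D.toLinearMap.toAddMonoidHom)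
      (fun a b => D.leibniz a b), mk_zero_iff U K, fun a => ?_⟩
  have h3 := hD a
  simp only [hdz] at h3
  exact h3

theorem ultra_const (U : Ultrafilter ℕ) {α : Type*} [Finite α] (g : ℕ → α) :
    ∃ v, ∀ᶠ i in (U : Filter ℕ), g i = v := by
  obtain ⟨v, hv⟩ := (U.map g).eq_pure_of_finite
  refine ⟨v, ?_⟩
  have h1 : ({v} : Set α) ∈ (U.map g : Filter α) := by
    rw [hv]
    exact mem_pure.2 rfl
  exact h1

/-- Bounded sequences of functions are constant almost everywhere. -/
theorem ultra_bdd (U : Ultrafilter ℕ) {ν c : ℕ} (g : ℕ → Fin ν → ℕ) (h : ∀ i j, g i j ≤ c) :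
    ∃ v : Fin ν → ℕ, ∀ᶠ i in (U : Filter ℕ), g i = v := by
  obtain ⟨v, hv⟩ := ultra_const U (fun i j => (⟨g i j, Nat.lt_succ_of_le (h i j)⟩ : Fin (c + 1)))
  refine ⟨fun j => v j, ?_⟩
  filter_upwards [hv] with i hi
  funext j
  have := congrFun hi j
  rw [← this]

/-- A point on the member at which a given small nonvanishing polynomial does not vanish. -/
theorem exists_pt {k : Type u} [Field k] {ν c : ℕ} (S : CurveSys k ν c) (Γ : Finset S.ι) (B : ℕ)
    (hR : RichAt S Γ B) (γ : S.ι) (hγ : γ ∈ Γ) (P : MvPolynomial (Fin ν) k) (hP : P ∉ S.r γ)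
    (hB : c * P.totalDegree < B) : ∃ x, S.inc x γ ∧ eval (S.pos x) P ≠ 0 := by
  by_contra hcon
  push Not at hcon
  have h1 := hR.2 γ hγ
  have h2 := S.bez γ P hP
  have h3 : richPts S Γ γ ⊆ {x | S.inc x γ ∧ eval (S.pos x) P = 0} :=
    fun x hx => ⟨hx.1, hcon x hx.1⟩
  have h4 := h1.trans ((Set.encard_le_encard h3).trans h2)
  have h5 : B ≤ c * P.totalDegree := by exact_mod_cast h4
  omega

theorem lform_deg {k : Type u} [Field k] {ν : ℕ} (s : Fin ν → ℕ) :
    (lform s (X : Fin ν → MvPolynomial (Fin ν) k)).totalDegree ≤ 1 := by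
  unfold lform
  refine totalDegree_finsetSum_le fun j _ => (totalDegree_mul _ _).trans ?_
  have h1 : ((s j : ℕ) : MvPolynomial (Fin ν) k).totalDegree = 0 := by
    rw [← map_natCast (C : k →+* MvPolynomial (Fin ν) k)]
    exact totalDegree_C _
  rw [h1, totalDegree_X]

end B9

open B9 in
/-- B9. -/
theorem B9_proof (hUP : UPStmt.{u}) (hC6 : C6Stmt.{u}) (hC7 : C7Stmt.{u}) : B9Stmt.{u} := by
  intro U ν c k _ S M hM Γ hR O hO FO γ hγ
  have hr : ∀ i, ((S i).r (γ i)).IsPrime := fun i => (S i).prime (γ i)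
  choose s hsc hst hN using fun i => (S i).straight (γ i)
  choose N hNc hcomp using hN
  have hd : ∀ i, ∃ d : Derivation (k i) (FractionRing (MvPolynomial (Fin ν) (k i) ⧸ (S i).r (γ i)))
      (FractionRing (MvPolynomial (Fin ν) (k i) ⧸ (S i).r (γ i))),
      (ringChar (k i) = 0 ∨ c < ringChar (k i)) →
        d (toK ((S i).r (γ i)) (lform (s i) X)) = 1 := by
    intro i
    by_cases h : ringChar (k i) = 0 ∨ c < ringChar (k i)
    · obtain ⟨d, hd⟩ := hC7 (k i) ν c ((S i).r (γ i)) (lform (s i) X) (hst i)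
        (fun j => ⟨N i j, hNc i j, hcomp i j⟩) h
      exact ⟨d, fun _ => hd⟩
    · exact ⟨0, fun h' => absurd h' h⟩
  choose d hd using hd
  have hchar : ∀ᶠ i in (U : Filter ℕ), ringChar (k i) = 0 ∨ c < ringChar (k i) := by
    filter_upwards [hM.char, hM.large (c + 1)] with i h1 h2
    rcases h1 with h1 | h1
    · exact Or.inl h1
    · exact Or.inr (by omega)
  let K : ℕ → Type u := fun i => FractionRing (MvPolynomial (Fin ν) (k i) ⧸ (S i).r (γ i))
  obtain ⟨E, _, mk, D, hmk, hD⟩ := up_fun hUP U K (fun i a => d i a) (fun i => exists_int (d i))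
  have hmkeq : ∀ a b, mk a = mk b ↔ ∀ᶠ i in (U : Filter ℕ), a i = b i := by
    intro a b
    rw [← sub_eq_zero, ← map_sub, hmk]
    simp [sub_eq_zero]
  let ψ₀ : (∀ i, MvPolynomial (Fin ν) (k i)) →+* (∀ i, K i) :=
    RingHom.pi (fun i => (toK ((S i).r (γ i))).comp (Pi.evalRingHom _ i))
  let ψ : O →+* E := (mk.comp ψ₀).comp O.subtype
  have hψ : ∀ a : O, ψ a = mk (fun i => toK ((S i).r (γ i)) (a.1 i)) := fun a => rfl
  have hψ0 : ∀ a : O, ψ a = 0 ↔ ∀ᶠ i in (U : Filter ℕ), a.1 i ∈ (S i).r (γ i) := by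
    intro a
    rw [hψ, hmk]
    exact Filter.eventually_congr (Filter.Eventually.of_forall fun i => toK_zero _ _)
  have hker : ∀ a : O, FO.φ a = 0 ↔ ψ a = 0 := by
    intro a
    rw [hψ0, FO.ker]
    constructor
    · intro h
      filter_upwards [h, hγ] with i h1 h2
      exact h1 _ h2
    · intro h
      rcases hO.dec a.1 a.2 with h1 | h1
      · exact h1
      · exfalso
        obtain ⟨i, h2, h3, h4⟩ := (h.and (h1.and hγ)).exists
        exact h3 _ h4 h2
  obtain ⟨f, hf⟩ := exists_hom FO.φ FO.frac ψ hker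
  let _ : Algebra FO.F (E) := f.toAlgebra
  have hfa : ∀ x : FO.F, algebraMap FO.F E x = f x := fun x => rfl
  -- the chain rule in the ultraproduct
  let dl : O → Fin ν → O := fun a l => ⟨fun i => pderiv l (a.1 i), hO.pd a.1 a.2 l⟩
  let w : Fin ν → E := fun l =>
    mk (fun i => d i (toK ((S i).r (γ i)) (X l)))
  have hDψ : ∀ a : O, D (ψ a) = ∑ l, w l * ψ (dl a l) := by
    intro a
    rw [hψ, hD]
    have h1 : ∀ l, w l * ψ (dl a l) = mk
        ((fun i => d i (toK ((S i).r (γ i)) (X l))) *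
          fun i => toK ((S i).r (γ i)) (pderiv l (a.1 i))) := by
      intro l
      rw [map_mul]
      rfl
    rw [Finset.sum_congr rfl fun l _ => h1 l, ← map_sum]
    congr 1
    funext i
    rw [Finset.sum_apply]
    exact chain _ _ _
  obtain ⟨N', e, v, hli, hwv⟩ := exists_expand (F := FO.F) w
  have hexp : ∀ u : Fin ν → FO.F,
      ∑ l, w l * f (u l) = ∑ b, e b * f (∑ l, v b l * u l) := by
    intro u
    have h1 : ∀ l, w l * f (u l) = ∑ b, e b * (f (v b l) * f (u l)) := by
      intro l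
      rw [hwv l, Finset.sum_mul]
      exact Finset.sum_congr rfl fun b _ => mul_assoc _ _ _
    rw [Finset.sum_congr rfl fun l _ => h1 l, Finset.sum_comm]
    refine Finset.sum_congr rfl fun b _ => ?_
    rw [map_sum, Finset.mul_sum]
    exact Finset.sum_congr rfl fun l _ => by rw [map_mul]
  have hX : ∀ b, ∃ Z ∈ FO.T, ∀ l, Z (FO.y l) = v b l := by
    intro b
    refine FO.ofVec (v b) ?_
    intro a b' hb' ha
    have hb'' : ∀ l, b' l = dl a l := fun l => Subtype.ext (hb' l)
    have h1 : ψ a = 0 := (hker a).1 ha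
    have h2 := hDψ a
    rw [h1, map_zero] at h2
    have h3 : ∑ b, (∑ l, v b l * FO.φ (dl a l)) • e b = 0 := by
      have h4 := hexp fun l => FO.φ (dl a l)
      simp only [hf] at h4
      rw [← h2] at h4
      rw [h4]
      refine Finset.sum_congr rfl fun b _ => ?_
      rw [Algebra.smul_def, mul_comm]
      rfl
    have h5 := Fintype.linearIndependent_iff.1 hli _ h3 b
    simp only [hb'']
    exact h5
  choose Xs hXT hXy using hX
  have hXφ : ∀ b (a : O), Xs b (FO.φ a) = ∑ l, v b l * FO.φ (dl a l) := by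
    intro b a
    rw [(FO.mem (Xs b)).1 (hXT b) a (dl a) (fun l => rfl)]
    exact Finset.sum_congr rfl fun l _ => by rw [hXy]
  have hy : ∀ j, f (FO.y j) = mk
      (fun i => toK ((S i).r (γ i)) (X j)) := by
    intro j
    rw [FO.hy j ⟨_, hO.var j⟩ rfl, hf]
    rfl
  obtain ⟨s₀, hs₀⟩ := ultra_bdd U s hsc
  obtain ⟨N₀, hN₀⟩ := ultra_bdd U N hNc
  have hL : lform s₀ (fun j => algebraMap FO.F E (FO.y j)) =
      mk (fun i => toK ((S i).r (γ i)) (lform s₀ X)) := by
    have h1 : (fun i => toK ((S i).r (γ i)) (lform s₀ X)) =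
        ∑ j, (s₀ j : ∀ i, K i) * fun i => toK ((S i).r (γ i)) (X j) := by
      funext i
      rw [Finset.sum_apply]
      simp only [lform, map_sum, map_mul, map_natCast, Pi.mul_apply, Pi.natCast_apply]
    rw [h1, map_sum]
    simp only [lform]
    refine Finset.sum_congr rfl fun j _ => ?_
    rw [map_mul, map_natCast, hfa, hy]
  refine ⟨E, inferInstance, inferInstance, D, ⟨N', e, Xs, hXT, ?_⟩, ⟨s₀, ?_, ?_⟩, ?_⟩
  · refine ext_frac FO.φ FO.frac f (fun x => D (f x)) (fun x => ∑ b, e b * f (Xs b x)) ?_ ?_ ?_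
    · intro a b
      simp only [map_mul, Derivation.leibniz, smul_eq_mul]
    · intro a b
      simp only [Derivation.leibniz, smul_eq_mul, map_add, map_mul, mul_add,
        Finset.sum_add_distrib, Finset.mul_sum]
      congr 1 <;> exact Finset.sum_congr rfl fun _ _ => by ring
    · intro a
      simp only [hXφ]
      rw [hf, hDψ, ← hexp]
      simp only [hf]
  · rw [hL, hD, ← map_one mk, hmkeq]
    filter_upwards [hs₀, hchar] with i h1 h2
    rw [← h1]
    exact hd i h2
  · intro j
    refine ⟨N₀ j, ?_⟩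
    rw [hL]
    choose κ hκ hκe using fun i => hcomp i j
    refine ⟨fun a b => mk (fun i => algebraMap _ (K i) (κ i a b)),
      fun a b => ?_, ?_⟩
    · show D _ = 0
      rw [hD, hmk]
      refine Filter.Eventually.of_forall fun i => ?_
      obtain ⟨t, ht⟩ := hκ i a b
      rw [← ht, ← IsScalarTower.algebraMap_apply, Derivation.map_algebraMap]
    · simp only [hfa, hy]
      simp only [← map_pow, ← map_mul, ← map_sum]
      rw [hmkeq]
      filter_upwards [hs₀, hN₀] with i h1 h2
      have h3 := congrArg (algebraMap (MvPolynomial (Fin ν) (k i) ⧸ (S i).r (γ i)) (K i)) (hκe i)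
      rw [h1, h2] at h3
      simp only [map_pow, map_mul, map_sum] at h3
      rw [Finset.sum_apply]
      refine h3.trans (Finset.sum_congr rfl fun b _ => ?_)
      rw [Finset.sum_apply]
      rfl
  · intro a b hb h
    rw [hfa, map_div₀, hf, hf] at h
    have hb1 : ∀ᶠ i in (U : Filter ℕ), ∀ γ' ∈ Γ i, b.1 i ∉ (S i).r γ' := by
      rcases hO.dec b.1 b.2 with h1 | h1
      · exact absurd ((FO.ker b).2 h1) hb
      · exact h1
    have hb2 : ψ b ≠ 0 := fun h1 => hb ((hker b).2 h1)
    have h2 : ψ a / ψ b = mk (fun i => toK ((S i).r (γ i)) (a.1 i) / toK ((S i).r (γ i)) (b.1 i)) := by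
      rw [div_eq_iff hb2, hψ, hψ, ← map_mul, hmkeq]
      filter_upwards [hb1, hγ] with i h1 h2
      have h3 : toK ((S i).r (γ i)) (b.1 i) ≠ 0 := fun h4 => h1 _ h2 ((toK_zero _ _).1 h4)
      exact (div_mul_cancel₀ _ h3).symm
    rw [h2, hD, hmk] at h
    obtain ⟨C6, hC6⟩ := hC6 ν c
    filter_upwards [h, hb1, hγ, hchar, hM.char, hM.large 1, hM.large (2 * C6),
      hO.small a.1 a.2 (2 * C6), hO.small b.1 b.2 (2 * C6), hO.small b.1 b.2 1, hR (c + 1)] with i
      e1 e2 e3 e4 e5 e6 e7 e8 e9 e10 e11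
    have hbi := e2 _ e3
    obtain ⟨x, hx, hxb⟩ := exists_pt (S i) (Γ i) _ e11 (γ i) e3 (b.1 i) hbi (by
      have h3 : c * (b.1 i).totalDegree ≤ c * M i := Nat.mul_le_mul_left c (by omega)
      have h4 : (c + 1) * M i = c * M i + M i := by ring
      omega)
    refine ⟨eval ((S i).pos x) (a.1 i) / eval ((S i).pos x) (b.1 i), ?_⟩
    refine hC6 (k i) ((S i).r (γ i)) (lform (s i) X) (lform_deg _) (hst i)
      (fun j => ⟨N i j, hNc i j, hcomp i j⟩) (d i) (hd i e4)
      (max (a.1 i).totalDegree (b.1 i).totalDegree) (a.1 i) (b.1 i) (le_max_left _ _)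
      (le_max_right _ _) ?_ e1 ((S i).pos x) (fun R hR' => (S i).vanish _ _ _ hR' hx) hxb
    rcases e5 with e5 | e5
    · exact Or.inl e5
    · right
      refine le_trans ?_ e5
      rcases max_choice (a.1 i).totalDegree (b.1 i).totalDegree with h5 | h5
      · rw [h5]
        nlinarith
      · rw [h5]
        nlinarith

end GZ
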