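import Pool.Agent.GZ.C3

/-!
# GZ, row C5: two distinct good curves share boundedly many points
-/

set_option autoImplicit false

namespace GZ

open MvPolynomial

universe u

section Embed

/-- The algebraic closure of `k(t)`. -/
abbrev Om (k : Type u) [Field k] : Type u := AlgebraicClosure (FractionRing (MvPolynomial (Fin 1) k))

/-- The element `t`. -/
noncomputable def tb (k : Type u) [Field k] : Om k :=
  algebraMap (MvPolynomial (Fin 1) k) (Om k) (X 0)

variable {k : Type u} [Field k] {n : ℕ}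

theorem algebraMap_Om_inj : Function.Injective (algebraMap (MvPolynomial (Fin 1) k) (Om k)) := by
  rw [IsScalarTower.algebraMap_eq (MvPolynomial (Fin 1) k)
    (FractionRing (MvPolynomial (Fin 1) k)) (Om k)]
  exact (algebraMap (FractionRing (MvPolynomial (Fin 1) k)) (Om k)).injective.comp
    (IsFractionRing.injective _ _)

theorem aeval_tb (p : MvPolynomial (Fin 1) k) :
    aeval (fun _ : Fin 1 => tb k) p = algebraMap (MvPolynomial (Fin 1) k) (Om k) p := by
  have h : (aeval (fun _ : Fin 1 => tb k) : MvPolynomial (Fin 1) k →ₐ[k] Om k)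
      = IsScalarTower.toAlgHom k (MvPolynomial (Fin 1) k) (Om k) := by
    ext i
    rw [aeval_X, Subsingleton.elim i 0]
    rfl
  rw [h]
  rfl

theorem transcendental_tb : Transcendental k (tb k) := by
  have h1 : AlgebraicIndependent k (fun _ : Fin 1 => tb k) := by
    intro p q h
    apply algebraMap_Om_inj
    rw [← aeval_tb, ← aeval_tb]
    exact h
  rwa [algebraicIndependent_unique_type_iff] at h1

theorem embed (q : Ideal (MvPolynomial (Fin n) k)) (hq : q.IsPrime) (l : MvPolynomial (Fin n) k)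
    (htl : Transcendental k (Ideal.Quotient.mk q l))
    (hint : ∀ j, ∃ N, Compat (Set.range (algebraMap k (MvPolynomial (Fin n) k ⧸ q)))
      (Ideal.Quotient.mk q l) (Ideal.Quotient.mk q (X j)) N) :
    ∃ φ : MvPolynomial (Fin n) k →ₐ[k] Om k, (∀ P, φ P = 0 ↔ P ∈ q) ∧ φ l = tb k := by
  have hdom : IsDomain (MvPolynomial (Fin n) k ⧸ q) := Ideal.Quotient.isDomain _
  let _ : Algebra (MvPolynomial (Fin 1) k) (MvPolynomial (Fin n) k ⧸ q) :=
    (aeval (fun _ : Fin 1 => Ideal.Quotient.mk q l) :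
      MvPolynomial (Fin 1) k →ₐ[k] MvPolynomial (Fin n) k ⧸ q).toRingHom.toAlgebra
  have halg : algebraMap (MvPolynomial (Fin 1) k) (MvPolynomial (Fin n) k ⧸ q)
      = (aeval (fun _ : Fin 1 => Ideal.Quotient.mk q l) :
      MvPolynomial (Fin 1) k →ₐ[k] MvPolynomial (Fin n) k ⧸ q).toRingHom := rfl
  have hinj : Function.Injective (algebraMap (MvPolynomial (Fin 1) k)
      (MvPolynomial (Fin n) k ⧸ q)) := by
    have h1 : AlgebraicIndependent k (fun _ : Fin 1 => Ideal.Quotient.mk q l) := by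
      rw [algebraicIndependent_unique_type_iff]
      exact htl
    exact h1
  have _ : FaithfulSMul (MvPolynomial (Fin 1) k) (MvPolynomial (Fin n) k ⧸ q) :=
    (faithfulSMul_iff_algebraMap_injective _ _).2 hinj
  have _ : FaithfulSMul (MvPolynomial (Fin 1) k) (Om k) :=
    (faithfulSMul_iff_algebraMap_injective _ _).2 algebraMap_Om_inj
  have htower : IsScalarTower k (MvPolynomial (Fin 1) k) (MvPolynomial (Fin n) k ⧸ q) :=
    IsScalarTower.of_algebraMap_eq fun a => by
      rw [halg, MvPolynomial.algebraMap_eq]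
      simp
  have hX : ∀ j, IsIntegral (MvPolynomial (Fin 1) k) (Ideal.Quotient.mk q (X j)) := by
    intro j
    obtain ⟨N, hN⟩ := hint j
    obtain ⟨P, hP, hz⟩ := poly_of_compat hN
    refine ⟨finSuccEquiv k 1 P, hP.monic.1, ?_⟩
    rw [halg, ← aeval_finSuccEquiv]
    exact hz
  have hInt : Algebra.IsIntegral (MvPolynomial (Fin 1) k) (MvPolynomial (Fin n) k ⧸ q) := by
    refine ⟨fun x => ?_⟩
    obtain ⟨P, rfl⟩ := Ideal.Quotient.mk_surjective x
    induction P using MvPolynomial.induction_on with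
    | C a =>
      have h : Ideal.Quotient.mk q (C a)
          = algebraMap (MvPolynomial (Fin 1) k) (MvPolynomial (Fin n) k ⧸ q) (C a) := by
        rw [halg, mk_C_eq]; simp
      rw [h]
      exact isIntegral_algebraMap
    | add p q hp hq => rw [map_add]; exact hp.add hq
    | mul_X p i hp => rw [map_mul]; exact hp.mul (hX i)
  have hAlg : Algebra.IsAlgebraic (MvPolynomial (Fin 1) k) (MvPolynomial (Fin n) k ⧸ q) :=
    inferInstance
  let ψ : (MvPolynomial (Fin n) k ⧸ q) →ₐ[MvPolynomial (Fin 1) k] Om k := IsAlgClosed.lift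
  have hψ : RingHom.ker ψ.toRingHom = ⊥ := by
    apply Ideal.eq_bot_of_comap_eq_bot (R := MvPolynomial (Fin 1) k)
    rw [RingHom.comap_ker]
    have : ψ.toRingHom.comp (algebraMap (MvPolynomial (Fin 1) k) (MvPolynomial (Fin n) k ⧸ q))
        = algebraMap (MvPolynomial (Fin 1) k) (Om k) := ψ.comp_algebraMap
    rw [this]
    exact (RingHom.injective_iff_ker_eq_bot _).1 algebraMap_Om_inj
  have hψinj : Function.Injective ψ := (RingHom.injective_iff_ker_eq_bot ψ.toRingHom).2 hψ
  refine ⟨(ψ.restrictScalars k).comp (Ideal.Quotient.mkₐ k q), ?_, ?_⟩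
  · intro P
    change ψ (Ideal.Quotient.mk q P) = 0 ↔ _
    rw [← Ideal.Quotient.eq_zero_iff_mem]
    constructor
    · intro h
      apply hψinj
      rw [h, map_zero]
    · intro h
      rw [h, map_zero]
  · change ψ (Ideal.Quotient.mk q l) = _
    have h : Ideal.Quotient.mk q l
        = algebraMap (MvPolynomial (Fin 1) k) (MvPolynomial (Fin n) k ⧸ q) (X 0) := by
      rw [halg]; simp
    rw [h, ψ.commutes]
    rfl

/-- The minimal polynomial over `k(t)` is the minimal compatible relation. -/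
theorem minpoly_of_compat {z : Om k} {m : MvPolynomial (Fin 2) k} {N : ℕ} (hm : CompatPoly m N)
    (hirr : Irreducible m) (hz : aeval ![z, tb k] m = 0) :
    minpoly (FractionRing (MvPolynomial (Fin 1) k)) z
      = (finSuccEquiv k 1 m).map (algebraMap _ (FractionRing (MvPolynomial (Fin 1) k))) := by
  symm
  apply minpoly.eq_of_irreducible_of_monic
  · rw [← Polynomial.Monic.irreducible_iff_irreducible_map_fraction_map hm.monic.1]
    exact (MulEquiv.irreducible_iff (finSuccEquiv k 1)).2 hirr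
  · rw [Polynomial.aeval_map_algebraMap]
    rw [aeval_finSuccEquiv] at hz
    rw [Polynomial.aeval_def, ← hz]
    congr 1
    ext p
    · simp
      rw [← MvPolynomial.algebraMap_eq, ← IsScalarTower.algebraMap_apply]
    · change algebraMap (MvPolynomial (Fin 1) k) (Om k) _ = aeval (fun _ : Fin 1 => tb k) _
      rw [aeval_tb]
  · exact hm.monic.1.map _

theorem conj_of_compat {z z' : Om k} {m : MvPolynomial (Fin 2) k} {N : ℕ} (hm : CompatPoly m N)
    (hirr : Irreducible m) (hz : aeval ![z, tb k] m = 0) (hz' : aeval ![z', tb k] m = 0) :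
    ∃ σ : Om k ≃ₐ[FractionRing (MvPolynomial (Fin 1) k)] Om k, σ z = z' := by
  have h : IsConjRoot (FractionRing (MvPolynomial (Fin 1) k)) z' z := by
    rw [IsConjRoot, minpoly_of_compat hm hirr hz, minpoly_of_compat hm hirr hz']
  exact isConjRoot_iff_exists_algEquiv.1 h

end Embed

section Core

variable {k : Type u} [Field k] {n : ℕ}

theorem totalDegree_aeval_two_le (w z : MvPolynomial (Fin n) k) (hw : w.totalDegree ≤ 1)
    (hz : z.totalDegree ≤ 1) (g : MvPolynomial (Fin 2) k) :
    (aeval ![w, z] g).totalDegree ≤ g.totalDegree := by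
  classical
  rw [aeval_two]
  refine totalDegree_finsetSum_le fun m hm => ?_
  have h1 := le_totalDegree hm
  rw [deg_two] at h1
  refine (totalDegree_mul _ _).trans ?_
  rw [MvPolynomial.algebraMap_eq, totalDegree_C, zero_add]
  refine (totalDegree_mul _ _).trans ?_
  have h2 : (w ^ m 0).totalDegree ≤ m 0 := by
    refine (totalDegree_pow _ _).trans ?_
    calc _ ≤ m 0 * 1 := Nat.mul_le_mul_left _ hw
      _ = m 0 := mul_one _
  have h3 : (z ^ m 1).totalDegree ≤ m 1 := by
    refine (totalDegree_pow _ _).trans ?_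
    calc _ ≤ m 1 * 1 := Nat.mul_le_mul_left _ hz
      _ = m 1 := mul_one _
  omega

theorem algHom_aeval_two {A : Type*} [CommRing A] [Algebra k A]
    (φ : MvPolynomial (Fin n) k →ₐ[k] A) (w z : MvPolynomial (Fin n) k)
    (g : MvPolynomial (Fin 2) k) : φ (aeval ![w, z] g) = aeval ![φ w, φ z] g := by
  have h1 : (aeval ![φ w, φ z] : MvPolynomial (Fin 2) k →ₐ[k] A) = φ.comp (aeval ![w, z]) := by
    ext i
    fin_cases i
    · simp
    · simp
  rw [h1]; rfl

/-- From a compat relation modulo `q`, the minimal relation in `Om k`. -/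
theorem minimal_in_Om {q : Ideal (MvPolynomial (Fin n) k)}
    {φ : MvPolynomial (Fin n) k →ₐ[k] Om k} (hφ : ∀ P, φ P = 0 ↔ P ∈ q)
    {l z : MvPolynomial (Fin n) k} (hl : φ l = tb k) {N : ℕ}
    (h : Compat (Set.range (algebraMap k (MvPolynomial (Fin n) k ⧸ q)))
      (Ideal.Quotient.mk q l) (Ideal.Quotient.mk q z) N) :
    ∃ (m : MvPolynomial (Fin 2) k) (N' : ℕ), N' ≤ N ∧ CompatPoly m N' ∧ Irreducible m ∧
      ∀ Q : MvPolynomial (Fin 2) k, aeval ![φ z, tb k] Q = 0 ↔ m ∣ Q := by
  obtain ⟨P, hP, hz⟩ := poly_of_compat h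
  have hz' : aeval ![φ z, tb k] P = 0 := by
    rw [← hl, ← algHom_aeval_two, hφ, ← Ideal.Quotient.eq_zero_iff_mem, ← mk_rel]
    exact hz
  obtain ⟨m, N', _, hm, hirr, hdvd⟩ := exists_minPoly transcendental_tb hP hz'
  refine ⟨m, N', ?_, hm, hirr, hdvd⟩
  obtain ⟨h, hh⟩ := (hdvd P).1 hz'
  have hh0 : h ≠ 0 := by rintro rfl; exact hP.ne_zero (by simpa using hh)
  have h2 : P.totalDegree = m.totalDegree + h.totalDegree := by
    rw [hh, totalDegree_mul_of_isDomain hm.ne_zero hh0]
  rw [hm.totalDegree_eq, hP.totalDegree_eq] at h2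
  omega

/-- The linear form `∑ a ^ j x_j`. -/
noncomputable def zf (n : ℕ) (a : k) : MvPolynomial (Fin n) k := ∑ j : Fin n, C (a ^ (j : ℕ)) * X j

theorem eq_of_all {c : ℕ} {q q' : Ideal (MvPolynomial (Fin n) k)}
    {φ φ' : MvPolynomial (Fin n) k →ₐ[k] Om k} (hφ : ∀ P, φ P = 0 ↔ P ∈ q)
    (hφ' : ∀ P, φ' P = 0 ↔ P ∈ q') {l : MvPolynomial (Fin n) k} (hl : φ l = tb k)
    (hX : ∀ j, ∃ N, N ≤ c ∧ Compat (Set.range (algebraMap k (MvPolynomial (Fin n) k ⧸ q)))
      (Ideal.Quotient.mk q l) (Ideal.Quotient.mk q (X j)) N)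
    (S : Finset k) (hS : c ^ n * n < S.card)
    (hconj : ∀ a ∈ S, ∃ σ : Om k ≃ₐ[FractionRing (MvPolynomial (Fin 1) k)] Om k,
      σ (φ (zf n a)) = φ' (zf n a)) : q = q' := by
  classical
  -- roots
  have hroots : ∀ j : Fin n, ∃ R : Finset (Om k), R.card ≤ c ∧
      ∀ σ : Om k ≃ₐ[FractionRing (MvPolynomial (Fin 1) k)] Om k, σ (φ (X j)) ∈ R := by
    intro j
    obtain ⟨N, hN, hc⟩ := hX j
    obtain ⟨m, N', hN', hm, hirr, hdvd⟩ := minimal_in_Om hφ hl hc
    have hz := (hdvd m).2 dvd_rfl
    have hmp := minpoly_of_compat hm hirr hz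
    set μ := minpoly (FractionRing (MvPolynomial (Fin 1) k)) (φ (X j)) with hμ
    have hμ0 : μ ≠ 0 := by
      rw [hmp]
      exact (hm.monic.1.map _).ne_zero
    refine ⟨(μ.aroots (Om k)).toFinset, ?_, ?_⟩
    · refine (Multiset.toFinset_card_le _).trans ?_
      refine (Polynomial.card_roots' _).trans ?_
      rw [Polynomial.natDegree_map, hmp, hm.monic.1.natDegree_map, hm.monic.2]
      omega
    · intro σ
      rw [Multiset.mem_toFinset, Polynomial.mem_aroots]
      refine ⟨hμ0, ?_⟩
      have : Polynomial.aeval (σ (φ (X j))) μ = σ (Polynomial.aeval (φ (X j)) μ) :=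
        Polynomial.aeval_algHom_apply σ.toAlgHom _ _
      rw [this, minpoly.aeval, map_zero]
  choose R hRc hR using hroots
  have hconj' : ∀ a : k, ∃ σ : Om k ≃ₐ[FractionRing (MvPolynomial (Fin 1) k)] Om k,
      a ∈ S → σ (φ (zf n a)) = φ' (zf n a) := by
    intro a
    by_cases ha : a ∈ S
    · obtain ⟨σ, hσ⟩ := hconj a ha
      exact ⟨σ, fun _ => hσ⟩
    · exact ⟨AlgEquiv.refl, fun h => absurd h ha⟩
  choose σ hσ using hconj'
  obtain ⟨v, hv, hcard⟩ := Finset.exists_lt_card_fiber_of_mul_lt_card_of_maps_to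
    (s := S) (t := Fintype.piFinset R) (f := fun a j => σ a (φ (X j))) (n := n)
    (fun a _ => Fintype.mem_piFinset.2 fun j => hR j (σ a))
    (lt_of_le_of_lt (Nat.mul_le_mul_right _ (by
      rw [Fintype.card_piFinset]
      refine (Finset.prod_le_pow_card _ _ c fun j _ => hRc j).trans ?_
      simp)) hS)
  set T := S.filter (fun a => (fun j => σ a (φ (X j))) = v) with hT
  have hkT : ∀ a ∈ T, ∑ j : Fin n, (v j - φ' (X j)) * (algebraMap k (Om k) a) ^ (j : ℕ) = 0 := by
    intro a ha
    rw [hT, Finset.mem_filter] at ha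
    have h1 := hσ a ha.1
    have h2 : σ a (φ (zf n a)) = ∑ j : Fin n, v j * (algebraMap k (Om k) a) ^ (j : ℕ) := by
      rw [zf, map_sum, map_sum]
      refine Finset.sum_congr rfl fun j _ => ?_
      rw [map_mul, map_mul, ← ha.2]
      have h3 : φ (C (a ^ (j : ℕ))) = algebraMap (FractionRing (MvPolynomial (Fin 1) k)) (Om k)
          (algebraMap k _ (a ^ (j : ℕ))) := by
        rw [← IsScalarTower.algebraMap_apply, ← MvPolynomial.algebraMap_eq, φ.commutes]
      rw [h3, AlgEquiv.commutes, ← IsScalarTower.algebraMap_apply, map_pow]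
      ring
    have h4 : φ' (zf n a) = ∑ j : Fin n, φ' (X j) * (algebraMap k (Om k) a) ^ (j : ℕ) := by
      rw [zf, map_sum]
      refine Finset.sum_congr rfl fun j _ => ?_
      rw [map_mul, ← MvPolynomial.algebraMap_eq, φ'.commutes, map_pow]
      ring
    rw [h2, h4] at h1
    simp only [sub_mul, Finset.sum_sub_distrib]
    rw [h1, sub_self]
  -- the Vandermonde argument
  set p : Polynomial (Om k) := ∑ j : Fin n, Polynomial.C (v j - φ' (X j)) * Polynomial.X ^ (j : ℕ)
    with hp
  have hp0 : p = 0 := by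
    apply Polynomial.eq_zero_of_natDegree_lt_card_of_eval_eq_zero' p (T.image (algebraMap k (Om k)))
    · intro x hx
      obtain ⟨a, ha, rfl⟩ := Finset.mem_image.1 hx
      rw [hp, Polynomial.eval_finset_sum]
      simp only [Polynomial.eval_mul, Polynomial.eval_C, Polynomial.eval_pow, Polynomial.eval_X]
      exact hkT a ha
    · rw [Finset.card_image_of_injective _ (algebraMap k (Om k)).injective]
      refine lt_of_le_of_lt ?_ hcard
      rw [hp]
      apply Polynomial.natDegree_sum_le_of_forall_le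
      intro j _
      refine (Polynomial.natDegree_C_mul_X_pow_le _ _).trans ?_
      exact j.2.le
  have hvX : ∀ j : Fin n, v j = φ' (X j) := by
    intro j
    have h1 : p.coeff (j : ℕ) = v j - φ' (X j) := by
      rw [hp, Polynomial.finsetSum_coeff, Finset.sum_eq_single j]
      · rw [Polynomial.coeff_C_mul_X_pow, if_pos rfl]
      · intro i _ hij
        rw [Polynomial.coeff_C_mul_X_pow, if_neg]
        intro h
        exact hij (Fin.ext h.symm)
      · intro h
        exact absurd (Finset.mem_univ j) h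
    rw [hp0, Polynomial.coeff_zero] at h1
    exact sub_eq_zero.1 h1.symm
  obtain ⟨a, ha⟩ : T.Nonempty := Finset.card_pos.1 (by omega)
  rw [hT, Finset.mem_filter] at ha
  have hcomp : ∀ P, σ a (φ P) = φ' P := by
    have h1 : ((σ a).toAlgHom.restrictScalars k).comp φ = φ' := by
      apply MvPolynomial.algHom_ext
      intro j
      change σ a (φ (X j)) = _
      rw [← hvX, ← ha.2]
    intro P
    rw [← h1]
    rfl
  ext P
  rw [← hφ, ← hφ', ← hcomp]
  constructor
  · intro h; rw [h, map_zero]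
  · intro h
    exact (map_eq_zero_iff (σ a) (σ a).injective).1 h

theorem exists_sep (h3 : C3Stmt.{u}) {c : ℕ} {q q' : Ideal (MvPolynomial (Fin n) k)}
    (hq : Good c q) (hq' : Good c q') (hne : q ≠ q') (S : Finset k) (h1 : 2 * c < S.card)
    (h2 : c ^ n * n < S.card) :
    ∃ P : MvPolynomial (Fin n) k, P ∈ q' ∧ P ∉ q ∧ P.totalDegree ≤ c := by
  classical
  obtain ⟨s, -, hs⟩ := h3 k n n c 2 ![q, q'] (by
      intro i; fin_cases i
      · exact hq
      · exact hq') (X : Fin n → MvPolynomial (Fin n) k) (fun j => by rw [totalDegree_X]) (by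
      intro i; fin_cases i
      · exact hq.trans
      · exact hq'.trans) S h1
  have hs0 := hs 0
  have hs1 := hs 1
  simp only [Matrix.cons_val_zero, Matrix.cons_val_one] at hs0 hs1
  set l : MvPolynomial (Fin n) k := ∑ j, C (s j) * X j with hl
  have hl1 : l.totalDegree ≤ 1 :=
    totalDegree_lin Finset.univ s (X : Fin n → MvPolynomial (Fin n) k)
      (fun j => by rw [totalDegree_X])
  obtain ⟨ht0, hc0⟩ := hs0
  obtain ⟨ht1, hc1⟩ := hs1
  have hXs : ∀ j : Fin n, ∑ i : Fin n, C ((Pi.single j 1 : Fin n → k) i) * X i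
      = (X j : MvPolynomial (Fin n) k) := by
    intro j
    rw [Finset.sum_eq_single j]
    · simp
    · intro i _ hij
      rw [Pi.single_eq_of_ne hij]; simp
    · intro h; exact absurd (Finset.mem_univ j) h
  have hX0 : ∀ j, ∃ N, N ≤ c ∧ Compat (Set.range (algebraMap k (MvPolynomial (Fin n) k ⧸ q)))
      (Ideal.Quotient.mk q l) (Ideal.Quotient.mk q (X j)) N := by
    intro j
    have := hc0 (Pi.single j 1)
    rwa [hXs] at this
  have hX1 : ∀ j, ∃ N, N ≤ c ∧ Compat (Set.range (algebraMap k (MvPolynomial (Fin n) k ⧸ q')))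
      (Ideal.Quotient.mk q' l) (Ideal.Quotient.mk q' (X j)) N := by
    intro j
    have := hc1 (Pi.single j 1)
    rwa [hXs] at this
  obtain ⟨φ, hφ, hφl⟩ := embed q hq.prime l ((trans_iff q l).1 ht0)
    (fun j => let ⟨N, _, h⟩ := hX0 j; ⟨N, h⟩)
  obtain ⟨φ', hφ', hφl'⟩ := embed q' hq'.prime l ((trans_iff q' l).1 ht1)
    (fun j => let ⟨N, _, h⟩ := hX1 j; ⟨N, h⟩)
  by_contra hcon
  push Not at hcon
  apply hne
  refine eq_of_all hφ hφ' hφl hX0 S h2 ?_
  intro a _
  obtain ⟨N, hN, hNc⟩ := hc1 (fun j => a ^ (j : ℕ))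
  obtain ⟨m', N', hN', hm', hirr', hdvd'⟩ := minimal_in_Om hφ' hφl' hNc
  have hz1 : (zf n a).totalDegree ≤ 1 :=
    totalDegree_lin Finset.univ (fun j : Fin n => a ^ (j : ℕ))
      (X : Fin n → MvPolynomial (Fin n) k) (fun j => by rw [totalDegree_X])
  have hmz' : aeval ![φ' (zf n a), tb k] m' = 0 := (hdvd' m').2 dvd_rfl
  have hmem : aeval ![zf n a, l] m' ∈ q' := by
    rw [← hφ', algHom_aeval_two, hφl']
    exact hmz'
  have hmem0 : aeval ![zf n a, l] m' ∈ q := by
    by_contra hnot
    have h4 := hcon _ hmem hnot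
    have h5 := totalDegree_aeval_two_le (zf n a) l hz1 hl1 m'
    rw [hm'.totalDegree_eq] at h5
    omega
  have hmz : aeval ![φ (zf n a), tb k] m' = 0 := by
    rw [← hφ, algHom_aeval_two, hφl] at hmem0
    exact hmem0
  exact conj_of_compat hm' hirr' hmz hmz'

end Core

theorem c5 (h3 : C3Stmt.{u}) : C5Stmt.{u} := by
  classical
  intro n c
  set N₀ := 2 * c + c ^ n * n with hN₀
  refine ⟨c * c + N₀ ^ n, ?_⟩
  intro k _ q q' hq hq' hne
  by_cases hS : ∃ S : Finset k, N₀ < S.card
  · obtain ⟨S, hS⟩ := hS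
    obtain ⟨P, hP', hP, hPc⟩ := exists_sep h3 hq hq' hne S (by omega) (by omega)
    have h1 : pts q ∩ pts q' ⊆ {x | x ∈ pts q ∧ eval x P = 0} := by
      rintro x ⟨hx, hx'⟩
      exact ⟨hx, hx' P hP'⟩
    refine (Set.encard_le_encard h1).trans ?_
    refine (hq.bez P hP).trans ?_
    have h2 : c * P.totalDegree ≤ c * c + N₀ ^ n := by
      have := Nat.mul_le_mul_left c hPc
      omega
    exact_mod_cast h2
  · push Not at hS
    have hfin : Finite k := by
      apply Finite.of_not_infinite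
      intro hinf
      obtain ⟨S, hS'⟩ := Infinite.exists_subset_card_eq k (N₀ + 1)
      have := hS S
      omega
    have _ : Fintype k := Fintype.ofFinite k
    have hcard : Fintype.card k ≤ N₀ := hS Finset.univ
    refine (Set.encard_le_encard (Set.subset_univ _)).trans ?_
    have h1 : (Set.univ : Set (Fin n → k)).encard = ((Fintype.card k ^ n : ℕ) : ℕ∞) := by
      rw [Set.encard_univ, ENat.card_eq_coe_fintype_card, Fintype.card_fun, Fintype.card_fin]
    rw [h1]
    have h2 : Fintype.card k ^ n ≤ c * c + N₀ ^ n :=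
      (Nat.pow_le_pow_left hcard n).trans (Nat.le_add_left _ _)
    exact_mod_cast h2

end GZ
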