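import Pool.Agent.GZ.Rows

/-!
# GZ row C7: the derivation `d/dl` on the function field of a curve
-/

namespace GZ

open MvPolynomial

universe u

namespace C7

/-- A derivation which kills the subfield `F` acts on values of polynomials over `F` through the
derivative. -/
lemma der_aeval {k K M : Type u} [Field k] [Field K] [Algebra k K] [AddCommGroup M] [Module k M]
    [Module K M] [IsScalarTower k K M] (F : IntermediateField k K) (D : Derivation k K M)
    (hF : ∀ a ∈ F, D a = 0) (x : K) (f : Polynomial F) :
    D (Polynomial.aeval x f) = Polynomial.aeval x (Polynomial.derivative f) • D x := by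
  induction f using Polynomial.induction_on' with
  | add p q hp hq =>
    rw [map_add, map_add, hp, hq, Polynomial.derivative_add, map_add, add_smul]
  | monomial n a =>
    have h1 : D (algebraMap F K a) = 0 := hF _ a.2
    rw [Polynomial.aeval_monomial, Polynomial.derivative_monomial, Polynomial.aeval_monomial,
      Derivation.leibniz, h1, smul_zero, add_zero, Derivation.leibniz_pow, map_mul, map_natCast,
      ← Nat.cast_smul_eq_nsmul K n (x ^ (n - 1) • D x)]
    simp only [smul_smul]
    congr 1
    ring

/-- The derivation with `D L = 1`. -/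
theorem exists_der {k K : Type u} [Field k] [Field K] [Algebra k K] [Algebra.EssFiniteType k K]
    (L : K) (hL : Transcendental k L)
    (hsep : Algebra.IsSeparable (IntermediateField.adjoin k {L}) K) :
    ∃ D : Derivation k K K, D L = 1 := by
  by_contra hno
  have hdL : KaehlerDifferential.D k K L = 0 := by
    by_contra hne
    have h1 : ¬ ∀ φ : Module.Dual K (Ω[K⁄k]), φ (KaehlerDifferential.D k K L) = 0 :=
      fun h => hne ((Module.forall_dual_apply_eq_zero_iff K _).mp h)
    push Not at h1
    obtain ⟨φ, hφ⟩ := h1
    apply hno
    refine ⟨((φ (KaehlerDifferential.D k K L))⁻¹ • φ).compDer (KaehlerDifferential.D k K), ?_⟩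
    change (φ (KaehlerDifferential.D k K L))⁻¹ • φ (KaehlerDifferential.D k K L) = 1
    rw [smul_eq_mul, inv_mul_cancel₀ hφ]
  have hF : ∀ a ∈ IntermediateField.adjoin k {L}, KaehlerDifferential.D k K a = 0 := by
    intro a ha
    induction ha using IntermediateField.adjoin_induction with
    | mem x hx =>
      rw [Set.mem_singleton_iff] at hx
      rw [hx, hdL]
    | algebraMap x => exact Derivation.map_algebraMap _ _
    | add x y _ _ hx hy => rw [map_add, hx, hy, add_zero]
    | inv x _ hx => rw [Derivation.leibniz_inv, hx, smul_zero]
    | mul x y _ _ hx hy => rw [Derivation.leibniz, hx, hy, smul_zero, smul_zero, add_zero]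
  have hall : ∀ x : K, KaehlerDifferential.D k K x = 0 := by
    intro x
    have hs : IsSeparable (IntermediateField.adjoin k {L}) x := Algebra.IsSeparable.isSeparable _ x
    have h1 := der_aeval (IntermediateField.adjoin k {L}) (KaehlerDifferential.D k K) hF x
      (minpoly (IntermediateField.adjoin k {L}) x)
    rw [minpoly.aeval, map_zero] at h1
    have h2 : Polynomial.aeval x
        (Polynomial.derivative (minpoly (IntermediateField.adjoin k {L}) x)) ≠ 0 :=
      hs.aeval_derivative_ne_zero (minpoly.aeval _ _)
    rcases smul_eq_zero.mp h1.symm with h | h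
    · exact absurd h h2
    · exact h
  have hsub : Subsingleton (Ω[K⁄k]) := by
    rw [← Submodule.subsingleton_iff K]
    apply subsingleton_of_bot_eq_top
    rw [eq_comm, ← KaehlerDifferential.span_range_derivation, Submodule.span_eq_bot]
    rintro _ ⟨x, rfl⟩
    exact hall x
  have hun : Algebra.FormallyUnramified k K := ⟨hsub⟩
  have hsepk : Algebra.IsSeparable k K := (Algebra.FormallyUnramified.iff_isSeparable k K).mp hun
  exact hL (Algebra.IsAlgebraic.isAlgebraic L)

/-- An element with an annihilating monic polynomial of degree below the characteristic is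
separable. -/
lemma sep_of_deg {F K : Type u} [Field F] [Field K] [Algebra F K] (c : ℕ)
    (hchar : ∀ n : ℕ, 1 ≤ n → n ≤ c → (n : F) ≠ 0) (x : K) (f : Polynomial F) (hf : f.Monic)
    (hdeg : f.natDegree ≤ c) (hx : Polynomial.aeval x f = 0) : IsSeparable F x := by
  have hint : IsIntegral F x := ⟨f, hf, hx⟩
  have hirr := minpoly.irreducible hint
  have hmon := minpoly.monic hint
  have hle : (minpoly F x).natDegree ≤ c :=
    (Polynomial.natDegree_le_of_dvd (minpoly.dvd F x hx) hf.ne_zero).trans hdeg
  have hpos : 1 ≤ (minpoly F x).natDegree := minpoly.natDegree_pos hint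
  rw [IsSeparable, Polynomial.separable_iff_derivative_ne_zero hirr]
  intro h0
  obtain ⟨n, hn⟩ : ∃ n, (minpoly F x).natDegree = n + 1 :=
    ⟨(minpoly F x).natDegree - 1, by omega⟩
  have hc : (Polynomial.derivative (minpoly F x)).coeff n = 0 := by rw [h0]; simp
  rw [Polynomial.coeff_derivative] at hc
  have hlead : (minpoly F x).coeff (n + 1) = 1 := by rw [← hn]; exact hmon
  rw [hlead, one_mul] at hc
  apply hchar (n + 1) (by omega) (by omega)
  push_cast
  exact hc

end C7

/-- C7. -/
theorem c7 : C7Stmt.{u} := by
  classical
  intro k _ ν c r _ l htr hcompat hchar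
  set B := MvPolynomial (Fin ν) k ⧸ r with hB
  set K := FractionRing B with hK
  have hinj : Function.Injective (algebraMap B K) := IsFractionRing.injective B K
  set L : K := algebraMap B K (Ideal.Quotient.mk r l) with hL
  have hB0 : Algebra.FiniteType k B := inferInstance
  have hB1 : Algebra.EssFiniteType k B := inferInstance
  have hB2 : Algebra.EssFiniteType B K := Algebra.EssFiniteType.of_isLocalization K (nonZeroDivisors B)
  have hE : Algebra.EssFiniteType k K := Algebra.EssFiniteType.comp k B K
  have htL : Transcendental k L := by
    intro halg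
    obtain ⟨P, hP, hP0⟩ := halg
    apply htr P hP
    rw [← Ideal.Quotient.eq_zero_iff_mem]
    apply hinj
    rw [map_zero]
    have h1 : (Ideal.Quotient.mk r (Polynomial.aeval l P) : B)
        = Polynomial.aeval (Ideal.Quotient.mk r l : B) P := by
      have := Polynomial.aeval_algHom_apply (Ideal.Quotient.mkₐ k r) l P
      simpa using this.symm
    rw [h1]
    have h2 := Polynomial.aeval_algHom_apply (IsScalarTower.toAlgHom k B K)
      (Ideal.Quotient.mk r l : B) P
    exact h2.symm.trans hP0
  set F := IntermediateField.adjoin k {L} with hF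
  have hLF : L ∈ F := IntermediateField.mem_adjoin_simple_self k L
  have hcF : ∀ n : ℕ, 1 ≤ n → n ≤ c → (n : F) ≠ 0 := by
    intro n hn1 hn2 h0
    have h0k : (n : k) = 0 := by
      have h1 : algebraMap k F (n : k) = 0 := by rw [map_natCast, h0]
      exact (map_eq_zero_iff _ (algebraMap k F).injective).mp h1
    have hdvd : ringChar k ∣ n := (ringChar.spec k n).mp h0k
    rcases hchar with h | h
    · rw [h] at hdvd
      have := Nat.eq_zero_of_zero_dvd hdvd
      omega
    · have hle : ringChar k ≤ n := Nat.le_of_dvd (by omega) hdvd
      omega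
  -- the generators are separable
  have hgen : ∀ j, IsSeparable F (algebraMap B K (Ideal.Quotient.mk r (X j))) := by
    intro j
    obtain ⟨N, hNc, κ, hκ, hrel⟩ := hcompat j
    choose κ' hκ' using hκ
    let coef : ℕ → F := fun b => ⟨∑ a ∈ Finset.range (N - b + 1),
      algebraMap k K (κ' a b) * L ^ a, by
        apply sum_mem
        intro a _
        exact mul_mem (F.algebraMap_mem _) (pow_mem hLF _)⟩
    let g : Polynomial F := ∑ b ∈ Finset.range N, Polynomial.C (coef b) * Polynomial.X ^ b
    have hg : g.degree < (N : WithBot ℕ) := by
      rw [← Polynomial.mem_degreeLT]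
      apply sum_mem
      intro b hb
      rw [Polynomial.mem_degreeLT]
      refine lt_of_le_of_lt (Polynomial.degree_C_mul_X_pow_le _ _) ?_
      exact_mod_cast Finset.mem_range.mp hb
    refine C7.sep_of_deg c hcF _ (Polynomial.X ^ N - g) (Polynomial.monic_X_pow_sub hg) ?_ ?_
    · have h1 : (Polynomial.X ^ N - g).natDegree ≤ N := by
        refine (Polynomial.natDegree_sub_le _ _).trans ?_
        rw [Polynomial.natDegree_X_pow]
        refine max_le le_rfl ?_
        exact Polynomial.natDegree_le_of_degree_le hg.le
      exact h1.trans hNc
    · rw [map_sub, map_pow, Polynomial.aeval_X, map_sum, sub_eq_zero]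
      have h2 := congrArg (algebraMap B K) hrel
      rw [map_pow, map_sum] at h2
      rw [h2]
      apply Finset.sum_congr rfl
      intro b _
      rw [map_sum, map_mul, map_pow, Polynomial.aeval_X, Polynomial.aeval_C]
      change _ = (∑ a ∈ Finset.range (N - b + 1), algebraMap k K (κ' a b) * L ^ a) * _
      rw [Finset.sum_mul]
      apply Finset.sum_congr rfl
      intro a _
      rw [map_mul, map_mul, map_pow, map_pow, ← hκ' a b, ← IsScalarTower.algebraMap_apply]
  have htop : IntermediateField.adjoin F
      (Set.range fun j => algebraMap B K (Ideal.Quotient.mk r (X j))) = ⊤ := by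
    rw [eq_top_iff]
    intro z _
    have hmem : ∀ P : MvPolynomial (Fin ν) k, algebraMap B K (Ideal.Quotient.mk r P) ∈
        IntermediateField.adjoin F
          (Set.range fun j => algebraMap B K (Ideal.Quotient.mk r (X j))) := by
      intro P
      induction P using MvPolynomial.induction_on with
      | C a =>
        have h1 : algebraMap B K (Ideal.Quotient.mk r (C a)) = algebraMap F K (algebraMap k F a) := by
          rw [← IsScalarTower.algebraMap_apply k F K, IsScalarTower.algebraMap_apply k B K]
          rfl
        rw [h1]
        exact IntermediateField.algebraMap_mem _ _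
      | add p q hp hq =>
        rw [map_add, map_add]
        exact add_mem hp hq
      | mul_X p j hp =>
        rw [map_mul, map_mul]
        exact mul_mem hp (IntermediateField.subset_adjoin F _ ⟨j, rfl⟩)
    obtain ⟨a, b, _, rfl⟩ := IsFractionRing.div_surjective (A := B) z
    obtain ⟨P, rfl⟩ := Ideal.Quotient.mk_surjective a
    obtain ⟨Q, rfl⟩ := Ideal.Quotient.mk_surjective b
    exact div_mem (hmem P) (hmem Q)
  have hsep : Algebra.IsSeparable F K := by
    have h1 : Algebra.IsSeparable F (IntermediateField.adjoin F
        (Set.range fun j => algebraMap B K (Ideal.Quotient.mk r (X j)))) := by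
      rw [IntermediateField.isSeparable_adjoin_iff_isSeparable]
      rintro _ ⟨j, rfl⟩
      exact hgen j
    rw [htop] at h1
    exact (AlgEquiv.Algebra.isSeparable_iff (IntermediateField.topEquiv (F := F) (E := K))).mp h1
  exact C7.exists_der L htL hsep

end GZ
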