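import Pool.Agent.GZ.HilbLem

/-!
# GZ row GeoComp: the geometric components of a curve
-/

namespace GZ

open MvPolynomial Filter

universe u

theorem geoComp : GeoCompStmt.{u} := by
  classical
  intro k _ n d q hq
  have hfin : (geomIdeal q).minimalPrimes.Finite :=
    (geomIdeal q).finite_minimalPrimes_of_isNoetherianRing
  let S := hfin.toFinset
  let Q : Fin S.card → Ideal (MvPolynomial (Fin n) (AlgebraicClosure k)) :=
    fun i => (S.equivFin.symm i : Ideal (MvPolynomial (Fin n) (AlgebraicClosure k)))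
  have hQmem : ∀ i, Q i ∈ (geomIdeal q).minimalPrimes := fun i =>
    hfin.mem_toFinset.mp (S.equivFin.symm i).2
  have hQinj : Function.Injective Q := by
    intro i j h
    exact S.equivFin.symm.injective (Subtype.ext h)
  have hQsurj : ∀ J ∈ (geomIdeal q).minimalPrimes, ∃ i, Q i = J := by
    intro J hJ
    refine ⟨S.equivFin ⟨J, hfin.mem_toFinset.mpr hJ⟩, ?_⟩
    simp [Q]
  have hQprime : ∀ i, (Q i).IsPrime := fun i => (hQmem i).1.1
  have hQle : ∀ i, geomIdeal q ≤ Q i := fun i => (hQmem i).1.2
  have hinf : ⨅ i, Q i = geomIdeal q := by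
    have h1 : sInf (geomIdeal q).minimalPrimes = (geomIdeal q).radical :=
      Ideal.sInf_minimalPrimes
    have h2 : (geomIdeal q).radical = geomIdeal q := Ideal.radical_idem _
    rw [← h2, ← h1]
    refine le_antisymm (le_sInf fun J hJ => ?_) (le_iInf fun i => sInf_le (hQmem i))
    obtain ⟨i, rfl⟩ := hQsurj J hJ
    exact iInf_le _ i
  have he : ∀ i, ∃ e, e ∉ Q i ∧ ∀ j, j ≠ i → e ∈ Q j := by
    intro i
    by_contra hcon
    push Not at hcon
    have h1 : (Finset.univ.erase i).inf Q ≤ Q i := by
      intro x hx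
      by_contra hxi
      obtain ⟨j, hj, hj2⟩ := hcon x hxi
      exact hj2 ((Finset.inf_le (f := Q) (Finset.mem_erase.mpr ⟨hj, Finset.mem_univ j⟩)) hx)
    rw [(hQprime i).inf_le'] at h1
    obtain ⟨j, hj, hj2⟩ := h1
    have h3 : Q i ≤ Q j := (hQmem i).2 ⟨hQprime j, hQle j⟩ hj2
    exact (Finset.ne_of_mem_erase hj) (hQinj (le_antisymm hj2 h3))
  choose e he1 he2 using he
  -- contraction
  have hcontr : ∀ i (P : MvPolynomial (Fin n) k),
      MvPolynomial.map (algebraMap k (AlgebraicClosure k)) P ∈ Q i → P ∈ q := by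
    intro i P hP
    by_contra hPq
    have h1 : MvPolynomial.map (algebraMap k (AlgebraicClosure k)) P * e i ∈ geomIdeal q := by
      rw [← hinf, Ideal.mem_iInf]
      intro j
      by_cases hj : j = i
      · subst hj
        exact (Q j).mul_mem_right _ hP
      · exact (Q j).mul_mem_left _ (he2 i j hj)
    exact he1 i (hQle i (HilbLem.mul_mem_geomIdeal hq.1 hPq h1))
  -- infinite quotients
  have hinfq : ∀ i, ¬ Module.Finite (AlgebraicClosure k)
      (MvPolynomial (Fin n) (AlgebraicClosure k) ⧸ Q i) := by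
    intro i hf
    refine HilbLem.not_finite_of_dim hq.2 (HilbLem.finite_of_algebraic _ fun j => ?_)
    -- the class of `X j` is integral over `k`
    have h1 : IsIntegral (AlgebraicClosure k) (Ideal.Quotient.mk (Q i) (X j)) :=
      Algebra.IsIntegral.isIntegral _
    have h2 : IsIntegral k (Ideal.Quotient.mk (Q i) (X j)) := by
      have : Algebra.IsIntegral k (AlgebraicClosure k) := inferInstance
      exact isIntegral_trans (R := k) (A := AlgebraicClosure k) _ h1
    obtain ⟨p, hp1, hp2⟩ := h2
    have h3 : MvPolynomial.map (algebraMap k (AlgebraicClosure k)) (Polynomial.aeval (X j) p)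
        ∈ Q i := by
      rw [← Ideal.Quotient.eq_zero_iff_mem, ← hp2, Polynomial.aeval_def, Polynomial.hom_eval₂,
        Polynomial.hom_eval₂, MvPolynomial.map_X]
      congr 1
      refine RingHom.ext fun a => ?_
      simp only [RingHom.comp_apply]
      rw [MvPolynomial.algebraMap_eq, MvPolynomial.map_C,
        IsScalarTower.algebraMap_apply k (AlgebraicClosure k)]
      rfl
    have h4 := hcontr i _ h3
    refine ⟨p.map (algebraMap k (AlgebraicClosure k)), ?_, ?_⟩
    · exact (hp1.map _).ne_zero
    · have h5 := HilbLem.map_mem_geomIdeal h4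
      have h6 : Polynomial.aeval (X j) (p.map (algebraMap k (AlgebraicClosure k)))
          = MvPolynomial.map (algebraMap k (AlgebraicClosure k))
              (Polynomial.aeval (X j : MvPolynomial (Fin n) k) p) := by
        rw [Polynomial.aeval_def, Polynomial.aeval_def, Polynomial.hom_eval₂,
          Polynomial.eval₂_map, MvPolynomial.map_X]
        congr 1
        refine RingHom.ext fun a => ?_
        simp only [RingHom.comp_apply]
        rw [MvPolynomial.algebraMap_eq, MvPolynomial.algebraMap_eq, MvPolynomial.map_C]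
      rw [h6]
      exact h5
  have hlow : ∀ i t, t + 1 ≤ hilb (Q i) t := fun i t =>
    HilbLem.succ_le_hilb (Q i) (hQprime i).ne_top (hinfq i) t
  refine ⟨S.card, Q, ?_, fun i => ⟨hQprime i, ?_, ?_⟩, hinf⟩
  · -- the number of components
    obtain ⟨c, hc⟩ : ∃ c, ∀ i, (e i).totalDegree ≤ c :=
      ⟨Finset.univ.sup fun i => (e i).totalDegree, fun i =>
        Finset.le_sup (f := fun i => (e i).totalDegree) (Finset.mem_univ i)⟩
    have h1 : ∀ t, S.card * t ≤ hilb (geomIdeal q) (t + c) := by
      intro t
      refine le_trans ?_ (HilbLem.sum_hilb_le (geomIdeal q) Q hQprime hinf e he1 he2 c hc t)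
      calc S.card * t = ∑ _i : Fin S.card, t := by simp
        _ ≤ _ := Finset.sum_le_sum fun i _ => (Nat.le_succ t).trans (hlow i t)
    by_contra hcon
    push Not at hcon
    have hS : (d : ℝ) + 1 ≤ S.card := by exact_mod_cast hcon
    obtain ⟨T, hT⟩ := Filter.eventually_atTop.mp (hq.2.2 (1 / 2) (by norm_num))
    obtain ⟨m, hm⟩ := exists_nat_gt (max (T : ℝ) (2 * ((d : ℝ) + 1 / 2) * c))
    have hm1 : (T : ℝ) < m := lt_of_le_of_lt (le_max_left _ _) hm
    have hm2 : 2 * ((d : ℝ) + 1 / 2) * c < m := lt_of_le_of_lt (le_max_right _ _) hm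
    have hTm : T ≤ m + c := by
      have h3 : T < m := by exact_mod_cast hm1
      omega
    have h5 := hT (m + c) hTm
    rw [Nat.factorial_one, Nat.cast_one, one_mul, pow_one] at h5
    have h6 : ((S.card * m : ℕ) : ℝ) ≤ (hilb (geomIdeal q) (m + c) : ℝ) := by
      exact_mod_cast h1 m
    have h7 : ((S.card : ℝ) * m) ≤ ((d : ℝ) + 1 / 2) * (m + c) := by
      have := h6.trans h5
      push_cast at this
      exact this
    have h8 : ((d : ℝ) + 1) * m ≤ S.card * m := mul_le_mul_of_nonneg_right hS (Nat.cast_nonneg m)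
    nlinarith
  · refine ⟨1, one_pos, Filter.Eventually.of_forall fun t => ?_⟩
    rw [pow_one, one_mul]
    exact_mod_cast (Nat.le_succ t).trans (hlow i t)
  · intro ε hε
    filter_upwards [hq.2.2 ε hε] with t ht
    refine le_trans ?_ ht
    have := HilbLem.hilb_anti (hQle i) t
    gcongr

end GZ
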