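import Pool.Agent.GZ.Assembly
import Pool.Agent.GZ.A9b
import Pool.Agent.GZ.B8
import Pool.Agent.GZ.B9
import Pool.Agent.GZ.C5
import Pool.Agent.GZ.C7
import Pool.Agent.GZ.GeoComp

namespace GZ

universe u

/-- Assembly over the rows A9 and Good. -/
theorem assembly2 (h9 : A9Stmt.{u}) (hGood : GoodStmt.{u}) : FinalStmt.{u} :=
  assembly h9 (a9b a8b a8c) b8 (B9_proof up c6 c7) (c5 c3) hGood

end GZ
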