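import Pool.Agent.GZ.Rows

/-! # GZ, row B4: a small polynomial vanishing on a rich subfamily -/

namespace GZ

open MvPolynomial Filter

universe u

theorem b4 (h0 : B0Stmt.{u}) (h1 : B1Stmt.{u}) (h2 : B2Stmt.{u}) (h3 : B3Stmt.{u}) :
    B4Stmt.{u} := by
  classical
  intro U ν c K hν k _ S M hsc Γ hR hcard
  have hM := hsc.large
  -- step 1: the sequence `f`
  obtain ⟨f, hf⟩ := h1 U hsc.nonprincipal (fun i => MvPolynomial (Fin ν) (k i))
    (fun m i f => f ≠ 0 ∧ m * f.totalDegree ≤ M i ∧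
      ∃ Γb : Finset (S i).ι, m * Γb.card ≤ M i ^ (ν - 1) ∧ ∀ γ ∈ Γ i, γ ∉ Γb → f ∈ (S i).r γ)
    (by
      rintro m i f ⟨hf0, hfd, Γb, hb1, hb2⟩
      refine ⟨hf0, le_trans (Nat.mul_le_mul_right _ (Nat.le_succ m)) hfd, Γb,
        le_trans (Nat.mul_le_mul_right _ (Nat.le_succ m)) hb1, hb2⟩)
    (by
      intro m
      obtain ⟨j₀, M₀, hB⟩ := h3 ν c K m hν
      filter_upwards [hM M₀, hcard, hR j₀] with i hi1 hi2 hi3
      exact hB (k i) (S i) (Γ i) (M i) hi1 hi2 hi3)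
  have hsmall : Small U M f := fun m => (hf m).mono fun i h => h.2.1
  have hf0 : ∀ᶠ i in (U : Filter ℕ), f i ≠ 0 := (hf 0).mono fun i h => h.1
  -- step 2: the bad family
  let Γb : ∀ i, Finset (S i).ι := fun i => (Γ i).filter (fun γ => f i ∉ (S i).r γ)
  have hΓb : ∀ i γ, γ ∈ Γb i ↔ γ ∈ Γ i ∧ f i ∉ (S i).r γ := fun i γ => Finset.mem_filter
  by_cases hex : ∀ᶠ i in (U : Filter ℕ), ∃ γ ∈ Γ i, f i ∉ (S i).r γ
  · have hRb : Rich U S M Γb := h0 U ν c k S M hsc Γ hR f hsmall hex Γb hΓb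
    have hcb : ∀ m : ℕ, ∀ᶠ i in (U : Filter ℕ), m * (Γb i).card ≤ M i ^ (ν - 1) := by
      intro m
      filter_upwards [hf m] with i hi
      obtain ⟨-, -, Γc, hc1, hc2⟩ := hi
      refine le_trans (Nat.mul_le_mul_left _ (Finset.card_le_card ?_)) hc1
      intro γ hγ
      by_contra hγc
      exact ((hΓb i γ).1 hγ).2 (hc2 γ ((hΓb i γ).1 hγ).1 hγc)
    obtain ⟨g, hg⟩ := h1 U hsc.nonprincipal (fun i => MvPolynomial (Fin ν) (k i))
      (fun m i g => g ≠ 0 ∧ m * g.totalDegree ≤ M i ∧ ∀ γ ∈ Γb i, g ∈ (S i).r γ)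
      (by
        rintro m i g ⟨hg0, hgd, hg1⟩
        exact ⟨hg0, le_trans (Nat.mul_le_mul_right _ (Nat.le_succ m)) hgd, hg1⟩)
      (by
        intro m
        obtain ⟨m', M₀, hB⟩ := h2 ν c m hν
        filter_upwards [hM M₀, hcb m'] with i hi1 hi2
        exact hB (k i) (S i) (Γb i) (M i) hi1 hi2)
    exact ⟨Γb, g, fun i => Finset.filter_subset _ _, hRb, fun m => (hg m).mono fun i h => h.2.1,
      (hg 0).mono fun i h => ⟨h.1, h.2.2⟩⟩
  · refine ⟨Γ, f, fun i => Finset.Subset.refl _, hR, hsmall, ?_⟩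
    have hex' : ∀ᶠ i in (U : Filter ℕ), ¬ ∃ γ ∈ Γ i, f i ∉ (S i).r γ :=
      Ultrafilter.eventually_not.2 hex
    filter_upwards [hf0, hex'] with i hi1 hi2
    refine ⟨hi1, fun γ hγ => ?_⟩
    by_contra hn
    exact hi2 ⟨γ, hγ, hn⟩

end GZ
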