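import Mathlib

/-!
# GZ: definitions for the theorem on two-rich points of bounded-degree curves in `k ^ n`
-/

namespace GZ

open MvPolynomial Filter

universe u

/-! ### Hilbert functions, dimension and degree -/

/-- The (affine) Hilbert function of the ideal `I` of `k[x_1, ..., x_n]`: the dimension over `k` of the
space of polynomials of total degree at most `t`, taken modulo `I`. -/
noncomputable def hilb {k : Type u} [Field k] {n : ℕ} (I : Ideal (MvPolynomial (Fin n) k))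
    (t : ℕ) : ℕ :=
  Module.finrank k ((restrictTotalDegree (Fin n) k t).map (Ideal.Quotient.mkₐ k I).toLinearMap)

/-- `I` has dimension `m` and degree at most `D`: the Hilbert function grows like `t ^ m`, and
`m! * hilb I t / t ^ m` has limit superior at most `D`. -/
def HasDimDeg {k : Type u} [Field k] {n : ℕ} (I : Ideal (MvPolynomial (Fin n) k))
    (m D : ℕ) : Prop :=
  (∃ c : ℝ, 0 < c ∧ ∀ᶠ t : ℕ in atTop, c * (t : ℝ) ^ m ≤ (hilb I t : ℝ)) ∧
  (∀ ε : ℝ, 0 < ε → ∀ᶠ t : ℕ in atTop,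
    (m.factorial : ℝ) * (hilb I t : ℝ) ≤ ((D : ℝ) + ε) * (t : ℝ) ^ m)

/-- The radical of the extension of `I` to the algebraic closure of `k`: the vanishing ideal of the
zero set of `I` over the algebraic closure. -/
noncomputable def geomIdeal {k : Type u} [Field k] {n : ℕ} (I : Ideal (MvPolynomial (Fin n) k)) :
    Ideal (MvPolynomial (Fin n) (AlgebraicClosure k)) :=
  (I.map (MvPolynomial.map (algebraMap k (AlgebraicClosure k)))).radical

/-- An irreducible algebraic curve of degree at most `d` in `k ^ n`, given by its prime ideal;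
dimension and degree are computed over the algebraic closure. -/
def IsCurve {k : Type u} [Field k] {n : ℕ} (q : Ideal (MvPolynomial (Fin n) k)) (d : ℕ) : Prop :=
  q.IsPrime ∧ HasDimDeg (geomIdeal q) 1 d

/-- The points of `k ^ n` on the zero set of `I`. -/
def pts {k : Type u} [Field k] {n : ℕ} (I : Ideal (MvPolynomial (Fin n) k)) : Set (Fin n → k) :=
  {x | ∀ P ∈ I, eval x P = 0}

/-- The points of `k ^ n` lying on at least two members of `Γ`. -/
def twoRich {k : Type u} [Field k] {n : ℕ} (Γ : Finset (Ideal (MvPolynomial (Fin n) k))) :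
    Set (Fin n → k) :=
  {x | ∃ q ∈ Γ, ∃ q' ∈ Γ, q ≠ q' ∧ x ∈ pts q ∧ x ∈ pts q'}

/-! ### Compat relations, good curves -/

/-- `z` satisfies over `l` a monic relation of degree `N` whose total degree in `(l, z)` is `N`, with
coefficients in `K`. -/
def Compat {A : Type u} [CommRing A] (K : Set A) (l z : A) (N : ℕ) : Prop :=
  ∃ κ : ℕ → ℕ → A, (∀ a b, κ a b ∈ K) ∧
    z ^ N = ∑ b ∈ Finset.range N, ∑ a ∈ Finset.range (N - b + 1), κ a b * l ^ a * z ^ b

/-- The interface through which curves are used. -/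
structure Good {k : Type u} [Field k] {n : ℕ} (c : ℕ)
    (q : Ideal (MvPolynomial (Fin n) k)) : Prop where
  prime : q.IsPrime
  trans : ∃ j : Fin n, ∀ P : Polynomial k, P ≠ 0 →
    Polynomial.aeval (X j : MvPolynomial (Fin n) k) P ∉ q
  bez : ∀ P : MvPolynomial (Fin n) k, P ∉ q →
    {x | x ∈ pts q ∧ eval x P = 0}.encard ≤ ((c * P.totalDegree : ℕ) : ℕ∞)
  rel : ∀ w z : MvPolynomial (Fin n) k, w.totalDegree ≤ 1 → z.totalDegree ≤ 1 →
    ∃ g : MvPolynomial (Fin 2) k, g ≠ 0 ∧ g.totalDegree ≤ c ∧ aeval ![w, z] g ∈ q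

/-! ### Differential algebra -/

/-- Coefficientwise action of a derivation on polynomials. -/
noncomputable def nabla {F : Type u} [Field F] {ν : ℕ} (D : Derivation ℤ F F)
    (G : MvPolynomial (Fin ν) F) : MvPolynomial (Fin ν) F :=
  ∑ α ∈ G.support, monomial α (D (G.coeff α))

/-- The linear form `∑ s_j y_j`. -/
def lform {E : Type u} [CommRing E] {ν : ℕ} (s : Fin ν → ℕ) (y : Fin ν → E) : E :=
  ∑ j, (s j : E) * y j

/-- Straight derivations. -/
def Straight {E : Type u} [Field E] {ν : ℕ} (y : Fin ν → E) (D : Derivation ℤ E E) : Prop :=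
  ∃ s : Fin ν → ℕ, D (lform s y) = 1 ∧
    ∀ j, ∃ N, Compat {x | D x = 0} (lform s y) (y j) N

/-- The monomial `y ^ α`. -/
def mon {E : Type u} [CommRing E] {ν : ℕ} (y : Fin ν → E) (α : Fin ν →₀ ℕ) : E :=
  ∏ j, y j ^ α j

/-- `∑ g_α A(y ^ α)`. -/
noncomputable def pair {F : Type u} [Field F] {ν : ℕ} (y : Fin ν → F)
    (G : MvPolynomial (Fin ν) F) (A : Module.End ℤ F) : F :=
  ∑ α ∈ G.support, G.coeff α * A (mon y α)

/-- The span of all products of at most `q` elements of `T`. -/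
def Dq {F : Type u} [Field F] (T : Submodule F (Derivation ℤ F F)) (q : ℕ) :
    Submodule F (Module.End ℤ F) :=
  Submodule.span F {A | ∃ l : List (Derivation ℤ F F), l.length ≤ q ∧ (∀ X ∈ l, X ∈ T) ∧
    A = (l.map (fun X => (X.toLinearMap : Module.End ℤ F))).prod}

/-- The words attached to a list of derivations: `W [] = {1}`, `W (X :: s) = {A * X ^ k}`. -/
def W {F : Type u} [Field F] : List (Derivation ℤ F F) → Set (Module.End ℤ F)
  | [] => {1}
  | X :: s => {B | ∃ A ∈ W s, ∃ k : ℕ, B = A * (X.toLinearMap : Module.End ℤ F) ^ k}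

/-- A Lie algebra of derivations which is injective on `y`. -/
structure LieT {F : Type u} [Field F] {ν : ℕ} (y : Fin ν → F)
    (T : Submodule F (Derivation ℤ F F)) : Prop where
  bracket : ∀ X ∈ T, ∀ Y ∈ T, ⁅X, Y⁆ ∈ T
  inj : ∀ X ∈ T, (∀ j, X (y j) = 0) → X = 0

/-- `D` restricted to `F` lies in the `E`-span of `T`. -/
def InSpan {F E : Type u} [Field F] [Field E] [Algebra F E]
    (T : Submodule F (Derivation ℤ F F)) (D : Derivation ℤ E E) : Prop :=
  ∃ (N : ℕ) (e : Fin N → E) (Xs : Fin N → Derivation ℤ F F), (∀ b, Xs b ∈ T) ∧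
    ∀ a : F, D (algebraMap F E a) = ∑ b, e b * algebraMap F E (Xs b a)

/-! ### Curve systems, richness -/

/-- An abstract system of curves and points at level `ν`. -/
structure CurveSys (k : Type u) [Field k] (ν c : ℕ) where
  ι : Type u
  Pt : Type u
  pos : Pt → Fin ν → k
  r : ι → Ideal (MvPolynomial (Fin ν) k)
  inc : Pt → ι → Prop
  prime : ∀ γ, (r γ).IsPrime
  vanish : ∀ γ x P, P ∈ r γ → inc x γ → eval (pos x) P = 0
  bez : ∀ γ P, P ∉ r γ →
    {x | inc x γ ∧ eval (pos x) P = 0}.encard ≤ ((c * P.totalDegree : ℕ) : ℕ∞)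
  meet : ∀ γ γ', γ ≠ γ' → {x | inc x γ ∧ inc x γ'}.encard ≤ (c : ℕ∞)
  straight : ∀ γ, ∃ s : Fin ν → ℕ, (∀ j, s j ≤ c) ∧
    (∀ P : Polynomial k, P ≠ 0 →
      Polynomial.aeval (lform s (X : Fin ν → MvPolynomial (Fin ν) k)) P ∉ r γ) ∧
    ∀ j, ∃ N, N ≤ c ∧
      Compat (Set.range (algebraMap k (MvPolynomial (Fin ν) k ⧸ r γ)))
        (Ideal.Quotient.mk (r γ) (lform s (X : Fin ν → MvPolynomial (Fin ν) k)))
        (Ideal.Quotient.mk (r γ) (X j)) N

/-- The points of `γ` on another member of `Γ`. -/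
def richPts {k : Type u} [Field k] {ν c : ℕ} (S : CurveSys k ν c) (Γ : Finset S.ι) (γ : S.ι) :
    Set S.Pt :=
  {x | S.inc x γ ∧ ∃ γ' ∈ Γ, γ' ≠ γ ∧ S.inc x γ'}

/-- `Γ` is nonempty and each of its members has at least `B` rich points. -/
def RichAt {k : Type u} [Field k] {ν c : ℕ} (S : CurveSys k ν c) (Γ : Finset S.ι) (B : ℕ) : Prop :=
  Γ.Nonempty ∧ ∀ γ ∈ Γ, (B : ℕ∞) ≤ (richPts S Γ γ).encard

/-- Richness of a sequence of finite families. -/
def Rich (U : Ultrafilter ℕ) {ν c : ℕ} {k : ℕ → Type u} [∀ i, Field (k i)]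
    (S : ∀ i, CurveSys (k i) ν c) (M : ℕ → ℕ) (Γ : ∀ i, Finset (S i).ι) : Prop :=
  ∀ m : ℕ, ∀ᶠ i in (U : Filter ℕ), RichAt (S i) (Γ i) (m * M i)

/-- Sequences of polynomials of degree `o(M)`. -/
def Small (U : Ultrafilter ℕ) {ν : ℕ} {k : ℕ → Type u} [∀ i, Field (k i)] (M : ℕ → ℕ)
    (P : ∀ i, MvPolynomial (Fin ν) (k i)) : Prop :=
  ∀ m : ℕ, ∀ᶠ i in (U : Filter ℕ), m * (P i).totalDegree ≤ M i

/-- Standing hypotheses on `M` and the characteristics. -/
structure Scale (U : Ultrafilter ℕ) (k : ℕ → Type u) [∀ i, Field (k i)] (M : ℕ → ℕ) : Prop where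
  large : ∀ m : ℕ, ∀ᶠ i in (U : Filter ℕ), m ≤ M i
  char : ∀ᶠ i in (U : Filter ℕ), ringChar (k i) = 0 ∨ M i ≤ ringChar (k i)
  nonprincipal : ∀ m : ℕ, ∀ᶠ i in (U : Filter ℕ), m ≤ i

/-! ### Ultraproducts -/

/-- The ideal of sequences vanishing `U`-almost everywhere. -/
def uIdeal (U : Ultrafilter ℕ) (K : ℕ → Type u) [∀ i, CommRing (K i)] : Ideal (∀ i, K i) where
  carrier := {a | ∀ᶠ i in (U : Filter ℕ), a i = 0}
  add_mem' := by
    intro a b ha hb
    filter_upwards [ha, hb] with i h1 h2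
    simp [h1, h2]
  zero_mem' := by simp
  smul_mem' := by
    intro c a ha
    filter_upwards [ha] with i h1
    simp [h1]

/-- The ultraproduct. -/
abbrev UProd (U : Ultrafilter ℕ) (K : ℕ → Type u) [∀ i, CommRing (K i)] : Type u :=
  (∀ i, K i) ⧸ uIdeal U K

/-! ### Noether normalisation data -/

/-- `R / J` is free over `k[y]` on `b_1, ..., b_N`, with degree control. -/
def NormData {k : Type u} [Field k] {n ν : ℕ} (J : Ideal (MvPolynomial (Fin n) k))
    (y : Fin ν → MvPolynomial (Fin n) k) (N : ℕ) : Prop :=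
  (∀ j, (y j).totalDegree ≤ 1) ∧
  ∃ b : Fin N → MvPolynomial (Fin n) k,
    (∀ t : ℕ, ∀ P : MvPolynomial (Fin n) k, P.totalDegree ≤ t →
      ∃ Q : Fin N → MvPolynomial (Fin ν) k, (∀ i, (Q i).totalDegree ≤ t) ∧
        P - ∑ i, b i * aeval y (Q i) ∈ J) ∧
    (∀ Q : Fin N → MvPolynomial (Fin ν) k, ∑ i, b i * aeval y (Q i) ∈ J → ∀ i, Q i = 0)

end GZ
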