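import Pool.Agent.GZ.Rows

namespace GZ

open MvPolynomial Filter

universe u

/-- The points of `q` on another member of `Δ`. -/
def rp {k : Type u} [Field k] {n : ℕ} (Δ : Finset (Ideal (MvPolynomial (Fin n) k)))
    (q : Ideal (MvPolynomial (Fin n) k)) : Set (Fin n → k) :=
  {x | x ∈ pts q ∧ ∃ q' ∈ Δ, q' ≠ q ∧ x ∈ pts q'}

theorem prune {k : Type u} [Field k] {n : ℕ} (B : ℕ) :
    ∀ (N : ℕ) (Γ : Finset (Ideal (MvPolynomial (Fin n) k))), Γ.card = N →
    ((B * Γ.card : ℕ) : ℕ∞) < (twoRich Γ).encard →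
    ∃ Δ ⊆ Γ, Δ.Nonempty ∧ ∀ q ∈ Δ, (B : ℕ∞) ≤ (rp Δ q).encard := by
  classical
  intro N
  induction N with
  | zero =>
    intro Γ hN hlt
    have h0 : Γ = ∅ := Finset.card_eq_zero.1 hN
    subst h0
    have h1 : twoRich (∅ : Finset (Ideal (MvPolynomial (Fin n) k))) = ∅ := by
      ext x
      simp [twoRich]
    rw [h1] at hlt
    simp at hlt
  | succ N ih =>
    intro Γ hN hlt
    by_cases hall : ∀ q ∈ Γ, (B : ℕ∞) ≤ (rp Γ q).encard
    · refine ⟨Γ, subset_rfl, ?_, hall⟩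
      rw [← Finset.card_pos]
      omega
    · push Not at hall
      obtain ⟨q, hq, hlt2⟩ := hall
      have hcard : (Γ.erase q).card = N := by
        rw [Finset.card_erase_of_mem hq, hN]
        rfl
      have hsub : twoRich Γ ⊆ twoRich (Γ.erase q) ∪ rp Γ q := by
        rintro x ⟨q1, h1, q2, h2, hne, hx1, hx2⟩
        by_cases e1 : q1 = q
        · subst e1
          exact Or.inr ⟨hx1, q2, h2, hne.symm, hx2⟩
        · by_cases e2 : q2 = q
          · subst e2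
            exact Or.inr ⟨hx2, q1, h1, e1, hx1⟩
          · exact Or.inl ⟨q1, Finset.mem_erase.2 ⟨e1, h1⟩, q2, Finset.mem_erase.2 ⟨e2, h2⟩, hne,
              hx1, hx2⟩
      have h3 : (twoRich Γ).encard ≤ (twoRich (Γ.erase q)).encard + (B : ℕ∞) :=
        (Set.encard_le_encard hsub).trans ((Set.encard_union_le _ _).trans (by gcongr))
      have h4 : ((B * (Γ.erase q).card : ℕ) : ℕ∞) < (twoRich (Γ.erase q)).encard := by
        have h5 : ((B * (Γ.erase q).card : ℕ) : ℕ∞) + (B : ℕ∞) <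
            (twoRich (Γ.erase q)).encard + (B : ℕ∞) := by
          refine lt_of_lt_of_le ?_ h3
          have : ((B * (Γ.erase q).card : ℕ) : ℕ∞) + (B : ℕ∞) = ((B * Γ.card : ℕ) : ℕ∞) := by
            rw [hcard, hN]
            push_cast
            ring
          rw [this]
          exact hlt
        by_contra hcon
        exact absurd h5 (not_lt.2 (by gcongr; exact not_lt.1 hcon))
      obtain ⟨Δ, hΔ, h6, h7⟩ := ih (Γ.erase q) hcard h4
      exact ⟨Δ, hΔ.trans (Finset.erase_subset _ _), h6, h7⟩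

theorem rp_le {k : Type u} [Field k] {n : ℕ} (C5 : ℕ)
    (Δ : Finset (Ideal (MvPolynomial (Fin n) k))) (q : Ideal (MvPolynomial (Fin n) k))
    (h : ∀ q' ∈ Δ, q' ≠ q → (pts q ∩ pts q').encard ≤ (C5 : ℕ∞)) :
    (rp Δ q).encard ≤ ((Δ.card * C5 : ℕ) : ℕ∞) := by
  classical
  have hsub : rp Δ q ⊆ ⋃ q' ∈ Δ.filter (· ≠ q), (pts q ∩ pts q') := by
    rintro x ⟨hx, q', hq', hne, hx'⟩
    simp only [Set.mem_iUnion]
    exact ⟨q', Finset.mem_filter.2 ⟨hq', hne⟩, hx, hx'⟩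
  calc (rp Δ q).encard ≤ (⋃ q' ∈ Δ.filter (· ≠ q), (pts q ∩ pts q')).encard :=
        Set.encard_le_encard hsub
    _ ≤ ∑ q' ∈ Δ.filter (· ≠ q), (pts q ∩ pts q').encard :=
        Finset.set_encard_biUnion_le _ _
    _ ≤ ∑ q' ∈ Δ.filter (· ≠ q), (C5 : ℕ∞) := by
        refine Finset.sum_le_sum fun q' hq' => ?_
        exact h q' (Finset.mem_filter.1 hq').1 (Finset.mem_filter.1 hq').2
    _ = (((Δ.filter (· ≠ q)).card * C5 : ℕ) : ℕ∞) := by
        rw [Finset.sum_const]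
        simp
    _ ≤ ((Δ.card * C5 : ℕ) : ℕ∞) := by
        have : (Δ.filter (· ≠ q)).card * C5 ≤ Δ.card * C5 :=
          Nat.mul_le_mul_right _ (Finset.card_filter_le _ _)
        exact_mod_cast this

theorem twoRich_le {k : Type u} [Field k] {n : ℕ} (C5 : ℕ)
    (Γ : Finset (Ideal (MvPolynomial (Fin n) k)))
    (h : ∀ q ∈ Γ, ∀ q' ∈ Γ, q' ≠ q → (pts q ∩ pts q').encard ≤ (C5 : ℕ∞)) :
    (twoRich Γ).encard ≤ ((Γ.card * (Γ.card * C5) : ℕ) : ℕ∞) := by
  classical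
  have hsub : twoRich Γ ⊆ ⋃ q ∈ Γ, rp Γ q := by
    rintro x ⟨q1, h1, q2, h2, hne, hx1, hx2⟩
    simp only [Set.mem_iUnion]
    exact ⟨q1, h1, hx1, q2, h2, hne.symm, hx2⟩
  calc (twoRich Γ).encard ≤ (⋃ q ∈ Γ, rp Γ q).encard := Set.encard_le_encard hsub
    _ ≤ ∑ q ∈ Γ, (rp Γ q).encard := Finset.set_encard_biUnion_le _ _
    _ ≤ ∑ q ∈ Γ, ((Γ.card * C5 : ℕ) : ℕ∞) :=
        Finset.sum_le_sum fun q hq => rp_le C5 Γ q (h q hq)
    _ = ((Γ.card * (Γ.card * C5) : ℕ) : ℕ∞) := by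
        rw [Finset.sum_const]
        simp

theorem HasDimDeg.mono {k : Type u} [Field k] {n : ℕ} {I : Ideal (MvPolynomial (Fin n) k)}
    {m D D' : ℕ} (h : HasDimDeg I m D) (hD : D ≤ D') : HasDimDeg I m D' := by
  refine ⟨h.1, fun ε hε => ?_⟩
  filter_upwards [h.2 ε hε] with t ht
  refine ht.trans ?_
  have : (D : ℝ) ≤ D' := by exact_mod_cast hD
  gcongr

/-- A family of primes containing `J` is covered by the minimal primes of `J`. -/
theorem card_le_of_minimalPrimes {k : Type u} [Field k] {n : ℕ}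
    (J : Ideal (MvPolynomial (Fin n) k)) (N B : ℕ) (hN : J.minimalPrimes.encard ≤ (N : ℕ∞))
    (Δ : Finset (Ideal (MvPolynomial (Fin n) k))) (hJ : ∀ q ∈ Δ, J ≤ q)
    (hp : ∀ q ∈ Δ, q.IsPrime)
    (hB : ∀ Z ∈ J.minimalPrimes, ∀ Δ' ⊆ Δ, (∀ q ∈ Δ', Z ≤ q) → Δ'.card ≤ B) :
    Δ.card ≤ N * B := by
  classical
  have hfin : J.minimalPrimes.Finite := Set.finite_of_encard_le_coe hN
  have hcov : Δ ⊆ hfin.toFinset.biUnion (fun Z => Δ.filter (fun q => Z ≤ q)) := by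
    intro q hq
    have := hp q hq
    obtain ⟨Z, hZ, hZq⟩ := Ideal.exists_minimalPrimes_le (hJ q hq)
    exact Finset.mem_biUnion.2 ⟨Z, hfin.mem_toFinset.2 hZ, Finset.mem_filter.2 ⟨hq, hZq⟩⟩
  calc Δ.card ≤ (hfin.toFinset.biUnion (fun Z => Δ.filter (fun q => Z ≤ q))).card :=
        Finset.card_le_card hcov
    _ ≤ ∑ Z ∈ hfin.toFinset, (Δ.filter (fun q => Z ≤ q)).card := Finset.card_biUnion_le
    _ ≤ ∑ Z ∈ hfin.toFinset, B := by
        refine Finset.sum_le_sum fun Z hZ => ?_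
        exact hB Z (hfin.mem_toFinset.1 hZ) _ (Finset.filter_subset _ _)
          (fun q hq => (Finset.mem_filter.1 hq).2)
    _ = hfin.toFinset.card * B := by rw [Finset.sum_const, smul_eq_mul]
    _ ≤ N * B := by
        refine Nat.mul_le_mul_right _ ?_
        rw [hfin.encard_eq_coe_toFinset_card] at hN
        exact_mod_cast hN

end GZ
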