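import Pool.Agent.GZ.Rows

namespace GZ

open MvPolynomial Filter

universe u

/-- Dropping the members of a rich family which are separated from the others by the zeros of `P`. -/
theorem rich_drop {k : Type u} [Field k] {ν c : ℕ} (S : CurveSys k ν c) (Γ Γ' : Finset S.ι)
    (P : MvPolynomial (Fin ν) k) (B B' : ℕ) (hne : Γ'.Nonempty) (hsub : ∀ γ ∈ Γ', γ ∈ Γ)
    (hP : ∀ γ ∈ Γ', P ∉ S.r γ)
    (hstep : ∀ γ ∈ Γ', ∀ x, S.inc x γ → eval (S.pos x) P ≠ 0 → ∀ γ' ∈ Γ, γ' ≠ γ →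
      S.inc x γ' → γ' ∈ Γ')
    (hB' : c * P.totalDegree ≤ B') (hR : RichAt S Γ (B + B')) : RichAt S Γ' B := by
  refine ⟨hne, fun γ hγ => ?_⟩
  have h1 := hR.2 γ (hsub γ hγ)
  have h2 : richPts S Γ γ ⊆ richPts S Γ' γ ∪ {x | S.inc x γ ∧ eval (S.pos x) P = 0} := by
    rintro x ⟨hx, γ', hγ', hne', hx'⟩
    by_cases h0 : eval (S.pos x) P = 0
    · exact Or.inr ⟨hx, h0⟩
    · exact Or.inl ⟨hx, γ', hstep γ hγ x hx h0 γ' hγ' hne' hx', hne', hx'⟩
  have h3 := S.bez γ P (hP γ hγ)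
  have h4 : ((B + B' : ℕ) : ℕ∞) ≤ (richPts S Γ' γ).encard + (B' : ℕ∞) := by
    calc ((B + B' : ℕ) : ℕ∞) ≤ (richPts S Γ γ).encard := h1
      _ ≤ (richPts S Γ' γ ∪ {x | S.inc x γ ∧ eval (S.pos x) P = 0}).encard :=
          Set.encard_le_encard h2
      _ ≤ (richPts S Γ' γ).encard + ({x | S.inc x γ ∧ eval (S.pos x) P = 0}).encard :=
          Set.encard_union_le _ _
      _ ≤ (richPts S Γ' γ).encard + (B' : ℕ∞) := by
          gcongr
          exact h3.trans (by exact_mod_cast hB')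
  have h5 : ((B : ℕ) : ℕ∞) + (B' : ℕ∞) ≤ (richPts S Γ' γ).encard + (B' : ℕ∞) := by
    simpa using h4
  exact (ENat.add_le_add_iff_right (ENat.natCast_ne_top B')).1 h5

end GZ
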